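import Pool.Agent.Q283.FS.Lw
import Pool.Agent.Q283.Q3.Bin

/-! The averages of numbers with a joint law; the mean of the law -/

set_option autoImplicit false
set_option linter.all false

open scoped Classical

namespace Q283.FS

open Finset Filter
open Pool.Agent.Y697.PQ (cf cf_pos pm1)
open Pool.Agent.Y703.CQ (c2)

section gen

variable {g : ℕ → ℝ} (hg : HasSum g 1) (hg0 : ∀ r, 0 ≤ g r) (hgm : Summable fun r : ℕ => (r : ℝ) * g r)

/-- the measure of a set -/
noncomputable def ms (g : ℕ → ℝ) (T : Set ℕ) : ℝ := ∑' r : T, g r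

include hg in
theorem ms_hasSum (T : Set ℕ) : HasSum (fun r : ℕ => if r ∈ T then g r else 0) (ms g T) := by
  unfold ms
  rw [tsum_subtype T g]
  have e : T.indicator g = fun r : ℕ => if r ∈ T then g r else 0 := by
    funext r
    by_cases hr : r ∈ T
    · rw [Set.indicator_of_mem hr, if_pos hr]
    · rw [Set.indicator_of_notMem hr, if_neg hr]
  rw [← e]
  exact (hg.summable.indicator T).hasSum

include hg hg0 hgm in
/-- the sum of the tails -/
theorem tails (B : ℕ) : ∑ b ∈ range B, ms g {r | b + 1 ≤ r} ≤ ∑' r : ℕ, (r : ℝ) * g r := by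
  have h1 : HasSum (fun r : ℕ => ∑ b ∈ range B, if b + 1 ≤ r then g r else 0)
      (∑ b ∈ range B, ms g {r | b + 1 ≤ r}) := by
    refine hasSum_sum fun b _ => (ms_hasSum hg {r | b + 1 ≤ r}).congr_fun ?_
    intro r
    by_cases h : b + 1 ≤ r
    · rw [if_pos h]
      exact (if_pos h).symm
    · rw [if_neg h]
      exact (if_neg h).symm
  refine hasSum_le ?_ h1 hgm.hasSum
  intro r
  rw [← sum_filter, sum_const, nsmul_eq_mul]
  refine mul_le_mul_of_nonneg_right ?_ (hg0 r)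
  have h2 : (range B).filter (fun b => b + 1 ≤ r) ⊆ range r := by
    intro b hb
    rw [mem_filter] at hb
    rw [mem_range]
    omega
  have h3 := card_le_card h2
  rw [card_range] at h3
  exact_mod_cast h3

theorem min_sum (r B : ℕ) : min r B = ∑ b ∈ range B, if b + 1 ≤ r then 1 else 0 := by
  rw [← sum_filter, sum_const, smul_eq_mul, mul_one]
  have e : (range B).filter (fun b => b + 1 ≤ r) = range (min r B) := by
    ext b
    rw [mem_filter, mem_range, mem_range]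
    omega
  rw [e, card_range]

include hg hg0 in
theorem ms_mem (T : Set ℕ) : 0 ≤ ms g T ∧ ms g T ≤ 1 := by
  refine ⟨(ms_hasSum hg T).nonneg fun r => ?_, hasSum_le (fun r => ?_) (ms_hasSum hg T) hg⟩
  · split_ifs
    · exact hg0 r
    · exact le_rfl
  · split_ifs
    · exact le_rfl
    · exact hg0 r

include hg hg0 hgm in
/-- **The averages of the ranks in the sequences.** -/
theorem avg {α : Type} {S : ℕ → Finset α} {ρ : ℕ → α → ℕ} (hne : ∀ᶠ X in atTop, (S X).Nonempty)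
    (h : Q283.Bin.Law S ρ g) (R : ℕ → α → ℕ) (hR : ∀ X, ∀ a ∈ S X, ∀ k, R k a ≤ 2 * ρ k a)
    (B n : ℕ) (hB : 0 < B) (hn : 0 < n) {ε δ : ℝ} (hε : 0 < ε) (hδ : 0 < δ) :
    ∀ᶠ X : ℕ in atTop, (((S X).filter fun a => 2 * (∑' r : ℕ, (r : ℝ) * g r) + ε ≤
      (∑ k ∈ range n, ((min (R k a) (2 * B) : ℕ) : ℝ)) / n).card : ℝ) / ((S X).card : ℝ) ≤
      2 * B * Real.exp (-(ε ^ 2 * n / (16 * B ^ 2))) + δ := by
  have hB' : (0 : ℝ) < B := by exact_mod_cast hB
  have hn' : (0 : ℝ) < n := by exact_mod_cast hn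
  obtain ⟨η, hη⟩ : ∃ η : ℝ, η = ε / (2 * B) := ⟨_, rfl⟩
  have hη0 : 0 < η := by rw [hη]; positivity
  have hms := ms_mem hg hg0
  have hl : ∀ b : ℕ, ∃ l : ℝ, l ≤ 2 * Real.exp (-(η ^ 2 * n / 4)) ∧ Tendsto (fun X : ℕ =>
      (((S X).filter fun a => η ≤ |(((range n).filter fun k => b + 1 ≤ ρ k a).card : ℝ) / n -
        ms g {r | b + 1 ≤ r}|).card : ℝ) / ((S X).card : ℝ)) atTop (nhds l) := by
    intro b
    obtain ⟨l, h1, h2⟩ := Q283.Bin.lln_exp (hms {r | b + 1 ≤ r}).1 (hms {r | b + 1 ≤ r}).2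
      (Q283.Bin.pat_T hg hg0 hne h {r | b + 1 ≤ r}) n hn η hη0
    refine ⟨l, h1, h2.congr fun X => ?_⟩
    congr 2
    refine Q283.Bin.fcc fun a _ => iff_of_eq ?_
    exact congrArg (fun t : ℕ => η ≤ |(t : ℝ) / n - ms g {r | b + 1 ≤ r}|)
      (Q283.Bin.fcc fun k _ => Iff.rfl)
  choose l hl1 hl2 using hl
  have e1 : Real.exp (-(η ^ 2 * n / 4)) = Real.exp (-(ε ^ 2 * n / (16 * B ^ 2))) := by
    congr 1
    rw [hη]
    field_simp
    ring
  rw [e1] at hl1
  have hsum : Tendsto (fun X : ℕ => ∑ b ∈ range B, (((S X).filter fun a =>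
      η ≤ |(((range n).filter fun k => b + 1 ≤ ρ k a).card : ℝ) / n -
        ms g {r | b + 1 ≤ r}|).card : ℝ) / ((S X).card : ℝ))
      atTop (nhds (∑ b ∈ range B, l b)) := tendsto_finsetSum _ fun b _ => hl2 b
  have hle : ∑ b ∈ range B, l b ≤ 2 * B * Real.exp (-(ε ^ 2 * n / (16 * B ^ 2))) := by
    refine (sum_le_sum fun b _ => hl1 b).trans (le_of_eq ?_)
    rw [sum_const, card_range, nsmul_eq_mul]
    ring
  filter_upwards [hsum.eventually_lt_const (lt_of_le_of_lt hle (lt_add_of_pos_right _ hδ))] with X hX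
  refine le_trans ?_ hX.le
  rw [← sum_div]
  refine div_le_div_of_nonneg_right ?_ (Nat.cast_nonneg _)
  rw [← Nat.cast_sum, Nat.cast_le]
  refine (card_le_card ?_).trans card_biUnion_le
  intro a ha
  rw [mem_filter] at ha
  rw [mem_biUnion]
  by_contra hno
  have h2 : ∀ b ∈ range B, (((range n).filter fun k => b + 1 ≤ ρ k a).card : ℝ) / n <
      ms g {r | b + 1 ≤ r} + η := by
    intro b hb
    by_contra h3
    refine hno ⟨b, hb, mem_filter.2 ⟨ha.1, ?_⟩⟩
    have h4 : η ≤ (((range n).filter fun k => b + 1 ≤ ρ k a).card : ℝ) / n -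
        ms g {r | b + 1 ≤ r} := by
      rw [not_lt] at h3
      linarith
    exact h4.trans (le_abs_self _)
  have h3 : (∑ k ∈ range n, ((min (R k a) (2 * B) : ℕ) : ℝ)) ≤
      2 * ∑ b ∈ range B, (((range n).filter fun k => b + 1 ≤ ρ k a).card : ℝ) := by
    have h4 : ∀ k ∈ range n, ((min (R k a) (2 * B) : ℕ) : ℝ) ≤
        2 * ∑ b ∈ range B, (if b + 1 ≤ ρ k a then (1 : ℝ) else 0) := by
      intro k _
      have h5 : min (R k a) (2 * B) ≤ 2 * min (ρ k a) B := by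
        have := hR X a ha.1 k
        omega
      rw [min_sum (ρ k a) B] at h5
      have h6 : ((min (R k a) (2 * B) : ℕ) : ℝ) ≤
          ((2 * ∑ b ∈ range B, if b + 1 ≤ ρ k a then 1 else 0 : ℕ) : ℝ) := by exact_mod_cast h5
      refine h6.trans (le_of_eq ?_)
      push_cast
      rfl
    refine (sum_le_sum h4).trans (le_of_eq ?_)
    rw [← mul_sum, sum_comm]
    congr 1
    refine sum_congr rfl fun b _ => ?_
    rw [← sum_filter, sum_const, nsmul_eq_mul, mul_one]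
  have h4 := tails hg hg0 hgm B
  have h5 : (∑ k ∈ range n, ((min (R k a) (2 * B) : ℕ) : ℝ)) / n <
      2 * (∑' r : ℕ, (r : ℝ) * g r) + ε := by
    calc (∑ k ∈ range n, ((min (R k a) (2 * B) : ℕ) : ℝ)) / n
        ≤ (2 * ∑ b ∈ range B, (((range n).filter fun k => b + 1 ≤ ρ k a).card : ℝ)) / n :=
          div_le_div_of_nonneg_right h3 hn'.le
      _ = 2 * ∑ b ∈ range B, (((range n).filter fun k => b + 1 ≤ ρ k a).card : ℝ) / n := by
          rw [mul_div_assoc, sum_div]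
      _ < 2 * ∑ b ∈ range B, (ms g {r | b + 1 ≤ r} + η) := by
          refine mul_lt_mul_of_pos_left ?_ (by norm_num)
          exact sum_lt_sum_of_nonempty (nonempty_range_iff.2 hB.ne') h2
      _ = 2 * ∑ b ∈ range B, ms g {r | b + 1 ≤ r} + ε := by
          rw [sum_add_distrib, sum_const, card_range, nsmul_eq_mul, hη]
          field_simp
      _ ≤ 2 * (∑' r : ℕ, (r : ℝ) * g r) + ε := by linarith
  exact absurd ha.2 (not_le.2 h5)



end gen

/-! ### the law of the 2-Selmer groups -/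

theorem lw_zero : lw 0 = c2 := by simp [lw, cf]

theorem lw_succ (r : ℕ) : lw (r + 1) =
    lw r * (4 / (((2 : ℝ) ^ (2 * r + 1) - 1) * ((2 : ℝ) ^ (2 * r + 2) - 1))) := by
  have e : 2 * (r + 1) = 2 * r + 1 + 1 := by ring
  unfold lw
  rw [e, cf, cf]
  have h1 := pm1 (2 * r)
  have h2 := pm1 (2 * r + 1)
  have e2 : 2 * r + 1 + 1 = 2 * r + 2 := by ring
  rw [e2] at h2 ⊢
  field_simp
  ring

theorem lw_one : lw 1 = 4 / 3 * c2 := by
  rw [lw_succ, lw_zero]
  norm_num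
  ring

theorem lw_two : lw 2 = 16 / 315 * c2 := by
  rw [lw_succ, lw_one]
  norm_num
  ring

theorem lw_ratio {r : ℕ} (hr : 2 ≤ r) :
    ((r + 1 : ℕ) : ℝ) * lw (r + 1) ≤ (r : ℝ) * lw r * (1 / 300) := by
  have h3 : (31 : ℝ) ≤ 2 ^ (2 * r + 1) - 1 := by
    have : (2 : ℝ) ^ 5 ≤ 2 ^ (2 * r + 1) := pow_le_pow_right₀ (by norm_num) (by omega)
    linarith
  have h4 : (63 : ℝ) ≤ 2 ^ (2 * r + 2) - 1 := by
    have : (2 : ℝ) ^ 6 ≤ 2 ^ (2 * r + 2) := pow_le_pow_right₀ (by norm_num) (by omega)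
    linarith
  have h5 : (1953 : ℝ) ≤ (2 ^ (2 * r + 1) - 1) * (2 ^ (2 * r + 2) - 1) := by nlinarith
  have h6 : (4 : ℝ) / ((2 ^ (2 * r + 1) - 1) * (2 ^ (2 * r + 2) - 1)) ≤ 4 / 1953 :=
    div_le_div_of_nonneg_left (by norm_num) (by norm_num) h5
  have hr' : (2 : ℝ) ≤ r := by exact_mod_cast hr
  have h7 : ((r + 1 : ℕ) : ℝ) ≤ 3 / 2 * r := by
    push_cast
    linarith
  have h0 := (lw_pos r).le
  rw [lw_succ]
  have h8 : 0 ≤ (4 : ℝ) / ((2 ^ (2 * r + 1) - 1) * (2 ^ (2 * r + 2) - 1)) := by positivity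
  calc ((r + 1 : ℕ) : ℝ) * (lw r * (4 / ((2 ^ (2 * r + 1) - 1) * (2 ^ (2 * r + 2) - 1))))
      ≤ (3 / 2 * r) * (lw r * (4 / 1953)) :=
        mul_le_mul h7 (mul_le_mul_of_nonneg_left h6 h0) (mul_nonneg h0 h8) (by positivity)
    _ ≤ (r : ℝ) * lw r * (1 / 300) := by
        have : 0 ≤ (r : ℝ) * lw r := by positivity
        nlinarith

theorem lw_geo (r : ℕ) : ((r + 2 : ℕ) : ℝ) * lw (r + 2) ≤ 2 * lw 2 * (1 / 300) ^ r := by
  induction r with
  | zero => norm_num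
  | succ r ih =>
    refine (lw_ratio (r := r + 2) (by omega)).trans ?_
    rw [pow_succ, ← mul_assoc]
    exact mul_le_mul_of_nonneg_right ih (by norm_num)

theorem lw_shift : Summable fun r : ℕ => ((r + 2 : ℕ) : ℝ) * lw (r + 2) := by
  refine Summable.of_nonneg_of_le (fun r => mul_nonneg (Nat.cast_nonneg _) (lw_pos _).le) lw_geo ?_
  exact (summable_geometric_of_lt_one (by norm_num) (by norm_num)).mul_left _

theorem lw_summ : Summable fun r : ℕ => (r : ℝ) * lw r :=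
  (summable_nat_add_iff 2).1 lw_shift

/-- the mean of the law -/
theorem lw_mean : ∑' r : ℕ, (r : ℝ) * lw r ≤ (4 / 3 + 32 / 315 * (300 / 299)) * c2 := by
  rw [← lw_summ.sum_add_tsum_nat_add 2]
  have h1 : ∑' r : ℕ, ((r + 2 : ℕ) : ℝ) * lw (r + 2) ≤ 2 * lw 2 * (300 / 299) := by
    have h2 := (summable_geometric_of_lt_one (r := (1 / 300 : ℝ)) (by norm_num) (by norm_num)).mul_left
      (2 * lw 2)
    refine (lw_shift.tsum_le_tsum lw_geo h2).trans (le_of_eq ?_)
    rw [tsum_mul_left, tsum_geometric_of_lt_one (by norm_num) (by norm_num)]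
    norm_num
  rw [lw_two] at h1
  have h2 : ∑ i ∈ range 2, (i : ℝ) * lw i = 4 / 3 * c2 := by
    rw [sum_range_succ, sum_range_one, lw_one]
    push_cast
    ring
  rw [h2]
  linarith

theorem lw_mean' : 2 * ∑' r : ℕ, (r : ℝ) * lw r ≤ 1.2042 := by
  have h1 := lw_mean
  have h2 := Pool.Agent.Y948.CQ.t_C2.2.2.2.2
  have h3 : (4 / 3 + 32 / 315 * (300 / 299) : ℝ) * c2 ≤ (4 / 3 + 32 / 315 * (300 / 299)) * 0.4195 :=
    mul_le_mul_of_nonneg_left h2.le (by norm_num)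
  have h4 : (4 / 3 + 32 / 315 * (300 / 299) : ℝ) * 0.4195 ≤ 0.6021 := by norm_num
  linarith

end Q283.FS
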