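import Pool.Agent.Q283.FS.Sq
import Pool.Agent.Q283.FS.Av

/-!
Limits along the degrees of one parity.
-/

set_option autoImplicit false
set_option linter.all false

open scoped Classical

namespace Q283.FS

open Filter

theorem tendsto_one {β : Type} {l : Filter β} {f : ℕ → β} {N e : ℕ} (he : Odd (e + N)) (he1 : e ≤ 1)
    (h : Tendsto (fun X : ℕ => f (2 * X + e)) atTop l) : Tendsto f (degs N) l := by
  intro s hs
  have h1 := h hs
  rw [Filter.mem_map, mem_atTop_sets] at h1
  obtain ⟨X0, h1⟩ := h1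
  rw [Filter.mem_map, degs, mem_inf_principal, mem_atTop_sets]
  refine ⟨2 * X0 + 1, fun n hn ho => ?_⟩
  have ho : Odd (n + N) := ho
  have h2 : n = 2 * (n / 2) + e := by
    have h3 : n % 2 = e % 2 := by
      rw [Nat.odd_iff] at ho he
      omega
    omega
  have h3 := h1 (n / 2) (by omega)
  rw [Set.mem_preimage, ← h2] at h3
  exact h3

theorem exists_par (N : ℕ) : ∃ e : ℕ, Odd (e + N) ∧ e ≤ 1 := by
  rcases Nat.even_or_odd N with h | h
  · exact ⟨1, h.one_add, le_rfl⟩
  · exact ⟨0, by rwa [zero_add], by omega⟩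

theorem ev_par {P : ℕ → Prop} {N : ℕ}
    (h : ∀ e : ℕ, Odd (e + N) → ∀ᶠ X : ℕ in atTop, P (2 * X + e)) : ∀ᶠ n in degs N, P n := by
  have h1 : Tendsto (fun n : ℕ => n) (degs N) (𝓟 {n | P n}) := tendsto_par fun e he => by
    rw [tendsto_principal]
    exact h e he
  rw [tendsto_principal] at h1
  exact h1

end Q283.FS
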