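import Pool.Agent.Q283.FS.Mp

/-!
Points over multiquadratic extensions: the induction.
-/

set_option autoImplicit false
set_option linter.all false

open scoped Classical

namespace Q283.ML

open WeierstrassCurve WeierstrassCurve.Affine
open Pool.Agent.TH115.GD

section

variable {K Ω : Type} [Field K] [Field Ω] [Algebra K Ω] (h2 : (2 : K) ≠ 0) {ι : Type}
  {d : ι → K} {ρ : ι → Ω} (hρ : ∀ i, ρ i ^ 2 = algebraMap K Ω (d i)) (h0 : ∀ i, ρ i ≠ 0)

/-- the field generated by the square roots in `T` -/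
noncomputable def LT (ρ : ι → Ω) (T : Finset ι) : IntermediateField K Ω :=
  IntermediateField.adjoin K (ρ '' (T : Set ι))

theorem LT_le (T : Finset ι) (i : ι) : LT (K := K) ρ T ≤ LT (K := K) ρ (insert i T) :=
  IntermediateField.adjoin.mono K _ _ (Set.image_mono (by simp))

theorem mem_LT {T : Finset ι} {i : ι} (h : i ∈ T) : ρ i ∈ LT (K := K) ρ T :=
  IntermediateField.subset_adjoin K _ ⟨i, h, rfl⟩

include hρ h0 in
theorem LT_gen (T : Finset ι) (i : ι) (z : Ω) (hz : z ∈ LT (K := K) ρ (insert i T)) :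
    ∃ u ∈ LT (K := K) ρ T, ∃ v ∈ LT (K := K) ρ T, z = u + v * ρ i := by
  by_cases hs : ρ i ∈ LT (K := K) ρ T
  · have h1 : LT (K := K) ρ (insert i T) ≤ LT (K := K) ρ T := by
      unfold LT
      rw [IntermediateField.adjoin_le_iff]
      rintro _ ⟨j, hj, rfl⟩
      rcases Finset.mem_insert.1 hj with rfl | hj
      · exact hs
      · exact mem_LT hj
    exact ⟨z, h1 hz, 0, zero_mem _, by ring⟩
  · unfold LT at hz
    induction hz using IntermediateField.adjoin_induction with
    | mem x hx =>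
      obtain ⟨j, hj, rfl⟩ := hx
      rcases Finset.mem_insert.1 hj with rfl | hj
      · exact ⟨0, zero_mem _, 1, one_mem _, by ring⟩
      · exact ⟨ρ j, mem_LT hj, 0, zero_mem _, by ring⟩
    | algebraMap x => exact ⟨algebraMap K Ω x, algebraMap_mem _ x, 0, zero_mem _, by ring⟩
    | add x y _ _ hx hy =>
      obtain ⟨u, hu, v, hv, rfl⟩ := hx
      obtain ⟨u', hu', v', hv', rfl⟩ := hy
      exact ⟨u + u', add_mem hu hu', v + v', add_mem hv hv', by ring⟩
    | mul x y _ _ hx hy =>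
      obtain ⟨u, hu, v, hv, rfl⟩ := hx
      obtain ⟨u', hu', v', hv', rfl⟩ := hy
      refine ⟨u * u' + v * v' * algebraMap K Ω (d i), add_mem (mul_mem hu hu')
        (mul_mem (mul_mem hv hv') (algebraMap_mem _ _)), u * v' + v * u',
        add_mem (mul_mem hu hv') (mul_mem hv hu'), ?_⟩
      rw [← hρ i]
      ring
    | inv x _ hx =>
      obtain ⟨u, hu, v, hv, rfl⟩ := hx
      by_cases hx0 : u + v * ρ i = 0
      · exact ⟨0, zero_mem _, 0, zero_mem _, by rw [hx0]; simp⟩
      · have hv0 : ∀ w ∈ LT (K := K) ρ T, u + w * ρ i = 0 → w = 0 := by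
          intro w hw h
          by_contra hne
          apply hs
          have e : ρ i = -u / w := by
            rw [eq_div_iff hne]
            linear_combination h
          rw [e]
          exact div_mem (neg_mem hu) hw
        have hx1 : u - v * ρ i ≠ 0 := by
          intro h
          have h1 := hv0 (-v) (neg_mem hv) (by linear_combination h)
          have h3 : v = 0 := neg_eq_zero.1 h1
          rw [h3] at h hx0
          apply hx0
          linear_combination h
        have hD : u ^ 2 - v ^ 2 * algebraMap K Ω (d i) ≠ 0 := by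
          rw [← hρ i]
          have e : u ^ 2 - v ^ 2 * ρ i ^ 2 = (u + v * ρ i) * (u - v * ρ i) := by ring
          rw [e]
          exact mul_ne_zero hx0 hx1
        have hDm : u ^ 2 - v ^ 2 * algebraMap K Ω (d i) ∈ LT (K := K) ρ T :=
          sub_mem (pow_mem hu 2) (mul_mem (pow_mem hv 2) (algebraMap_mem _ _))
        refine ⟨u / (u ^ 2 - v ^ 2 * algebraMap K Ω (d i)), div_mem hu hDm,
          -v / (u ^ 2 - v ^ 2 * algebraMap K Ω (d i)), div_mem (neg_mem hv) hDm, ?_⟩
        rw [div_mul_eq_mul_div, ← add_div, eq_div_iff hD, inv_mul_eq_div, div_eq_iff hx0, ← hρ i]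
        ring

/-- the base case -/
theorem act_surj {F F' : Type} [Field F] [Field F'] [Algebra K F] [Algebra K F']
    (W : WeierstrassCurve K) (φ : F →ₐ[K] F') (hφ : Function.Surjective φ) :
    Function.Surjective (act W φ) := by
  intro Q
  rcases Q with _ | ⟨x, y, h⟩
  · exact ⟨0, map_zero _⟩
  · obtain ⟨u, rfl⟩ := hφ x
    obtain ⟨v, rfl⟩ := hφ y
    exact ⟨Affine.Point.some u v
      ((Affine.baseChange_nonsingular W (f := φ) φ.injective u v).1 h), rfl⟩

/-- an intermediate field as a type -/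
def Fd (L : IntermediateField K Ω) : Type := L

noncomputable instance fdField (L : IntermediateField K Ω) : Field (Fd L) :=
  inferInstanceAs (Field L)

noncomputable instance fdAlg (L : IntermediateField K Ω) : Algebra K (Fd L) :=
  inferInstanceAs (Algebra K L)

/-- the embedding -/
noncomputable def fdVal (L : IntermediateField K Ω) : Fd L →ₐ[K] Ω := L.val

/-- the inclusion -/
noncomputable def fdIncl {L L' : IntermediateField K Ω} (h : L ≤ L') : Fd L →ₐ[K] Fd L' :=
  IntermediateField.inclusion h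

theorem LT_empty (z : Fd (LT (K := K) ρ ∅)) :
    ∃ u : K, algebraMap K (Fd (LT (K := K) ρ ∅)) u = z := by
  obtain ⟨z, hz⟩ := z
  unfold LT at hz
  rw [Finset.coe_empty, Set.image_empty, IntermediateField.adjoin_empty,
    IntermediateField.mem_bot] at hz
  obtain ⟨u, rfl⟩ := hz
  exact ⟨u, rfl⟩

section step
variable (T : Finset ι) (i : ι)

/-- `K(√d_j, j ∈ T ∪ {i})` as an algebra over `K(√d_j, j ∈ T)` -/
@[reducible] noncomputable def algI :
    Algebra (Fd (LT (K := K) ρ T)) (Fd (LT (K := K) ρ (insert i T))) :=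
  (fdIncl (LT_le (K := K) (ρ := ρ) T i)).toRingHom.toAlgebra

end step

include h2 hρ h0 in
/-- one step -/
theorem step_fin (T : Finset ι) (i : ι) {α β : K}
    (hf : Finite (Pt (crv α β) (Fd (LT (K := K) ρ T))))
    (hf' : Finite (Pt (crv (α * d i) (β * d i)) (Fd (LT (K := K) ρ T)))) :
    Finite (Pt (crv α β) (Fd (LT (K := K) ρ (insert i T)))) := by
  letI := algI (K := K) (ρ := ρ) T i
  haveI : IsScalarTower K (Fd (LT (K := K) ρ T)) (Fd (LT (K := K) ρ (insert i T))) :=
    IsScalarTower.of_algebraMap_eq fun x => rfl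
  have hm : ρ i ∈ LT (K := K) ρ (insert i T) := mem_LT (Finset.mem_insert_self i T)
  refine quad_fin (F := Fd (LT (K := K) ρ T)) (F' := Fd (LT (K := K) ρ (insert i T))) h2
    (s := (⟨ρ i, hm⟩ : LT (K := K) ρ (insert i T))) (d := d i) ?_ ?_ ?_ hf hf'
  · apply Subtype.ext
    exact hρ i
  · intro h
    exact h0 i (congrArg Subtype.val h)
  · rintro ⟨z, hz⟩
    obtain ⟨u, hu, v, hv, e⟩ := LT_gen hρ h0 T i z hz
    exact ⟨⟨u, hu⟩, ⟨v, hv⟩, Subtype.ext e⟩

include h2 hρ h0 in
theorem step_stab (T : Finset ι) (i : ι) {α β : K}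
    (hf' : Finite (Pt (crv (α * d i) (β * d i)) (Fd (LT (K := K) ρ T)))) :
    ∃ N : ℕ, 0 < N ∧ ∀ P : Pt (crv α β) (Fd (LT (K := K) ρ (insert i T))),
      ∃ Q : Pt (crv α β) (Fd (LT (K := K) ρ T)),
        N • P = act _ (fdIncl (LT_le (K := K) (ρ := ρ) T i)) Q := by
  letI := algI (K := K) (ρ := ρ) T i
  haveI : IsScalarTower K (Fd (LT (K := K) ρ T)) (Fd (LT (K := K) ρ (insert i T))) :=
    IsScalarTower.of_algebraMap_eq fun x => rfl
  have hm : ρ i ∈ LT (K := K) ρ (insert i T) := mem_LT (Finset.mem_insert_self i T)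
  refine quad_stab (F := Fd (LT (K := K) ρ T)) (F' := Fd (LT (K := K) ρ (insert i T))) h2
    (s := (⟨ρ i, hm⟩ : LT (K := K) ρ (insert i T))) (d := d i) ?_ ?_ ?_ hf'
  · apply Subtype.ext
    exact hρ i
  · intro h
    exact h0 i (congrArg Subtype.val h)
  · rintro ⟨z, hz⟩
    obtain ⟨u, hu, v, hv, e⟩ := LT_gen hρ h0 T i z hz
    exact ⟨⟨u, hu⟩, ⟨v, hv⟩, Subtype.ext e⟩

include h2 hρ h0 in
/-- finiteness over the field of all the square roots in `T` -/
theorem mq_fin (T : Finset ι) : ∀ α β : K,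
    (∀ S ⊆ T, Finite (Pt (crv (α * ∏ i ∈ S, d i) (β * ∏ i ∈ S, d i)) K)) →
      Finite (Pt (crv α β) (Fd (LT (K := K) ρ T))) := by
  induction T using Finset.induction_on with
  | empty =>
    intro α β h
    have h1 := h ∅ (Finset.Subset.refl _)
    rw [Finset.prod_empty, mul_one, mul_one] at h1
    exact Finite.of_surjective (act (crv α β) (Algebra.ofId K (Fd (LT (K := K) ρ ∅))))
      (act_surj _ _ LT_empty)
  | insert i T hi ih =>
    intro α β h
    apply step_fin h2 hρ h0 T i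
    · exact ih α β fun S hS => h S (hS.trans (Finset.subset_insert i T))
    · refine ih _ _ fun S hS => ?_
      have h1 := h (insert i S) (Finset.insert_subset_insert i hS)
      rw [Finset.prod_insert (fun h => hi (hS h)), ← mul_assoc, ← mul_assoc] at h1
      exact h1

include h2 hρ h0 in
/-- stability over the field of all the square roots in `T` -/
theorem mq_stab (T : Finset ι) : ∀ α β : K,
    (∀ S ⊆ T, S.Nonempty → Finite (Pt (crv (α * ∏ i ∈ S, d i) (β * ∏ i ∈ S, d i)) K)) →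
      ∃ N : ℕ, 0 < N ∧ ∀ P : Pt (crv α β) (Fd (LT (K := K) ρ T)), ∃ Q : Pt (crv α β) K,
        N • P = act _ (Algebra.ofId K (Fd (LT (K := K) ρ T))) Q := by
  induction T using Finset.induction_on with
  | empty =>
    intro α β h
    refine ⟨1, one_pos, fun P => ?_⟩
    obtain ⟨Q, hQ⟩ := act_surj (crv α β) (Algebra.ofId K (Fd (LT (K := K) ρ ∅))) LT_empty P
    exact ⟨Q, by rw [one_smul, hQ]⟩
  | insert i T hi ih =>
    intro α β h
    obtain ⟨N, hN, h1⟩ := ih α β fun S hS hne => h S (hS.trans (Finset.subset_insert i T)) hne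
    have h3 : Finite (Pt (crv (α * d i) (β * d i)) (Fd (LT (K := K) ρ T))) := by
      refine mq_fin h2 hρ h0 T _ _ fun S hS => ?_
      have h4 := h (insert i S) (Finset.insert_subset_insert i hS) (Finset.insert_nonempty i S)
      rw [Finset.prod_insert (fun h => hi (hS h)), ← mul_assoc, ← mul_assoc] at h4
      exact h4
    obtain ⟨N', hN', h5⟩ := step_stab h2 hρ h0 T i h3
    refine ⟨N * N', Nat.mul_pos hN hN', fun P => ?_⟩
    obtain ⟨Q', hQ'⟩ := h5 P
    obtain ⟨Q, hQ⟩ := h1 Q'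
    refine ⟨Q, ?_⟩
    rw [mul_smul, hQ', ← map_nsmul, hQ, act_act]
    rfl

end

section pts

variable {K : Type} [Field K] (h2 : (2 : K) ≠ 0) {ι : Type} {d : ι → K} {ρ : ι → Sep K}
  (hρ : ∀ i, ρ i ^ 2 = algebraMap K (Sep K) (d i)) (h0 : ∀ i, ρ i ≠ 0)

/-- a point fixed by the Galois group of `L` -/
def Fixed (W : WeierstrassCurve K) (L : IntermediateField K (Sep K)) (P : Pt W (Sep K)) : Prop :=
  ∀ σ : Sep K ≃ₐ[L] Sep K, act W (rs K σ) P = P

theorem fixed_val {W : WeierstrassCurve K} {L : IntermediateField K (Sep K)} {P : Pt W (Sep K)}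
    (h : Fixed W L P) : ∃ Q : Pt W (Fd L), act W (fdVal L) Q = P := by
  haveI : IsGalois L (Sep K) := inferInstance
  have fix : ∀ z : Sep K, (∀ σ : Sep K ≃ₐ[L] Sep K, σ z = z) → ∃ u : Fd L, fdVal L u = z := by
    intro z hz
    obtain ⟨u, hu⟩ := (InfiniteGalois.mem_range_algebraMap_iff_fixed z).2 hz
    exact ⟨u, hu⟩
  rcases P with _ | ⟨x, y, hxy⟩
  · exact ⟨0, map_zero _⟩
  · have hx : ∀ σ : Sep K ≃ₐ[L] Sep K, σ x = x ∧ σ y = y := by
      intro σ
      have h1 := h σ
      rw [act_some, Affine.Point.some.injEq] at h1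
      exact h1
    obtain ⟨u, rfl⟩ := fix x fun σ => (hx σ).1
    obtain ⟨v, rfl⟩ := fix y fun σ => (hx σ).2
    exact ⟨Affine.Point.some u v
      ((Affine.baseChange_nonsingular W (f := fdVal L) (fdVal L).injective u v).1 hxy), rfl⟩

include h2 hρ h0 in
theorem fixed_fin (T : Finset ι) {α β : K}
    (h : ∀ S ⊆ T, Finite (Pt (crv (α * ∏ i ∈ S, d i) (β * ∏ i ∈ S, d i)) K)) :
    {P : Pt (crv α β) (Sep K) | Fixed (crv α β) (LT (K := K) ρ T) P}.Finite := by
  haveI := mq_fin h2 hρ h0 T α β h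
  refine Set.Finite.subset (Set.finite_range (act (crv α β) (fdVal (LT (K := K) ρ T)))) ?_
  intro P hP
  obtain ⟨Q, hQ⟩ := fixed_val hP
  exact ⟨Q, hQ⟩

include h2 hρ h0 in
theorem fixed_stab (T : Finset ι) {α β : K}
    (h : ∀ S ⊆ T, S.Nonempty → Finite (Pt (crv (α * ∏ i ∈ S, d i) (β * ∏ i ∈ S, d i)) K)) :
    ∃ N : ℕ, 0 < N ∧ ∀ P : Pt (crv α β) (Sep K), Fixed (crv α β) (LT (K := K) ρ T) P →
      ∃ Q : Pt (crv α β) K, N • P = act _ (incl K K (Sep K)) Q := by
  obtain ⟨N, hN, h1⟩ := mq_stab h2 hρ h0 T α β h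
  refine ⟨N, hN, fun P hP => ?_⟩
  obtain ⟨Q', rfl⟩ := fixed_val hP
  obtain ⟨Q, hQ⟩ := h1 Q'
  refine ⟨Q, ?_⟩
  rw [← map_nsmul, hQ, act_act]
  congr 1

end pts

end Q283.ML
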