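import Pool.Agent.Q283.FS.Mc
import Pool.Agent.Q283.FS.Mq

/-!
The Tate-Shafarevich group over a multiquadratic extension of `K = k(t)`.
-/

set_option autoImplicit false
set_option linter.all false

open scoped Classical

namespace Q283.ML

open Polynomial IsDedekindDomain WeierstrassCurve WeierstrassCurve.Affine
open Pool.Agent.TH115.GD

variable {k K : Type} [Field k] [Field K] [Algebra k[X] K] [IsFractionRing k[X] K]

/-- the classes of the 2-primary part of the Tate-Shafarevich group over `L` -/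
structure IsSha (k : Type) {K : Type} [Field k] [Field K] [Algebra k[X] K] [IsFractionRing k[X] K]
    (W : WeierstrassCurve K) (L : IntermediateField K (Sep K))
    (f : (Sep K ≃ₐ[L] Sep K) → Pt W (Sep K)) : Prop where
  coc : IsCoc W f
  loc : ∀ v : HeightOneSpectrum k[X], TrivAt W L (Comp k[X] K v) f
  inf : TrivAt W L (CompInf k K) f
  two : ∃ (e : ℕ) (R : Pt W (Sep K)), ∀ σ, 2 ^ e • f σ = act W (rs K σ) R - R

/-- the choice of the algebra structures does not matter -/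
theorem lt_aux {K : Type} [Field K] {W : WeierstrassCurve K} {f : GK K → Pt W (Sep K)} (C : Type)
    [Field C] (i1 i2 i3 i : Algebra K C) (h1 : i1 = i) (h2 : i2 = i) (h3 : i3 = i)
    {t1 : @IsScalarTower K C (Sep C) i1.toSMul (sepAlgebra C C).toSMul
      (@sepAlgebra C _ K _ i2).toSMul}
    {t2 : @IsScalarTower K K (Sep C) (Algebra.id K).toSMul (@sepAlgebra C _ K _ i3).toSMul
      (@sepAlgebra C _ K _ i2).toSMul}
    (hl : @LocTriv K K (Sep K) _ _ _ _ _ _ _ W C (Sep C) _ _ i _ (@sepAlgebra C _ K _ i)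
      (@sepAlgebra C _ K _ i) inferInstance inferInstance f) :
    @LocTriv K K (Sep K) _ _ _ _ _ _ _ W C (Sep C) _ _ i1 _ (@sepAlgebra C _ K _ i2)
      (@sepAlgebra C _ K _ i3) t1 t2 f := by
  subst h1 h2 h3
  exact hl

theorem loc_of {W : WeierstrassCurve K} {f : GK K → Pt W (Sep K)}
    (h : ∀ v : HeightOneSpectrum k[X], LocTriv (F := K) W (Comp k[X] K v) (Sep (Comp k[X] K v)) f)
    (h' : LocTriv (F := K) W (CompInf k K) (Sep (CompInf k K)) f) : LocallyTrivial k W f := by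
  refine ⟨fun v => ?_, ?_⟩
  · have e : compAlgebra' k[X] K v K = compAlgebra k[X] K v := Algebra.algebra_ext _ _ fun x => rfl
    exact lt_aux (Comp k[X] K v) (compAlgebra' k[X] K v K) (compAlgebra' k[X] K v K)
      (compAlgebra k[X] K v) (compAlgebra k[X] K v) e e rfl (h v)
  · have e : compInfAlgebra' k K K = compInfAlgebra k K := Algebra.algebra_ext _ _ fun x => rfl
    exact lt_aux (CompInf k K) (compInfAlgebra' k K K) (compInfAlgebra' k K K)
      (compInfAlgebra k K) (compInfAlgebra k K) e e rfl h'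

variable (h2 : (2 : K) ≠ 0) {ι : Type} [Fintype ι] {d : ι → K} {ρ : ι → Sep K}
  (hρ : ∀ i, ρ i ^ 2 = algebraMap K (Sep K) (d i)) (h0 : ∀ i, ρ i ≠ 0)

include h2 hρ h0 in
theorem one_T (T : Finset ι) {A B : K} {f : (Sep K ≃ₐ[LL ρ] Sep K) → Pt (crv A B) (Sep K)}
    (hf : IsSha k (crv A B) (LL ρ) f)
    (hT : ShaTwo k (crv (A * ∏ i ∈ T, d i) (B * ∏ i ∈ T, d i))) :
    ∃ R : Pt (crv A B) (Sep K), ∀ σ : Sep K ≃ₐ[LL ρ] Sep K, cT h2 hρ h0 T f (dn σ) =
      act (crv A B) (rs K σ) R - R := by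
  apply cT_cob h2 hρ h0 T rfl rfl
  obtain ⟨e, Q, hQ⟩ := hf.two
  obtain ⟨R, hR⟩ := fT_two h2 hρ h0 T (α' := A * ∏ i ∈ T, d i) (β' := B * ∏ i ∈ T, d i) rfl rfl hQ
  exact hT _ (fT_coc h2 hρ h0 T rfl rfl hf.coc)
    (loc_of (fun v => fT_loc h2 hρ h0 T rfl rfl hf.coc _ (hf.loc v))
      (fT_loc h2 hρ h0 T rfl rfl hf.coc _ hf.inf)) ⟨e, R, hR⟩

include h2 hρ h0 in
/-- the nontrivial twists are good -/
theorem sha_stab {A B : K} {f : (Sep K ≃ₐ[LL ρ] Sep K) → Pt (crv A B) (Sep K)}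
    (hf : IsSha k (crv A B) (LL ρ) f)
    (hT : ∀ T : Finset ι, T.Nonempty → ShaTwo k (crv (A * ∏ i ∈ T, d i) (B * ∏ i ∈ T, d i))) :
    ∃ g : GK K → Pt (crv A B) (Sep K), IsCoc (crv A B) g ∧ LocallyTrivial k (crv A B) g ∧
      (∃ (e : ℕ) (R : Pt (crv A B) (Sep K)), ∀ σ, 2 ^ e • g σ = act (crv A B) (rs K σ) R - R) ∧
      ∃ R : Pt (crv A B) (Sep K), ∀ σ : Sep K ≃ₐ[LL ρ] Sep K,
        2 ^ Fintype.card ι • f σ = g (dn σ) + (act (crv A B) (rs K σ) R - R) := by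
  have hA : A = A * ∏ i ∈ (∅ : Finset ι), d i := by simp
  have hB : B = B * ∏ i ∈ (∅ : Finset ι), d i := by simp
  refine ⟨fT h2 hρ h0 ∅ hA hB f, fT_coc h2 hρ h0 ∅ hA hB hf.coc,
    loc_of (fun v => fT_loc h2 hρ h0 ∅ hA hB hf.coc _ (hf.loc v))
      (fT_loc h2 hρ h0 ∅ hA hB hf.coc _ hf.inf), ?_, ?_⟩
  · obtain ⟨e, Q, hQ⟩ := hf.two
    exact ⟨e, fT_two h2 hρ h0 ∅ hA hB hQ⟩
  · have h1 : ∀ T : Finset ι, T.Nonempty → ∃ R : Pt (crv A B) (Sep K),
        ∀ σ : Sep K ≃ₐ[LL ρ] Sep K, cT h2 hρ h0 T f (dn σ) = act (crv A B) (rs K σ) R - R :=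
      fun T hne => one_T h2 hρ h0 T hf (hT T hne)
    choose! R hR using h1
    refine ⟨∑ T ∈ (Finset.univ : Finset (Finset ι)).erase ∅, R T, fun σ => ?_⟩
    rw [← sum_cT h2 hρ h0 f σ, ← Finset.add_sum_erase _ _ (Finset.mem_univ ∅), fT_empty h2 hρ h0,
      map_sum, ← Finset.sum_sub_distrib]
    congr 1
    refine Finset.sum_congr rfl fun T hT' => ?_
    exact hR T (Finset.nonempty_iff_ne_empty.2 (Finset.ne_of_mem_erase hT')) σ

include h2 hρ h0 in
/-- all the twists are good -/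
theorem sha_good {A B : K} {f : (Sep K ≃ₐ[LL ρ] Sep K) → Pt (crv A B) (Sep K)}
    (hf : IsSha k (crv A B) (LL ρ) f)
    (hT : ∀ T : Finset ι, ShaTwo k (crv (A * ∏ i ∈ T, d i) (B * ∏ i ∈ T, d i))) :
    ∃ R : Pt (crv A B) (Sep K), ∀ σ : Sep K ≃ₐ[LL ρ] Sep K,
      2 ^ Fintype.card ι • f σ = act (crv A B) (rs K σ) R - R := by
  have h1 : ∀ T : Finset ι, ∃ R : Pt (crv A B) (Sep K),
      ∀ σ : Sep K ≃ₐ[LL ρ] Sep K, cT h2 hρ h0 T f (dn σ) = act (crv A B) (rs K σ) R - R :=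
    fun T => one_T h2 hρ h0 T hf (hT T)
  choose R hR using h1
  refine ⟨∑ T : Finset ι, R T, fun σ => ?_⟩
  rw [← sum_cT h2 hρ h0 f σ, map_sum, ← Finset.sum_sub_distrib]
  exact Finset.sum_congr rfl fun T _ => hR T σ

end Q283.ML
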