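import Pool.Agent.Q283.FS.Par

/-!
Families of products of multipliers.
-/

set_option autoImplicit false
set_option linter.all false

open scoped Classical

namespace Q283.FS

open Polynomial Filter
open Pool.Agent.TH115.GD Pool.Agent.Y164.PS Pool.Agent.H341R2.Sharp Finset

section pat

variable {α : Type} {S : ℕ → Finset α} {P : ℕ → α → Prop} {p : ℝ}

/-- the indicator -/
noncomputable def indp (Q : Prop) : ℝ := if Q then 1 else 0

theorem card_ind (s : Finset α) (Q : α → Prop) {i : DecidablePred Q} :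
    ((@Finset.filter α Q i s).card : ℝ) = ∑ a ∈ s, indp (Q a) := by
  have e : (@Finset.filter α Q i s).card =
      (@Finset.filter α Q (fun a => Classical.propDecidable (Q a)) s).card :=
    Q283.Bin.fcc fun _ _ => Iff.rfl
  rw [e, card_filter, Nat.cast_sum]
  refine sum_congr rfl fun a _ => ?_
  unfold indp
  by_cases h : Q a
  · rw [if_pos h, if_pos h, Nat.cast_one]
  · rw [if_neg h, if_neg h, Nat.cast_zero]

theorem ind_and {ι : Type} (s : Finset ι) (Q : ι → Prop) :
    indp (∀ i ∈ s, Q i) = ∏ i ∈ s, indp (Q i) := by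
  unfold indp
  by_cases h : ∀ i ∈ s, Q i
  · rw [if_pos h]
    exact (prod_eq_one fun i hi => if_pos (h i hi)).symm
  · rw [if_neg h]
    push Not at h
    obtain ⟨i, hi, hQ⟩ := h
    exact (prod_eq_zero hi (if_neg hQ)).symm

/-- the laws of the patterns from the laws of the conjunctions -/
theorem pat_of_all (h : ∀ B : Finset ℕ, Tendsto (fun X : ℕ =>
    (((S X).filter fun a => ∀ j ∈ B, P j a).card : ℝ) / ((S X).card : ℝ)) atTop
      (nhds (p ^ B.card))) : Q283.Bin.Pat S P p := by
  intro n A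
  -- the expansion
  have exp : ∀ x : Fin n → ℝ, (∏ i ∈ A, x i) * ∏ i ∈ Aᶜ, (1 - x i) =
      ∑ C ∈ (Aᶜ).powerset, (-1) ^ C.card * ∏ i ∈ A ∪ C, x i := by
    intro x
    have e : ∏ i ∈ Aᶜ, (1 - x i) = ∏ i ∈ Aᶜ, ((-x i) + 1) := prod_congr rfl fun i _ => by ring
    rw [e, prod_add, mul_sum]
    refine sum_congr rfl fun C hC => ?_
    rw [mem_powerset] at hC
    have hd : Disjoint A C := by
      rw [disjoint_left]
      intro i hi hi'
      exact (mem_compl.1 (hC hi')) hi
    rw [prod_union hd, prod_const_one, mul_one, prod_neg]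
    ring
  have key : ∀ X : ℕ, (((S X).filter fun a => ∀ k : Fin n, (P k a ↔ k ∈ A)).card : ℝ) =
      ∑ C ∈ (Aᶜ).powerset, (-1) ^ C.card *
        (((S X).filter fun a => ∀ j ∈ (A ∪ C).map Fin.valEmbedding, P j a).card : ℝ) := by
    intro X
    rw [card_ind]
    have h1 : ∀ a, indp (∀ k : Fin n, (P k a ↔ k ∈ A)) =
        (∏ i ∈ A, indp (P i a)) * ∏ i ∈ Aᶜ, (1 - indp (P i a)) := by
      intro a
      have e1 : ∀ i : Fin n, 1 - indp (P i a) = indp (¬ P i a) := by
        intro i
        unfold indp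
        by_cases h : P i a
        · rw [if_pos h, if_neg (not_not.2 h), sub_self]
        · rw [if_neg h, if_pos h, sub_zero]
      rw [prod_congr rfl (g := fun i => indp (¬ P i a)) (s₁ := Aᶜ) (fun i _ => e1 i), ← ind_and,
        ← ind_and]
      unfold indp
      by_cases h : ∀ k : Fin n, (P k a ↔ k ∈ A)
      · rw [if_pos h, if_pos (fun i hi => (h i).2 hi),
          if_pos (fun i hi => fun hp => (mem_compl.1 hi) ((h i).1 hp)), mul_one]
      · rw [if_neg h]
        by_cases h1 : ∀ i ∈ A, P i a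
        · rw [if_pos h1, one_mul, if_neg]
          intro h2
          apply h
          intro k
          constructor
          · intro hp
            by_contra hk
            exact h2 k (mem_compl.2 hk) hp
          · exact h1 k
        · rw [if_neg h1, zero_mul]
    rw [sum_congr rfl fun a _ => h1 a]
    have h3 : ∀ a, (∏ i ∈ A, indp (P i a)) * ∏ i ∈ Aᶜ, (1 - indp (P i a)) =
        ∑ C ∈ (Aᶜ).powerset, (-1) ^ C.card *
          indp (∀ j ∈ (A ∪ C).map Fin.valEmbedding, P j a) := by
      intro a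
      rw [exp]
      refine sum_congr rfl fun C _ => ?_
      rw [ind_and, prod_map]
      rfl
    rw [sum_congr rfl fun a _ => h3 a, sum_comm]
    refine sum_congr rfl fun C _ => ?_
    rw [← mul_sum, card_ind]
  have lim : Tendsto (fun X : ℕ => ∑ C ∈ (Aᶜ).powerset, (-1 : ℝ) ^ C.card *
      ((((S X).filter fun a => ∀ j ∈ (A ∪ C).map Fin.valEmbedding, P j a).card : ℝ) /
        ((S X).card : ℝ))) atTop (nhds (∑ C ∈ (Aᶜ).powerset, (-1 : ℝ) ^ C.card *
          p ^ ((A ∪ C).map Fin.valEmbedding).card)) :=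
    tendsto_finsetSum _ fun C _ => (h _).const_mul _
  have e2 : ∑ C ∈ (Aᶜ).powerset, (-1 : ℝ) ^ C.card * p ^ ((A ∪ C).map Fin.valEmbedding).card =
      p ^ A.card * (1 - p) ^ (n - A.card) := by
    have h4 := exp fun _ => p
    rw [prod_const, prod_const, card_compl, Fintype.card_fin] at h4
    rw [h4]
    refine sum_congr rfl fun C _ => ?_
    rw [card_map, prod_const]
  rw [e2] at lim
  refine lim.congr fun X => ?_
  rw [key X, sum_div]
  refine sum_congr rfl fun C _ => ?_
  rw [mul_div_assoc]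

end pat

section mul

variable {k : Type} [Field k] [Fintype k] [DecidableEq k]
variable {a b : k[X]} {N : ℕ} (H : Hyp a b N)

/-- a sequence of pairwise coprime nonconstant multipliers -/
structure Cop (a b : k[X]) (m : ℕ → k[X]) : Prop where
  mlt : ∀ i, Mlt a b (m i)
  deg : ∀ i, 0 < (m i).natDegree
  cop : ∀ i j, i ≠ j → IsCoprime (m i) (m j)

/-- the products -/
noncomputable def mS (m : ℕ → k[X]) (S : Finset ℕ) : k[X] := ∏ i ∈ S, m i

theorem mS_mlt {m : ℕ → k[X]} (hm : Cop a b m) (S : Finset ℕ) : Mlt a b (mS m S) where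
  mon := monic_prod_of_monic _ _ fun i _ => (hm.mlt i).mon
  sqf := Finset.squarefree_prod_of_pairwise_isCoprime (fun i _ j _ hij => (hm.cop i j hij).isRelPrime)
    fun i _ => (hm.mlt i).sqf
  even := by
    unfold mS
    rw [natDegree_prod_of_monic _ _ fun i _ => (hm.mlt i).mon]
    exact even_sum _ fun i _ => (hm.mlt i).even
  sq := by
    intro Q hQ hd
    constructor
    · intro h
      obtain ⟨i, hi, h1⟩ := (hQ.prime.dvd_finset_prod_iff _).1 h
      exact ((hm.mlt i).sq Q hQ hd).1 h1
    · have h1 : ∀ i, ∃ h : k[X], Q ∣ h ^ 2 - m i := fun i => ((hm.mlt i).sq Q hQ hd).2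
      choose h hh using h1
      refine ⟨∏ i ∈ S, h i, ?_⟩
      unfold mS
      induction S using Finset.induction_on with
      | empty => simp
      | insert i S hi ih =>
        rw [prod_insert hi, prod_insert hi]
        have e : (h i * ∏ i ∈ S, h i) ^ 2 - m i * ∏ i ∈ S, m i =
            (h i ^ 2 - m i) * (∏ i ∈ S, h i) ^ 2 + m i * ((∏ i ∈ S, h i) ^ 2 - ∏ i ∈ S, m i) := by
          ring
        rw [e]
        exact dvd_add ((hh i).mul_right _) (ih.mul_left _)

theorem mS_inj {m : ℕ → k[X]} (hm : Cop a b m) : Function.Injective (mS m) := by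
  have key : ∀ S S' : Finset ℕ, mS m S = mS m S' → S ⊆ S' := by
    intro S S' h i hi
    by_contra hi'
    have h1 : m i ∣ mS m S' := by
      rw [← h]
      exact dvd_prod_of_mem m hi
    have h2 : IsCoprime (m i) (mS m S') := IsCoprime.prod_right fun j hj => hm.cop i j (by
      rintro rfl
      exact hi' hj)
    have h3 : IsUnit (m i) := h2.isUnit_of_dvd' dvd_rfl h1
    have := hm.deg i
    rw [natDegree_eq_zero_of_isUnit h3] at this
    exact lt_irrefl 0 this
  intro S S' h
  exact Subset.antisymm (key S S' h) (key S' S h.symm)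

section law
variable (hq : 4 ≤ Fintype.card k) (h2t : ∀ u : W, u ≠ 0 → ∃ s, om u ((datum H).t s) ≠ 0)

include hq h2t in
/-- the joint law of a finite family -/
theorem law_fam {ι : Type} [Fintype ι] {m : ι → k[X]} (hm : ∀ i, Mlt a b (m i))
    (hi : Function.Injective m) {e : ℕ} (he : Odd (e + N)) (r : ι → ℕ) :
    Tendsto (fun X : ℕ => (((Cn a b (2 * X + e)).filter fun D =>
      ∀ i, rr H (pf (m i)) D = r i).card : ℝ) / ((Cn a b (2 * X + e)).card : ℝ)) atTop
      (nhds (∏ i, lw (r i))) := by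
  let φ := Fintype.equivFin ι
  have h := law_Cn H (msk H (m := fun κ => m (φ.symm κ)) (fun κ => hm _)
    (fun x y h => φ.symm.injective (hi h))) hq h2t (par_cast he) (fun κ => r (φ.symm κ))
  rw [Equiv.prod_comp φ.symm (fun i => lw (r i))] at h
  refine h.congr fun X => ?_
  congr 2
  refine Q283.Bin.fcc fun D _ => ?_
  exact ⟨fun h i => by simpa using h (φ i), fun h κ => h _⟩

include hq h2t in
/-- all the members of a finite family of products vanish -/
theorem all_zero {m : ℕ → k[X]} (hm : Cop a b m) (Z : Finset (Finset ℕ)) {e : ℕ}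
    (he : Odd (e + N)) :
    Tendsto (fun X : ℕ => (((Cn a b (2 * X + e)).filter fun D =>
      ∀ S ∈ Z, rr H (pf (mS m S)) D = 0).card : ℝ) / ((Cn a b (2 * X + e)).card : ℝ)) atTop
      (nhds (lw 0 ^ Z.card)) := by
  have h := law_fam H hq h2t (ι := Z) (m := fun S => mS m S.1) (fun S => mS_mlt hm S.1)
    (fun S S' h => Subtype.ext (mS_inj hm h)) he (fun _ => 0)
  rw [prod_const, card_univ, Fintype.card_coe] at h
  refine h.congr fun X => ?_
  congr 2
  refine Q283.Bin.fcc fun D _ => ?_
  exact ⟨fun h S hS => h ⟨S, hS⟩, fun h S => h S.1 S.2⟩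

/-- the nonempty subsets of a set -/
def neS (I : Finset ℕ) : Finset (Finset ℕ) := I.powerset.erase ∅

theorem mem_neS {I S : Finset ℕ} : S ∈ neS I ↔ S.Nonempty ∧ S ⊆ I := by
  rw [neS, mem_erase, mem_powerset, nonempty_iff_ne_empty]

theorem card_neS (I : Finset ℕ) : (neS I).card = 2 ^ I.card - 1 := by
  rw [neS, card_erase_of_mem (empty_mem_powerset I), card_powerset]

include hq h2t in
/-- the laws of the patterns of the events of the blocks -/
theorem pat_blocks {m : ℕ → k[X]} (hm : Cop a b m) {I : ℕ → Finset ℕ} {n : ℕ}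
    (hI : ∀ j, (I j).card = n) (hd : ∀ i j, i ≠ j → Disjoint (I i) (I j)) {e : ℕ}
    (he : Odd (e + N)) (B : Finset ℕ) :
    Tendsto (fun X : ℕ => (((Cn a b (2 * X + e)).filter fun D =>
      ∀ j ∈ B, ∀ S ∈ neS (I j), rr H (pf (mS m S)) D = 0).card : ℝ) /
        ((Cn a b (2 * X + e)).card : ℝ)) atTop
      (nhds ((lw 0 ^ (2 ^ n - 1)) ^ B.card)) := by
  have h := all_zero H hq h2t hm (B.biUnion fun j => neS (I j)) he
  have hc : (B.biUnion fun j => neS (I j)).card = (2 ^ n - 1) * B.card := by
    rw [card_biUnion]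
    · rw [sum_congr rfl fun j _ => (card_neS (I j)).trans (by rw [hI j]), sum_const, smul_eq_mul,
        mul_comm]
    · intro i _ j _ hij
      rw [Function.onFun, disjoint_left]
      intro S hS hS'
      obtain ⟨⟨x, hx⟩, h1⟩ := mem_neS.1 hS
      exact (disjoint_left.1 (hd i j hij)) (h1 hx) ((mem_neS.1 hS').2 hx)
  rw [hc, pow_mul] at h
  refine h.congr fun X => ?_
  congr 2
  refine Q283.Bin.fcc fun D _ => ?_
  constructor
  · intro h j hj S hS
    exact h S (mem_biUnion.2 ⟨j, hj, hS⟩)
  · intro h S hS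
    obtain ⟨j, hj, hS'⟩ := mem_biUnion.1 hS
    exact h j hj S hS'

end law

end mul

end Q283.FS
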