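import Pool.Agent.Q283.FS.Co

/-!
The order of the 2-Selmer group.
-/

set_option autoImplicit false
set_option linter.all false

open scoped Classical

namespace Q283.FS

open Polynomial IsDedekindDomain WeierstrassCurve WeierstrassCurve.Affine
open Pool.Agent.TH115.GD Pool.Agent.Y164.PS Pool.Agent.H341R2.Sharp Finset

theorem rep_scale {K Ω : Type} [Field K] [Field Ω] [Algebra K Ω] {W : WeierstrassCurve K} {a : K}
    {f : (Ω ≃ₐ[K] Ω) → Pt W Ω} {a0 a1 b0 b1 : K} (h : Rep W a f a0 a1) (q0 : SqEq a0 b0)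
    (q1 : SqEq a1 b1) : Rep W a f b0 b1 := by
  obtain ⟨t0, t1, n0, n1, e0, e1, k0, k1⟩ := h
  obtain ⟨c0, m0, w0⟩ := q0
  obtain ⟨c1, m1, w1⟩ := q1
  have j0 : algebraMap K Ω c0 ≠ 0 := (_root_.map_ne_zero _).2 m0
  have j1 : algebraMap K Ω c1 ≠ 0 := (_root_.map_ne_zero _).2 m1
  refine ⟨t0 / algebraMap K Ω c0, t1 / algebraMap K Ω c1, div_ne_zero n0 j0, div_ne_zero n1 j1, ?_, ?_,
    fun σ => ?_, fun σ => ?_⟩
  · rw [div_pow, e0, w0, map_mul, map_pow]
    field_simp
  · rw [div_pow, e1, w1, map_mul, map_pow]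
    field_simp
  · rw [map_div₀, σ.commutes, k0, mul_div_assoc]
  · rw [map_div₀, σ.commutes, k1, mul_div_assoc]

variable {k K : Type} [Field k] [Fintype k] [DecidableEq k] [Field K] [Algebra k[X] K]
  [IsFractionRing k[X] K]
variable {a b : k[X]} {N : ℕ} (H : Hyp a b N)
variable {ι : Type} [Fintype ι] {P : ι → k[X]} (hR : Fam (RR a b P))

theorem exists_ch (hk : ringChar k ≠ 2) (x : F2) : ∃ r : k, r ≠ 0 ∧ ch r = x := by
  rcases F2_cases x with rfl | rfl
  · exact ⟨1, one_ne_zero, (ch_eq_zero_iff one_ne_zero).2 ⟨1, (mul_one 1).symm⟩⟩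
  · obtain ⟨r, hr⟩ := FiniteField.exists_nonsquare hk
    have h0 : r ≠ 0 := by
      rintro rfl
      exact hr ⟨0, (mul_zero 0).symm⟩
    refine ⟨r, h0, ?_⟩
    rcases F2_cases (ch r) with h | h
    · exact absurd ((ch_eq_zero_iff h0).1 h) hr
    · exact h

/-- the relation between the solutions and the cocycles -/
def Qr (K : Type) [Field K] [Algebra k[X] K] (a b : k[X]) (P : ι → k[X])
    (p : V ι (Tau a b) × W) (f : (Sep K ≃ₐ[K] Sep K) → Pt (crv (al K a P) (al K b P)) (Sep K)) :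
    Prop :=
  ∃ (r0 r1 : k) (n0 n1 : ι ⊕ Tau a b → ℕ), r0 ≠ 0 ∧ r1 ≠ 0 ∧
    (∀ i, (((n0 (Sum.inl i) : F2), (n1 (Sum.inl i) : F2)) : W) = p.1.1 i) ∧
    (∀ s, (((n0 (Sum.inr s) : F2), (n1 (Sum.inr s) : F2)) : W) = p.1.2 s • tv a b s) ∧
    ((ch r0, ch r1) : W) = p.2 ∧
    Rep (crv (al K a P) (al K b P)) (al K a P) f (algebraMap k[X] K (el (RR a b P) r0 n0))
      (algebraMap k[X] K (el (RR a b P) r1 n1))

include H hR in
theorem card_sel (hcl : cl (datum H) (QQ a b) P)
    (hN : ∑ i, ((P i).natDegree : F2) + (N : F2) = 1) :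
    Nat.card (SelTwo k (crv (al K a P) (al K b P))) =
      4 * kc (datum H) (AT P) (BT (QQ a b) P) (fun i => ((P i).natDegree : F2)) := by
  have hA : ∀ i j, AT P i j = AT P j i := fun i j => L_comm H.hm (P i) (P j)
  rw [← card_Sol (D := datum H) (A := AT P) (B := BT (QQ a b) P)
    (d := fun i => ((P i).natDegree : F2)) hA hcl hN]
  have hk2 := two_ne H
  obtain ⟨t1, t2, t3⟩ := tw_ne H hR
  have inj := IsFractionRing.injective k[X] K
  have h2K : (2 : K) ≠ 0 := tt hk2
  have haK : al K a P ≠ 0 := by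
    rw [al, Ne, IsFractionRing.to_map_eq_zero_iff]; exact t1
  have hbK : al K b P ≠ 0 := by
    rw [al, Ne, IsFractionRing.to_map_eq_zero_iff]; exact t2
  have habK : al K a P ≠ al K b P := fun h => t3 (inj h)
  have hL := isE (al K a P) (al K b P) (Sep K) h2K haK hbK habK
  have elne : ∀ {r : k} (hr : r ≠ 0) (n : ι ⊕ Tau a b → ℕ),
      algebraMap k[X] K (el (RR a b P) r n) ≠ 0 := by
    intro r hr n
    rw [Ne, IsFractionRing.to_map_eq_zero_iff]
    exact el_ne hR hr n
  -- existence of a cocycle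
  have stepA : ∀ p : Sol (datum H) (AT P) (BT (QQ a b) P) (fun i => ((P i).natDegree : F2)),
      ∃ f : SelTwo k (crv (al K a P) (al K b P)), Qr K a b P p.1 f.1 := by
    rintro ⟨⟨⟨w, z⟩, x0⟩, h1, h2⟩
    obtain ⟨r0, hr0, c0⟩ := exists_ch H.hk x0.1
    obtain ⟨r1, hr1, c1⟩ := exists_ch H.hk x0.2
    let n0 : ι ⊕ Tau a b → ℕ := Sum.elim (fun i => (w i).1.val) (fun s => (z s • tv a b s).1.val)
    let n1 : ι ⊕ Tau a b → ℕ := Sum.elim (fun i => (w i).2.val) (fun s => (z s • tv a b s).2.val)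
    have hw : ∀ i, (((n0 (Sum.inl i) : F2), (n1 (Sum.inl i) : F2)) : W) = w i := by
      intro i
      exact Prod.ext (ZMod.natCast_zmod_val (w i).1) (ZMod.natCast_zmod_val (w i).2)
    have hz : ∀ s, (((n0 (Sum.inr s) : F2), (n1 (Sum.inr s) : F2)) : W) = z s • tv a b s := by
      intro s
      exact Prod.ext (ZMod.natCast_zmod_val (z s • tv a b s).1)
        (ZMod.natCast_zmod_val (z s • tv a b s).2)
    have hx : ((ch r0, ch r1) : W) = x0 := Prod.ext c0 c1
    have hl := lsg_of_sol (K := K) H hR hcl hN hr0 hr1 hw hz hx h1 h2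
    obtain ⟨f, f1, f2, f3⟩ := coc_of_pair (F := K) (crv (al K a P) (al K b P)) hL (elne hr0 n0)
      (elne hr1 n1)
    exact ⟨⟨f, f1, f2, (lsg_iff h2K haK hbK habK f2 f3).2 hl⟩, r0, r1, n0, n1, hr0, hr1, hw, hz, hx,
      f3⟩
  -- existence of a solution
  have stepB : ∀ f : SelTwo k (crv (al K a P) (al K b P)),
      ∃ p : Sol (datum H) (AT P) (BT (QQ a b) P) (fun i => ((P i).natDegree : F2)),
        Qr K a b P p.1 f.1 := by
    rintro ⟨f, f1, f2, f3⟩
    obtain ⟨t0, t1, a0, a1, m0, m1, g0, g1, g2, g3⟩ := kummer_rep (crv (al K a P) (al K b P)) hL f1 f2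
    have hrep : Rep (crv (al K a P) (al K b P)) (al K a P) f a0 a1 := ⟨t0, t1, m0, m1, g0, g1, g2, g3⟩
    have ha0 : a0 ≠ 0 := by
      rintro rfl
      rw [map_zero] at g0
      exact pow_ne_zero 2 m0 g0
    have ha1 : a1 ≠ 0 := by
      rintro rfl
      rw [map_zero] at g1
      exact pow_ne_zero 2 m1 g1
    have hls : LSg (F := K) k (crv (al K a P) (al K b P)) (al K a P) (al K b P) a0 a1 :=
      (lsg_iff h2K haK hbK habK f2 hrep).1 f3
    obtain ⟨t1', t2', t3'⟩ := tw_ne H hR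
    have hpar : ∀ v : HeightOneSpectrum k[X], a * b * (a - b) * ∏ i, P i ∉ v.asIdeal →
        IsSquare (v.valuation K a0) ∧ IsSquare (v.valuation K a1) := by
      intro v hv
      have hs := locR_fin hk2 t1' t2' t3' hls v
      have mm1 : a * ∏ i, P i ∉ v.asIdeal := by
        intro h
        apply hv
        have : a * b * (a - b) * ∏ i, P i = (b * (a - b)) * (a * ∏ i, P i) := by ring
        rw [this]
        exact v.asIdeal.mul_mem_left _ h
      have mm2 : b * ∏ i, P i ∉ v.asIdeal := by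
        intro h
        apply hv
        have : a * b * (a - b) * ∏ i, P i = (a * (a - b)) * (b * ∏ i, P i) := by ring
        rw [this]
        exact v.asIdeal.mul_mem_left _ h
      have mm3 : (a - b) * ∏ i, P i ∉ v.asIdeal := by
        intro h
        apply hv
        have : a * b * (a - b) * ∏ i, P i = (a * b) * ((a - b) * ∏ i, P i) := by ring
        rw [this]
        exact v.asIdeal.mul_mem_left _ h
      have q1 : v.valuation K (al K a P) = 1 := (valK_one v).2 mm1
      have q2 : v.valuation K (al K b P) = 1 := (valK_one v).2 mm2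
      have q3 : v.valuation K (al K a P - al K b P) = 1 := by
        rw [al, al, ← map_sub, ← sub_mul]
        exact (valK_one v).2 mm3
      have g := parR (wv_coe (F := K) v) hs (M := 1) sq_one one_ne_zero q1.le q2.le
      exact ⟨g.1 q1 q2, g.2.1 q1 q3⟩
    obtain ⟨r0, n0, c0, hr0, hc0, e0⟩ := dec1 H hR ha0 fun v hv => (hpar v hv).1
    obtain ⟨r1, n1, c1, hr1, hc1, e1⟩ := dec1 H hR ha1 fun v hv => (hpar v hv).2
    have hP := locP H hR hls hr0 hr1 hc0 hc1 e0 e1
    have hQ := locQ H hR hls hr0 hr1 hc0 hc1 e0 e1 hcl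
    choose z hz0 hz1 hz2 using hQ
    set w : V ι (Tau a b) := (fun i => ((n0 (Sum.inl i) : F2), (n1 (Sum.inl i) : F2)), z) with hw
    set x0 : W := (ch r0, ch r1) with hx0
    have hz1' : ∀ s, (((n0 (Sum.inr s) : F2), (n1 (Sum.inr s) : F2)) : W) = z s • tv a b s := hz1
    have E1z : ∀ i, E1 (A := AT P) (datum H) (BT (QQ a b) P) (fun i => ((P i).natDegree : F2)) w x0 i
        = 0 := by
      intro i
      obtain ⟨y, hy, hLW⟩ := hP i
      rw [LW_eq, LW_eq, rp_ch H] at hLW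
      simp only [np_inl, np_inr H, hz1'] at hLW
      apply E1_of (k := k)
      have hy' : w.1 i = y := hy
      rw [hy']
      have a1 : ∀ j, AT P i j = L (P j) (P i) := fun j => by rw [AT, L_comm H.hm]
      have a2 : ∀ s, BT (QQ a b) P i s = L (QQ a b s) (P i) := fun s => by rw [BT, L_comm H.hm]
      simp only [a1, a2]
      exact hLW
    have E2z : ∀ s, E2 (ι := ι) (datum H) (BT (QQ a b) P) w x0 s = 0 := by
      intro s
      have h1 := hz2 s
      rw [LW_eq] at h1
      simp only [hz1', om_add_left, om_sum_left, om_smul_left] at h1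
      apply E2_of
      have a1 : ∀ s', (datum H).G s s' = L (QQ a b s') (QQ a b s) := fun s' => L_comm H.hm _ _
      simp only [a1]
      exact h1
    exact ⟨⟨(w, x0), E1z, E2z⟩, r0, r1, n0, n1, hr0, hr1, fun i => rfl, hz1', rfl,
      rep_scale hrep ⟨c0, hc0, e0⟩ ⟨c1, hc1, e1⟩⟩
  -- uniqueness of the solution
  have stepC : ∀ (p p' : Sol (datum H) (AT P) (BT (QQ a b) P) (fun i => ((P i).natDegree : F2)))
      (f : SelTwo k (crv (al K a P) (al K b P))), Qr K a b P p.1 f.1 → Qr K a b P p'.1 f.1 →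
      p = p' := by
    rintro ⟨⟨⟨w, z⟩, x0⟩, h1, h2⟩ ⟨⟨⟨w', z'⟩, x0'⟩, h1', h2'⟩ f
      ⟨r0, r1, n0, n1, hr0, hr1, hw, hz, hx, hrep⟩ ⟨r0', r1', n0', n1', hr0', hr1', hw', hz', hx', hrep'⟩
    obtain ⟨q0, q1⟩ := rep_sq (F := K) (crv (al K a P) (al K b P)) hrep hrep'
    have par : ∀ x : ι ⊕ Tau a b, (((n0 x : F2), (n1 x : F2)) : W) = ((n0' x : F2), (n1' x : F2)) := by
      intro x
      exact Prod.ext
        (loc_el H.hk hR x hr0 hr0' n0 n0' (sqEq_map (algebraMap K _) q0)).1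
        (loc_el H.hk hR x hr1 hr1' n1 n1' (sqEq_map (algebraMap K _) q1)).1
    have ew : w = w' := by
      funext i
      exact (hw i).symm.trans ((par (Sum.inl i)).trans (hw' i))
    have ez : z = z' := by
      funext s
      by_cases ht : tv a b s = 0
      · exact (Sol_z (p := ((w, z), x0)) h2 (s := s) ht).trans
          (Sol_z (p := ((w', z'), x0')) h2' (s := s) ht).symm
      · have h3 : z s • tv a b s = z' s • tv a b s :=
          (hz s).symm.trans ((par (Sum.inr s)).trans (hz' s))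
        have h4 : ∀ (x x' : F2) (t : W), t ≠ 0 → x • t = x' • t → x = x' := by decide
        exact h4 _ _ _ ht h3
    have ex : x0 = x0' := by
      have e1 : x0 = _ := (ker_of_eqs hcl hA hN h1 h2).2.2
      have e2 : x0' = _ := (ker_of_eqs hcl hA hN h1' h2').2.2
      rw [e1, e2, ew, ez]
    subst ew
    subst ez
    subst ex
    rfl
  -- uniqueness of the cocycle
  have stepD : ∀ (p : Sol (datum H) (AT P) (BT (QQ a b) P) (fun i => ((P i).natDegree : F2)))
      (f f' : SelTwo k (crv (al K a P) (al K b P))), Qr K a b P p.1 f.1 → Qr K a b P p.1 f'.1 →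
      f = f' := by
    rintro ⟨⟨⟨w, z⟩, x0⟩, h1, h2⟩ f f'
      ⟨r0, r1, n0, n1, hr0, hr1, hw, hz, hx, hrep⟩ ⟨r0', r1', n0', n1', hr0', hr1', hw', hz', hx', hrep'⟩
    have par : ∀ x : ι ⊕ Tau a b, (((n0 x : F2), (n1 x : F2)) : W) = ((n0' x : F2), (n1' x : F2)) := by
      rintro (i | s)
      · exact (hw i).trans (hw' i).symm
      · exact (hz s).trans (hz' s).symm
    have hc : ((ch r0, ch r1) : W) = (ch r0', ch r1') := hx.trans hx'.symm
    apply Subtype.ext
    exact rep_unique (F := K) (crv (al K a P) (al K b P)) hL f.2.2.1 f'.2.2.1 hrep hrep'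
      (glob_el hR hr0 hr0' _ _ (fun x => congrArg Prod.fst (par x)) (congrArg Prod.fst hc))
      (glob_el hR hr1 hr1' _ _ (fun x => congrArg Prod.snd (par x)) (congrArg Prod.snd hc))
  choose Ψ hΨ using stepA
  symm
  refine Nat.card_congr (Equiv.ofBijective Ψ ⟨fun p p' h => ?_, fun f => ?_⟩)
  · exact stepC p p' (Ψ p) (hΨ p) (by rw [h]; exact hΨ p')
  · obtain ⟨p, hp⟩ := stepB f
    exact ⟨p, stepD p _ _ (hΨ p) hp⟩

end Q283.FS
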