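import Pool.Agent.Q283.FS.Tw
import Pool.Agent.Y164.PS.Cla

/-!
Sequences of multipliers.
-/

set_option autoImplicit false
set_option linter.all false

open scoped Classical

namespace Q283.FS

open Polynomial IsDedekindDomain WeierstrassCurve WeierstrassCurve.Affine Filter
open Pool.Agent.TH115.GD Pool.Agent.Y164.PS Pool.Agent.H341R2.Sharp Finset

/-- the degrees `n` with `n + N` odd -/
def degs (N : ℕ) : Filter ℕ := atTop ⊓ 𝓟 {n | Odd (n + N)}

theorem tendsto_par {β : Type} {l : Filter β} {f : ℕ → β} {N : ℕ}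
    (h : ∀ e : ℕ, Odd (e + N) → Tendsto (fun X : ℕ => f (2 * X + e)) atTop l) :
    Tendsto f (degs N) l := by
  obtain ⟨e, he, he1⟩ : ∃ e : ℕ, Odd (e + N) ∧ e ≤ 1 := by
    rcases Nat.even_or_odd N with h | h
    · exact ⟨1, h.one_add, le_rfl⟩
    · exact ⟨0, by rwa [zero_add], by omega⟩
  intro s hs
  have h1 := h e he hs
  rw [Filter.mem_map, mem_atTop_sets] at h1
  obtain ⟨X0, h1⟩ := h1
  rw [Filter.mem_map, degs, mem_inf_principal, mem_atTop_sets]
  refine ⟨2 * X0 + 1, fun n hn ho => ?_⟩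
  have ho : Odd (n + N) := ho
  have h2 : n = 2 * (n / 2) + e := by
    have h3 : n % 2 = e % 2 := by
      rw [Nat.odd_iff] at ho he
      omega
    omega
  have h3 := h1 (n / 2) (by omega)
  rw [Set.mem_preimage, ← h2] at h3
  exact h3

theorem par_cast {n N : ℕ} (h : Odd (n + N)) : (n : F2) + (N : F2) = 1 := by
  have : ((n + N : ℕ) : F2) = 1 := (ZMod.natCast_eq_one_iff_odd).2 h
  rw [← this]
  push_cast
  rfl

theorem par_odd (X : ℕ) {e N : ℕ} (h : Odd (e + N)) : Odd (2 * X + e + N) := by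
  rw [Nat.odd_iff] at h ⊢
  omega

section hyp

variable {k : Type} [Field k] [Fintype k] [DecidableEq k]

theorem mk_hyp (h2 : (2 : k) ≠ 0) (hi : IsSquare (-1 : k)) {a b : k[X]} {N : ℕ}
    (hco : IsCoprime a b) (da : a.natDegree = N) (db : b.natDegree = N) (dc : (a - b).natDegree = N)
    (s1 : ∀ (c : k) (h : k[X]), a * b ≠ C c * h ^ 2)
    (s2 : ∀ (c : k) (h : k[X]), a * (a - b) ≠ C c * h ^ 2) : Hyp a b N := by
  have ha0 : a ≠ 0 := by
    rintro rfl
    exact s1 0 0 (by simp)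
  have hb0 : b ≠ 0 := by
    rintro rfl
    exact s1 0 0 (by simp)
  have hab : a ≠ b := by
    rintro rfl
    exact s2 0 0 (by simp)
  have hchar : ringChar k ≠ 2 := by
    intro h
    apply h2
    have := ringChar.Nat.cast_ringChar (R := k)
    rw [h] at this
    exact_mod_cast this
  exact ⟨hchar, hi, ha0, hb0, hab, hco, da, db, dc⟩

theorem four_le (h2 : (2 : k) ≠ 0) (hi : IsSquare (-1 : k)) : 4 ≤ Fintype.card k := by
  by_contra hlt
  push Not at hlt
  obtain ⟨i, hi'⟩ := hi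
  have n0 : (0 : k) ≠ 1 := zero_ne_one
  have n1 : (1 : k) ≠ -1 := by
    intro h
    apply h2
    have : (2 : k) = 1 + 1 := by norm_num
    rw [this]
    nth_rewrite 2 [h]
    ring
  have i0 : i ≠ 0 := by
    rintro rfl
    rw [mul_zero] at hi'
    exact neg_ne_zero.2 one_ne_zero hi'
  have i1 : i ≠ 1 := by
    rintro rfl
    rw [mul_one] at hi'
    exact n1 hi'.symm
  have i2 : i ≠ -1 := by
    rintro rfl
    apply n1
    rw [hi']
    ring
  have hcard : ({0, 1, -1, i} : Finset k).card = 4 := by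
    rw [card_insert_of_notMem, card_insert_of_notMem, card_insert_of_notMem, card_singleton]
    · rw [mem_singleton]; exact fun h => i2 h.symm
    · rw [mem_insert, mem_singleton]
      push Not
      exact ⟨n1, fun h => i1 h.symm⟩
    · rw [mem_insert, mem_insert, mem_singleton]
      push Not
      exact ⟨n0, fun h => neg_ne_zero.2 one_ne_zero h.symm, fun h => i0 h.symm⟩
  have := card_le_univ ({0, 1, -1, i} : Finset k)
  rw [hcard] at this
  omega

variable {a b : k[X]} {N : ℕ} (H : Hyp a b N)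

include H in
theorem mem_Cn {n : ℕ} {D : k[X]} : D ∈ Cn a b n ↔ D ∈ cls a b n := by
  rw [Cn, mem_filter, mem_Sf, cla_iff H]
  show _ ↔ (_ ∧ _ ∧ _ ∧ _ ∧ _)
  tauto

include H in
theorem ncard_cls (n : ℕ) (P : k[X] → Prop) : {D ∈ cls a b n | P D}.ncard =
    ((Cn a b n).filter fun D => P D).card := by
  rw [← Set.ncard_coe_finset]
  congr 1
  ext D
  rw [Finset.mem_coe, mem_filter, mem_Cn H]
  rfl

include H in
theorem ncard_cls' (n : ℕ) : (cls a b n).ncard = (Cn a b n).card := by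
  rw [← Set.ncard_coe_finset]
  congr 1
  ext D
  rw [Finset.mem_coe, mem_Cn H]

theorem pf_inj {D D' : k[X]} (h1 : D.Monic) (h2 : Squarefree D) (h1' : D'.Monic)
    (h2' : Squarefree D') (h : pf D = pf D') : D = D' := by
  rw [← pf_prod h1 h2, ← pf_prod h1' h2', h]

include H in
theorem msk {M : ℕ} {m : Fin M → k[X]} (hm : ∀ κ, Mlt a b (m κ)) (hi : Function.Injective m) :
    Msk a b (fun κ => pf (m κ)) where
  mon κ P hP := ((mem_pf (hm κ).mon.ne_zero).1 hP).1
  irr κ P hP := ((mem_pf (hm κ).mon.ne_zero).1 hP).2.1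
  bad := by
    rintro κ P hP s rfl
    exact ((hm κ).sq _ (H.fam.irr s) ((mem_bp H).1 s.2).2.2).1
      ((mem_pf (hm κ).mon.ne_zero).1 hP).2.2
  even κ := by
    rw [← Nat.cast_sum, ← deg_pf (hm κ).mon (hm κ).sqf]
    exact (ZMod.natCast_eq_zero_iff_even).2 (hm κ).even
  inj := by
    intro κ κ' h
    exact hi (pf_inj (hm κ).mon (hm κ).sqf (hm κ').mon (hm κ').sqf h)

section law
variable (hq : 4 ≤ Fintype.card k) (h2t : ∀ u : W, u ≠ 0 → ∃ s, om u ((datum H).t s) ≠ 0)

include hq h2t in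
theorem ne_Cn {e : ℕ} (he : Odd (e + N)) : ∀ᶠ X : ℕ in atTop, (Cn a b (2 * X + e)).Nonempty := by
  obtain ⟨c, hc, hc'⟩ := Cn_lower H hq h2t
  have htop : Tendsto (fun X : ℕ => 2 * X + e) atTop atTop :=
    tendsto_atTop_mono (fun X => (show X ≤ 2 * X + e by omega)) tendsto_id
  filter_upwards [htop.eventually hc'] with X hX
  rw [← card_pos]
  have hq0 : (0 : ℝ) < Fintype.card k := by
    have : 0 < Fintype.card k := by omega
    exact_mod_cast this
  have : (0 : ℝ) < ((Cn a b (2 * X + e)).card : ℝ) :=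
    lt_of_lt_of_le (by positivity) (hX (par_cast (par_odd X he)))
  exact_mod_cast this

include hq h2t in
/-- the joint law for a sequence of multipliers -/
theorem law_seq {m : ℕ → k[X]} (hm : ∀ κ, Mlt a b (m κ)) (hi : Function.Injective m) {e : ℕ}
    (he : Odd (e + N)) :
    Q283.Bin.Law (fun X => Cn a b (2 * X + e)) (fun κ D => rr H (pf (m κ)) D) lw := by
  intro M f hf r
  exact law_Cn H (msk H (m := fun κ => m (f κ)) (fun κ => hm _) (fun x y h => hf (hi h))) hq h2t
    (par_cast he) r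

include hq h2t in
/-- the joint law for sets of vectors -/
theorem law_vec {M : ℕ} {m : Fin M → k[X]} (hm : ∀ κ, Mlt a b (m κ)) (hi : Function.Injective m)
    (T : Set (Fin M → ℕ)) {e : ℕ} (he : Odd (e + N)) :
    Tendsto (fun X : ℕ => (((Cn a b (2 * X + e)).filter fun D =>
      (fun κ => rr H (pf (m κ)) D) ∈ T).card : ℝ) / ((Cn a b (2 * X + e)).card : ℝ)) atTop
      (nhds (∑' r : T, ∏ κ, lw (r.1 κ))) := by
  have hs : HasSum (fun r : Fin M → ℕ => ∏ κ, lw (r κ)) 1 := by
    have h := Q283.T3B.hasSum_pi (M := M) (fun _ => lw) (fun _ => 1) (fun _ r => (lw_pos r).le)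
      (fun _ => sum_lw)
    rwa [prod_const_one] at h
  refine Q283.T3B.scheffe _ (fun D κ => rr H (pf (m κ)) D) (fun r => ∏ κ, lw (r κ)) hs
    (ne_Cn H hq h2t he) (fun r => ?_) T
  refine (law_Cn H (msk H hm hi) hq h2t (par_cast he) r).congr fun X => ?_
  congr 2
  exact Q283.Bin.fcc fun a _ => ⟨fun h => funext h, fun h κ => congrFun h κ⟩

end law

variable {K : Type} [Field K] [Algebra k[X] K] [IsFractionRing k[X] K]

include H in
/-- the arithmetic of the twist by `D m` -/
theorem arith {n : ℕ} {D m : k[X]} (hD : D ∈ Cn a b n) (hn : Odd (n + N)) (hm : Mlt a b m) :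
    Nat.card (SelTwo k (crv (algebraMap k[X] K (a * (D * m))) (algebraMap k[X] K (b * (D * m))))) =
      4 ^ (rr H (pf m) D + 1) ∧
    AddGroup.FG (Pt (crv (algebraMap k[X] K (a * (D * m))) (algebraMap k[X] K (b * (D * m)))) K) ∧
    Module.finrank ℤ (Pt (crv (algebraMap k[X] K (a * (D * m))) (algebraMap k[X] K (b * (D * m)))) K)
      ≤ 2 * rr H (pf m) D ∧
    (rr H (pf m) D = 0 ↔
      Finite (Pt (crv (algebraMap k[X] K (a * (D * m))) (algebraMap k[X] K (b * (D * m)))) K) ∧
      ShaTwo k (crv (algebraMap k[X] K (a * (D * m))) (algebraMap k[X] K (b * (D * m))))) := by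
  have h1 := sel_tw (K := K) H hD (par_cast hn) hm
  have hD1 : D.Monic := by
    rw [Cn, mem_filter, mem_Sf] at hD
    exact hD.1.1
  have h2 : (2 : k) ≠ 0 := two_ne H
  have hDm : D * m ≠ 0 := mul_ne_zero hD1.ne_zero hm.mon.ne_zero
  have hA : a * (D * m) ≠ 0 := mul_ne_zero H.ha hDm
  have hB : b * (D * m) ≠ 0 := mul_ne_zero H.hb hDm
  have hAB : a * (D * m) ≠ b * (D * m) := fun h => H.hab (mul_right_cancel₀ hDm h)
  obtain ⟨h3, h4⟩ := rank_sel (K := K) h2 hA hB hAB h1
  have h5 := sel_four_iff (K := K) h2 hA hB hAB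
  refine ⟨h1.trans (by rw [pow_succ, mul_comm]), h3, h4, ?_⟩
  rw [← h5, h1]
  constructor
  · intro h
    rw [h, pow_zero, mul_one]
  · intro h
    have h6 : (4 : ℕ) ^ rr H (pf m) D = 1 := by omega
    exact (Nat.pow_eq_one.1 h6).resolve_left (by norm_num)

end hyp

end Q283.FS
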