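import Pool.Agent.Q283.GM.Eul

/-!
The limit law of the half-dimensions of the kernels, and its moments.
-/

set_option autoImplicit false
set_option linter.all false

namespace Q283.FS

open Finset Filter
open Pool.Agent.Y697.PQ (cf cf_pos pm1 ij tri)
open Pool.Agent.Y703.CQ (c2)
open Q283.GS (al hasSum_al cf_mul al_pos)

theorem ij_sh (j r : ℕ) : ij (j + 1) (2 ^ (r + 1)) = (2 ^ (r + 1) - 1) * (2 ^ j * ij j (2 ^ r)) := by
  unfold ij
  rw [Finset.prod_range_succ']
  have e : ∀ i ∈ range j, ((2 : ℝ) ^ (r + 1) - 2 ^ (i + 1)) = 2 * (2 ^ r - 2 ^ i) := by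
    intro i _
    rw [pow_succ, pow_succ]
    ring
  rw [Finset.prod_congr rfl e, Finset.prod_mul_distrib, Finset.prod_const, Finset.card_range,
    pow_zero]
  ring

theorem al_sh (j r : ℕ) : al (r + 1) * ij (j + 1) (2 ^ (r + 1)) = 2 ^ j * (al r * ij j (2 ^ r)) := by
  rw [ij_sh]
  unfold al
  rw [← cf_mul r]
  ring

theorem al_zero (j : ℕ) : al 0 * ij (j + 1) (2 ^ 0) = 0 := by
  unfold ij
  rw [Finset.prod_range_succ', pow_zero, sub_self, mul_zero, mul_zero]

theorem al_ij (j : ℕ) : HasSum (fun r => al r * ij j (2 ^ r)) (2 ^ (j * (j - 1) / 2)) := by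
  induction j with
  | zero =>
    have : (fun r : ℕ => al r * ij 0 (2 ^ r)) = al := by
      funext r
      simp [ij]
    rw [this]
    simpa using hasSum_al
  | succ j ih =>
    have h1 := ih.mul_left ((2 : ℝ) ^ j)
    rw [← hasSum_nat_add_iff' 1, Finset.sum_range_one, al_zero, sub_zero, tri, pow_add,
      mul_comm ((2 : ℝ) ^ (j * (j - 1) / 2))]
    refine h1.congr_fun ?_
    intro r
    exact al_sh j r

/-- the law -/
noncomputable def lw (s : ℕ) : ℝ := c2 * (4 ^ s * cf (2 * s))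

theorem c2_pos : 0 < c2 := lt_trans (by norm_num) Pool.Agent.Y948.CQ.t_C2.2.2.2.1

theorem lw_pos (s : ℕ) : 0 < lw s := mul_pos c2_pos (mul_pos (by positivity) (cf_pos _))

theorem lw_ij (j : ℕ) : HasSum (fun s => lw s * ij j (4 ^ s)) (2 ^ (j * (j + 1) / 2)) := by
  have inj0 : Function.Injective fun k : ℕ => 2 * k := fun a b h => by
    have : 2 * a = 2 * b := h
    omega
  have inj1 : Function.Injective fun k : ℕ => 2 * k + 1 := fun a b h => by
    have : 2 * a + 1 = 2 * b + 1 := h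
    omega
  have hE : ∀ j, Summable fun k : ℕ => al (2 * k) * ij j (2 ^ (2 * k)) := fun j =>
    (al_ij j).summable.comp_injective inj0
  have hO : ∀ j, Summable fun k : ℕ => al (2 * k + 1) * ij j (2 ^ (2 * k + 1)) := fun j =>
    (al_ij j).summable.comp_injective inj1
  have h1 : (∑' k : ℕ, al (2 * k) * ij j (2 ^ (2 * k))) +
      ∑' k : ℕ, al (2 * k + 1) * ij j (2 ^ (2 * k + 1)) = 2 ^ (j * (j - 1) / 2) :=
    HasSum.unique (HasSum.even_add_odd (f := fun r : ℕ => al r * ij j (2 ^ r)) (hE j).hasSum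
      (hO j).hasSum) (al_ij j)
  have h2 : HasSum (fun k : ℕ => al (2 * k) * ij (j + 1) (2 ^ (2 * k)))
      (2 ^ j * ∑' k : ℕ, al (2 * k + 1) * ij j (2 ^ (2 * k + 1))) := by
    rw [← hasSum_nat_add_iff' 1, Finset.sum_range_one]
    have e0 : al (2 * 0) * ij (j + 1) (2 ^ (2 * 0)) = 0 := al_zero j
    rw [e0, sub_zero]
    refine ((hO j).hasSum.mul_left _).congr_fun ?_
    intro k
    have := al_sh j (2 * k + 1)
    exact this
  have h3 := h2.add ((hE j).hasSum.mul_left ((2 : ℝ) ^ j))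
  rw [← mul_add, add_comm (∑' k : ℕ, al (2 * k + 1) * ij j (2 ^ (2 * k + 1))), h1, ← pow_add] at h3
  have e : j + j * (j - 1) / 2 = j * (j + 1) / 2 := by
    have := tri j
    rw [add_comm, ← this]
    congr 1
    rw [Nat.add_sub_cancel]
    ring
  rw [e] at h3
  refine h3.congr_fun ?_
  intro s
  have e4 : (4 : ℝ) ^ s = 2 ^ (2 * s) := by
    rw [pow_mul]
    norm_num
  have e5 : ij (j + 1) ((2 : ℝ) ^ (2 * s)) = ij j (2 ^ (2 * s)) * (2 ^ (2 * s) - 2 ^ j) := by
    unfold ij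
    rw [Finset.prod_range_succ]
  show lw s * ij j (4 ^ s) = al (2 * s) * ij (j + 1) (2 ^ (2 * s)) +
    2 ^ j * (al (2 * s) * ij j (2 ^ (2 * s)))
  rw [e5, lw, e4]
  unfold al
  ring

theorem sum_lw : HasSum lw 1 := by
  have h := lw_ij 0
  have : (fun s : ℕ => lw s * ij 0 (4 ^ s)) = lw := by
    funext r
    simp [ij]
  rw [this] at h
  simpa using h

theorem lw_le (s : ℕ) : lw s ≤ 1 :=
  le_hasSum sum_lw s fun k _ => (lw_pos k).le

end Q283.FS
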