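import Mathlib

/-!
The rank of a group and its quotient modulo two.
-/

set_option autoImplicit false
set_option linter.all false

open scoped Classical

namespace Q283.FS

theorem card_half {T : Type} [AddCommGroup T] [Finite T] :
    Nat.card (T ⧸ (nsmulAddMonoidHom (α := T) 2).range) = Nat.card (nsmulAddMonoidHom (α := T) 2).ker := by
  have h1 := (nsmulAddMonoidHom (α := T) 2).ker.card_mul_index
  rw [AddSubgroup.index_ker] at h1
  have h2 := (nsmulAddMonoidHom (α := T) 2).range.card_mul_index
  have h3 : 0 < Nat.card (nsmulAddMonoidHom (α := T) 2).range := Nat.card_pos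
  have h4 : Nat.card (T ⧸ (nsmulAddMonoidHom (α := T) 2).range) =
    (nsmulAddMonoidHom (α := T) 2).range.index := rfl
  rw [h4]
  apply Nat.eq_of_mul_eq_mul_left h3
  rw [h2, ← h1, mul_comm]

theorem four_rank {G : Type} [AddCommGroup G] (hG : AddGroup.FG G) {X : Type} [Finite X] (f : G → X)
    (hf : ∀ P Q, f P = f Q → ∃ R, P = Q + (R + R)) :
    Nat.card {T : G // T + T = 0} * 2 ^ Module.finrank ℤ G ≤ Nat.card X := by
  have : Module.Finite ℤ G := Module.Finite.iff_addGroup_fg.mpr hG
  let M := G ⧸ Submodule.torsion ℤ G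
  have hr : Module.finrank ℤ M = Module.finrank ℤ G :=
    finrank_quotient_eq_of_le_torsion le_rfl
  rw [← hr]
  have : Module.Finite ℤ M := inferInstance
  have : Module.Free ℤ M := inferInstance
  let r := Module.finrank ℤ M
  let b : Module.Basis (Fin r) ℤ M := Module.finBasis ℤ M
  let φ : G → (Fin r → ZMod 2) := fun g i =>
    ((b.repr ((Submodule.torsion ℤ G).mkQ g) i : ℤ) : ZMod 2)
  have hφadd : ∀ g h, φ (g + h) = φ g + φ h := by
    intro g h
    ext i
    simp [φ]
  have hφsurj : Function.Surjective φ := by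
    intro v
    obtain ⟨g, hg⟩ := (Submodule.torsion ℤ G).mkQ_surjective
      (b.equivFun.symm (fun i => ((v i).val : ℤ)))
    refine ⟨g, ?_⟩
    ext i
    simp only [φ, hg]
    rw [← Module.Basis.equivFun_apply, LinearEquiv.apply_symm_apply]
    simp
  have hφtor : ∀ t : Submodule.torsion ℤ G, φ t = 0 := by
    intro t
    ext i
    have : (Submodule.torsion ℤ G).mkQ (t : G) = 0 := by
      rw [Submodule.mkQ_apply, Submodule.Quotient.mk_eq_zero]
      exact t.2
    simp only [φ, this, map_zero]
    simp
  have h2 : ∀ v : Fin r → ZMod 2, v + v = 0 := fun v => by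
    ext i
    exact CharTwo.add_self_eq_zero (v i)
  -- the torsion subgroup
  haveI hfinN : Finite (Submodule.torsion ℤ G) :=
    Module.finite_of_fg_torsion _ Submodule.torsion_isTorsion
  choose s hs using hφsurj
  let N := Submodule.torsion ℤ G
  let Q := N ⧸ (nsmulAddMonoidHom (α := N) 2).range
  have hsurj : Function.Surjective (QuotientAddGroup.mk (s := (nsmulAddMonoidHom (α := N) 2).range)) :=
    QuotientAddGroup.mk_surjective
  choose t ht using hsurj
  let g : (Fin r → ZMod 2) × Q → X := fun p => f (s p.1 + (t p.2 : G))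
  have hg : Function.Injective g := by
    rintro ⟨v, z⟩ ⟨v', z'⟩ h
    obtain ⟨R, hR⟩ := hf _ _ h
    have hR' : s v + (t z : G) = s v' + (t z' : G) + (R + R) := hR
    have e1 : v = v' := by
      have h3 := congrArg φ hR'
      rw [hφadd, hφadd, hφadd, hφadd, hφtor, hφtor, hs, hs, h2, add_zero, add_zero, add_zero] at h3
      exact h3
    subst e1
    have e2 : ((t z - t z' : N) : G) = R + R := by
      rw [Submodule.coe_sub]
      have h3 : (t z : G) = (t z' : G) + (R + R) := by
        have h4 : s v + (t z : G) = s v + ((t z' : G) + (R + R)) := by rw [hR']; abel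
        exact add_left_cancel h4
      rw [h3]
      abel
    have hRt : R ∈ N := by
      have h3 : (R + R) ∈ N := by rw [← e2]; exact (t z - t z' : N).2
      rw [Submodule.mem_torsion_iff] at h3 ⊢
      obtain ⟨a, ha⟩ := h3
      refine ⟨a * ⟨2, mem_nonZeroDivisors_of_ne_zero two_ne_zero⟩, ?_⟩
      have h4 : ((a * ⟨2, mem_nonZeroDivisors_of_ne_zero two_ne_zero⟩ : nonZeroDivisors ℤ)) • R =
        a • (R + R) := by
        rw [mul_smul]
        congr 1
        exact two_zsmul R
      rw [h4, ha]
    have e3 : z = z' := by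
      rw [← ht z, ← ht z', QuotientAddGroup.eq]
      refine ⟨-⟨R, hRt⟩, ?_⟩
      rw [nsmulAddMonoidHom_apply, two_nsmul]
      apply Subtype.ext
      show -R + -R = (-(t z : G) + (t z' : G))
      have h3 : (t z : G) - (t z' : G) = R + R := e2
      have h4 : (t z : G) = (t z' : G) + (R + R) := by rw [← h3]; abel
      rw [h4]
      abel
    rw [e3]
  have hcard := Nat.card_le_card_of_injective g hg
  rw [Nat.card_prod, Nat.card_eq_fintype_card (α := Fin r → ZMod 2), Fintype.card_fun, ZMod.card,
    Fintype.card_fin, card_half] at hcard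
  have hker : Nat.card {T : G // T + T = 0} ≤ Nat.card (nsmulAddMonoidHom (α := N) 2).ker := by
    have hmem : ∀ T : G, T + T = 0 → T ∈ N := by
      intro T hT
      rw [Submodule.mem_torsion_iff]
      exact ⟨⟨2, mem_nonZeroDivisors_of_ne_zero two_ne_zero⟩, by
        show (2 : ℤ) • T = 0
        rw [two_zsmul, hT]⟩
    refine Nat.card_le_card_of_injective (fun T => ⟨⟨T.1, hmem T.1 T.2⟩, ?_⟩) ?_
    · rw [AddMonoidHom.mem_ker, nsmulAddMonoidHom_apply, two_nsmul]
      exact Subtype.ext T.2
    · intro T T' h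
      exact Subtype.ext (congrArg (fun z : (nsmulAddMonoidHom (α := N) 2).ker => z.1.1) h)
  calc Nat.card {T : G // T + T = 0} * 2 ^ r ≤
      Nat.card (nsmulAddMonoidHom (α := N) 2).ker * 2 ^ r := Nat.mul_le_mul_right _ hker
    _ = 2 ^ r * Nat.card (nsmulAddMonoidHom (α := N) 2).ker := mul_comm _ _
    _ ≤ Nat.card X := hcard

end Q283.FS
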