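import Pool.Agent.Y164.PS.Ht
import Pool.Agent.TH115.SK.ShaK

/-!
The Mordell-Weil theorem for `y ^ 2 = x (x - A) (x - B)` over `k(t)`, `k` a finite field.
-/

set_option autoImplicit false
set_option linter.all false

open scoped Classical

namespace Q283.FS

open Polynomial WeierstrassCurve WeierstrassCurve.Affine
open Pool.Agent.TH115.GD Pool.Agent.Y164.PS

variable {k K : Type} [Field k] [Field K] [Algebra k[X] K] [IsFractionRing k[X] K]

theorem ht_le {p q : k[X]} (hq : q ≠ 0) {n : ℕ} (h1 : p.natDegree ≤ n) (h2 : q.natDegree ≤ n) :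
    ht k (algebraMap k[X] K p / algebraMap k[X] K q) ≤ n := by
  obtain ⟨g, -, -, -, h, -⟩ := ht_quot (k := k) (K := K) (p := p) hq
  exact h.trans (max_le h1 h2)

theorem ht_rep (x : K) : ∃ p q : k[X], q ≠ 0 ∧ x = algebraMap k[X] K p / algebraMap k[X] K q ∧
    p.natDegree ≤ ht k x ∧ q.natDegree ≤ ht k x := by
  refine ⟨IsFractionRing.num k[X] x, (IsFractionRing.den k[X] x : k[X]),
    nonZeroDivisors.coe_ne_zero _, ?_, le_max_left _ _, le_max_right _ _⟩
  exact (IsFractionRing.mk'_num_den' k[X] x).symm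

theorem amne {q : k[X]} (hq : q ≠ 0) : algebraMap k[X] K q ≠ 0 := by
  rw [Ne, IsFractionRing.to_map_eq_zero_iff]
  exact hq

theorem ht_mul (x y : K) : ht k (x * y) ≤ ht k x + ht k y := by
  obtain ⟨p, q, hq, e, h1, h2⟩ := ht_rep (k := k) x
  obtain ⟨p', q', hq', e', h1', h2'⟩ := ht_rep (k := k) y
  have : x * y = algebraMap k[X] K (p * p') / algebraMap k[X] K (q * q') := by
    rw [map_mul, map_mul, ← div_mul_div_comm, ← e, ← e']
  rw [this]
  exact ht_le (mul_ne_zero hq hq') (dm h1 h1') (dm h2 h2')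

theorem ht_add (x y : K) : ht k (x + y) ≤ ht k x + ht k y := by
  obtain ⟨p, q, hq, e, h1, h2⟩ := ht_rep (k := k) x
  obtain ⟨p', q', hq', e', h1', h2'⟩ := ht_rep (k := k) y
  have : x + y = algebraMap k[X] K (p * q' + q * p') / algebraMap k[X] K (q * q') := by
    rw [map_add, map_mul, map_mul, map_mul]
    conv_lhs => rw [e, e', div_add_div _ _ (amne hq) (amne hq')]
  rw [this]
  exact ht_le (mul_ne_zero hq hq') (dad (dm h1 h2') (dm h2 h1')) (dm h2 h2')

theorem ht_sub (x y : K) : ht k (x - y) ≤ ht k x + ht k y := by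
  obtain ⟨p, q, hq, e, h1, h2⟩ := ht_rep (k := k) x
  obtain ⟨p', q', hq', e', h1', h2'⟩ := ht_rep (k := k) y
  have : x - y = algebraMap k[X] K (p * q' - q * p') / algebraMap k[X] K (q * q') := by
    rw [map_sub, map_mul, map_mul, map_mul]
    conv_lhs => rw [e, e', div_sub_div _ _ (amne hq) (amne hq')]
  rw [this]
  exact ht_le (mul_ne_zero hq hq') (dsb (dm h1 h2') (dm h2 h1')) (dm h2 h2')

theorem ht_div (x y : K) : ht k (x / y) ≤ ht k x + ht k y := by
  by_cases hy : y = 0
  · rw [hy, div_zero, ht_zero]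
    exact Nat.zero_le _
  obtain ⟨p, q, hq, e, h1, h2⟩ := ht_rep (k := k) x
  obtain ⟨p', q', hq', e', h1', h2'⟩ := ht_rep (k := k) y
  have hp' : p' ≠ 0 := by
    rintro rfl
    rw [map_zero, zero_div] at e'
    exact hy e'
  have : x / y = algebraMap k[X] K (p * q') / algebraMap k[X] K (q * p') := by
    rw [map_mul, map_mul]
    conv_lhs => rw [e, e', div_div_div_eq]
  rw [this]
  exact ht_le (mul_ne_zero hq hp') (dm h1 h2') (dm h2 h1')

theorem ht_sq (y : K) : 2 * ht k y ≤ ht k (y ^ 2) := by
  set n := IsFractionRing.num k[X] y with hn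
  set d := (IsFractionRing.den k[X] y : k[X]) with hd
  have hd0 : d ≠ 0 := nonZeroDivisors.coe_ne_zero _
  have hrel : IsRelPrime n d := IsFractionRing.num_den_reduced k[X] y
  have e : y ^ 2 = algebraMap k[X] K (n ^ 2) / algebraMap k[X] K (d ^ 2) := by
    rw [map_pow, map_pow, ← div_pow]
    congr 1
    exact (IsFractionRing.mk'_num_den' k[X] y).symm
  obtain ⟨g, g1, g2, g3, -, g5⟩ := ht_quot (k := k) (K := K) (p := n ^ 2) (pow_ne_zero 2 hd0)
  rw [← e] at g5
  have hu : IsUnit g := (hrel.pow (m := 2) (n := 2)) g1 g2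
  have hg0 : g.natDegree = 0 := natDegree_eq_zero_of_isUnit hu
  rw [hg0, add_zero, natDegree_pow, natDegree_pow] at g5
  refine le_trans ?_ g5
  show 2 * max n.natDegree d.natDegree ≤ _
  rw [Nat.mul_max_mul_left]

/-- the height of a translate -/
theorem hp_add {A B : k[X]} (h2 : (2 : k) ≠ 0) (hA : A ≠ 0) (hB : B ≠ 0) (hAB : A ≠ B)
    (Q : Pt (crv (algebraMap k[X] K A) (algebraMap k[X] K B)) K) : ∃ c : ℕ,
    ∀ P : Pt (crv (algebraMap k[X] K A) (algebraMap k[X] K B)) K, hp (P + Q) ≤ 6 * hp P + c := by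
  have h2K : (2 : K) ≠ 0 := tt h2
  have inj := IsFractionRing.injective k[X] K
  have hABK : algebraMap k[X] K A ≠ algebraMap k[X] K B := fun h => hAB (inj h)
  have hE := isE (algebraMap k[X] K A) (algebraMap k[X] K B) K h2K (amne hA) (amne hB) hABK
  rcases Q with _ | ⟨x2, y2, hxy2⟩
  · refine ⟨0, fun P => ?_⟩
    have : P + (Point.zero : Pt (crv (algebraMap k[X] K A) (algebraMap k[X] K B)) K) = P := add_zero P
    rw [this]
    omega
  set Q : Pt (crv (algebraMap k[X] K A) (algebraMap k[X] K B)) K := Point.some x2 y2 hxy2 with hQ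
  set cA := ht k (algebraMap k[X] K A) with hcA
  set cB := ht k (algebraMap k[X] K B) with hcB
  refine ⟨hp (Q + Q) + hp Q + 2 * ht k y2 + 3 * ht k x2 + 2 * cA + 2 * cB + 3 * ht k x2, fun P => ?_⟩
  rcases P with _ | ⟨x1, y1, hxy1⟩
  · have : (Point.zero : Pt (crv (algebraMap k[X] K A) (algebraMap k[X] K B)) K) + Q = Q := zero_add Q
    rw [this]
    omega
  · have q1 : y1 ^ 2 = x1 * (x1 - algebraMap k[X] K A) * (x1 - algebraMap k[X] K B) :=
      hE.nonsingular.1 hxy1
    have q2 : y2 ^ 2 = x2 * (x2 - algebraMap k[X] K A) * (x2 - algebraMap k[X] K B) :=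
      hE.nonsingular.1 hxy2
    have hy1 : 2 * ht k y1 ≤ 3 * ht k x1 + cA + cB := by
      refine (ht_sq y1).trans ?_
      rw [q1]
      have g1 := ht_mul (k := k) (x1 * (x1 - algebraMap k[X] K A)) (x1 - algebraMap k[X] K B)
      have g2 := ht_mul (k := k) x1 (x1 - algebraMap k[X] K A)
      have g3 := ht_sub (k := k) x1 (algebraMap k[X] K A)
      have g4 := ht_sub (k := k) x1 (algebraMap k[X] K B)
      omega
    by_cases hx : x1 = x2
    · subst hx
      have h3 : y1 ^ 2 = y2 ^ 2 := by rw [q1, q2]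
      rcases sq_eq_sq_iff_eq_or_eq_neg.1 h3 with h | h
      · subst h
        show hp (Q + Q) ≤ _
        omega
      · have h4 : (Point.some x1 y1 hxy1 : Pt (crv (algebraMap k[X] K A) (algebraMap k[X] K B)) K) + Q
            = 0 := by
          rw [hQ]
          apply Point.add_of_Y_eq rfl
          rw [hE.negY, h]
        rw [h4]
        show (0 : ℕ) ≤ _
        exact Nat.zero_le _
    · have h4 : (Point.some x1 y1 hxy1 : Pt (crv (algebraMap k[X] K A) (algebraMap k[X] K B)) K) + Q =
          Point.some _ _ (nonsingular_add hxy1 hxy2 fun hxy => hx hxy.left) := Point.add_of_X_ne hx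
      rw [h4]
      show ht k _ ≤ 6 * ht k x1 + _
      rw [slope_of_X_ne hx, addX, hE.a1, hE.a2, zero_mul, add_zero, sub_neg_eq_add]
      show ht k (((y1 - y2) / (x1 - x2)) ^ 2 + (algebraMap k[X] K A + algebraMap k[X] K B) - x1 - x2) ≤ _
      have g1 := ht_sub (k := k) (((y1 - y2) / (x1 - x2)) ^ 2 +
        (algebraMap k[X] K A + algebraMap k[X] K B) - x1) x2
      have g2 := ht_sub (k := k) (((y1 - y2) / (x1 - x2)) ^ 2 +
        (algebraMap k[X] K A + algebraMap k[X] K B)) x1
      have g3 := ht_add (k := k) (((y1 - y2) / (x1 - x2)) ^ 2)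
        (algebraMap k[X] K A + algebraMap k[X] K B)
      have g4 := ht_add (k := k) (algebraMap k[X] K A) (algebraMap k[X] K B)
      have g5 := ht_mul (k := k) ((y1 - y2) / (x1 - x2)) ((y1 - y2) / (x1 - x2))
      rw [← pow_two] at g5
      have g6 := ht_div (k := k) (y1 - y2) (x1 - x2)
      have g7 := ht_sub (k := k) y1 y2
      have g8 := ht_sub (k := k) x1 x2
      omega

/-- the height of twice a point -/
theorem hp_dbl {A B : k[X]} (h2 : (2 : k) ≠ 0) (hA : A ≠ 0) (hB : B ≠ 0) (hAB : A ≠ B) : ∃ C : ℕ,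
    ∀ R : Pt (crv (algebraMap k[X] K A) (algebraMap k[X] K B)) K, 4 * hp R ≤ hp (R + R) + C := by
  have inj := IsFractionRing.injective k[X] K
  have h2K : (2 : K) ≠ 0 := by
    have : algebraMap k[X] K (C 2) = 2 := by rw [C_ofNat]; exact map_ofNat _ _
    rw [← this]
    simpa using h2
  have hAK : algebraMap k[X] K A ≠ 0 := by simpa using hA
  have hBK : algebraMap k[X] K B ≠ 0 := by simpa using hB
  have hABK : algebraMap k[X] K A ≠ algebraMap k[X] K B := fun h => hAB (inj h)
  have hE := isE (algebraMap k[X] K A) (algebraMap k[X] K B) K h2K hAK hBK hABK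
  set C := 10 * (A.natDegree + B.natDegree) with hC
  have dbl : ∀ R : Pt (crv (algebraMap k[X] K A) (algebraMap k[X] K B)) K,
      4 * hp R ≤ hp (R + R) + C ∧ hp (R + R) ≤ 4 * hp R + C := by
    intro R
    by_cases h0 : R + R = 0
    · have h1 : hp (R + R) = 0 := by rw [h0]; rfl
      rw [h1]
      refine ⟨?_, Nat.zero_le _⟩
      rcases R with _ | ⟨x, y, hxy⟩
      · exact Nat.zero_le _
      · have hy := (add_self_eq_zero_iff hE hxy).1 h0
        have he := hE.nonsingular.1 hxy
        rw [hy] at he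
        have he' : x * (x - algebraMap k[X] K A) * (x - algebraMap k[X] K B) = 0 := by
          rw [← show (algebraMap K K (algebraMap k[X] K A)) = algebraMap k[X] K A from rfl]
          rw [← show (algebraMap K K (algebraMap k[X] K B)) = algebraMap k[X] K B from rfl]
          rw [← he]; ring
        show 4 * ht k x ≤ _
        have hle : ht k x ≤ A.natDegree + B.natDegree := by
          rcases mul_eq_zero.1 he' with h3 | h3
          · rcases mul_eq_zero.1 h3 with h4 | h4
            · rw [h4, ht_zero]; omega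
            · rw [sub_eq_zero.1 h4]
              exact (ht_map A).trans (by omega)
          · rw [sub_eq_zero.1 h3]
            exact (ht_map B).trans (by omega)
        omega
    · obtain ⟨X, Y, hQ, e1, e2, -⟩ := double hE h0
      rcases R with _ | ⟨x, y, hxy⟩
      · exact absurd (add_zero _) h0
      · have hy : y ≠ 0 := fun hy => h0 ((add_self_eq_zero_iff hE hxy).2 hy)
        have he := hE.nonsingular.1 hxy
        have he' : y ^ 2 = x * (x - algebraMap k[X] K A) * (x - algebraMap k[X] K B) := he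
        have h3 := ht_double (k := k) (K := K) h2 hA hB hAB x (by rw [← he']; exact pow_ne_zero _ hy)
        have h4 : X = (x ^ 2 - algebraMap k[X] K A * algebraMap k[X] K B) ^ 2 /
            (4 * (x * (x - algebraMap k[X] K A) * (x - algebraMap k[X] K B))) := by
          have h4K : (4 : K) ≠ 0 := by
            have : (4 : K) = 2 * 2 := by norm_num
            rw [this]
            exact mul_ne_zero h2K h2K
          rw [← he', ← e2]
          simp only [r0, rt]
          show (((x - 0) ^ 2 - algebraMap k[X] K A * algebraMap k[X] K B) / (2 * y)) ^ 2 = _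
          field_simp
          ring
        rw [e1]
        show 4 * ht k x ≤ ht k X + C ∧ ht k X ≤ 4 * ht k x + C
        rw [h4]
        exact h3
  exact ⟨C, fun R => (dbl R).1⟩

/-- there are finitely many points of bounded height -/
theorem hp_fin [Finite k] {A B : k[X]} (h2 : (2 : k) ≠ 0) (hA : A ≠ 0) (hB : B ≠ 0) (hAB : A ≠ B)
    (C : ℕ) : {P : Pt (crv (algebraMap k[X] K A) (algebraMap k[X] K B)) K | hp P ≤ C}.Finite := by
  have inj := IsFractionRing.injective k[X] K
  have h2K : (2 : K) ≠ 0 := tt h2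
  have hABK : algebraMap k[X] K A ≠ algebraMap k[X] K B := fun h => hAB (inj h)
  have hE := isE (algebraMap k[X] K A) (algebraMap k[X] K B) K h2K (amne hA) (amne hB) hABK
  have hfx := ht_fin (k := k) (K := K) C
  apply Set.Finite.of_finite_fibers
    (fun P : Pt (crv (algebraMap k[X] K A) (algebraMap k[X] K B)) K =>
      (match P with | .zero => none | .some x _ _ => some x : Option K))
  · apply ((hfx.image some).union (Set.finite_singleton none)).subset
    rintro o ⟨P, hP, rfl⟩
    rcases P with _ | ⟨x, y, hxy⟩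
    · right; rfl
    · left; exact ⟨x, hP, rfl⟩
  · intro o ho
    rcases o with _ | x
    · apply (Set.finite_singleton (0 : Pt (crv (algebraMap k[X] K A) (algebraMap k[X] K B)) K)).subset
      rintro P ⟨-, hP⟩
      rcases P with _ | ⟨x, y, hxy⟩
      · rfl
      · cases hP
    · have hroots : {y : K | y ^ 2 = x * (x - algebraMap k[X] K A) * (x - algebraMap k[X] K B)}.Finite := by
        set c := x * (x - algebraMap k[X] K A) * (x - algebraMap k[X] K B) with hc
        by_cases hy : ∃ y0 : K, y0 ^ 2 = c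
        · obtain ⟨y0, hy0⟩ := hy
          apply (Set.toFinite ({y0, -y0} : Set K)).subset
          intro y hy
          have : y ^ 2 = y0 ^ 2 := by rw [hy0]; exact hy
          rcases sq_eq_sq_iff_eq_or_eq_neg.1 this with h | h
          · left; exact h
          · right; exact h
        · apply Set.finite_empty.subset
          intro y hy'
          exact hy ⟨y, hy'⟩
      apply Set.Finite.of_finite_image (f := fun P : Pt (crv (algebraMap k[X] K A)
        (algebraMap k[X] K B)) K => (match P with | .zero => 0 | .some _ y _ => y : K))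
      · apply hroots.subset
        rintro y ⟨P, ⟨-, hP⟩, rfl⟩
        rcases P with _ | ⟨x', y, hxy⟩
        · cases hP
        · have hx' : x' = x := Option.some.inj hP
          subst hx'
          exact hE.nonsingular.1 hxy
      · rintro P ⟨-, hP⟩ P' ⟨-, hP'⟩ hyy
        rcases P with _ | ⟨x1, y1, hxy1⟩
        · cases hP
        · rcases P' with _ | ⟨x2, y2, hxy2⟩
          · cases hP'
          · have e1 : x1 = x := Option.some.inj hP
            have e2 : x2 = x := Option.some.inj hP'
            have e3 : y1 = y2 := hyy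
            subst e1 e3
            subst e2
            rfl

/-- **Mordell-Weil** -/
theorem fg_pt [Finite k] {A B : k[X]} (h2 : (2 : k) ≠ 0) (hA : A ≠ 0) (hB : B ≠ 0) (hAB : A ≠ B)
    {S : Set (Pt (crv (algebraMap k[X] K A) (algebraMap k[X] K B)) K)} (hS : S.Finite)
    (hcov : ∀ P : Pt (crv (algebraMap k[X] K A) (algebraMap k[X] K B)) K, ∃ s ∈ S, ∃ R, P = s + (R + R)) :
    AddGroup.FG (Pt (crv (algebraMap k[X] K A) (algebraMap k[X] K B)) K) := by
  obtain ⟨C, hC⟩ := hp_dbl (K := K) h2 hA hB hAB
  have hadd := hp_add (K := K) h2 hA hB hAB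
  choose c hc using hadd
  haveI : Northcott (fun P : Pt (crv (algebraMap k[X] K A) (algebraMap k[X] K B)) K => (hp P : ℝ)) := by
    refine ⟨fun b => ?_⟩
    apply (hp_fin (K := K) h2 hA hB hAB ⌊b⌋₊).subset
    intro P hP
    have hP' : (hp P : ℝ) ≤ b := hP
    exact Nat.le_floor hP'
  refine AddCommGroup.fg_of_descent (n := 4)
    (h := fun P : Pt (crv (algebraMap k[X] K A) (algebraMap k[X] K B)) K => (hp P : ℝ))
    (a := 6) (b := 16) (c₀ := 5 * C) (c := fun Q => (c (-Q) : ℝ)) (by norm_num) (by norm_num) ?_ ?_ ?_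
  · rw [AddSubgroup.finiteIndex_iff_finite_quotient]
    haveI := hS.to_subtype
    have hsurj : Function.Surjective (fun u : S × S =>
        (QuotientAddGroup.mk (s := (nsmulAddMonoidHom
          (α := Pt (crv (algebraMap k[X] K A) (algebraMap k[X] K B)) K) 4).range)
          (u.1.1 + (u.2.1 + u.2.1)))) := by
      intro q
      obtain ⟨P, rfl⟩ := QuotientAddGroup.mk_surjective q
      obtain ⟨s, hs, R, hR⟩ := hcov P
      obtain ⟨s', hs', R', hR'⟩ := hcov R
      refine ⟨(⟨s, hs⟩, ⟨s', hs'⟩), ?_⟩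
      rw [QuotientAddGroup.eq]
      refine ⟨R', ?_⟩
      rw [nsmulAddMonoidHom_apply, hR, hR']
      have e4 : (4 : ℕ) • R' = R' + R' + (R' + R') := by
        rw [show (4 : ℕ) = 2 * 2 from rfl, mul_nsmul, two_nsmul, two_nsmul]
      rw [e4]
      show _ = -(s + (s' + s')) + (s + (s' + (R' + R') + (s' + (R' + R'))))
      abel
    exact Finite.of_surjective _ hsurj
  · intro g x
    have h := hc (-g) (g + x)
    have e : g + x + -g = x := by abel
    rw [e] at h
    exact_mod_cast h
  · intro x
    have h3 := hC x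
    have h4 := hC (x + x)
    have e4 : (4 : ℕ) • x = x + x + (x + x) := by
      rw [show (4 : ℕ) = 2 * 2 from rfl, mul_nsmul, two_nsmul, two_nsmul]
    show (16 : ℝ) * hp x - 5 * C ≤ hp (4 • x)
    rw [e4]
    have h5 : 16 * hp x ≤ hp (x + x + (x + x)) + 5 * C := by omega
    have h6 : (16 : ℝ) * hp x ≤ hp (x + x + (x + x)) + 5 * C := by exact_mod_cast h5
    linarith

end Q283.FS
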