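import Pool.Agent.Q283.FS.Cs
import Pool.Agent.Q283.FS.Mw
import Pool.Agent.Q283.FS.Rb

/-!
The Kummer map and the rank.
-/

set_option autoImplicit false
set_option linter.all false

open scoped Classical

namespace Q283.FS

open Polynomial IsDedekindDomain WeierstrassCurve WeierstrassCurve.Affine
open Pool.Agent.TH115.GD Pool.Agent.Y164.PS Finset
open Pool.Agent.TH115.GD (rs)

section loc
variable {K F Ω L Ω' : Type} [Field K] [Field F] [Field Ω] [Field L] [Field Ω']
  [Algebra K F] [Algebra F Ω] [Algebra K Ω] [IsScalarTower K F Ω] [IsGalois F Ω]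
  [Algebra K L] [Algebra L Ω'] [Algebra K Ω'] [Algebra F Ω'] [IsScalarTower K L Ω']
  [IsScalarTower K F Ω'] [IsSepClosed Ω'] (W : WeierstrassCurve K)

/-- coboundaries are locally trivial -/
theorem locTriv_cob (H : Pt W Ω) :
    LocTriv W L Ω' (fun σ : Ω ≃ₐ[F] Ω => act W (Pool.Agent.TH115.GD.rs K σ) H - H) := by
  let ι : Ω →ₐ[F] Ω' := IsSepClosed.lift
  refine ⟨ι, act W (ι.restrictScalars K) H, fun τ σ hτσ => ?_⟩
  have h5 : (ι.restrictScalars K).comp (Pool.Agent.TH115.GD.rs K σ) =
      (Pool.Agent.TH115.GD.rs K τ).comp (ι.restrictScalars K) :=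
    AlgHom.ext fun x => (hτσ x).symm
  rw [map_sub, act_act, act_act, h5]

end loc

section lt
variable {k' K F : Type} [Field k'] [Field K] [Field F] [Algebra K F] [Algebra k'[X] F]
  [IsFractionRing k'[X] F] (W : WeierstrassCurve K)

theorem lt_cob (H : Pt W (Sep F)) : LocallyTrivial k' W
    (fun σ : Sep F ≃ₐ[F] Sep F => act W (Pool.Agent.TH115.GD.rs K σ) H - H) :=
  ⟨fun v => locTriv_cob W H, locTriv_cob W H⟩

end lt

section kum
variable {k K : Type} [Field k] [Field K] [Algebra k[X] K] [IsFractionRing k[X] K] {α β : K}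

theorem cob_sel (h2 : (2 : K) ≠ 0) (hα : α ≠ 0) (hβ : β ≠ 0) (hαβ : α ≠ β)
    {P : Pt (crv α β) K} {H : Pt (crv α β) (Sep K)}
    (hH : H + H = act (crv α β) (incl K K (Sep K)) P) :
    (fun σ : Sep K ≃ₐ[K] Sep K => act (crv α β) (Pool.Agent.TH115.GD.rs K σ) H - H) ∈
      SelTwo k (crv α β) := by
  have hL := isE α β (Sep K) h2 hα hβ hαβ
  refine ⟨cob_isCoc _ H, fun σ => ?_, lt_cob _ H⟩
  have h := rs_act_incl (F := K) (Ω := Sep K) (crv α β) σ P
  rw [← hH, map_add] at h
  rw [sub_add_sub_comm, h, sub_self]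

theorem rep_half (h2 : (2 : K) ≠ 0) (hα : α ≠ 0) (hβ : β ≠ 0) (hαβ : α ≠ β)
    {P : Pt (crv α β) K} {H : Pt (crv α β) (Sep K)}
    (hH : H + H = act (crv α β) (incl K K (Sep K)) P) :
    Rep (crv α β) α (fun σ : Sep K ≃ₐ[K] Sep K =>
      act (crv α β) (Pool.Agent.TH115.GD.rs K σ) H - H) (d0 α β P) (d1 α β P) := by
  have hL := isE α β (Sep K) h2 hα hβ hαβ
  have f1 : ∀ σ : Sep K ≃ₐ[K] Sep K, act (crv α β) (Pool.Agent.TH115.GD.rs K σ) (H + H) = H + H :=
    fun σ => by rw [hH]; exact rs_act_incl (crv α β) σ P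
  have ea : incl K K (Sep K) α = algebraMap K (Sep K) α := rfl
  have eb : incl K K (Sep K) β = algebraMap K (Sep K) β := rfl
  refine ⟨h0 (algebraMap K (Sep K) α) (algebraMap K (Sep K) β) H,
    h1 (algebraMap K (Sep K) α) (algebraMap K (Sep K) β) H, h0_ne hL H, h1_ne hL H, ?_, ?_,
    fun σ => (sign_half (F := K) (crv α β) hL f1 σ).2.1,
    fun σ => (sign_half (F := K) (crv α β) hL f1 σ).2.2⟩
  · rw [h0_sq hL, hH]
    have := d0_act (crv α β) (incl K K (Sep K)) α β P
    rw [ea, eb] at this
    rw [this]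
    rfl
  · rw [h1_sq hL, hH]
    have := d1_act (crv α β) (incl K K (Sep K)) α β P
    rw [ea, eb] at this
    rw [this]
    rfl

/-- points with the same cocycle differ by twice a point -/
theorem kum_inj {P Q : Pt (crv α β) K} {H H' : Pt (crv α β) (Sep K)}
    (hH : H + H = act (crv α β) (incl K K (Sep K)) P)
    (hH' : H' + H' = act (crv α β) (incl K K (Sep K)) Q)
    (h : ∀ σ : Sep K ≃ₐ[K] Sep K, act (crv α β) (Pool.Agent.TH115.GD.rs K σ) H - H =
      act (crv α β) (Pool.Agent.TH115.GD.rs K σ) H' - H') : ∃ R, P = Q + (R + R) := by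
  obtain ⟨R, hR⟩ := fixed_point (K := K) (F := K) (crv α β) (H - H') (fun σ => by
    rw [map_sub]
    have h3 := h σ
    have h4 : act (crv α β) (Pool.Agent.TH115.GD.rs K σ) H =
        act (crv α β) (Pool.Agent.TH115.GD.rs K σ) H' - H' + H := by rw [← h3]; abel
    rw [h4]
    abel)
  refine ⟨R, ?_⟩
  apply act_inj (crv α β) (incl K K (Sep K))
  rw [map_add, map_add, hR, ← hH, ← hH']
  abel

end kum

section main
variable {k K : Type} [Field k] [Finite k] [Field K] [Algebra k[X] K] [IsFractionRing k[X] K]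
  {A B : k[X]} (h2 : (2 : k) ≠ 0) (hA : A ≠ 0) (hB : B ≠ 0) (hAB : A ≠ B)

/-- four points of order two -/
theorem four_tor {α β : K} (h2 : (2 : K) ≠ 0) (hα : α ≠ 0) (hβ : β ≠ 0) (hαβ : α ≠ β) :
    Nat.card {T : Pt (crv α β) K // T + T = 0} = 4 := by
  have hE := isE α β K h2 hα hβ hαβ
  have p0 : ((crv α β).baseChange K).toAffine.Nonsingular 0 0 := hE.nonsingular.2 (by ring)
  have pa : ((crv α β).baseChange K).toAffine.Nonsingular α 0 :=
    hE.nonsingular.2 (by rw [Algebra.algebraMap_self_apply]; ring)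
  have pb : ((crv α β).baseChange K).toAffine.Nonsingular β 0 :=
    hE.nonsingular.2 (by rw [Algebra.algebraMap_self_apply, Algebra.algebraMap_self_apply]; ring)
  have t0 : (Point.some 0 0 p0 : Pt (crv α β) K) + Point.some 0 0 p0 = 0 :=
    (add_self_eq_zero_iff hE p0).2 rfl
  have ta : (Point.some α 0 pa : Pt (crv α β) K) + Point.some α 0 pa = 0 :=
    (add_self_eq_zero_iff hE pa).2 rfl
  have tb : (Point.some β 0 pb : Pt (crv α β) K) + Point.some β 0 pb = 0 :=
    (add_self_eq_zero_iff hE pb).2 rfl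
  let g : Option (Option (Option Unit)) → {T : Pt (crv α β) K // T + T = 0} := fun o => match o with
    | none => ⟨0, add_zero 0⟩
    | some none => ⟨Point.some 0 0 p0, t0⟩
    | some (some none) => ⟨Point.some α 0 pa, ta⟩
    | some (some (some _)) => ⟨Point.some β 0 pb, tb⟩
  let h : Pt (crv α β) K → Option K := fun P => match P with
    | .zero => none
    | .some x _ _ => some x
  have hg : Function.Injective g := by
    have e : Function.Injective (fun o => h (g o).1) := by
      intro o o' hoo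
      have e0 : h (g none).1 = none := rfl
      have e1 : h (g (some none)).1 = some 0 := rfl
      have e2 : h (g (some (some none))).1 = some α := rfl
      have e3 : h (g (some (some (some ())))).1 = some β := rfl
      have hoo' : h (g o).1 = h (g o').1 := hoo
      rcases o with _ | _ | _ | u <;> rcases o' with _ | _ | _ | u' <;>
        simp only [e0, e1, e2, e3, reduceCtorEq, Option.some.injEq] at hoo' <;>
        first
        | rfl
        | exact absurd hoo'.symm hα
        | exact absurd hoo' hα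
        | exact absurd hoo'.symm hβ
        | exact absurd hoo' hβ
        | exact absurd hoo' hαβ
        | exact absurd hoo'.symm hαβ
    intro o o' hoo
    exact e (congrArg (fun z : {T : Pt (crv α β) K // T + T = 0} => h z.1) hoo)
  have hs : Function.Surjective g := by
    rintro ⟨T, hT⟩
    rcases T with _ | ⟨x, y, hxy⟩
    · exact ⟨none, rfl⟩
    · have hy : y = 0 := (add_self_eq_zero_iff hE hxy).1 hT
      subst hy
      rcases root_of_tor hE hxy rfl with hx | hx | hx
      · subst hx
        exact ⟨some none, rfl⟩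
      · have hx' : x = α := hx
        subst hx'
        exact ⟨some (some none), rfl⟩
      · have hx' : x = β := hx
        subst hx'
        exact ⟨some (some (some ())), rfl⟩
  have := Nat.card_eq_of_bijective g ⟨hg, hs⟩
  rw [← this, Nat.card_eq_fintype_card]
  rfl

/-- the group of points modulo doubles -/
theorem exists_kum {α β : K} (h2 : (2 : K) ≠ 0) (hα : α ≠ 0) (hβ : β ≠ 0) (hαβ : α ≠ β) :
    ∃ f : Pt (crv α β) K → SelTwo k (crv α β), (∀ P Q, f P = f Q → ∃ R, P = Q + (R + R)) ∧
      (∀ P, Rep (crv α β) α (f P).1 (d0 α β P) (d1 α β P)) ∧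
      ∀ P, ∃ H : Pt (crv α β) (Sep K), H + H = act (crv α β) (incl K K (Sep K)) P ∧
        ∀ σ, (f P).1 σ = act (crv α β) (Pool.Agent.TH115.GD.rs K σ) H - H := by
  have hL := isE α β (Sep K) h2 hα hβ hαβ
  choose H hH using fun P : Pt (crv α β) K => halve_sep hL (act (crv α β) (incl K K (Sep K)) P)
  refine ⟨fun P => ⟨_, cob_sel h2 hα hβ hαβ (hH P)⟩, fun P Q h => ?_, fun P => ?_, fun P =>
    ⟨H P, hH P, fun σ => rfl⟩⟩
  · exact kum_inj (hH P) (hH Q) fun σ => congrFun (congrArg Subtype.val h) σ
  · exact rep_half h2 hα hβ hαβ (hH P)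

include h2 hA hB hAB in
theorem fg_of_sel (hfin : Finite (SelTwo k (crv (algebraMap k[X] K A) (algebraMap k[X] K B)))) :
    AddGroup.FG (Pt (crv (algebraMap k[X] K A) (algebraMap k[X] K B)) K) := by
  have h2K : (2 : K) ≠ 0 := tt h2
  have inj := IsFractionRing.injective k[X] K
  have hABK : algebraMap k[X] K A ≠ algebraMap k[X] K B := fun h => hAB (inj h)
  obtain ⟨f, hf, -, -⟩ := exists_kum (k := k) h2K (amne hA) (amne hB) hABK
  let s : SelTwo k (crv (algebraMap k[X] K A) (algebraMap k[X] K B)) →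
      Pt (crv (algebraMap k[X] K A) (algebraMap k[X] K B)) K := fun x =>
    if h : ∃ P, f P = x then h.choose else 0
  refine fg_pt h2 hA hB hAB (S := Set.range s) (Set.finite_range s) fun P => ?_
  refine ⟨s (f P), ⟨_, rfl⟩, ?_⟩
  have hex : ∃ P', f P' = f P := ⟨P, rfl⟩
  have e : f (s (f P)) = f P := by
    show f (dite _ _ _) = f P
    rw [dif_pos hex]
    exact hex.choose_spec
  exact hf P (s (f P)) e.symm

include h2 hA hB hAB in
/-- the bound for the rank -/
theorem rank_sel {s : ℕ}
    (hs : Nat.card (SelTwo k (crv (algebraMap k[X] K A) (algebraMap k[X] K B))) = 4 * 4 ^ s) :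
    AddGroup.FG (Pt (crv (algebraMap k[X] K A) (algebraMap k[X] K B)) K) ∧
      Module.finrank ℤ (Pt (crv (algebraMap k[X] K A) (algebraMap k[X] K B)) K) ≤ 2 * s := by
  have h2K : (2 : K) ≠ 0 := tt h2
  have inj := IsFractionRing.injective k[X] K
  have hABK : algebraMap k[X] K A ≠ algebraMap k[X] K B := fun h => hAB (inj h)
  have hfin : Finite (SelTwo k (crv (algebraMap k[X] K A) (algebraMap k[X] K B))) := by
    apply Nat.finite_of_card_ne_zero
    rw [hs]
    positivity
  have hfg := fg_of_sel h2 hA hB hAB hfin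
  refine ⟨hfg, ?_⟩
  obtain ⟨f, hf, -, -⟩ := exists_kum (k := k) h2K (amne hA) (amne hB) hABK
  have h := four_rank hfg f hf
  rw [four_tor h2K (amne hA) (amne hB) hABK, hs] at h
  have h3 : 2 ^ Module.finrank ℤ (Pt (crv (algebraMap k[X] K A) (algebraMap k[X] K B)) K) ≤ 4 ^ s :=
    Nat.le_of_mul_le_mul_left h (by norm_num)
  rw [show (4 : ℕ) ^ s = 2 ^ (2 * s) by rw [pow_mul]; norm_num] at h3
  exact (Nat.pow_le_pow_iff_right (by norm_num)).1 h3

include h2 hA hB hAB in
/-- the smallest Selmer groups -/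
theorem sel_four_iff :
    Nat.card (SelTwo k (crv (algebraMap k[X] K A) (algebraMap k[X] K B))) = 4 ↔
      Finite (Pt (crv (algebraMap k[X] K A) (algebraMap k[X] K B)) K) ∧
      ShaTwo k (crv (algebraMap k[X] K A) (algebraMap k[X] K B)) := by
  have h2K : (2 : K) ≠ 0 := tt h2
  have inj := IsFractionRing.injective k[X] K
  have hABK : algebraMap k[X] K A ≠ algebraMap k[X] K B := fun h => hAB (inj h)
  set G := Pt (crv (algebraMap k[X] K A) (algebraMap k[X] K B)) K with hG
  obtain ⟨f, hf, hrep, hcob⟩ := exists_kum (k := k) h2K (amne hA) (amne hB) hABK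
  have hL := isE (algebraMap k[X] K A) (algebraMap k[X] K B) (Sep K) h2K (amne hA) (amne hB) hABK
  constructor
  · intro h4
    obtain ⟨hfg, hrk⟩ := rank_sel (s := 0) h2 hA hB hAB (by rw [h4]; norm_num)
    haveI : Module.Finite ℤ G := Module.Finite.iff_addGroup_fg.mpr hfg
    have hfin : Finite G := by
      have h0 : Module.finrank ℤ G = 0 := by
        have : Module.finrank ℤ G ≤ 2 * 0 := hrk
        omega
      apply Module.finite_of_fg_torsion
      rw [← Module.finrank_eq_zero_iff_isTorsion]
      exact h0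
    refine ⟨hfin, ?_⟩
    -- surjectivity of the Kummer map
    haveI hfs : Finite (SelTwo k (crv (algebraMap k[X] K A) (algebraMap k[X] K B))) := by
      apply Nat.finite_of_card_ne_zero
      rw [h4]
      norm_num
    let D := (nsmulAddMonoidHom (α := G) 2).range
    let g : G ⧸ D → SelTwo k (crv (algebraMap k[X] K A) (algebraMap k[X] K B)) :=
      fun q => f q.out
    have hg : Function.Injective g := by
      intro q q' h
      obtain ⟨R, hR⟩ := hf _ _ h
      rw [← Quotient.out_eq' q, ← Quotient.out_eq' q']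
      show (QuotientAddGroup.mk q.out : G ⧸ D) = QuotientAddGroup.mk q'.out
      rw [QuotientAddGroup.eq]
      refine ⟨-R, ?_⟩
      rw [nsmulAddMonoidHom_apply, two_nsmul]
      have hR' : (q.out : G) = (q'.out : G) + (R + R) := hR
      rw [hR']
      abel
    have hcard : Nat.card (G ⧸ D) = 4 := by
      have e1 : Nat.card (G ⧸ D) = Nat.card (nsmulAddMonoidHom (α := G) 2).ker := card_half
      rw [e1, ← four_tor (K := K) h2K (amne hA) (amne hB) hABK]
      refine Nat.card_congr (Equiv.subtypeEquivRight fun T => ?_)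
      rw [AddMonoidHom.mem_ker, nsmulAddMonoidHom_apply, two_nsmul]
    have hbij : Function.Bijective g := by
      haveI := Fintype.ofFinite (G ⧸ D)
      haveI := Fintype.ofFinite (SelTwo k (crv (algebraMap k[X] K A) (algebraMap k[X] K B)))
      rw [Fintype.bijective_iff_injective_and_card]
      refine ⟨hg, ?_⟩
      rw [← Nat.card_eq_fintype_card, ← Nat.card_eq_fintype_card, hcard, h4]
    apply sha_of_points h2K (amne hA) (amne hB) hABK
    intro a0 a1 n0 n1 hls
    obtain ⟨c, c1, c2, c3⟩ := coc_of_pair (F := K) _ hL n0 n1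
    have hcs : c ∈ SelTwo k (crv (algebraMap k[X] K A) (algebraMap k[X] K B)) :=
      ⟨c1, c2, (lsg_iff h2K (amne hA) (amne hB) hABK c2 c3).2 hls⟩
    obtain ⟨q, hq⟩ := hbij.2 ⟨c, hcs⟩
    have h5 := hrep q.out
    have h6 : (f q.out).1 = c := congrArg Subtype.val hq
    rw [h6] at h5
    exact ⟨q.out, rep_sq (F := K) _ c3 h5⟩
  · rintro ⟨hfin, hsha⟩
    haveI : Finite G := hfin
    let D := (nsmulAddMonoidHom (α := G) 2).range
    let g : G ⧸ D → SelTwo k (crv (algebraMap k[X] K A) (algebraMap k[X] K B)) :=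
      fun q => f q.out
    have hg : Function.Injective g := by
      intro q q' h
      obtain ⟨R, hR⟩ := hf _ _ h
      rw [← Quotient.out_eq' q, ← Quotient.out_eq' q']
      show (QuotientAddGroup.mk q.out : G ⧸ D) = QuotientAddGroup.mk q'.out
      rw [QuotientAddGroup.eq]
      refine ⟨-R, ?_⟩
      rw [nsmulAddMonoidHom_apply, two_nsmul]
      have hR' : (q.out : G) = (q'.out : G) + (R + R) := hR
      rw [hR']
      abel
    have hs : Function.Surjective g := by
      intro c
      obtain ⟨R, hR⟩ := hsha c.1 c.2.1 c.2.2.2 ⟨1, 0, fun σ => by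
        rw [pow_one, two_nsmul, c.2.2.1, map_zero, sub_zero]⟩
      -- the double of `R` is rational
      obtain ⟨P, hP⟩ := fixed_point (K := K) (F := K) _ (R + R) (fun σ => by
        have h3 := c.2.2.1 σ
        rw [hR σ, sub_add_sub_comm, ← map_add] at h3
        exact sub_eq_zero.1 h3)
      have r1 := rep_half h2K (amne hA) (amne hB) hABK hP.symm
      have e1 : c.1 = fun σ => act (crv (algebraMap k[X] K A) (algebraMap k[X] K B))
          (Pool.Agent.TH115.GD.rs K σ) R - R := funext hR
      rw [← e1] at r1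
      refine ⟨QuotientAddGroup.mk P, ?_⟩
      -- the class of `P`
      obtain ⟨S, hS⟩ : ∃ S : G, (QuotientAddGroup.mk P : G ⧸ D).out = P + (S + S) := by
        have h3 : (QuotientAddGroup.mk (QuotientAddGroup.mk P : G ⧸ D).out : G ⧸ D) =
          QuotientAddGroup.mk P := Quotient.out_eq' _
        rw [QuotientAddGroup.eq] at h3
        obtain ⟨S, hS⟩ := h3
        rw [nsmulAddMonoidHom_apply, two_nsmul] at hS
        refine ⟨-S, ?_⟩
        have h4 : -S + -S = -(S + S) := by abel
        rw [h4, hS]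
        abel
      have r2 := hrep (QuotientAddGroup.mk P : G ⧸ D).out
      rw [hS] at r2
      apply Subtype.ext
      show (f (QuotientAddGroup.mk P : G ⧸ D).out).1 = c.1
      -- the pairs agree
      have hE := isE (algebraMap k[X] K A) (algebraMap k[X] K B) K h2K (amne hA) (amne hB) hABK
      have hsq : SqEq (d0 (algebraMap k[X] K A) (algebraMap k[X] K B) (P + (S + S)))
          (d0 (algebraMap k[X] K A) (algebraMap k[X] K B) P) ∧
          SqEq (d1 (algebraMap k[X] K A) (algebraMap k[X] K B) (P + (S + S)))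
          (d1 (algebraMap k[X] K A) (algebraMap k[X] K B) P) := by
        obtain ⟨u0, u1, m0, m1, f0, f1⟩ := d_add (K := K) (F := K) (Ω := Sep K) _ hL P (S + S)
        obtain ⟨w0, w1, l0, l1, g0, g1⟩ := d_add (K := K) (F := K) (Ω := Sep K) _ hL S S
        have m0' := d0_ne hE S
        have m1' := d1_ne hE S
        constructor
        · refine ⟨u0 * (w0 * d0 (algebraMap k[X] K A) (algebraMap k[X] K B) S), mul_ne_zero m0
            (mul_ne_zero l0 m0'), ?_⟩
          refine f0.trans ?_
          have g0' : d0 (algebraMap k[X] K A) (algebraMap k[X] K B) (S + S) = w0 ^ 2 *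
            (d0 (algebraMap k[X] K A) (algebraMap k[X] K B) S *
              d0 (algebraMap k[X] K A) (algebraMap k[X] K B) S) := g0
          show u0 ^ 2 * (d0 (algebraMap k[X] K A) (algebraMap k[X] K B) P *
            d0 (algebraMap k[X] K A) (algebraMap k[X] K B) (S + S)) = _
          rw [g0']
          ring
        · refine ⟨u1 * (w1 * d1 (algebraMap k[X] K A) (algebraMap k[X] K B) S), mul_ne_zero m1
            (mul_ne_zero l1 m1'), ?_⟩
          refine f1.trans ?_
          have g1' : d1 (algebraMap k[X] K A) (algebraMap k[X] K B) (S + S) = w1 ^ 2 *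
            (d1 (algebraMap k[X] K A) (algebraMap k[X] K B) S *
              d1 (algebraMap k[X] K A) (algebraMap k[X] K B) S) := g1
          show u1 ^ 2 * (d1 (algebraMap k[X] K A) (algebraMap k[X] K B) P *
            d1 (algebraMap k[X] K A) (algebraMap k[X] K B) (S + S)) = _
          rw [g1']
          ring
      rw [← hS] at hsq r2
      exact rep_unique (F := K) _ hL (f _).2.2.1 c.2.2.1 r2 r1 hsq.1 hsq.2
    have := Nat.card_eq_of_bijective g ⟨hg, hs⟩
    rw [← this]
    have e1 : Nat.card (G ⧸ D) = Nat.card (nsmulAddMonoidHom (α := G) 2).ker := card_half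
    rw [e1, ← four_tor (K := K) h2K (amne hA) (amne hB) hABK]
    refine Nat.card_congr (Equiv.subtypeEquivRight fun T => ?_)
    rw [AddMonoidHom.mem_ker, nsmulAddMonoidHom_apply, two_nsmul]

end main

end Q283.FS
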