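import Pool.Agent.Q283.FS.Lv
import Pool.Agent.Y164.PS.Main

/-!
The choice of the parameters.
-/

set_option autoImplicit false
set_option linter.all false

open scoped Classical

namespace Q283.FS

open Finset Polynomial Pool.Agent.H341R2.Sharp Module Filter
open Pool.Agent.Y164.PS

theorem sqrt_tendsto : Tendsto (fun l : ℕ => Nat.sqrt l) atTop atTop := by
  rw [tendsto_atTop_atTop]
  intro b
  refine ⟨b * b, fun n hn => ?_⟩
  exact Nat.le_sqrt.2 hn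

theorem expo {l s : ℕ} (h1 : s * s ≤ l) (h2 : 20 ≤ s) : s * (s / 5) ≤ 7 * (l / 25) - s := by
  have h3 : 5 * (s * (s / 5)) ≤ s * s := by
    calc 5 * (s * (s / 5)) = s * (5 * (s / 5)) := by ring
      _ ≤ s * s := Nat.mul_le_mul_left _ (Nat.mul_div_le s 5)
  have h4 : 20 * s ≤ s * s := Nat.mul_le_mul_right _ h2
  generalize s * (s / 5) = x at h3 ⊢
  generalize s * s = y at h1 h3 h4
  omega

/-- the first part of the error -/
theorem er1 (C0 B ρ : ℝ) (hB : 0 ≤ B) (hρ : 0 ≤ ρ) (hρ1 : ρ < 1) (ε : ℝ) (hε : 0 < ε)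
    (hC : 0 ≤ C0) :
    ∀ᶠ l : ℕ in atTop, C0 * (B ^ Nat.sqrt l * ρ ^ (7 * (l / 25) - Nat.sqrt l)) ≤ ε := by
  have h1 : Tendsto (fun s : ℕ => B * ρ ^ (s / 5)) atTop (nhds (B * 0)) :=
    ((tendsto_pow_atTop_nhds_zero_of_lt_one hρ hρ1).comp
      (Nat.tendsto_div_const_atTop (by norm_num))).const_mul B
  rw [mul_zero] at h1
  have h2 := h1.eventually_le_const (show (0 : ℝ) < 1 / 2 by norm_num)
  have h3 : Tendsto (fun s : ℕ => C0 * (1 / 2 : ℝ) ^ s) atTop (nhds (C0 * 0)) :=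
    (tendsto_pow_atTop_nhds_zero_of_lt_one (by norm_num) (by norm_num)).const_mul C0
  rw [mul_zero] at h3
  have h4 := h3.eventually_le_const hε
  have h5 := sqrt_tendsto.eventually ((h2.and h4).and (eventually_ge_atTop 20))
  filter_upwards [h5] with l hl
  obtain ⟨⟨e1, e2⟩, e3⟩ := hl
  refine le_trans (mul_le_mul_of_nonneg_left ?_ hC) e2
  have e4 := expo (Nat.sqrt_le l) e3
  calc B ^ Nat.sqrt l * ρ ^ (7 * (l / 25) - Nat.sqrt l)
      ≤ B ^ Nat.sqrt l * ρ ^ (Nat.sqrt l * (Nat.sqrt l / 5)) :=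
        mul_le_mul_of_nonneg_left (pow_le_pow_of_le_one hρ hρ1.le e4) (pow_nonneg hB _)
    _ = (B * ρ ^ (Nat.sqrt l / 5)) ^ Nat.sqrt l := by
        rw [mul_pow, ← pow_mul, mul_comm (Nat.sqrt l / 5)]
    _ ≤ (1 / 2) ^ Nat.sqrt l := pow_le_pow_left₀ (mul_nonneg hB (pow_nonneg hρ _)) e1 _

/-- the second part of the error -/
theorem er2 (K : ℕ) : ∀ᶠ l : ℕ in atTop,
    ((4 : ℝ) ^ K) ^ (l ^ 2) * 4 ^ l / 2 ^ (l ^ 3) ≤ (1 / 2) ^ l := by
  filter_upwards [eventually_ge_atTop (2 * (K + 1) + 1)] with l hl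
  have h1 : (4 : ℝ) ^ l ≤ 4 ^ (l ^ 2) := pow_le_pow_right₀ (by norm_num) (by nlinarith)
  have h2 : (2 : ℝ) ^ (l ^ 3) = (2 ^ l) ^ (l ^ 2) := by
    rw [← pow_mul]
    congr 1
    ring
  have h3 : ((4 : ℝ) ^ K) ^ (l ^ 2) * 4 ^ l / 2 ^ (l ^ 3) ≤ (4 ^ (K + 1) / 2 ^ l) ^ (l ^ 2) := by
    rw [h2, div_pow]
    refine div_le_div_of_nonneg_right ?_ (by positivity)
    calc ((4 : ℝ) ^ K) ^ (l ^ 2) * 4 ^ l ≤ (4 ^ K) ^ (l ^ 2) * 4 ^ (l ^ 2) :=
          mul_le_mul_of_nonneg_left h1 (by positivity)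
      _ = _ := by rw [← mul_pow, ← pow_succ]
  refine h3.trans ?_
  have h4 : (4 : ℝ) ^ (K + 1) / 2 ^ l ≤ 1 / 2 := by
    rw [div_le_div_iff₀ (by positivity) (by norm_num)]
    have : (4 : ℝ) ^ (K + 1) * 2 = 2 ^ (2 * (K + 1) + 1) := by
      rw [pow_succ 2, pow_mul]
      norm_num
    rw [this, one_mul]
    exact pow_le_pow_right₀ (by norm_num) hl
  calc ((4 : ℝ) ^ (K + 1) / 2 ^ l) ^ (l ^ 2) ≤ (1 / 2) ^ (l ^ 2) :=
        pow_le_pow_left₀ (by positivity) h4 _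
    _ ≤ (1 / 2) ^ l := pow_le_pow_of_le_one (by norm_num) (by norm_num) (by nlinarith)

variable {k : Type} [Field k] [Fintype k] [DecidableEq k]
variable {a b : k[X]} {M : ℕ} (F : Fin M → Finset k[X])

theorem et2_le : ∃ C1 : ℝ, 0 ≤ C1 ∧ ∀ l n : ℕ, n < 2 ^ (l + 1) →
    et2 a b F n (l ^ 3) ≤ C1 * (4 ^ l / 2 ^ (l ^ 3)) := by
  obtain ⟨d, hd⟩ : ∃ d : ℝ, d = ((dM F + dQ a b : ℕ) : ℝ) := ⟨_, rfl⟩
  obtain ⟨e, he⟩ : ∃ e : ℝ, e = ((PM F).card : ℝ) + Fintype.card (Tau a b) := ⟨_, rfl⟩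
  have hd0 : 0 ≤ d := by rw [hd]; exact Nat.cast_nonneg _
  have he0 : 0 ≤ e := by rw [he]; positivity
  refine ⟨8 * (5 * (1 + d) + 2 + (1 + e)), by positivity, fun l n hn => ?_⟩
  have h1 : (n : ℝ) ≤ 2 * 2 ^ l := by
    have : n ≤ 2 * 2 ^ l := by rw [pow_succ] at hn; omega
    exact_mod_cast this
  have h2 : (1 : ℝ) ≤ 2 ^ l := one_le_pow₀ (by norm_num)
  have h0 : (0 : ℝ) ≤ n := Nat.cast_nonneg _
  have h4 : (4 : ℝ) ^ l = (2 ^ l) ^ 2 := by
    rw [← pow_mul, mul_comm, pow_mul]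
    norm_num
  have e1 : ((n + (dM F + dQ a b) : ℕ) : ℝ) = n + d := by rw [hd]; push_cast; ring
  unfold et2
  rw [e1, ← he, h4]
  set x : ℝ := 2 ^ l with hx
  rw [mul_div_assoc']
  refine div_le_div_of_nonneg_right ?_ (by positivity)
  have e2 : x ≤ x ^ 2 := by nlinarith
  have e3 : (1 : ℝ) ≤ x ^ 2 := by nlinarith
  have e4 : (n : ℝ) * n ≤ 4 * x ^ 2 := by nlinarith
  have e5 : d ≤ d * x ^ 2 := le_mul_of_one_le_right hd0 e3
  have e6 : (n : ℝ) * e ≤ 2 * x ^ 2 * e := mul_le_mul_of_nonneg_right (by linarith) he0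
  nlinarith

/-- the error tends to zero -/
theorem er_all (jj : Fin M → ℕ) (ε : ℝ) (hε : 0 < ε) : ∀ᶠ l : ℕ in atTop, ∀ n : ℕ, n < 2 ^ (l + 1) →
    ((l ^ 2 : ℕ) : ℝ) * et2 a b F n (l ^ 3) ≤ 1 / 2 ∧
    ∀ m, 7 * (l / 25) ≤ m → m ≤ l ^ 2 → Er a b F jj n (l ^ 3) (Nat.sqrt l) m ≤ ε := by
  obtain ⟨C1, hC1, hC1'⟩ := et2_le (a := a) (b := b) F
  set K := Fintype.card (Kx jj) with hK
  set τ := Fintype.card (Tau a b) with hτ
  set c := (PM F).card with hc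
  have h0 : (0 : ℝ) ≤ (4 : ℝ) ^ K - 1 := by
    have : (1 : ℝ) ≤ 4 ^ K := one_le_pow₀ (by norm_num)
    linarith
  have hρ : (0 : ℝ) ≤ (4 ^ K - 1) / 4 ^ K := div_nonneg h0 (by positivity)
  have hρ1 : ((4 : ℝ) ^ K - 1) / 4 ^ K < 1 := by
    rw [div_lt_one (by positivity)]
    linarith
  have g1 := er1 (((CS jj).card + 1) * (2 ^ (16 ^ K) * 4 ^ K * 2 ^ τ * (4 ^ c * 2 ^ τ) ^ (2 * K)))
    (16 ^ K) ((4 ^ K - 1) / 4 ^ K) (by positivity) hρ hρ1 (ε / 2) (by positivity) (by positivity)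
  have g2 : ∀ᶠ l : ℕ in atTop, 2 * ((4 ^ c * 2 ^ τ) ^ K * 2 ^ τ * C1) * (1 / 2 : ℝ) ^ l ≤ ε / 2 := by
    have h3 : Tendsto (fun s : ℕ => 2 * ((4 ^ c * 2 ^ τ) ^ K * 2 ^ τ * C1) * (1 / 2 : ℝ) ^ s) atTop
        (nhds (2 * ((4 ^ c * 2 ^ τ) ^ K * 2 ^ τ * C1) * 0)) :=
      (tendsto_pow_atTop_nhds_zero_of_lt_one (by norm_num) (by norm_num)).const_mul _
    rw [mul_zero] at h3
    exact h3.eventually_le_const (by positivity)
  have g3 : ∀ᶠ l : ℕ in atTop, C1 * (1 / 2 : ℝ) ^ l ≤ 1 / 2 := by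
    have h3 : Tendsto (fun s : ℕ => C1 * (1 / 2 : ℝ) ^ s) atTop (nhds (C1 * 0)) :=
      (tendsto_pow_atTop_nhds_zero_of_lt_one (by norm_num) (by norm_num)).const_mul _
    rw [mul_zero] at h3
    exact h3.eventually_le_const (by norm_num)
  filter_upwards [g1, g2, g3, er2 K, er2 1] with l e1 e2 e3 e4 e5 n hn
  have h5 := hC1' l n hn
  have hη0 := et2_nonneg (a := a) (b := b) F n (l ^ 3)
  refine ⟨?_, fun m hm1 hm2 => ?_⟩
  · refine le_trans ?_ e3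
    have h6' : ∀ y : ℕ, (y : ℝ) ≤ (4 ^ 1) ^ y := by
      intro y
      have h7 : y < 4 ^ y := Nat.lt_pow_self (by norm_num)
      rw [pow_one]
      exact_mod_cast h7.le
    have h6 : ((l ^ 2 : ℕ) : ℝ) ≤ (4 ^ 1) ^ (l ^ 2) := h6' _
    calc ((l ^ 2 : ℕ) : ℝ) * et2 a b F n (l ^ 3) ≤ (4 ^ 1) ^ (l ^ 2) * (C1 * (4 ^ l / 2 ^ (l ^ 3))) :=
          mul_le_mul h6 h5 hη0 (by positivity)
      _ = C1 * (((4 : ℝ) ^ 1) ^ (l ^ 2) * 4 ^ l / 2 ^ (l ^ 3)) := by ring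
      _ ≤ C1 * (1 / 2) ^ l := mul_le_mul_of_nonneg_left e5 hC1
  · have hs : ε = ε / 2 + ε / 2 := by ring
    rw [hs, Er]
    refine add_le_add (le_trans ?_ e1) (le_trans ?_ e2)
    · have h6 : ER K (m - Nat.sqrt l) (Nat.sqrt l + c) τ ≤
          ER K (7 * (l / 25) - Nat.sqrt l) (Nat.sqrt l + c) τ := ER_mono (by omega) le_rfl
      refine (mul_le_mul_of_nonneg_left h6
        (add_nonneg (Nat.cast_nonneg _) zero_le_one)).trans (le_of_eq ?_)
      unfold ER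
      have e6 : ((4 : ℝ) ^ (Nat.sqrt l + c) * 2 ^ τ) ^ (2 * K) =
          (4 ^ c * 2 ^ τ) ^ (2 * K) * (16 ^ K) ^ Nat.sqrt l := by
        have e7 : ((16 : ℝ) ^ K) ^ Nat.sqrt l = (4 ^ Nat.sqrt l) ^ (2 * K) := by
          rw [← pow_mul, ← pow_mul, show (16 : ℝ) = 4 ^ 2 by norm_num, ← pow_mul]
          congr 1
          ring
        rw [e7, pow_add, ← mul_pow]
        ring
      rw [e6]
      ring
    · have h6 : ((4 : ℝ) ^ (m + c) * 2 ^ τ) ^ K ≤ (4 ^ c * 2 ^ τ) ^ K * (4 ^ K) ^ (l ^ 2) := by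
        have e7 : ((4 : ℝ) ^ K) ^ (l ^ 2) = (4 ^ (l ^ 2)) ^ K := by
          rw [← pow_mul, ← pow_mul, mul_comm]
        rw [e7, ← mul_pow]
        refine pow_le_pow_left₀ (by positivity) ?_ _
        rw [pow_add]
        calc (4 : ℝ) ^ m * 4 ^ c * 2 ^ τ = (4 ^ c * 2 ^ τ) * 4 ^ m := by ring
          _ ≤ (4 ^ c * 2 ^ τ) * 4 ^ (l ^ 2) :=
            mul_le_mul_of_nonneg_left (pow_le_pow_right₀ (by norm_num) hm2) (by positivity)
      calc 2 * (((4 : ℝ) ^ (m + c) * 2 ^ τ) ^ K * 2 ^ τ * et2 a b F n (l ^ 3))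
          ≤ 2 * (((4 ^ c * 2 ^ τ) ^ K * (4 ^ K) ^ (l ^ 2)) * 2 ^ τ * (C1 * (4 ^ l / 2 ^ (l ^ 3)))) := by
            refine mul_le_mul_of_nonneg_left ?_ (by norm_num)
            refine mul_le_mul (mul_le_mul_of_nonneg_right h6 (by positivity)) h5 hη0 (by positivity)
        _ = 2 * ((4 ^ c * 2 ^ τ) ^ K * 2 ^ τ * C1) *
            (((4 : ℝ) ^ K) ^ (l ^ 2) * 4 ^ l / 2 ^ (l ^ 3)) := by ring
        _ ≤ _ := mul_le_mul_of_nonneg_left e4 (by positivity)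

/-- few polynomials are not typical -/
theorem nontyp2 (hk : ringChar k ≠ 2) (n t0 m1 s z : ℕ) :
    (((Sf k n).filter fun D => ¬ typ t0 m1 s z D).card : ℝ) ≤ (Fintype.card k : ℝ) ^ n *
      ((1 + Real.log n) / (m1 + 1) + (1 + Real.log z) / (s + 1) + 2 ^ t0 * cb n) := by
  have hpf : ∀ D ∈ Mon k n, (pf D).filter (fun P => P.natDegree ≤ n) = pf D := by
    intro D hD
    apply filter_true_of_mem
    intro P hP
    rw [pf, mem_filter, mem_Irr, (mem_Mon.1 hD).2] at hP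
    exact hP.1.2.2
  have h1 : (((Sf k n).filter fun D => m1 < (pf D).card).card : ℝ) ≤
      ((Fintype.card k : ℝ) ^ n * (1 + Real.log n)) / (m1 + 1) := by
    apply markov
    refine le_trans (le_of_eq ?_) (sum_omega (k := k) hk n n)
    refine sum_congr rfl fun D hD => ?_
    rw [hpf D hD]
  have h2 : (((Sf k n).filter fun D => s < sm z D).card : ℝ) ≤
      ((Fintype.card k : ℝ) ^ n * (1 + Real.log z)) / (s + 1) := by
    apply markov
    refine le_trans (sum_le_sum fun D hD => ?_) (sum_omega (k := k) hk n z)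
    have : sm z D ≤ ((pf D).filter (fun P => P.natDegree ≤ z)).card := by
      apply card_le_card
      intro P hP
      rw [mem_filter] at hP ⊢
      exact ⟨hP.1, hP.2.le⟩
    exact_mod_cast this
  have h3 := few_primes (k := k) hk n t0
  have h4 : (Sf k n).filter (fun D => ¬ typ t0 m1 s z D) ⊆
      ((Sf k n).filter fun D => m1 < (pf D).card) ∪ ((Sf k n).filter fun D => s < sm z D) ∪
      ((Sf k n).filter fun D => (pf D).card < t0) := by
    intro D hD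
    rw [mem_filter, typ] at hD
    rw [mem_union, mem_union, mem_filter, mem_filter, mem_filter]
    by_cases e1 : m1 < (pf D).card
    · exact Or.inl (Or.inl ⟨hD.1, e1⟩)
    · by_cases e2 : s < sm z D
      · exact Or.inl (Or.inr ⟨hD.1, e2⟩)
      · right
        refine ⟨hD.1, ?_⟩
        by_contra e3
        exact hD.2 ⟨not_lt.1 e3, not_lt.1 e1, not_lt.1 e2⟩
  have h5 : (((Sf k n).filter fun D => ¬ typ t0 m1 s z D).card : ℝ) ≤
      (((Sf k n).filter fun D => m1 < (pf D).card).card : ℝ) +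
      ((Sf k n).filter fun D => s < sm z D).card + ((Sf k n).filter fun D => (pf D).card < t0).card := by
    have h6 := (card_le_card h4).trans ((card_union_le _ _).trans
      (Nat.add_le_add_right (card_union_le _ _) _))
    exact_mod_cast h6
  refine h5.trans ?_
  have h7 : (Fintype.card k : ℝ) ^ n *
      ((1 + Real.log n) / (m1 + 1) + (1 + Real.log z) / (s + 1) + 2 ^ t0 * cb n) =
      ((Fintype.card k : ℝ) ^ n * (1 + Real.log n)) / (m1 + 1) +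
      ((Fintype.card k : ℝ) ^ n * (1 + Real.log z)) / (s + 1) +
      2 ^ t0 * cb n * (Fintype.card k : ℝ) ^ n := by ring
  rw [h7]
  linarith

theorem log_div : Tendsto (fun s : ℕ => (1 + 6 * Real.log ((s + 1 : ℕ) : ℝ)) / ((s : ℝ) + 1)) atTop
    (nhds 0) := by
  have h1 : Tendsto (fun x : ℝ => (1 + 6 * Real.log x) / x) atTop (nhds 0) := by
    have h2 : Tendsto (fun x : ℝ => Real.log x / x) atTop (nhds 0) :=
      Real.isLittleO_log_id_atTop.tendsto_div_nhds_zero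
    have h3 : Tendsto (fun x : ℝ => 1 / x) atTop (nhds 0) := by
      simpa using tendsto_inv_atTop_zero (𝕜 := ℝ)
    have h4 := h3.add (h2.const_mul 6)
    rw [mul_zero, add_zero] at h4
    refine h4.congr fun x => ?_
    rw [mul_div_assoc', ← add_div]
  have h2 : Tendsto (fun s : ℕ => ((s + 1 : ℕ) : ℝ)) atTop atTop :=
    tendsto_natCast_atTop_atTop.comp (tendsto_add_atTop_nat 1)
  refine (h1.comp h2).congr fun s => ?_
  simp only [Function.comp]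
  push_cast
  rfl

/-- the proportion of the polynomials which are not typical tends to zero -/
theorem nontyp_small (hk : ringChar k ≠ 2) (δ : ℝ) (hδ : 0 < δ) :
    ∀ᶠ l : ℕ in atTop, ∀ n : ℕ, 2 ^ l ≤ n → n < 2 ^ (l + 1) →
      (((Sf k n).filter fun D => ¬ typ (7 * (l / 25)) (l ^ 2) (Nat.sqrt l) (l ^ 3) D).card : ℝ) ≤
        δ * (Fintype.card k : ℝ) ^ n := by
  have g1 : ∀ᶠ l : ℕ in atTop, ((l : ℝ) + 2) / ((l ^ 2 : ℕ) + 1) ≤ δ / 3 := by
    filter_upwards [eventually_ge_atTop (⌈9 / δ⌉₊ + 1)] with l hl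
    have h1 : 9 / δ ≤ l := by
      have h2 := Nat.le_ceil (9 / δ)
      have h3 : ((⌈9 / δ⌉₊ : ℕ) : ℝ) ≤ l := by exact_mod_cast (show ⌈9 / δ⌉₊ ≤ l by omega)
      linarith
    have h2 : (1 : ℝ) ≤ l := by
      have : 1 ≤ l := by omega
      exact_mod_cast this
    rw [div_le_iff₀ hδ] at h1
    rw [div_le_iff₀ (by positivity)]
    push_cast
    nlinarith
  have g2 : ∀ᶠ l : ℕ in atTop, (1 + Real.log ((l ^ 3 : ℕ) : ℝ)) / ((Nat.sqrt l : ℝ) + 1) ≤ δ / 3 := by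
    have h1 := (log_div.comp sqrt_tendsto).eventually_le_const (show (0 : ℝ) < δ / 3 by positivity)
    filter_upwards [h1, eventually_ge_atTop 1] with l hl hl1
    refine le_trans ?_ hl
    refine div_le_div_of_nonneg_right ?_ (by positivity)
    have h2 : (l : ℝ) ≤ ((Nat.sqrt l + 1 : ℕ) : ℝ) ^ 2 := by
      have h3 := Nat.lt_succ_sqrt l
      have h4 : l ≤ (Nat.sqrt l + 1) ^ 2 := by
        rw [pow_two]
        exact h3.le
      exact_mod_cast h4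
    have hl0 : (0 : ℝ) < l := by exact_mod_cast hl1
    have h3 : Real.log ((l ^ 3 : ℕ) : ℝ) = 3 * Real.log l := by
      push_cast
      rw [Real.log_pow]
      norm_num
    have h4 : Real.log l ≤ 2 * Real.log ((Nat.sqrt l + 1 : ℕ) : ℝ) := by
      have h5 := Real.log_le_log hl0 h2
      rw [Real.log_pow] at h5
      exact_mod_cast h5
    show 1 + Real.log ((l ^ 3 : ℕ) : ℝ) ≤ 1 + 6 * Real.log ((Nat.sqrt l + 1 : ℕ) : ℝ)
    rw [h3]
    linarith
  have g3 : ∀ᶠ l : ℕ in atTop, (1 / 2 : ℝ) ^ (l / 25) ≤ δ / 3 := by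
    have h5 : Tendsto (fun l : ℕ => (1 / 2 : ℝ) ^ (l / 25)) atTop (nhds 0) :=
      (tendsto_pow_atTop_nhds_zero_of_lt_one (by norm_num) (by norm_num)).comp tend_div25
    exact h5.eventually_le_const (by positivity)
  filter_upwards [g1, g2, g3] with l e1 e2 e3 n hn1 hn2
  refine (nontyp2 (k := k) hk n (7 * (l / 25)) (l ^ 2) (Nat.sqrt l) (l ^ 3)).trans ?_
  rw [mul_comm δ]
  apply mul_le_mul_of_nonneg_left _ (by positivity)
  have hn0 : (0 : ℝ) < n := by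
    have : 0 < 2 ^ l := by positivity
    exact_mod_cast this.trans_le hn1
  have h7 : Real.log n ≤ l + 1 := by
    have h8 : Real.log n ≤ Real.log (2 ^ (l + 1)) := by
      apply Real.log_le_log hn0
      exact_mod_cast hn2.le
    rw [Real.log_pow] at h8
    have h9 : Real.log 2 ≤ 1 := by
      have := Real.log_two_lt_d9
      linarith
    calc Real.log n ≤ ((l + 1 : ℕ) : ℝ) * Real.log 2 := h8
      _ ≤ ((l + 1 : ℕ) : ℝ) * 1 := mul_le_mul_of_nonneg_left h9 (by positivity)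
      _ = _ := by push_cast; ring
  have h8 : (1 + Real.log n) / (((l ^ 2 : ℕ) : ℝ) + 1) ≤ δ / 3 := by
    refine le_trans (div_le_div_of_nonneg_right ?_ (by positivity)) e1
    linarith
  have h9 := (asy4 (n := n) (l := l) (s := l / 25) hn1 (by omega)).trans e3
  linarith

end Q283.FS
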