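import Pool.Agent.Y164.PS.Avg

/-!
The forms of several twists as functions of the symbols.
-/

set_option autoImplicit false
set_option linter.all false

open scoped Classical

namespace Q283.FS

open Finset
open Pool.Agent.Y164.PS

variable {J υ τ : Type} [Fintype J] [Fintype υ] [Fintype τ] [LinearOrder J]

/-- the indices of the symbols which vary -/
abbrev Bt (J υ τ : Type) [LT J] : Type := {p : J × J // p.1 < p.2} ⊕ (J × υ) ⊕ (J × τ)

/-- the data which do not vary -/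
structure Mdl (J υ τ : Type) [Fintype τ] where
  D : Dat τ
  C : υ → υ → F2
  b : υ → τ → F2
  dJ : J → F2
  du : υ → F2
  symm : ∀ u v, C u v = C v u

variable (Md : Mdl J υ τ) (U : Finset υ) (x : Bt J υ τ → F2)

/-- the symbols between the large primes -/
def sy (i j : J) : F2 :=
  if h : i < j then x (Sum.inl ⟨(i, j), h⟩) else if h : j < i then x (Sum.inl ⟨(j, i), h⟩) else 0

omit [Fintype J] [Fintype υ] [Fintype τ] in
theorem sy_comm (i j : J) : sy x i j = sy x j i := by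
  unfold sy
  by_cases h : i < j
  · rw [dif_pos h, dif_neg (lt_asymm h), dif_pos h]
  · by_cases h' : j < i
    · rw [dif_neg h, dif_pos h', dif_pos h']
    · rw [dif_neg h, dif_neg h', dif_neg h', dif_neg h]

/-- the symbols between the primes of the twist -/
noncomputable def AA : J ⊕ υ → J ⊕ υ → F2
  | Sum.inl i, Sum.inl j => sy x i j
  | Sum.inl i, Sum.inr u => if u ∈ U then x (Sum.inr (Sum.inl (i, u))) else 0
  | Sum.inr u, Sum.inl i => if u ∈ U then x (Sum.inr (Sum.inl (i, u))) else 0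
  | Sum.inr u, Sum.inr v => if u ∈ U ∧ v ∈ U then Md.C u v else 0

/-- the symbols between the primes of the twist and the bad primes -/
noncomputable def BB : J ⊕ υ → τ → F2
  | Sum.inl i, s => x (Sum.inr (Sum.inr (i, s)))
  | Sum.inr u, s => if u ∈ U then Md.b u s else 0

/-- the degrees -/
noncomputable def dd : J ⊕ υ → F2
  | Sum.inl i => Md.dJ i
  | Sum.inr u => if u ∈ U then Md.du u else 0

omit [Fintype J] [Fintype υ] in
theorem AA_comm (p q : J ⊕ υ) : AA Md U x p q = AA Md U x q p := by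
  rcases p with i | u <;> rcases q with j | v
  · exact sy_comm x i j
  · rfl
  · rfl
  · show (if u ∈ U ∧ v ∈ U then Md.C u v else 0) = (if v ∈ U ∧ u ∈ U then Md.C v u else 0)
    rw [Md.symm u v]
    simp only [and_comm]

/-- the form of the twist `U` -/
noncomputable def Fm (w w' : V (J ⊕ υ) τ) : F2 :=
  FF Md.D (AA Md U x) (BB Md U x) (dd Md U) w w'

/-- the coefficients of the symbols in the form -/
noncomputable def cfo (w w' : V (J ⊕ υ) τ) : Bt J υ τ → F2
  | Sum.inl p => om (w.1 (Sum.inl p.1.1) + w.1 (Sum.inl p.1.2))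
      (w'.1 (Sum.inl p.1.1) + w'.1 (Sum.inl p.1.2))
  | Sum.inr (Sum.inl p) => if p.2 ∈ U then om (w.1 (Sum.inl p.1) + w.1 (Sum.inr p.2))
      (w'.1 (Sum.inl p.1) + w'.1 (Sum.inr p.2)) else 0
  | Sum.inr (Sum.inr p) => ee (Md.D.t p.2) (w.2 p.2) (w'.2 p.2)
      (w.1 (Sum.inl p.1), w'.1 (Sum.inl p.1))

omit [Fintype υ] [Fintype τ] in
/-- sums over ordered pairs -/
theorem sum_sy (g : J → J → F2) :
    ∑ i, ∑ j, sy x i j * g i j = ∑ p : {p : J × J // p.1 < p.2}, x (Sum.inl p) *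
      (g p.1.1 p.1.2 + g p.1.2 p.1.1) := by
  have h1 : ∑ i, ∑ j, sy x i j * g i j = ∑ p : J × J, sy x p.1 p.2 * g p.1 p.2 :=
    (Fintype.sum_prod_type (f := fun p : J × J => sy x p.1 p.2 * g p.1 p.2)).symm
  rw [h1]
  have h2 : ∑ p : J × J, sy x p.1 p.2 * g p.1 p.2 =
      ∑ p ∈ univ.filter (fun p : J × J => p.1 < p.2), sy x p.1 p.2 * g p.1 p.2 +
      ∑ p ∈ univ.filter (fun p : J × J => p.2 < p.1), sy x p.1 p.2 * g p.1 p.2 := by
    rw [← sum_union]
    · symm
      apply sum_subset (subset_univ _)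
      intro p _ hp
      rw [mem_union, mem_filter, mem_filter] at hp
      push Not at hp
      have e1 : ¬ p.1 < p.2 := not_lt.2 (hp.1 (mem_univ _))
      have e2 : ¬ p.2 < p.1 := not_lt.2 (hp.2 (mem_univ _))
      unfold sy
      rw [dif_neg e1, dif_neg e2, zero_mul]
    · rw [disjoint_left]
      intro p hp hp'
      exact lt_asymm (mem_filter.1 hp).2 (mem_filter.1 hp').2
  have h3 : ∑ p ∈ univ.filter (fun p : J × J => p.2 < p.1), sy x p.1 p.2 * g p.1 p.2 =
      ∑ p ∈ univ.filter (fun p : J × J => p.1 < p.2), sy x p.1 p.2 * g p.2 p.1 := by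
    refine sum_nbij' Prod.swap Prod.swap ?_ ?_ ?_ ?_ ?_
    · intro p hp
      exact mem_filter.2 ⟨mem_univ _, (mem_filter.1 hp).2⟩
    · intro p hp
      exact mem_filter.2 ⟨mem_univ _, (mem_filter.1 hp).2⟩
    · intro p _; exact Prod.swap_swap p
    · intro p _; exact Prod.swap_swap p
    · intro p _
      show _ = sy x p.2 p.1 * g p.1 p.2
      rw [sy_comm]
  rw [h2, h3, ← sum_add_distrib]
  refine sum_bij' (fun p hp => ⟨p, (mem_filter.1 hp).2⟩) (fun p _ => p.1) ?_ ?_ ?_ ?_ ?_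
  · intro _ _; exact mem_univ _
  · intro p _; exact mem_filter.2 ⟨mem_univ _, p.2⟩
  · intro _ _; rfl
  · intro _ _; rfl
  · intro p hp
    have h := (mem_filter.1 hp).2
    have e : sy x p.1 p.2 = x (Sum.inl ⟨p, h⟩) := by
      unfold sy
      rw [dif_pos h]
    rw [e]
    ring

theorem om_quad (a b a' b' : W) : (om b a' + om a a') + (om a b' + om b b') =
    om (a + b) (a' + b') := by
  simp only [om_add_left, om_add_right]
  ring

/-- the form is an affine function of the symbols -/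
theorem Fm_aff (w w' : V (J ⊕ υ) τ) :
    Fm Md U x w w' = ∑ p, x p * cfo Md U w w' p + Fm Md U 0 w w' := by
  set g : J ⊕ υ → J ⊕ υ → F2 := fun p q => om (w.1 q) (w'.1 p) + om (w.1 p) (w'.1 p) with hg
  set h : J ⊕ υ → τ → F2 := fun p s => om (w.1 p) (Md.D.t s) * om (w'.1 p) (Md.D.t s) +
    w.2 s * om (Md.D.t s) (w'.1 p) + w'.2 s * om (w.1 p) (Md.D.t s) with hh
  set R : F2 := ∑ s, ∑ s', Md.D.G s s' * (w.2 s' * w'.2 s * om (Md.D.t s') (Md.D.t s)) +
    ∑ s, w.2 s * w'.2 s + ∑ p, dd Md U p * om (ks Md.D.l (w.1 p)) (w'.1 p) with hR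
  have e0 : ∀ y : Bt J υ τ → F2, Fm Md U y w w' = ∑ p, ∑ q, AA Md U y p q * g p q +
      ∑ p, ∑ s, BB Md U y p s * h p s + R := by
    intro y
    rw [Fm, FF, hR]
    ring
  have e1 : ∀ y : Bt J υ τ → F2, ∑ p, ∑ q, AA Md U y p q * g p q =
      ∑ p : {p : J × J // p.1 < p.2}, y (Sum.inl p) * (g (Sum.inl p.1.1) (Sum.inl p.1.2) +
        g (Sum.inl p.1.2) (Sum.inl p.1.1)) +
      ∑ p : J × υ, y (Sum.inr (Sum.inl p)) * (if p.2 ∈ U then g (Sum.inl p.1) (Sum.inr p.2) +
        g (Sum.inr p.2) (Sum.inl p.1) else 0) +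
      ∑ u, ∑ v, (if u ∈ U ∧ v ∈ U then Md.C u v else 0) * g (Sum.inr u) (Sum.inr v) := by
    intro y
    simp only [Fintype.sum_sum_type, sum_add_distrib]
    have a1 := sum_sy y (fun i j => g (Sum.inl i) (Sum.inl j))
    have a2 : ∑ i : J, ∑ u : υ, AA Md U y (Sum.inl i) (Sum.inr u) * g (Sum.inl i) (Sum.inr u) +
        ∑ u : υ, ∑ i : J, AA Md U y (Sum.inr u) (Sum.inl i) * g (Sum.inr u) (Sum.inl i) =
        ∑ p : J × υ, y (Sum.inr (Sum.inl p)) * (if p.2 ∈ U then g (Sum.inl p.1) (Sum.inr p.2) +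
        g (Sum.inr p.2) (Sum.inl p.1) else 0) := by
      rw [sum_comm (s := (univ : Finset υ)), ← sum_add_distrib, Fintype.sum_prod_type]
      refine sum_congr rfl fun i _ => ?_
      rw [← sum_add_distrib]
      refine sum_congr rfl fun u _ => ?_
      show (if u ∈ U then y (Sum.inr (Sum.inl (i, u))) else 0) * _ +
        (if u ∈ U then y (Sum.inr (Sum.inl (i, u))) else 0) * _ = _
      split_ifs <;> ring
    have a3 : ∀ i j : J, AA Md U y (Sum.inl i) (Sum.inl j) = sy y i j := fun i j => rfl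
    have a4 : ∀ u v : υ, AA Md U y (Sum.inr u) (Sum.inr v) =
      (if u ∈ U ∧ v ∈ U then Md.C u v else 0) := fun u v => rfl
    simp only [a3, a4]
    rw [a1, ← a2]
    ring
  have e2 : ∀ y : Bt J υ τ → F2, ∑ p, ∑ s, BB Md U y p s * h p s =
      ∑ p : J × τ, y (Sum.inr (Sum.inr p)) * h (Sum.inl p.1) p.2 +
      ∑ u, ∑ s, (if u ∈ U then Md.b u s else 0) * h (Sum.inr u) s := by
    intro y
    rw [Fintype.sum_sum_type, Fintype.sum_prod_type]
    rfl
  have e3 : ∑ p, x p * cfo Md U w w' p =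
      ∑ p : {p : J × J // p.1 < p.2}, x (Sum.inl p) * (g (Sum.inl p.1.1) (Sum.inl p.1.2) +
        g (Sum.inl p.1.2) (Sum.inl p.1.1)) +
      (∑ p : J × υ, x (Sum.inr (Sum.inl p)) * (if p.2 ∈ U then g (Sum.inl p.1) (Sum.inr p.2) +
        g (Sum.inr p.2) (Sum.inl p.1) else 0) +
      ∑ p : J × τ, x (Sum.inr (Sum.inr p)) * h (Sum.inl p.1) p.2) := by
    rw [Fintype.sum_sum_type, Fintype.sum_sum_type]
    congr 1
    · refine sum_congr rfl fun p _ => ?_
      congr 1
      rw [hg]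
      exact (om_quad _ _ _ _).symm
    · congr 1
      · refine sum_congr rfl fun p _ => ?_
        congr 1
        show (if p.2 ∈ U then _ else (0 : F2)) = _
        split_ifs
        · rw [hg]
          exact (om_quad _ _ _ _).symm
        · rfl
  rw [e0 x, e0 0, e1 x, e1 0, e2 x, e2 0, e3]
  simp only [Pi.zero_apply, zero_mul, sum_const_zero, zero_add]
  ring

/-- the space of the twist `U` -/
noncomputable def SU : Submodule F2 (V (J ⊕ υ) τ) where
  carrier := {w | IsV0 Md.D (dd Md U) w ∧ ∀ u, u ∉ U → w.1 (Sum.inr u) = 0}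
  add_mem' := by
    rintro a b ⟨ha, ha'⟩ ⟨hb, hb'⟩
    refine ⟨ha.add Md.D _ hb, fun u hu => ?_⟩
    show a.1 (Sum.inr u) + b.1 (Sum.inr u) = 0
    rw [ha' u hu, hb' u hu, add_zero]
  zero_mem' := by
    refine ⟨⟨?_, fun _ _ => rfl⟩, fun _ _ => rfl⟩
    have h := dg_add Md.D (dd Md U) (0 : V (J ⊕ υ) τ) 0
    rw [add_zero, W_add_self] at h
    exact h
  smul_mem' := by
    intro c a ha
    rcases F2_cases c with rfl | rfl
    · rw [zero_smul]
      refine ⟨⟨?_, fun _ _ => rfl⟩, fun _ _ => rfl⟩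
      have h := dg_add Md.D (dd Md U) (0 : V (J ⊕ υ) τ) 0
      rw [add_zero, W_add_self] at h
      exact h
    · rw [one_smul]
      exact ha

theorem mem_SU {w : V (J ⊕ υ) τ} : w ∈ SU Md U ↔
    IsV0 Md.D (dd Md U) w ∧ ∀ u, u ∉ U → w.1 (Sum.inr u) = 0 := Iff.rfl

theorem Fm_add_left (w₁ w₂ w' : V (J ⊕ υ) τ) :
    Fm Md U x (w₁ + w₂) w' = Fm Md U x w₁ w' + Fm Md U x w₂ w' := FF_add_left _ _ _ _ _ _ _

theorem Fm_comm (w w' : V (J ⊕ υ) τ) : Fm Md U x w w' = Fm Md U x w' w :=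
  FF_comm _ _ _ (AA_comm Md U x) _ _

theorem Fm_add_right (w w₁ w₂ : V (J ⊕ υ) τ) :
    Fm Md U x w (w₁ + w₂) = Fm Md U x w w₁ + Fm Md U x w w₂ :=
  FF_add_right _ _ _ (AA_comm Md U x) _ _ _

theorem Fm_zero_left (w : V (J ⊕ υ) τ) : Fm Md U x 0 w = 0 := FF_zero_left _ _ _ _

theorem Fm_zero_right (w : V (J ⊕ υ) τ) : Fm Md U x w 0 = 0 := by
  rw [Fm_comm, Fm_zero_left]

theorem Fm_smul_right (c : F2) (w w' : V (J ⊕ υ) τ) :
    Fm Md U x w (c • w') = c * Fm Md U x w w' := by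
  rcases F2_cases c with rfl | rfl
  · rw [zero_smul, zero_mul, Fm_zero_right]
  · rw [one_smul, one_mul]

/-- the vector `wo` in the space -/
theorem wo_mem : (wo Md.D : V (J ⊕ υ) τ) ∈ SU Md U := by
  refine ⟨⟨?_, fun s hs => if_pos hs⟩, fun _ _ => rfl⟩
  have h3 := Md.D.h3
  have : ∀ s, (Md.D.e s * (if Md.D.t s = 0 then (0 : F2) else 1)) • Md.D.t s =
      Md.D.e s • Md.D.t s := by
    intro s
    by_cases hs : Md.D.t s = 0
    · rw [hs, smul_zero, smul_zero]
    · rw [if_neg hs, mul_one]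
  simp only [dg, wo, Pi.zero_apply, smul_zero, sum_const_zero, zero_add, this]
  exact h3

theorem Fm_diag {w : V (J ⊕ υ) τ} (hw : w ∈ SU Md U) :
    Fm Md U x w w = Fm Md U x w (wo Md.D) := by
  have h1 : Fm Md U x w w = Fm Md U x w ws := FF_diag _ _ _ (AA_comm Md U x) w hw.1.1
  rw [h1]
  have h2 : (ws : V (J ⊕ υ) τ) = wo Md.D + ((0, fun s => if Md.D.t s = 0 then 1 else 0) :
      V (J ⊕ υ) τ) := by
    refine Prod.ext ?_ ?_
    · funext p
      show (0 : W) = 0 + 0
      rw [add_zero]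
    · funext s
      show (1 : F2) = (if Md.D.t s = 0 then (0 : F2) else 1) + (if Md.D.t s = 0 then (1 : F2) else 0)
      split_ifs
      · rw [zero_add]
      · rw [add_zero]
  rw [h2, Fm_add_right]
  have h3 : Fm Md U x w ((0, fun s => if Md.D.t s = 0 then 1 else 0) : V (J ⊕ υ) τ) = 0 := by
    have c1 : ∀ s, (if Md.D.t s = 0 then (1 : F2) else 0) • Md.D.t s = 0 := by
      intro s
      split_ifs with hs
      · rw [hs, smul_zero]
      · rw [zero_smul]
    have c2 : ∀ s y, (if Md.D.t s = 0 then (1 : F2) else 0) * om y (Md.D.t s) = 0 := by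
      intro s y
      rw [← om_smul_right, c1, om_zero_right]
    have c3 : ∀ s, w.2 s * (if Md.D.t s = 0 then (1 : F2) else 0) = 0 := by
      intro s
      split_ifs with hs
      · rw [hw.1.2 s hs, zero_mul]
      · rw [mul_zero]
    have c4 : ∀ s s', Md.D.G s s' * (w.2 s' * (if Md.D.t s = 0 then (1 : F2) else 0) *
        om (Md.D.t s') (Md.D.t s)) = 0 := by
      intro s s'
      rw [mul_assoc (w.2 s'), c2, mul_zero, mul_zero]
    rw [Fm, FF]
    simp only [Pi.zero_apply, om_zero_right, om_zero_left, mul_zero, add_zero, zero_add,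
      sum_const_zero, c2, c3, c4, zero_mul]
  rw [h3, add_zero]

/-- the kernel of the form of the twist `U` -/
noncomputable def Kr : Submodule F2 (V (J ⊕ υ) τ) where
  carrier := {w | w ∈ SU Md U ∧ ∀ w' ∈ SU Md U, Fm Md U x w w' = 0}
  add_mem' := by
    rintro a b ⟨ha, ha'⟩ ⟨hb, hb'⟩
    exact ⟨add_mem ha hb, fun w' hw' => by rw [Fm_add_left, ha' w' hw', hb' w' hw', add_zero]⟩
  zero_mem' := ⟨zero_mem _, fun w' _ => Fm_zero_left Md U x w'⟩
  smul_mem' := by
    intro c a ha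
    rcases F2_cases c with rfl | rfl
    · rw [zero_smul]
      exact ⟨zero_mem _, fun w' _ => Fm_zero_left Md U x w'⟩
    · rw [one_smul]
      exact ha

theorem mem_Kr {w : V (J ⊕ υ) τ} : w ∈ Kr Md U x ↔
    w ∈ SU Md U ∧ ∀ w' ∈ SU Md U, Fm Md U x w w' = 0 := Iff.rfl

end Q283.FS
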