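import Pool.Agent.Q283.FS.Mom

/-!
The bounds for the numbers of configurations.
-/

set_option autoImplicit false
set_option linter.all false

open scoped Classical

namespace Q283.FS

open Finset Module
open Pool.Agent.Y164.PS

theorem card_few {J Λ : Type} [Fintype J] [DecidableEq J] [Fintype Λ] [DecidableEq Λ] (N : ℕ) :
    ((univ : Finset (J → Λ)).filter fun f => (univ.image f).card < N + 1).card ≤
      2 ^ Fintype.card Λ * N ^ Fintype.card J := by
  have h1 : ((univ : Finset (J → Λ)).filter fun f => (univ.image f).card < N + 1) ⊆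
      ((univ : Finset (Finset Λ)).filter fun Y => Y.card ≤ N).biUnion
        fun Y => Fintype.piFinset fun _ : J => Y := by
    intro f hf
    rw [mem_filter] at hf
    rw [mem_biUnion]
    refine ⟨univ.image f, mem_filter.2 ⟨mem_univ _, by omega⟩, ?_⟩
    rw [Fintype.mem_piFinset]
    intro i
    exact mem_image_of_mem _ (mem_univ i)
  refine (card_le_card h1).trans (card_biUnion_le.trans ?_)
  have h2 : ∀ Y ∈ ((univ : Finset (Finset Λ)).filter fun Y => Y.card ≤ N),
      (Fintype.piFinset fun _ : J => Y).card ≤ N ^ Fintype.card J := by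
    intro Y hY
    rw [Fintype.card_piFinset, prod_const, card_univ]
    exact Nat.pow_le_pow_left (mem_filter.1 hY).2 _
  refine (sum_le_sum h2).trans ?_
  rw [sum_const, smul_eq_mul]
  apply Nat.mul_le_mul_right
  refine (card_le_card (filter_subset _ _)).trans ?_
  rw [card_univ, Fintype.card_finset]

variable {J υ τ : Type} [Fintype J] [Fintype υ] [Fintype τ] [LinearOrder J]
variable {M : ℕ} {jj : Fin M → ℕ}
variable (Md : Mdl J υ τ) (Um : Fin M → Finset υ)

theorem card_SUs (U : Finset υ) : 4 ^ Fintype.card J ≤ 4 * (SUs Md U).card := by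
  let φ : (J → W) → W := fun f => ∑ i, Md.dJ i • f i
  have hφ : ∀ f g, φ (f + g) = φ f + φ g := by
    intro f g
    show ∑ i, Md.dJ i • (f i + g i) = _
    simp only [smul_add, sum_add_distrib]
    rfl
  have h1 : ∀ y ∈ (univ : Finset (J → W)).image φ,
      ((univ : Finset (J → W)).filter fun f => φ f = y).card ≤ (SUs Md U).card := by
    intro y hy
    obtain ⟨f0, -, hf0⟩ := mem_image.1 hy
    refine card_le_card_of_injOn
      (fun f => ((Sum.elim (f + f0) 0, 0) : V (J ⊕ υ) τ)) ?_ ?_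
    · intro f hf
      have hf' : φ f = y := (mem_filter.1 hf).2
      rw [Finset.mem_coe, mem_SUs]
      refine ⟨⟨?_, fun _ _ => rfl⟩, fun _ _ => rfl⟩
      have h2 : dg Md.D (dd Md U) ((Sum.elim (f + f0) 0, 0) : V (J ⊕ υ) τ) = φ (f + f0) := by
        unfold dg
        rw [Fintype.sum_sum_type]
        have e1 : ∑ u : υ, dd Md U (Sum.inr u) •
            ((Sum.elim (f + f0) 0, 0) : V (J ⊕ υ) τ).1 (Sum.inr u) = 0 := by
          apply sum_eq_zero
          intro u _
          exact smul_zero _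
        have e2 : ∑ s, (Md.D.e s * ((Sum.elim (f + f0) 0, 0) : V (J ⊕ υ) τ).2 s) • Md.D.t s = 0 := by
          apply sum_eq_zero
          intro s _
          show (Md.D.e s * 0) • Md.D.t s = 0
          rw [mul_zero, zero_smul]
        rw [e1, e2, add_zero, add_zero]
        rfl
      rw [h2, hφ, hf', hf0, W_add_self]
    · intro f _ g _ h
      have h2 : (Sum.elim (f + f0) 0 : J ⊕ υ → W) = Sum.elim (g + f0) 0 := congrArg Prod.fst h
      funext i
      have h3 := congrFun h2 (Sum.inl i)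
      have h4 : f i + f0 i = g i + f0 i := h3
      exact add_right_cancel h4
  have h2 := card_le_mul_card_image (univ : Finset (J → W)) _ h1
  have h3 : ((univ : Finset (J → W)).image φ).card ≤ 4 := by
    refine (card_le_univ _).trans (le_of_eq ?_)
    rw [Fintype.card_prod, ZMod.card]
  have h4 : (univ : Finset (J → W)).card = 4 ^ Fintype.card J := by
    rw [card_univ, Fintype.card_fun, Fintype.card_prod, ZMod.card]
  rw [h4] at h2
  refine h2.trans ?_
  rw [mul_comm]
  exact Nat.mul_le_mul_right _ h3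

theorem VV_ge : ((4 : ℝ) ^ Fintype.card J / 4) ^ Fintype.card (Kx jj) ≤ (VV Md Um jj).card := by
  rw [card_VV, ← card_univ (α := Kx jj), ← prod_const]
  refine prod_le_prod (fun _ _ => by positivity) fun κ _ => ?_
  have h := card_SUs Md (Um κ.1)
  have h2 : (4 : ℝ) ^ Fintype.card J ≤ 4 * (SUs Md (Um κ.1)).card := by exact_mod_cast h
  linarith

theorem VV_le : ((VV Md Um jj).card : ℝ) ≤
    (4 ^ (Fintype.card J + Fintype.card υ) * 2 ^ Fintype.card τ) ^ Fintype.card (Kx jj) := by
  rw [card_VV, ← card_univ (α := Kx jj), ← prod_const]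
  refine prod_le_prod (fun _ _ => by positivity) fun κ _ => ?_
  have h : (SUs Md (Um κ.1)).card ≤ 4 ^ (Fintype.card J + Fintype.card υ) * 2 ^ Fintype.card τ := by
    refine (card_le_univ _).trans (le_of_eq ?_)
    rw [Fintype.card_prod, Fintype.card_fun, Fintype.card_fun, Fintype.card_sum, Fintype.card_prod,
      ZMod.card]
  exact_mod_cast h

theorem Sml_le : ((Sml Md Um jj).card : ℝ) ≤
    2 ^ (16 ^ Fintype.card (Kx jj)) * (4 ^ Fintype.card (Kx jj) - 1) ^ Fintype.card J *
      (4 ^ Fintype.card υ * 2 ^ Fintype.card τ) ^ (2 * Fintype.card (Kx jj)) *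
      2 ^ Fintype.card τ := by
  set m := Fintype.card (Kx jj) with hm
  obtain ⟨N, hN⟩ : ∃ N, 2 ^ (2 * m) = N + 1 := ⟨2 ^ (2 * m) - 1, by
    have : 0 < 2 ^ (2 * m) := by positivity
    omega⟩
  have hcard : (Sml Md Um jj).card ≤
      (((univ : Finset (J → Lb (Kx jj))).filter fun f => (univ.image f).card < N + 1) ×ˢ
        (univ : Finset (((Kx jj → υ → W) × (Kx jj → υ → W)) × ((Kx jj → τ → F2) × (Kx jj → τ → F2)) ×
          (τ → F2)))).card := by
    refine card_le_card_of_injOn (fun q => (fun i => (la q.1 i, la q.2.1 i),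
      ((fun κ u => (q.1 κ).1 (Sum.inr u), fun κ u => (q.2.1 κ).1 (Sum.inr u)),
      (fun κ s => (q.1 κ).2 s, fun κ s => (q.2.1 κ).2 s), q.2.2))) ?_ ?_
    · intro q hq
      rw [Finset.mem_coe, Sml, mem_filter] at hq
      rw [Finset.mem_coe, mem_product, mem_filter]
      refine ⟨⟨mem_univ _, ?_⟩, mem_univ _⟩
      have := hq.2
      rw [← hm, hN] at this
      exact this
    · rintro ⟨w, w', Uf⟩ _ ⟨v, v', Ug⟩ _ h
      simp only [Prod.mk.injEq] at h
      obtain ⟨h1, ⟨h2, h3⟩, ⟨h4, h5⟩, h6⟩ := h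
      have e1 : w = v := by
        funext κ
        refine Prod.ext ?_ ?_
        · funext p
          rcases p with i | u
          · exact congrFun (congrArg Prod.fst (congrFun h1 i)) κ
          · exact congrFun (congrFun h2 κ) u
        · funext s
          exact congrFun (congrFun h4 κ) s
      have e2 : w' = v' := by
        funext κ
        refine Prod.ext ?_ ?_
        · funext p
          rcases p with i | u
          · exact congrFun (congrArg Prod.snd (congrFun h1 i)) κ
          · exact congrFun (congrFun h3 κ) u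
        · funext s
          exact congrFun (congrFun h5 κ) s
      rw [e1, e2, h6]
  have hΛ : Fintype.card (Lb (Kx jj)) = 16 ^ m := by
    rw [Fintype.card_prod, card_KW, ← hm, ← pow_add, show 16 = 2 ^ 4 by norm_num, ← pow_mul]
    congr 1
    ring
  have h2 := card_few (J := J) (Λ := Lb (Kx jj)) N
  rw [hΛ] at h2
  have h3 : (univ : Finset (((Kx jj → υ → W) × (Kx jj → υ → W)) ×
      ((Kx jj → τ → F2) × (Kx jj → τ → F2)) × (τ → F2))).card =
      (4 ^ Fintype.card υ * 2 ^ Fintype.card τ) ^ (2 * m) * 2 ^ Fintype.card τ := by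
    rw [card_univ]
    simp only [Fintype.card_prod, Fintype.card_fun, ZMod.card, ← hm]
    rw [show (2 * 2 : ℕ) = 4 by norm_num, two_mul m, pow_add, mul_pow]
    ring
  rw [card_product, h3] at hcard
  have h4 : (Sml Md Um jj).card ≤ 2 ^ 16 ^ m * N ^ Fintype.card J *
      ((4 ^ Fintype.card υ * 2 ^ Fintype.card τ) ^ (2 * m) * 2 ^ Fintype.card τ) :=
    hcard.trans (Nat.mul_le_mul_right _ h2)
  have hNr : (4 : ℝ) ^ m - 1 = N := by
    have : ((2 : ℝ)) ^ (2 * m) = N + 1 := by exact_mod_cast hN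
    rw [pow_mul] at this
    norm_num at this
    linarith
  rw [hNr]
  have h5 : ((Sml Md Um jj).card : ℝ) ≤ 2 ^ 16 ^ m * (N : ℝ) ^ Fintype.card J *
      ((4 ^ Fintype.card υ * 2 ^ Fintype.card τ) ^ (2 * m) * 2 ^ Fintype.card τ) := by
    exact_mod_cast h4
  refine h5.trans (le_of_eq ?_)
  ring

/-- the error ratio -/
noncomputable def ER (m J υ τ : ℕ) : ℝ :=
  2 ^ (16 ^ m) * 4 ^ m * 2 ^ τ * (4 ^ υ * 2 ^ τ) ^ (2 * m) * ((4 ^ m - 1) / 4 ^ m) ^ J

theorem Sml_ratio : ((Sml Md Um jj).card : ℝ) ≤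
    ER (Fintype.card (Kx jj)) (Fintype.card J) (Fintype.card υ) (Fintype.card τ) *
      (VV Md Um jj).card := by
  set m := Fintype.card (Kx jj) with hm
  have h1 := Sml_le (jj := jj) Md Um
  have h2 := VV_ge (jj := jj) Md Um
  rw [← hm] at h1 h2
  have h0 : (0 : ℝ) ≤ (4 : ℝ) ^ m - 1 := by
    have : (1 : ℝ) ≤ 4 ^ m := one_le_pow₀ (by norm_num)
    linarith
  have hER : 0 ≤ ER m (Fintype.card J) (Fintype.card υ) (Fintype.card τ) := by
    unfold ER
    have : (0 : ℝ) ≤ (4 ^ m - 1) / 4 ^ m := div_nonneg h0 (by positivity)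
    positivity
  refine h1.trans (le_trans (le_of_eq ?_) (mul_le_mul_of_nonneg_left h2 hER))
  unfold ER
  rw [div_pow, div_pow, ← pow_mul, ← pow_mul, mul_comm (Fintype.card J) m]
  have h4 : (4 : ℝ) ^ (m * Fintype.card J) ≠ 0 := by positivity
  have h5 : (4 : ℝ) ^ m ≠ 0 := by positivity
  field_simp

theorem ER_nonneg (m J υ τ : ℕ) : 0 ≤ ER m J υ τ := by
  have h0 : (0 : ℝ) ≤ (4 : ℝ) ^ m - 1 := by
    have : (1 : ℝ) ≤ 4 ^ m := one_le_pow₀ (by norm_num)
    linarith
  unfold ER
  have : (0 : ℝ) ≤ (4 ^ m - 1) / 4 ^ m := div_nonneg h0 (by positivity)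
  positivity

variable {Θ : Type} (𝒯 : Finset Θ) (x : Θ → Bt J υ τ → F2) (cc : τ → F2) {E : ℝ}

/-- **The mean number of the independent tuples.** -/
theorem mom1 (hE : Eqd 𝒯 x E) (hE0 : 0 ≤ E) (hU : Function.Injective Um)
    (hG : ∀ u : W, u ≠ 0 → ∃ s, om u (Md.D.t s) ≠ 0)
    (hN : ∀ k, ∑ p, dd Md (Um k) p + Md.D.N = 1) :
    |Mm Md Um 𝒯 x cc jj * 2 ^ Fintype.card τ - (CS jj).card * 𝒯.card| ≤
      ((CS jj).card + 1) * ER (Fintype.card (Kx jj)) (Fintype.card J) (Fintype.card υ)
        (Fintype.card τ) * 𝒯.card +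
      (4 ^ (Fintype.card J + Fintype.card υ) * 2 ^ Fintype.card τ) ^ Fintype.card (Kx jj) *
        2 ^ Fintype.card τ * E := by
  have h1 := mom0 (jj := jj) Md Um 𝒯 x cc hE hE0 hU hG hN
  have h2 := Sml_ratio (jj := jj) Md Um
  have h3 := VV_le (jj := jj) Md Um
  have h4 := VV_ge (jj := jj) Md Um
  obtain ⟨v, hv⟩ : ∃ v : ℝ, v = (VV Md Um jj).card := ⟨_, rfl⟩
  have hv0 : 0 < v := by
    rw [hv]
    exact lt_of_lt_of_le (by positivity) h4
  rw [← hv] at h1 h2 h3
  have e1 : Mm Md Um 𝒯 x cc jj * (v * 2 ^ Fintype.card τ) - (CS jj).card * 𝒯.card * v =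
      v * (Mm Md Um 𝒯 x cc jj * 2 ^ Fintype.card τ - (CS jj).card * 𝒯.card) := by ring
  rw [e1, abs_mul, abs_of_pos hv0] at h1
  refine le_of_mul_le_mul_left (h1.trans ?_) hv0
  rw [mul_add]
  apply add_le_add
  · have h5 : (((CS jj).card : ℝ) + 1) * (Sml Md Um jj).card * 𝒯.card ≤
        (((CS jj).card : ℝ) + 1) * (ER (Fintype.card (Kx jj)) (Fintype.card J) (Fintype.card υ)
        (Fintype.card τ) * v) * 𝒯.card :=
      mul_le_mul_of_nonneg_right (mul_le_mul_of_nonneg_left h2 (by positivity)) (by positivity)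
    refine h5.trans (le_of_eq ?_)
    ring
  · apply mul_le_mul_of_nonneg_left _ hv0.le
    have h6 : (0 : ℝ) ≤ 2 ^ Fintype.card τ * E := mul_nonneg (by positivity) hE0
    calc v * 2 ^ Fintype.card τ * E = v * (2 ^ Fintype.card τ * E) := by ring
      _ ≤ (4 ^ (Fintype.card J + Fintype.card υ) * 2 ^ Fintype.card τ) ^ Fintype.card (Kx jj) *
          (2 ^ Fintype.card τ * E) := mul_le_mul_of_nonneg_right h3 h6
      _ = _ := by ring

end Q283.FS
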