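import Pool.Agent.Q283.FS.Mod

/-!
The moments in a cell.
-/

set_option autoImplicit false
set_option linter.all false

open scoped Classical

namespace Q283.FS

open Finset Polynomial Pool.Agent.H341R2.Sharp Module
open Pool.Agent.Y164.PS
open Pool.Agent.Y697.PQ (ij)

theorem sum_sd {α : Type} [DecidableEq α] (A B : Finset α) (f : α → F2) :
    ∑ P ∈ symmDiff A B, f P = ∑ P ∈ A, f P + ∑ P ∈ B, f P := by
  have h1 : symmDiff A B = (A \ B) ∪ (B \ A) := rfl
  have h2 : Disjoint (A \ B) (B \ A) := by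
    rw [disjoint_left]
    intro x hx hx'
    exact (mem_sdiff.1 hx').2 (mem_sdiff.1 hx).1
  rw [h1, sum_union h2]
  have h3 : ∑ P ∈ A, f P = ∑ P ∈ A \ B, f P + ∑ P ∈ A ∩ B, f P := by
    rw [← sum_union (disjoint_sdiff_inter A B), sdiff_union_inter]
  have h4 : ∑ P ∈ B, f P = ∑ P ∈ B \ A, f P + ∑ P ∈ A ∩ B, f P := by
    rw [inter_comm A B, ← sum_union (disjoint_sdiff_inter B A), sdiff_union_inter]
  rw [h3, h4]
  have h5 := F2_add_self (∑ P ∈ A ∩ B, f P)
  calc _ = ∑ P ∈ A \ B, f P + ∑ P ∈ B \ A, f P +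
        (∑ P ∈ A ∩ B, f P + ∑ P ∈ A ∩ B, f P) := by rw [h5, add_zero]
    _ = _ := by ring

variable {k : Type} [Field k] [Fintype k] [DecidableEq k]
variable {a b : k[X]} {N : ℕ} (H : Hyp a b N)
variable {ι : Type} [Fintype ι] [LinearOrder ι] {M : ℕ}

/-- the masks -/
structure Msk (a b : k[X]) (F : Fin M → Finset k[X]) : Prop where
  mon : ∀ κ, ∀ P ∈ F κ, P.Monic
  irr : ∀ κ, ∀ P ∈ F κ, Irreducible P
  bad : ∀ κ, ∀ P ∈ F κ, ∀ s : Tau a b, P ≠ QQ a b s
  even : ∀ κ, ∑ P ∈ F κ, (P.natDegree : F2) = 0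
  inj : Function.Injective F

/-- the primes of the masks -/
noncomputable def PM (F : Fin M → Finset k[X]) : Finset k[X] := univ.biUnion F

/-- the total degree of the primes of the masks -/
noncomputable def dM (F : Fin M → Finset k[X]) : ℕ := ∑ P ∈ PM F, P.natDegree

/-- the error -/
noncomputable def et2 (a b : k[X]) (F : Fin M → Finset k[X]) (n z : ℕ) : ℝ :=
  2 * (5 * (n + (dM F + dQ a b) : ℕ) + 2 + n * (n + ((PM F).card + Fintype.card (Tau a b)))) / 2 ^ z

theorem et2_nonneg (F : Fin M → Finset k[X]) (n z : ℕ) : 0 ≤ et2 a b F n z := by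
  unfold et2
  positivity

variable {F : Fin M → Finset k[X]} (hF : Msk a b F)

theorem PM_mem {P : k[X]} : P ∈ PM F ↔ ∃ κ, P ∈ F κ := by
  rw [PM, mem_biUnion]
  exact ⟨fun ⟨κ, _, h⟩ => ⟨κ, h⟩, fun ⟨κ, h⟩ => ⟨κ, mem_univ _, h⟩⟩

include H hF in
theorem Ups_fam {n : ℕ} {T0 : ι → k[X]} (hT0 : T0 ∈ Tp k ι n) (lg : Finset ι) :
    ∀ P ∈ Ups F lg T0, P.Monic ∧ Irreducible P := by
  intro P hP
  rw [Ups, mem_union] at hP
  rcases hP with hP | hP
  · rw [sml, mem_image] at hP
    obtain ⟨i, -, rfl⟩ := hP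
    exact (mem_Tp.1 hT0).1 i
  · obtain ⟨κ, h⟩ := PM_mem.1 hP
    exact ⟨hF.mon κ P h, hF.irr κ P h⟩

theorem card_sml (lg : Finset ι) (T0 : ι → k[X]) :
    lg.card + (sml lg T0).card ≤ Fintype.card ι := by
  have h1 : (sml lg T0).card ≤ (univ.filter fun i => i ∉ lg).card := card_image_le
  have h2 : (univ.filter fun i => i ∉ lg).card = Fintype.card ι - lg.card := by
    rw [← card_compl]
    congr 1
    ext i
    rw [mem_filter, mem_compl]
    exact ⟨fun h => h.2, fun h => ⟨mem_univ _, h⟩⟩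
  have h3 : lg.card ≤ Fintype.card ι := card_le_univ _
  omega

theorem card_Ups (lg : Finset ι) (T0 : ι → k[X]) :
    (Ups F lg T0).card ≤ (sml lg T0).card + (PM F).card := card_union_le _ _

include H hF in
theorem cel_inst (hq : 4 ≤ Fintype.card k) {n z : ℕ} (hz : 2 ≤ z) {T0 : ι → k[X]}
    (hT0 : T0 ∈ Tp k ι n) :
    Cel (Ri F (lgs z T0) T0) (QQ a b) (cell z T0) (lgs z T0) (n + (dM F + dQ a b)) (et2 a b F n z) ∧
    ∀ j ∈ lgs z T0, (((lgs z T0).card : ℝ) + Fintype.card (Ups F (lgs z T0) T0) +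
      Fintype.card (Tau a b)) ≤ et2 a b F n z * (cell z T0 j).card := by
  have hT := mem_Tp.1 hT0
  have hmn := m_le hT0
  have key : ∀ j ∈ lgs z T0, cell z T0 j = Pr k (T0 j).natDegree ∧ z ≤ (T0 j).natDegree ∧
      (T0 j).natDegree ≤ n := by
    intro j hj
    rw [lgs, mem_filter] at hj
    refine ⟨?_, hj.2, ?_⟩
    · rw [cell, if_neg (by omega)]
    · rw [← hT.2]
      exact single_le_sum (f := fun i => (T0 i).natDegree) (fun _ _ => Nat.zero_le _) (mem_univ j)
  have hcard : ((lgs z T0).card : ℝ) + Fintype.card (Ups F (lgs z T0) T0) +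
      Fintype.card (Tau a b) ≤ (Fintype.card ι : ℝ) + ((PM F).card + Fintype.card (Tau a b)) := by
    have h1 := card_sml (lgs z T0) T0
    have h2 := card_Ups (F := F) (lgs z T0) T0
    have h3 : (lgs z T0).card + (Ups F (lgs z T0) T0).card ≤ Fintype.card ι + (PM F).card := by
      omega
    have h4 : ((lgs z T0).card : ℝ) + (Ups F (lgs z T0) T0).card ≤ Fintype.card ι + (PM F).card := by
      exact_mod_cast h3
    rw [Fintype.card_coe]
    linarith
  have est : ∀ j ∈ lgs z T0, ∀ S : ℝ, 0 ≤ S →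
      ((T0 j).natDegree : ℝ) * S ≤ (5 * (n + (dM F + dQ a b) : ℕ) + 2) *
        (Real.sqrt (Fintype.card k)) ^ (T0 j).natDegree →
      S + (((lgs z T0).card : ℝ) + Fintype.card (Ups F (lgs z T0) T0) + Fintype.card (Tau a b)) ≤
        et2 a b F n z * (cell z T0 j).card := by
    intro j hj S hS0 hS
    obtain ⟨h1, h2, h3⟩ := key j hj
    rw [h1]
    refine (add_le_add (le_refl S) hcard).trans ?_
    have hd1 : 1 ≤ (T0 j).natDegree := by omega
    have hr2 : 2 ≤ Real.sqrt (Fintype.card k) := by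
      apply Real.le_sqrt_of_sq_le
      norm_num
      exact_mod_cast hq
    have hrr : (Fintype.card k : ℝ) = Real.sqrt (Fintype.card k) ^ 2 := by
      rw [Real.sq_sqrt (Nat.cast_nonneg _)]
    have h4 := card_Pr_ge (k := k) H.hk (T0 j).natDegree hd1
    have h5 : (Fintype.card k : ℝ) ^ (T0 j).natDegree =
        (Real.sqrt (Fintype.card k) ^ (T0 j).natDegree) ^ 2 := by
      conv_lhs => rw [hrr]
      rw [← pow_mul, ← pow_mul, mul_comm]
    rw [h5] at h4
    have hdn : ((T0 j).natDegree : ℝ) ≤ n := by exact_mod_cast h3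
    have hmn' : (Fintype.card ι : ℝ) ≤ n := by exact_mod_cast hmn
    exact numcore hr2 h2 hz hdn hmn' (Nat.cast_nonneg _)
      (add_nonneg (Nat.cast_nonneg _) (Nat.cast_nonneg _)) (Nat.cast_nonneg _)
      hS0 hS h4
  have hfam := Ups_fam H hF hT0 (lgs z T0)
  refine ⟨⟨H.hm, ?_, ?_, ?_, ?_, ?_, ?_, et2_nonneg _ _ _⟩, ?_⟩
  · rintro (u | s)
    · exact (hfam u.1 u.2).1
    · exact H.fam.mon s
  · rintro (u | s)
    · exact (hfam u.1 u.2).2
    · exact H.fam.irr s
  · intro i hi p hp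
    rw [(key i hi).1] at hp
    exact (mem_Pr.1 hp).1
  · intro i hi p hp
    rw [(key i hi).1] at hp
    exact (mem_Pr.1 hp).2.1
  · intro T hT'
    have hT'' : ∀ i, (T i).natDegree = (T0 i).natDegree := by
      intro i
      have h1 := Fintype.mem_piFinset.1 hT' i
      rw [cell] at h1
      split_ifs at h1 with h2
      · rw [mem_singleton.1 h1]
      · exact (mem_Pr.1 h1).2.2
    rw [Fintype.sum_sum_type]
    have e1 : ∑ u : Ups F (lgs z T0) T0, (Sum.elim (Ri F (lgs z T0) T0) (QQ a b) (Sum.inl u)).natDegree =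
        ∑ P ∈ Ups F (lgs z T0) T0, P.natDegree := sum_coe_sort _ fun P : k[X] => P.natDegree
    have e2 : ∑ P ∈ Ups F (lgs z T0) T0, P.natDegree ≤
        ∑ P ∈ sml (lgs z T0) T0, P.natDegree + dM F := by
      have := sum_union_inter (s₁ := sml (lgs z T0) T0) (s₂ := univ.biUnion F)
        (f := fun P : k[X] => P.natDegree)
      rw [Ups, dM, PM]
      omega
    have e3 : ∑ P ∈ sml (lgs z T0) T0, P.natDegree ≤
        ∑ i ∈ univ.filter (fun i => i ∉ lgs z T0), (T0 i).natDegree := by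
      rw [sml]
      exact sum_image_le_of_nonneg (fun _ _ => Nat.zero_le _)
    have e4 : ∑ i ∈ lgs z T0, (T i).natDegree = ∑ i ∈ lgs z T0, (T0 i).natDegree :=
      sum_congr rfl fun i _ => hT'' i
    have e5 : ∑ i ∈ lgs z T0, (T0 i).natDegree +
        ∑ i ∈ univ.filter (fun i => i ∉ lgs z T0), (T0 i).natDegree = n := by
      rw [← hT.2, ← sum_filter_add_sum_filter_not univ (fun i => i ∈ lgs z T0)]
      congr 1
      refine sum_congr ?_ fun _ _ => rfl
      ext i
      rw [mem_filter]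
      exact ⟨fun h => ⟨mem_univ _, h⟩, fun h => h.2⟩
    have e6 : ∑ s : Tau a b, (Sum.elim (Ri F (lgs z T0) T0) (QQ a b) (Sum.inr s)).natDegree =
      dQ a b := rfl
    rw [e1, e4, e6]
    omega
  · intro j hj M' hM hM1 hM2 hM3
    apply est j hj _ (abs_nonneg _)
    obtain ⟨h1, h2, h3⟩ := key j hj
    rw [h1]
    refine (char_sum H.hk hM hM1 hM3 _ (by omega)).trans ?_
    apply mul_le_mul_of_nonneg_right _ (pow_nonneg (Real.sqrt_nonneg _) _)
    have : (M'.natDegree : ℝ) ≤ (n + (dM F + dQ a b) : ℕ) := by exact_mod_cast hM2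
    linarith
  · intro j hj
    have := est j hj 0 le_rfl (by
      rw [mul_zero]
      have h1 : (0 : ℝ) ≤ (n + (dM F + dQ a b) : ℕ) := Nat.cast_nonneg _
      exact mul_nonneg (by linarith) (pow_nonneg (Real.sqrt_nonneg _) _))
    rw [zero_add] at this
    exact this

/-- the number of the tuples of distinct primes -/
theorem ok_lower {υ τ : Type} [Fintype υ] [Fintype τ] {lg : Finset ι} {Rs : υ → k[X]} {Q : τ → k[X]}
    {𝒞 : ι → Finset k[X]} {Nd : ℕ} {η : ℝ} (hc : Cel Rs Q 𝒞 lg Nd η)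
    (hinj : Function.Injective (Sum.elim Rs Q))
    (heta : ∀ j ∈ lg, ((lg.card : ℝ) + Fintype.card υ + Fintype.card τ) ≤ η * (𝒞 j).card) :
    (Fintype.piFinset 𝒞).card * (1 - lg.card * η) ≤
      (((Fintype.piFinset 𝒞).filter fun T => okR lg Rs Q T).card : ℝ) := by
  have h1 : ∀ T ∈ Fintype.piFinset 𝒞, (1 : ℝ) - ∑ j : Jl lg,
      (if ∃ x, x ≠ Sum.inl j ∧ RT lg Rs Q T x = T j.1 then (1 : ℝ) else 0) ≤
      (if okR lg Rs Q T then (1 : ℝ) else 0) := by
    intro T hT
    split_ifs with h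
    · have : 0 ≤ ∑ j : Jl lg, (if ∃ x, x ≠ Sum.inl j ∧ RT lg Rs Q T x = T j.1 then (1 : ℝ) else 0) :=
        sum_nonneg fun j _ => by split_ifs <;> norm_num
      linarith
    · have h2 : ∃ j : Jl lg, ∃ x, x ≠ Sum.inl j ∧ RT lg Rs Q T x = T j.1 := by
        by_contra hno
        push Not at hno
        apply h
        intro x y hxy
        rcases x with j | v
        · by_contra hne
          exact hno j y (Ne.symm hne) hxy.symm
        · rcases y with j' | v'
          · by_contra hne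
            exact hno j' (Sum.inr v) hne hxy
          · rw [hinj hxy]
      obtain ⟨j, hx⟩ := h2
      have h3 : (1 : ℝ) ≤ ∑ j : Jl lg,
          (if ∃ x, x ≠ Sum.inl j ∧ RT lg Rs Q T x = T j.1 then (1 : ℝ) else 0) := by
        refine le_trans (le_of_eq (if_pos hx).symm) (single_le_sum (f := fun j : Jl lg =>
          if ∃ x, x ≠ Sum.inl j ∧ RT lg Rs Q T x = T j.1 then (1 : ℝ) else 0) ?_ (mem_univ j))
        intro i _
        show 0 ≤ (if _ then (1 : ℝ) else 0)
        split_ifs <;> norm_num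
      linarith
  have h2 : ∀ j : Jl lg, ∑ T ∈ Fintype.piFinset 𝒞,
      (if ∃ x, x ≠ Sum.inl j ∧ RT lg Rs Q T x = T j.1 then (1 : ℝ) else 0) ≤
      η * (Fintype.piFinset 𝒞).card := by
    intro j
    rcases (𝒞 j.1).eq_empty_or_nonempty with he | hne
    · have : Fintype.piFinset 𝒞 = ∅ := by
        rw [Fintype.piFinset_eq_empty]
        exact ⟨j.1, he⟩
      rw [this]
      simp
    · have hpos : (0 : ℝ) < (𝒞 j.1).card := by exact_mod_cast card_pos.2 hne
      have h3 := sum_update 𝒞 j.1 (fun T =>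
        if ∃ x, x ≠ Sum.inl j ∧ RT lg Rs Q T x = T j.1 then (1 : ℝ) else 0)
      have h4 : ∀ T ∈ Fintype.piFinset 𝒞, ∑ p ∈ 𝒞 j.1,
          (if ∃ x, x ≠ Sum.inl j ∧ RT lg Rs Q (Function.update T j.1 p) x =
            Function.update T j.1 p j.1 then (1 : ℝ) else 0) ≤ η * (𝒞 j.1).card := by
        intro T hT
        refine le_trans ?_ (heta j.1 j.2)
        rw [← sum_filter, sum_const, nsmul_one]
        have h5 : ((𝒞 j.1).filter fun p => ∃ x, x ≠ Sum.inl j ∧
            RT lg Rs Q (Function.update T j.1 p) x = Function.update T j.1 p j.1) ⊆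
            (univ : Finset (Jl lg ⊕ (υ ⊕ τ))).image (RT lg Rs Q T) := by
          intro p hp
          obtain ⟨x, hx, hxp⟩ := (mem_filter.1 hp).2
          rw [Function.update_self] at hxp
          rw [mem_image]
          refine ⟨x, mem_univ _, ?_⟩
          rw [← hxp]
          rcases x with i | s
          · have : i ≠ j := fun h => hx (by rw [h])
            show T i.1 = Function.update T j.1 p i.1
            exact (Function.update_of_ne (fun h => this (Subtype.ext h)) _ _).symm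
          · rfl
        have h6 := (card_le_card h5).trans card_image_le
        rw [card_univ, Fintype.card_sum, Fintype.card_sum, Fintype.card_coe, ← add_assoc] at h6
        exact_mod_cast h6
      have h5 : ((𝒞 j.1).card : ℝ) * ∑ T ∈ Fintype.piFinset 𝒞,
          (if ∃ x, x ≠ Sum.inl j ∧ RT lg Rs Q T x = T j.1 then (1 : ℝ) else 0) ≤
          (𝒞 j.1).card * (η * (Fintype.piFinset 𝒞).card) := by
        rw [h3]
        refine (sum_le_sum h4).trans (le_of_eq ?_)
        rw [sum_const, nsmul_eq_mul]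
        ring
      exact le_of_mul_le_mul_left h5 hpos
  have h3 := sum_le_sum h1
  rw [sum_sub_distrib, sum_comm] at h3
  have h4 := sum_le_sum fun j (_ : j ∈ (univ : Finset (Jl lg))) => h2 j
  rw [sum_const, nsmul_eq_mul, card_univ, Fintype.card_coe] at h4
  rw [sum_const, nsmul_one, sum_boole] at h3
  linarith

end Q283.FS
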