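import Pool.Agent.Q283.FS.CM

/-!
The moments in a cell, continued.
-/

set_option autoImplicit false
set_option linter.all false

open scoped Classical

namespace Q283.FS

open Finset Polynomial Pool.Agent.H341R2.Sharp Module
open Pool.Agent.Y164.PS
open Pool.Agent.Y697.PQ (ij)

variable {k : Type} [Field k] [Fintype k] [DecidableEq k]
variable {a b : k[X]} {N : ℕ} (H : Hyp a b N)
variable {ι : Type} [Fintype ι] [LinearOrder ι] {M : ℕ}
variable {F : Fin M → Finset k[X]} (hF : Msk a b F)

/-- the moment function of a set of primes -/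
noncomputable def mo (H : Hyp a b N) (F : Fin M → Finset k[X]) (jj : Fin M → ℕ) (A : Finset k[X]) : ℝ :=
  ∏ κ, ij (jj κ) (4 ^ sf H (symmDiff A (F κ)))

/-- the sum of the moment function over the class in a cell -/
noncomputable def S1 (H : Hyp a b N) (F : Fin M → Finset k[X]) (jj : Fin M → ℕ)
    (X : Finset (ι → k[X])) : ℝ :=
  ∑ T ∈ X, (if ok (QQ a b) T ∧ cl (datum H) (QQ a b) T then mo H F jj (univ.image T) else 0)

/-- the number of tuples of distinct primes -/
noncomputable def S0 (a b : k[X]) (X : Finset (ι → k[X])) : ℝ :=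
  ∑ T ∈ X, (if ok (QQ a b) T then (1 : ℝ) else 0)

variable {n z : ℕ} {T0 : ι → k[X]} (hT0 : T0 ∈ Tp k ι n)

theorem cell_small {T : ι → k[X]} (hT : ∀ i, T i ∈ cell z T0 i) {i : ι} (hi : i ∉ lgs z T0) :
    T i = T0 i := by
  have h1 := hT i
  rw [lgs, mem_filter] at hi
  push Not at hi
  rw [cell, if_pos (hi (mem_univ _))] at h1
  exact mem_singleton.1 h1

theorem cell_dg {T : ι → k[X]} (hT : ∀ i, T i ∈ cell z T0 i) (i : ι) :
    (T i).natDegree = (T0 i).natDegree := by
  have h1 := hT i
  rw [cell] at h1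
  split_ifs at h1 with h2
  · rw [mem_singleton.1 h1]
  · exact (mem_Pr.1 h1).2.2

include hT0 in
theorem cell_irr {T : ι → k[X]} (hT : ∀ i, T i ∈ cell z T0 i) (i : ι) :
    (T i).Monic ∧ Irreducible (T i) := by
  have h1 := hT i
  rw [cell] at h1
  split_ifs at h1 with h2
  · rw [mem_singleton.1 h1]
    exact (mem_Tp.1 hT0).1 i
  · exact ⟨(mem_Pr.1 h1).1, (mem_Pr.1 h1).2.1⟩

/-- the condition on the small primes -/
def Sm (a b : k[X]) (z : ℕ) (T0 : ι → k[X]) : Prop :=
  (∀ i j, i ∉ lgs z T0 → j ∉ lgs z T0 → T0 i = T0 j → i = j) ∧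
    ∀ i, i ∉ lgs z T0 → ∀ s : Tau a b, T0 i ≠ QQ a b s

include hF in
theorem ok_R (hsm : Sm a b z T0) (hz : ∀ κ, ∀ P ∈ F κ, P.natDegree < z) (hfam : Fam (QQ a b))
    {T : ι → k[X]} (hT : ∀ i, T i ∈ cell z T0 i) :
    okR (lgs z T0) (Ri F (lgs z T0) T0) (QQ a b) T ↔ ok (QQ a b) T := by
  have hbadU : ∀ u : Ups F (lgs z T0) T0, ∀ s : Tau a b, u.1 ≠ QQ a b s := by
    rintro ⟨P, hP⟩ s
    rw [Ups, mem_union] at hP
    rcases hP with hP | hP
    · rw [sml, mem_image] at hP
      obtain ⟨i, hi, rfl⟩ := hP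
      exact hsm.2 i (mem_filter.1 hi).2 s
    · obtain ⟨κ, h⟩ := PM_mem.1 hP
      exact hF.bad κ P h s
  constructor
  · intro h
    have key : ∀ i j, T i = T j → i = j := by
      intro i j hij
      by_cases hi : i ∈ lgs z T0
      · by_cases hj : j ∈ lgs z T0
        · have h1 : RT (lgs z T0) (Ri F (lgs z T0) T0) (QQ a b) T (Sum.inl ⟨i, hi⟩) =
            RT (lgs z T0) (Ri F (lgs z T0) T0) (QQ a b) T (Sum.inl ⟨j, hj⟩) := hij
          exact congrArg Subtype.val (Sum.inl_injective (h h1))
        · exfalso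
          have hm : T j ∈ Ups F (lgs z T0) T0 := by
            rw [Ups, mem_union, sml, mem_image]
            exact Or.inl ⟨j, mem_filter.2 ⟨mem_univ _, hj⟩, (cell_small hT hj).symm⟩
          have h1 : RT (lgs z T0) (Ri F (lgs z T0) T0) (QQ a b) T (Sum.inl ⟨i, hi⟩) =
            RT (lgs z T0) (Ri F (lgs z T0) T0) (QQ a b) T (Sum.inr (Sum.inl ⟨T j, hm⟩)) := hij
          cases h h1
      · by_cases hj : j ∈ lgs z T0
        · exfalso
          have hm : T i ∈ Ups F (lgs z T0) T0 := by
            rw [Ups, mem_union, sml, mem_image]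
            exact Or.inl ⟨i, mem_filter.2 ⟨mem_univ _, hi⟩, (cell_small hT hi).symm⟩
          have h1 : RT (lgs z T0) (Ri F (lgs z T0) T0) (QQ a b) T (Sum.inl ⟨j, hj⟩) =
            RT (lgs z T0) (Ri F (lgs z T0) T0) (QQ a b) T (Sum.inr (Sum.inl ⟨T i, hm⟩)) := hij.symm
          cases h h1
        · apply hsm.1 i j hi hj
          rw [← cell_small hT hi, ← cell_small hT hj]
          exact hij
    have key2 : ∀ i s, T i ≠ QQ a b s := by
      intro i s his
      by_cases hi : i ∈ lgs z T0
      · have h1 : RT (lgs z T0) (Ri F (lgs z T0) T0) (QQ a b) T (Sum.inl ⟨i, hi⟩) =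
          RT (lgs z T0) (Ri F (lgs z T0) T0) (QQ a b) T (Sum.inr (Sum.inr s)) := his
        cases h h1
      · rw [cell_small hT hi] at his
        exact hsm.2 i hi s his
    rintro (i | s) (j | s') hxy
    · exact congrArg _ (key i j hxy)
    · exact absurd hxy (key2 i s')
    · exact absurd hxy.symm (key2 j s)
    · exact congrArg _ (hfam.inj hxy)
  · intro h
    have key : ∀ i j, T i = T j → i = j := fun i j hij =>
      Sum.inl_injective (h (a₁ := Sum.inl i) (a₂ := Sum.inl j) hij)
    have key2 : ∀ i s, T i ≠ QQ a b s := by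
      intro i s his
      have : (Sum.inl i : ι ⊕ Tau a b) = Sum.inr s := h his
      cases this
    have key3 : ∀ i : Jl (lgs z T0), ∀ u : Ups F (lgs z T0) T0, T i.1 ≠ u.1 := by
      rintro i ⟨P, hP⟩ hiu
      rw [Ups, mem_union] at hP
      rcases hP with hP | hP
      · rw [sml, mem_image] at hP
        obtain ⟨j, hj, hj'⟩ := hP
        have hj2 := (mem_filter.1 hj).2
        have h1 : T i.1 = T j := by
          rw [hiu, cell_small hT hj2]
          exact hj'.symm
        rw [← key _ _ h1] at hj2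
        exact hj2 i.2
      · obtain ⟨κ, h2⟩ := PM_mem.1 hP
        have h3 := hz κ P h2
        have h4 : (T i.1).natDegree = P.natDegree := by rw [hiu]
        rw [cell_dg hT] at h4
        have h5 := (mem_filter.1 i.2).2
        omega
    rintro (i | u | s) (j | v | s') hxy
    · have : T i.1 = T j.1 := hxy
      rw [Subtype.ext (key _ _ this)]
    · exact absurd hxy (key3 i v)
    · exact absurd hxy (key2 i.1 s')
    · exact absurd hxy.symm (key3 j u)
    · have : u.1 = v.1 := hxy
      rw [Subtype.ext this]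
    · exact absurd hxy (hbadU u s')
    · exact absurd hxy.symm (key2 j.1 s)
    · exact absurd hxy.symm (hbadU v s)
    · have : QQ a b s = QQ a b s' := hxy
      rw [hfam.inj this]

/-- the sum over the primes of a twist -/
theorem sum_tw {T : ι → k[X]} (hinj : Function.Injective T) (A : Finset k[X]) (f : k[X] → F2) :
    ∑ P ∈ symmDiff (univ.image T) A, f P = ∑ i, f (T i) + ∑ P ∈ A, f P := by
  rw [sum_sd, sum_image (fun i _ j _ h => hinj h)]

include hT0 hF in
/-- **The moments in a cell.** -/
theorem cell_mom (hq : 4 ≤ Fintype.card k) (hn : (n : F2) + (N : F2) = 1)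
    (h2t : ∀ u : W, u ≠ 0 → ∃ s, om u ((datum H).t s) ≠ 0)
    (hz2 : 2 ≤ z) (hz : ∀ κ, ∀ P ∈ F κ, P.natDegree < z) (jj : Fin M → ℕ)
    (hη : (lgs z T0).card * et2 a b F n z ≤ 1 / 2) :
    |S1 H F jj (Fintype.piFinset (cell z T0)) * 2 ^ Fintype.card (Tau a b) -
      (CS jj).card * S0 a b (Fintype.piFinset (cell z T0))| ≤
      (((CS jj).card + 1) * ER (Fintype.card (Kx jj)) (lgs z T0).card
        (Ups F (lgs z T0) T0).card (Fintype.card (Tau a b)) +
      2 * ((4 ^ ((lgs z T0).card + (Ups F (lgs z T0) T0).card) * 2 ^ Fintype.card (Tau a b)) ^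
        Fintype.card (Kx jj) * 2 ^ Fintype.card (Tau a b) * et2 a b F n z)) *
      S0 a b (Fintype.piFinset (cell z T0)) := by
  have hη0 := et2_nonneg (a := a) (b := b) F n z
  have hER := ER_nonneg (Fintype.card (Kx jj)) (lgs z T0).card
        (Ups F (lgs z T0) T0).card (Fintype.card (Tau a b))
  by_cases hsm : Sm a b z T0
  swap
  · -- no tuples
    have hno : ∀ T ∈ Fintype.piFinset (cell z T0), ¬ ok (QQ a b) T := by
      intro T hT hok
      have hT' := Fintype.mem_piFinset.1 hT
      apply hsm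
      refine ⟨fun i j hi hj hij => ?_, fun i hi s hs => ?_⟩
      · rw [← cell_small hT' hi, ← cell_small hT' hj] at hij
        exact Sum.inl_injective (hok (a₁ := Sum.inl i) (a₂ := Sum.inl j) hij)
      · rw [← cell_small hT' hi] at hs
        have : (Sum.inl i : ι ⊕ Tau a b) = Sum.inr s := hok hs
        cases this
    have e0 : S0 a b (Fintype.piFinset (cell z T0)) = 0 := sum_eq_zero fun T hT => if_neg (hno T hT)
    have e1 : S1 H F jj (Fintype.piFinset (cell z T0)) = 0 :=
      sum_eq_zero fun T hT => if_neg fun h => hno T hT h.1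
    rw [e0, e1]
    simp
  · obtain ⟨hc, hc'⟩ := cel_inst H hF hq hz2 hT0
    have hfam := Ups_fam H hF hT0 (lgs z T0)
    have hokR : ∀ T ∈ Fintype.piFinset (cell z T0),
        (okR (lgs z T0) (Ri F (lgs z T0) T0) (QQ a b) T ↔ ok (QQ a b) T) := fun T hT =>
      ok_R hF hsm hz H.fam (Fintype.mem_piFinset.1 hT)
    set 𝒯 : Finset (ι → k[X]) := (Fintype.piFinset (cell z T0)).filter
      fun T => okR (lgs z T0) (Ri F (lgs z T0) T0) (QQ a b) T with h𝒯
    have hS0 : S0 a b (Fintype.piFinset (cell z T0)) = 𝒯.card := by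
      rw [S0, sum_boole]
      congr 2
      ext T
      rw [h𝒯, mem_filter, mem_filter]
      exact and_congr_right fun hT => (hokR T hT).symm
    obtain ⟨cc, hcc⟩ : ∃ cc : Tau a b → F2, cc = fun s =>
      1 + ∑ i ∈ univ.filter (fun i => i ∉ lgs z T0), L (T0 i) (QQ a b s) + gv a b s := ⟨_, rfl⟩
    have hS1 : S1 H F jj (Fintype.piFinset (cell z T0)) =
        Mm (MD H F (lgs z T0) T0) (UU F (lgs z T0) T0) 𝒯
          (fun T => xx (lgs z T0) (Ri F (lgs z T0) T0) (QQ a b) T) cc jj := by
      rw [Mm_eq, S1]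
      have h1 : ∀ T ∈ Fintype.piFinset (cell z T0),
          (if ok (QQ a b) T ∧ cl (datum H) (QQ a b) T then mo H F jj (univ.image T) else 0) =
          if (okR (lgs z T0) (Ri F (lgs z T0) T0) (QQ a b) T ∧
            clx cc (xx (lgs z T0) (Ri F (lgs z T0) T0) (QQ a b) T)) then
            mo H F jj (univ.image T) else 0 := by
        intro T hT
        have hT' := Fintype.mem_piFinset.1 hT
        have h2 : cl (datum H) (QQ a b) T ↔
            clx cc (xx (lgs z T0) (Ri F (lgs z T0) T0) (QQ a b) T) := by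
          refine forall_congr' fun s => ?_
          have e1 : ∑ i, BT (QQ a b) T i s =
              ∑ i ∈ univ.filter (fun i => i ∉ lgs z T0), L (T0 i) (QQ a b s) +
              ∑ i : Jl (lgs z T0), L (T i.1) (QQ a b s) := by
            rw [sum_coe_sort (lgs z T0) fun i => L (T i) (QQ a b s),
              ← sum_filter_add_sum_filter_not univ (fun i => i ∉ lgs z T0)]
            congr 1
            · refine sum_congr rfl fun i hi => ?_
              rw [BT, cell_small hT' (mem_filter.1 hi).2]
            · refine sum_congr ?_ fun _ _ => rfl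
              ext i
              rw [mem_filter, not_not]
              exact ⟨fun h => h.2, fun h => ⟨mem_univ _, h⟩⟩
          have e2 : ∑ i : Jl (lgs z T0), xx (lgs z T0) (Ri F (lgs z T0) T0) (QQ a b) T
              (Sum.inr (Sum.inr (i, s))) = ∑ i : Jl (lgs z T0), L (T i.1) (QQ a b s) := rfl
          rw [e1, hcc, e2]
          show 1 + _ + gv a b s = 0 ↔ _
          rw [show (1 : F2) + (∑ i ∈ univ.filter (fun i => i ∉ lgs z T0), L (T0 i) (QQ a b s) +
              ∑ i : Jl (lgs z T0), L (T i.1) (QQ a b s)) + gv a b s =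
              1 + ∑ i ∈ univ.filter (fun i => i ∉ lgs z T0), L (T0 i) (QQ a b s) + gv a b s +
              ∑ i : Jl (lgs z T0), L (T i.1) (QQ a b s) by ring]
        rw [h2, hokR T hT]
      rw [sum_congr rfl h1, ← sum_filter, ← filter_filter]
      refine sum_congr rfl fun T hT => ?_
      rw [mem_filter, mem_filter] at hT
      obtain ⟨⟨hT, hok⟩, hcl⟩ := hT
      have hT' := Fintype.mem_piFinset.1 hT
      have hok' := (hokR T hT).1 hok
      have hinj : Function.Injective T := fun i j hij =>
        Sum.inl_injective (hok' (a₁ := Sum.inl i) (a₂ := Sum.inl j) hij)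
      rw [mo]
      refine prod_congr rfl fun κ _ => ?_
      rw [kr_pow H (fun i hi => cell_small hT' hi) (fun i _ => cell_dg hT' i)
        (fun i _ => (cell_irr hT0 hT' i).2) (fun P hP => (hfam P hP).2) hok κ]
      rw [sum_tw hinj, hF.even κ, add_zero]
      have h3 : ∑ i, ((T i).natDegree : F2) = (n : F2) := by
        simp only [cell_dg hT']
        rw [← (mem_Tp.1 hT0).2]
        push_cast
        rfl
      rw [h3]
      exact hn
    have hU : Function.Injective (UU F (lgs z T0) T0) := by
      intro κ l hκl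
      apply hF.inj
      have h1 : symmDiff (sml (lgs z T0) T0) (F κ) = symmDiff (sml (lgs z T0) T0) (F l) := by
        ext P
        constructor
        · intro hP
          have h2 : (⟨P, mem_Ups_of F _ T0 hP⟩ : Ups F (lgs z T0) T0) ∈ UU F (lgs z T0) T0 κ :=
            mem_filter.2 ⟨mem_univ _, hP⟩
          rw [hκl] at h2
          exact (mem_filter.1 h2).2
        · intro hP
          have h2 : (⟨P, mem_Ups_of F _ T0 hP⟩ : Ups F (lgs z T0) T0) ∈ UU F (lgs z T0) T0 l :=
            mem_filter.2 ⟨mem_univ _, hP⟩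
          rw [← hκl] at h2
          exact (mem_filter.1 h2).2
      exact symmDiff_right_injective _ h1
    have hN : ∀ κ, ∑ p, dd (MD H F (lgs z T0) T0) (UU F (lgs z T0) T0 κ) p +
        (MD H F (lgs z T0) T0).D.N = 1 := by
      intro κ
      rw [Fintype.sum_sum_type]
      have e1 : ∑ u : Ups F (lgs z T0) T0, dd (MD H F (lgs z T0) T0) (UU F (lgs z T0) T0 κ)
          (Sum.inr u) = ∑ P ∈ symmDiff (sml (lgs z T0) T0) (F κ), (P.natDegree : F2) := by
        have e2 : ∀ u : Ups F (lgs z T0) T0, dd (MD H F (lgs z T0) T0) (UU F (lgs z T0) T0 κ)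
            (Sum.inr u) = if u.1 ∈ symmDiff (sml (lgs z T0) T0) (F κ) then (u.1.natDegree : F2)
              else 0 := by
          intro u
          by_cases hu : u.1 ∈ symmDiff (sml (lgs z T0) T0) (F κ)
          · rw [if_pos hu]
            exact dd_r _ (mem_filter.2 ⟨mem_univ _, hu⟩)
          · rw [if_neg hu]
            exact dd_off _ fun h => hu (mem_filter.1 h).2
        rw [sum_congr rfl fun u _ => e2 u, sum_coe_sort (Ups F (lgs z T0) T0)
          fun P => if P ∈ symmDiff (sml (lgs z T0) T0) (F κ) then (P.natDegree : F2) else 0,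
          ← sum_filter]
        refine sum_congr ?_ fun _ _ => rfl
        ext P
        rw [mem_filter]
        exact ⟨fun h => h.2, fun h => ⟨mem_Ups_of F _ T0 h, h⟩⟩
      have e3 : ∑ j : Jl (lgs z T0), dd (MD H F (lgs z T0) T0) (UU F (lgs z T0) T0 κ)
          (Sum.inl j) = ∑ i ∈ lgs z T0, ((T0 i).natDegree : F2) :=
        sum_coe_sort (lgs z T0) fun i => ((T0 i).natDegree : F2)
      have e4 : ∑ P ∈ sml (lgs z T0) T0, (P.natDegree : F2) =
          ∑ i ∈ univ.filter (fun i => i ∉ lgs z T0), ((T0 i).natDegree : F2) := by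
        rw [sml, sum_image]
        intro i hi j hj hij
        exact hsm.1 i j (mem_filter.1 hi).2 (mem_filter.1 hj).2 hij
      have e5 : ∑ i ∈ lgs z T0, ((T0 i).natDegree : F2) +
          ∑ i ∈ univ.filter (fun i => i ∉ lgs z T0), ((T0 i).natDegree : F2) = (n : F2) := by
        have e6 : (n : F2) = ∑ i, ((T0 i).natDegree : F2) := by
          rw [← (mem_Tp.1 hT0).2]
          push_cast
          rfl
        rw [e6, ← sum_filter_add_sum_filter_not univ (fun i => i ∈ lgs z T0)]
        congr 1
        refine sum_congr ?_ fun _ _ => rfl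
        ext i
        rw [mem_filter]
        exact ⟨fun h => ⟨mem_univ _, h⟩, fun h => h.2⟩
      rw [e1, e3, sum_sd, hF.even κ, add_zero, e4, e5]
      exact hn
    have h1 := mom1 (jj := jj) (MD H F (lgs z T0) T0) (UU F (lgs z T0) T0) 𝒯
      (fun T => xx (lgs z T0) (Ri F (lgs z T0) T0) (QQ a b) T) cc (eqd_cell hc)
      (mul_nonneg hη0 (Nat.cast_nonneg _)) hU h2t hN
    have hinj : Function.Injective (Sum.elim (Ri F (lgs z T0) T0) (QQ a b)) := by
      rintro (u | s) (v | s') h
      · exact congrArg _ (Subtype.ext h)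
      · exfalso
        obtain ⟨P, hP⟩ := u
        have h' : P = QQ a b s' := h
        rw [Ups, mem_union] at hP
        rcases hP with hP | hP
        · rw [sml, mem_image] at hP
          obtain ⟨i, hi, hi'⟩ := hP
          rw [← hi'] at h'
          exact hsm.2 i (mem_filter.1 hi).2 s' h'
        · obtain ⟨κ, h2⟩ := PM_mem.1 hP
          exact hF.bad κ P h2 s' h'
      · exfalso
        obtain ⟨P, hP⟩ := v
        have h' : QQ a b s = P := h
        rw [Ups, mem_union] at hP
        rcases hP with hP | hP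
        · rw [sml, mem_image] at hP
          obtain ⟨i, hi, hi'⟩ := hP
          rw [← hi'] at h'
          exact hsm.2 i (mem_filter.1 hi).2 s h'.symm
        · obtain ⟨κ, h2⟩ := PM_mem.1 hP
          exact hF.bad κ P h2 s h'.symm
      · exact congrArg _ (H.fam.inj h)
    have h2 := ok_lower hc hinj hc'
    rw [← h𝒯] at h2
    rw [← hS1, Fintype.card_coe (lgs z T0), Fintype.card_coe (Ups F (lgs z T0) T0)] at h1
    rw [hS0]
    refine h1.trans ?_
    set e1 : ℝ := ER (Fintype.card (Kx jj)) (lgs z T0).card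
        (Ups F (lgs z T0) T0).card (Fintype.card (Tau a b))
    set p : ℝ := ((Fintype.piFinset (cell z T0)).card : ℝ) with hp
    have hp0 : 0 ≤ p := Nat.cast_nonneg _
    have h3 : p ≤ 2 * 𝒯.card := by nlinarith
    have h4 : (0 : ℝ) ≤ (4 ^ ((lgs z T0).card + (Ups F (lgs z T0) T0).card) *
      2 ^ Fintype.card (Tau a b)) ^ Fintype.card (Kx jj) * 2 ^ Fintype.card (Tau a b) *
        et2 a b F n z := by positivity
    refine le_trans ?_ (le_of_eq (add_mul _ _ _).symm)
    refine add_le_add (le_refl _) ?_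
    calc (4 ^ ((lgs z T0).card + (Ups F (lgs z T0) T0).card) *
      2 ^ Fintype.card (Tau a b)) ^ Fintype.card (Kx jj) * 2 ^ Fintype.card (Tau a b) *
        (et2 a b F n z * p) = ((4 ^ ((lgs z T0).card + (Ups F (lgs z T0) T0).card) *
      2 ^ Fintype.card (Tau a b)) ^ Fintype.card (Kx jj) * 2 ^ Fintype.card (Tau a b) *
        et2 a b F n z) * p := by ring
      _ ≤ ((4 ^ ((lgs z T0).card + (Ups F (lgs z T0) T0).card) *
      2 ^ Fintype.card (Tau a b)) ^ Fintype.card (Kx jj) * 2 ^ Fintype.card (Tau a b) *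
        et2 a b F n z) * (2 * 𝒯.card) := mul_le_mul_of_nonneg_left h3 h4
      _ = _ := by ring

end Q283.FS
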