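import Pool.Agent.Q283.FS.KcP
import Pool.Agent.Y164.PS.Lvl

/-!
The character sums over a cell.
-/

set_option autoImplicit false
set_option linter.all false

open scoped Classical

namespace Q283.FS

open Finset Polynomial Pool.Agent.H341R2.Sharp
open Pool.Agent.Y164.PS

variable {k : Type} [Field k] [Fintype k] [DecidableEq k]
variable {ι υ τ : Type} [Fintype ι] [Fintype υ] [Fintype τ] [LinearOrder ι]

/-- the large primes -/
abbrev Jl (lg : Finset ι) : Type := {i : ι // i ∈ lg}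

variable (lg : Finset ι) (Rs : υ → k[X]) (Q : τ → k[X])

/-- the symbols -/
noncomputable def xx (T : ι → k[X]) : Bt (Jl lg) υ τ → F2
  | Sum.inl p => L (T p.1.1) (T p.1.2)
  | Sum.inr (Sum.inl p) => L (T p.1) (Rs p.2)
  | Sum.inr (Sum.inr p) => L (T p.1) (Q p.2)

/-- all primes -/
def RT (T : ι → k[X]) : Jl lg ⊕ (υ ⊕ τ) → k[X] :=
  Sum.elim (fun j : Jl lg => T j.1) (Sum.elim Rs Q)

/-- all primes are different -/
def okR (T : ι → k[X]) : Prop := Function.Injective (RT lg Rs Q T)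

/-- the `j`-th prime is involved -/
def inv (j : Jl lg) : Bt (Jl lg) υ τ → Prop
  | Sum.inl p => p.1.1 = j ∨ p.1.2 = j
  | Sum.inr (Sum.inl p) => p.1 = j
  | Sum.inr (Sum.inr p) => p.1 = j

/-- the other prime -/
noncomputable def oth (j : Jl lg) : Bt (Jl lg) υ τ → Jl lg ⊕ (υ ⊕ τ)
  | Sum.inl p => if p.1.1 = j then Sum.inl p.1.2 else Sum.inl p.1.1
  | Sum.inr (Sum.inl p) => Sum.inr (Sum.inl p.2)
  | Sum.inr (Sum.inr p) => Sum.inr (Sum.inr p.2)

omit [Fintype ι] [Fintype υ] [Fintype τ] in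
theorem oth_ne (j : Jl lg) (b : Bt (Jl lg) υ τ) (hb : inv lg j b) : oth lg j b ≠ Sum.inl j := by
  rcases b with ⟨⟨i, i'⟩, h⟩ | ⟨i, u⟩ | ⟨i, s⟩
  · have hlt : i < i' := h
    show (if i = j then Sum.inl i' else Sum.inl i) ≠ _
    split_ifs with h1
    · intro h2
      have h3 : i' = j := Sum.inl_injective h2
      rw [h1, h3] at hlt
      exact lt_irrefl _ hlt
    · intro h2
      exact h1 (Sum.inl_injective h2)
  · intro h; cases h
  · intro h; cases h

omit [Fintype ι] [Fintype υ] [Fintype τ] in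
theorem oth_inj (j : Jl lg) (b b' : Bt (Jl lg) υ τ) (hb : inv lg j b) (hb' : inv lg j b')
    (h : oth lg j b = oth lg j b') : b = b' := by
  rcases b with ⟨⟨i, i'⟩, hl⟩ | ⟨i, u⟩ | ⟨i, s⟩ <;> rcases b' with ⟨⟨m, m'⟩, hl'⟩ | ⟨m, u'⟩ | ⟨m, s'⟩
  · have h1 : i < i' := hl
    have h2 : m < m' := hl'
    have h3 : i = j ∨ i' = j := hb
    have h4 : m = j ∨ m' = j := hb'
    have h5 : (if i = j then (Sum.inl i' : Jl lg ⊕ (υ ⊕ τ)) else Sum.inl i) =
      (if m = j then Sum.inl m' else Sum.inl m) := h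
    have key : i = m ∧ i' = m' := by
      by_cases e1 : i = j
      · by_cases e2 : m = j
        · rw [if_pos e1, if_pos e2] at h5
          exact ⟨e1.trans e2.symm, Sum.inl_injective h5⟩
        · rw [if_pos e1, if_neg e2] at h5
          have e3 : i' = m := Sum.inl_injective h5
          have e4 := h4.resolve_left e2
          rw [e1, e3] at h1
          rw [e4] at h2
          exact absurd h2 (lt_asymm h1)
      · by_cases e2 : m = j
        · rw [if_neg e1, if_pos e2] at h5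
          have e3 : i = m' := Sum.inl_injective h5
          have e4 := h3.resolve_left e1
          rw [e4, e3] at h1
          rw [e2] at h2
          exact absurd h2 (lt_asymm h1)
        · rw [if_neg e1, if_neg e2] at h5
          exact ⟨Sum.inl_injective h5, (h3.resolve_left e1).trans (h4.resolve_left e2).symm⟩
    obtain ⟨rfl, rfl⟩ := key
    rfl
  · have h5 : (if i = j then (Sum.inl i' : Jl lg ⊕ (υ ⊕ τ)) else Sum.inl i) = Sum.inr (Sum.inl u') := h
    split_ifs at h5 <;> cases h5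
  · have h5 : (if i = j then (Sum.inl i' : Jl lg ⊕ (υ ⊕ τ)) else Sum.inl i) = Sum.inr (Sum.inr s') := h
    split_ifs at h5 <;> cases h5
  · have h5 : Sum.inr (Sum.inl u) = (if m = j then (Sum.inl m' : Jl lg ⊕ (υ ⊕ τ)) else Sum.inl m) := h
    split_ifs at h5 <;> cases h5
  · have h1 : i = j := hb
    have h2 : m = j := hb'
    have h3 : (Sum.inr (Sum.inl u) : Jl lg ⊕ (υ ⊕ τ)) = Sum.inr (Sum.inl u') := h
    have h4 : u = u' := Sum.inl_injective (Sum.inr_injective h3)
    rw [h1, h2, h4]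
  · have h3 : (Sum.inr (Sum.inl u) : Jl lg ⊕ (υ ⊕ τ)) = Sum.inr (Sum.inr s') := h
    cases h3
  · have h5 : Sum.inr (Sum.inr s) = (if m = j then (Sum.inl m' : Jl lg ⊕ (υ ⊕ τ)) else Sum.inl m) := h
    split_ifs at h5 <;> cases h5
  · have h3 : (Sum.inr (Sum.inr s) : Jl lg ⊕ (υ ⊕ τ)) = Sum.inr (Sum.inl u') := h
    cases h3
  · have h1 : i = j := hb
    have h2 : m = j := hb'
    have h3 : (Sum.inr (Sum.inr s) : Jl lg ⊕ (υ ⊕ τ)) = Sum.inr (Sum.inr s') := h
    have h4 : s = s' := Sum.inr_injective (Sum.inr_injective h3)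
    rw [h1, h2, h4]

theorem xx_upd (hm : IsSquare (-1 : k)) (T : ι → k[X]) (j : Jl lg) (p : k[X])
    (b : Bt (Jl lg) υ τ) : xx lg Rs Q (Function.update T j.1 p) b =
      if inv lg j b then L (RT lg Rs Q T (oth lg j b)) p else xx lg Rs Q T b := by
  have hne : ∀ i : Jl lg, i ≠ j → Function.update T j.1 p i.1 = T i.1 := fun i hi =>
    Function.update_of_ne (fun h => hi (Subtype.ext h)) _ _
  have hself : Function.update T j.1 p j.1 = p := Function.update_self _ _ _
  rcases b with ⟨⟨i, i'⟩, h⟩ | ⟨i, u⟩ | ⟨i, s⟩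
  · have hlt : i < i' := h
    have e1 : xx lg Rs Q (Function.update T j.1 p) (Sum.inl ⟨(i, i'), h⟩) =
      L (Function.update T j.1 p i.1) (Function.update T j.1 p i'.1) := rfl
    have e2 : xx lg Rs Q T (Sum.inl ⟨(i, i'), h⟩) = L (T i.1) (T i'.1) := rfl
    have e3 : inv lg j (Sum.inl ⟨(i, i'), h⟩ : Bt (Jl lg) υ τ) ↔ (i = j ∨ i' = j) := Iff.rfl
    have e4 : (oth lg j (Sum.inl ⟨(i, i'), h⟩ : Bt (Jl lg) υ τ)) =
      (if i = j then Sum.inl i' else Sum.inl i) := rfl
    rw [e1, e2, e4]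
    simp only [e3]
    by_cases h1 : i = j
    · rw [if_pos (Or.inl h1), if_pos h1]
      have h2 : i' ≠ j := by
        intro h2
        rw [h1, h2] at hlt
        exact lt_irrefl _ hlt
      rw [h1, hself, hne i' h2, L_comm hm]
      rfl
    · by_cases h2 : i' = j
      · rw [if_pos (Or.inr h2), if_neg h1, h2, hself, hne i h1]
        rfl
      · rw [if_neg (fun h => h.elim h1 h2), hne i h1, hne i' h2]
  · have e1 : xx lg Rs Q (Function.update T j.1 p) (Sum.inr (Sum.inl (i, u))) =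
      L (Function.update T j.1 p i.1) (Rs u) := rfl
    have e2 : xx lg Rs Q T (Sum.inr (Sum.inl (i, u))) = L (T i.1) (Rs u) := rfl
    have e3 : inv lg j (Sum.inr (Sum.inl (i, u)) : Bt (Jl lg) υ τ) ↔ i = j := Iff.rfl
    rw [e1, e2]
    simp only [e3]
    by_cases h1 : i = j
    · rw [if_pos h1, h1, hself, L_comm hm]
      rfl
    · rw [if_neg h1, hne i h1]
  · have e1 : xx lg Rs Q (Function.update T j.1 p) (Sum.inr (Sum.inr (i, s))) =
      L (Function.update T j.1 p i.1) (Q s) := rfl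
    have e2 : xx lg Rs Q T (Sum.inr (Sum.inr (i, s))) = L (T i.1) (Q s) := rfl
    have e3 : inv lg j (Sum.inr (Sum.inr (i, s)) : Bt (Jl lg) υ τ) ↔ i = j := Iff.rfl
    rw [e1, e2]
    simp only [e3]
    by_cases h1 : i = j
    · rw [if_pos h1, h1, hself, L_comm hm]
      rfl
    · rw [if_neg h1, hne i h1]

/-- A cell of tuples of primes. -/
structure Cel (Rs : υ → k[X]) (Q : τ → k[X]) (𝒞 : ι → Finset k[X]) (lg : Finset ι)
    (Nd : ℕ) (η : ℝ) : Prop where
  hm : IsSquare (-1 : k)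
  Rm : ∀ v, (Sum.elim Rs Q v).Monic
  Ri : ∀ v, Irreducible (Sum.elim Rs Q v)
  mon : ∀ i ∈ lg, ∀ p ∈ 𝒞 i, p.Monic
  irr : ∀ i ∈ lg, ∀ p ∈ 𝒞 i, Irreducible p
  deg : ∀ T ∈ Fintype.piFinset 𝒞, ∑ i ∈ lg, (T i).natDegree + ∑ v, (Sum.elim Rs Q v).natDegree ≤ Nd
  eta : ∀ j ∈ lg, ∀ M : k[X], M.Monic → 1 ≤ M.natDegree → M.natDegree ≤ Nd →
    (∀ (c : k) (h : k[X]), M ≠ C c * h ^ 2) →
    |∑ p ∈ 𝒞 j, (lam M p : ℝ)| + (lg.card + Fintype.card υ + Fintype.card τ) ≤ η * (𝒞 j).card
  eta0 : 0 ≤ η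

variable {lg Rs Q} {𝒞 : ι → Finset k[X]} {Nd : ℕ} {η : ℝ} (hc : Cel Rs Q 𝒞 lg Nd η)

include hc in
theorem inner_b {T : ι → k[X]} (hT : T ∈ Fintype.piFinset 𝒞) (j : Jl lg)
    (c : Bt (Jl lg) υ τ → F2) (hbad : ∃ b, inv lg j b ∧ c b ≠ 0) :
    |∑ p ∈ 𝒞 j.1, (if okR lg Rs Q (Function.update T j.1 p) then
      sg (∑ b, xx lg Rs Q (Function.update T j.1 p) b * c b) else 0)|
      ≤ η * (𝒞 j.1).card := by
  have hTm : ∀ i, T i ∈ 𝒞 i := Fintype.mem_piFinset.1 hT
  by_cases hok : ∃ p0 ∈ 𝒞 j.1, okR lg Rs Q (Function.update T j.1 p0)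
  swap
  · push Not at hok
    rw [sum_eq_zero (fun p hp => if_neg (hok p hp)), abs_zero]
    exact mul_nonneg hc.eta0 (Nat.cast_nonneg _)
  obtain ⟨p0, hp0, hok0⟩ := hok
  set R : Jl lg ⊕ (υ ⊕ τ) → k[X] := RT lg Rs Q T with hR
  have hRm : ∀ x, (R x).Monic := by
    rintro (i | v)
    · exact hc.mon i.1 i.2 _ (hTm i.1)
    · exact hc.Rm v
  have hRi : ∀ x, Irreducible (R x) := by
    rintro (i | v)
    · exact hc.irr i.1 i.2 _ (hTm i.1)
    · exact hc.Ri v
  have hup : ∀ p, ∀ x, x ≠ Sum.inl j → RT lg Rs Q (Function.update T j.1 p) x = R x := by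
    rintro p (i | v) hx
    · have : i ≠ j := fun h => hx (by rw [h])
      show Function.update T j.1 p i.1 = T i.1
      exact Function.update_of_ne (fun h => this (Subtype.ext h)) _ _
    · rfl
  have hupj : ∀ p, RT lg Rs Q (Function.update T j.1 p) (Sum.inl j) = p := fun p => by
    show Function.update T j.1 p j.1 = p
    exact Function.update_self _ _ _
  have hinj : ∀ x y, x ≠ Sum.inl j → y ≠ Sum.inl j → R x = R y → x = y := by
    intro x y hx hy h
    apply hok0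
    rw [hup p0 x hx, hup p0 y hy, h]
  set E : Finset k[X] := (univ.erase (Sum.inl j)).image R with hE
  have hokp : ∀ p, okR lg Rs Q (Function.update T j.1 p) ↔ p ∉ E := by
    intro p
    constructor
    · intro h hp
      rw [hE, mem_image] at hp
      obtain ⟨x, hx, hxp⟩ := hp
      have hx' := ne_of_mem_erase hx
      apply hx'
      apply h
      rw [hup p x hx', hupj, hxp]
    · intro hp x y hxy
      by_cases hx : x = Sum.inl j
      · by_cases hy : y = Sum.inl j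
        · rw [hx, hy]
        · exfalso
          apply hp
          rw [hx, hupj, hup p y hy] at hxy
          rw [hE, mem_image]
          exact ⟨y, mem_erase.2 ⟨hy, mem_univ _⟩, hxy.symm⟩
      · by_cases hy : y = Sum.inl j
        · exfalso
          apply hp
          rw [hy, hupj, hup p x hx] at hxy
          rw [hE, mem_image]
          exact ⟨x, mem_erase.2 ⟨hx, mem_univ _⟩, hxy⟩
        · rw [hup p x hx, hup p y hy] at hxy
          exact hinj x y hx hy hxy
  set S : Finset (Bt (Jl lg) υ τ) := univ.filter fun b => inv lg j b ∧ c b ≠ 0 with hS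
  have hSi : ∀ b ∈ S, inv lg j b := fun b hb => (mem_filter.1 hb).2.1
  have hSne : S.Nonempty := by
    obtain ⟨b, h1, h2⟩ := hbad
    exact ⟨b, mem_filter.2 ⟨mem_univ _, h1, h2⟩⟩
  set M : k[X] := ∏ b ∈ S, R (oth lg j b) with hM
  have hMm : M.Monic := monic_prod_of_monic _ _ fun b _ => hRm _
  have hMns : ∀ (c : k) (h : k[X]), M ≠ C c * h ^ 2 := fun c h =>
    prod_not_sq S hSne (fun b => R (oth lg j b)) (fun b _ => hRm _) (fun b _ => hRi _)
      (fun x hx y hy hxy => oth_inj lg j x y (hSi x hx) (hSi y hy)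
        (hinj _ _ (oth_ne lg j x (hSi x hx)) (oth_ne lg j y (hSi y hy)) hxy)) c h
  have hMd : M.natDegree = ∑ b ∈ S, (R (oth lg j b)).natDegree :=
    natDegree_prod_of_monic _ _ fun b _ => hRm _
  have hM1 : 1 ≤ M.natDegree := by
    obtain ⟨b, hb⟩ := hSne
    rw [hMd]
    calc 1 ≤ (R (oth lg j b)).natDegree := (hRi _).natDegree_pos
      _ ≤ _ := single_le_sum (f := fun b => (R (oth lg j b)).natDegree) (fun _ _ => Nat.zero_le _) hb
  have hMN : M.natDegree ≤ Nd := by
    rw [hMd]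
    calc ∑ b ∈ S, (R (oth lg j b)).natDegree = ∑ x ∈ S.image (oth lg j), (R x).natDegree := by
          rw [sum_image]
          intro x hx y hy hxy
          exact oth_inj lg j x y (hSi x hx) (hSi y hy) hxy
      _ ≤ ∑ x, (R x).natDegree := sum_le_sum_of_subset (subset_univ _)
      _ = ∑ i ∈ lg, (T i).natDegree + ∑ v, (Sum.elim Rs Q v).natDegree := by
          rw [Fintype.sum_sum_type]
          congr 1
          exact sum_coe_sort lg fun i => (T i).natDegree
      _ ≤ Nd := hc.deg T hT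
  obtain ⟨c0, hc0⟩ : ∃ c0, c0 = ∑ b ∈ univ.filter (fun b => ¬ inv lg j b), xx lg Rs Q T b * c b :=
    ⟨_, rfl⟩
  have hval : ∀ p ∈ 𝒞 j.1, p ∉ E → sg (∑ b, xx lg Rs Q (Function.update T j.1 p) b * c b) =
      sg c0 * (lam M p : ℝ) := by
    intro p hp hpE
    have hpi := hc.irr j.1 j.2 p hp
    have hpm := hc.mon j.1 j.2 p hp
    have hcop : ∀ b ∈ S, IsCoprime (R (oth lg j b)) p := by
      intro b hb
      apply coprime_of_not_dvd hpi
      intro hd
      apply hpE
      rw [hE, mem_image]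
      refine ⟨oth lg j b, mem_erase.2 ⟨oth_ne lg j b (hSi b hb), mem_univ _⟩, ?_⟩
      exact (eq_of_monic_of_associated hpm (hRm _) (hpi.associated_of_dvd (hRi _) hd)).symm
    have h1 : ∑ b, xx lg Rs Q (Function.update T j.1 p) b * c b =
        c0 + ∑ b ∈ S, L (R (oth lg j b)) p := by
      rw [hc0, hS, ← sum_filter_add_sum_filter_not univ (fun b => inv lg j b), add_comm]
      congr 1
      · refine sum_congr rfl fun b hb => ?_
        rw [xx_upd lg Rs Q hc.hm, if_neg (mem_filter.1 hb).2]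
      · rw [← filter_filter, sum_filter (s := univ.filter fun b => inv lg j b)]
        refine sum_congr rfl fun b hb => ?_
        rw [xx_upd lg Rs Q hc.hm, if_pos (mem_filter.1 hb).2]
        split_ifs with h
        · rw [F2_ne_zero h, mul_one]
        · push Not at h
          rw [h, mul_zero]
    rw [h1, sg_add]
    congr 1
    rw [← L_prod_left hpi.ne_zero (fun b _ => (hRm _).ne_zero) hcop,
      sg_L hpi.ne_zero (IsCoprime.prod_left hcop)]
  have h1 : ∑ p ∈ 𝒞 j.1, (if okR lg Rs Q (Function.update T j.1 p) then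
      sg (∑ b, xx lg Rs Q (Function.update T j.1 p) b * c b) else 0) =
      sg c0 * (∑ p ∈ 𝒞 j.1, (lam M p : ℝ) -
        ∑ p ∈ (𝒞 j.1).filter (fun p => p ∈ E), (lam M p : ℝ)) := by
    rw [sum_filter, ← sum_sub_distrib, mul_sum]
    refine sum_congr rfl fun p hp => ?_
    by_cases hpE : p ∈ E
    · rw [if_neg (fun h => (hokp p).1 h hpE), if_pos hpE, sub_self, mul_zero]
    · rw [if_pos ((hokp p).2 hpE), if_neg hpE, hval p hp hpE, sub_zero]
  rw [h1, abs_mul, abs_sg, one_mul]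
  refine (abs_sub _ _).trans (le_trans ?_ (hc.eta j.1 j.2 M hMm hM1 hMN hMns))
  apply add_le_add le_rfl
  refine (abs_sum_le_sum_abs _ _).trans ?_
  calc ∑ p ∈ (𝒞 j.1).filter (fun p => p ∈ E), |(lam M p : ℝ)|
      ≤ ∑ p ∈ (𝒞 j.1).filter (fun p => p ∈ E), (1 : ℝ) := sum_le_sum fun p _ => abs_lam_le _ _
    _ = (((𝒞 j.1).filter (fun p => p ∈ E)).card : ℝ) := by simp
    _ ≤ ((univ : Finset (Jl lg ⊕ (υ ⊕ τ))).card : ℝ) := by
        have h2 : ((𝒞 j.1).filter (fun p => p ∈ E)).card ≤ E.card :=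
          card_le_card fun p hp => (mem_filter.1 hp).2
        have h3 : E.card ≤ (univ : Finset (Jl lg ⊕ (υ ⊕ τ))).card :=
          card_image_le.trans (card_le_card (erase_subset _ _))
        exact_mod_cast h2.trans h3
    _ = _ := by
        rw [card_univ, Fintype.card_sum, Fintype.card_sum, Fintype.card_coe]
        push_cast
        ring

include hc in
theorem outer_b (c : Bt (Jl lg) υ τ → F2) (hbad : ∃ b, c b ≠ 0) :
    |∑ T ∈ Fintype.piFinset 𝒞, (if okR lg Rs Q T then sg (∑ b, xx lg Rs Q T b * c b) else 0)| ≤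
      η * (Fintype.piFinset 𝒞).card := by
  obtain ⟨j, hj⟩ : ∃ j : Jl lg, ∃ b, inv lg j b ∧ c b ≠ 0 := by
    obtain ⟨b, hb⟩ := hbad
    rcases b with ⟨⟨i, i'⟩, h⟩ | ⟨i, u⟩ | ⟨i, s⟩
    · exact ⟨i, Sum.inl ⟨(i, i'), h⟩, Or.inl rfl, hb⟩
    · exact ⟨i, Sum.inr (Sum.inl (i, u)), rfl, hb⟩
    · exact ⟨i, Sum.inr (Sum.inr (i, s)), rfl, hb⟩
  rcases (𝒞 j.1).eq_empty_or_nonempty with he | hne
  · have : Fintype.piFinset 𝒞 = ∅ := by
      rw [Fintype.piFinset_eq_empty]
      exact ⟨j.1, he⟩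
    rw [this]
    simp
  · have hpos : (0 : ℝ) < (𝒞 j.1).card := by exact_mod_cast card_pos.2 hne
    have h1 := sum_update 𝒞 j.1
      (fun T => if okR lg Rs Q T then sg (∑ b, xx lg Rs Q T b * c b) else 0)
    have h2 : |((𝒞 j.1).card : ℝ) * ∑ T ∈ Fintype.piFinset 𝒞,
        (if okR lg Rs Q T then sg (∑ b, xx lg Rs Q T b * c b) else 0)|
        ≤ ∑ T ∈ Fintype.piFinset 𝒞, η * (𝒞 j.1).card := by
      rw [h1]
      refine (abs_sum_le_sum_abs _ _).trans (sum_le_sum fun T hT => ?_)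
      exact inner_b hc hT j c hj
    rw [abs_mul, Nat.abs_cast, sum_const, nsmul_eq_mul] at h2
    have h3 : ((𝒞 j.1).card : ℝ) * |∑ T ∈ Fintype.piFinset 𝒞,
        (if okR lg Rs Q T then sg (∑ b, xx lg Rs Q T b * c b) else 0)|
        ≤ (𝒞 j.1).card * (η * (Fintype.piFinset 𝒞).card) := by
      linarith
    exact le_of_mul_le_mul_left h3 hpos

include hc in
/-- **Equidistribution of the symbols in a cell.** -/
theorem eqd_cell : Eqd ((Fintype.piFinset 𝒞).filter fun T => okR lg Rs Q T)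
    (fun T => xx lg Rs Q T) (η * (Fintype.piFinset 𝒞).card) := by
  intro c hc'
  rw [sum_filter]
  exact outer_b hc c hc'

end Q283.FS
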