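import Pool.Agent.Q283.FS.Bits

/-!
Tuples of configurations of several twists, and the conditions on them.
-/

set_option autoImplicit false
set_option linter.all false

open scoped Classical

namespace Q283.FS

open Finset
open Pool.Agent.Y164.PS

section br
variable {K : Type} [Fintype K]

/-- the weighted pairing -/
def brx (χ : K → F2) (ξ η : K → W) : F2 := ∑ κ, χ κ * om (ξ κ) (η κ)

theorem brx_add_left (χ : K → F2) (a b c : K → W) :
    brx χ (a + b) c = brx χ a c + brx χ b c := by
  simp only [brx, Pi.add_apply, om_add_left, mul_add, sum_add_distrib]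

theorem brx_add_right (χ : K → F2) (a b c : K → W) :
    brx χ a (b + c) = brx χ a b + brx χ a c := by
  simp only [brx, Pi.add_apply, om_add_right, mul_add, sum_add_distrib]

theorem brx_comm (χ : K → F2) (a b : K → W) : brx χ a b = brx χ b a := by
  simp only [brx, om_comm]

theorem brx_single_left [DecidableEq K] (χ : K → F2) (κ : K) (z : W) (b : K → W) :
    brx χ (Pi.single κ z) b = χ κ * om z (b κ) := by
  unfold brx
  rw [sum_eq_single κ]
  · rw [Pi.single_eq_same]
  · intro l _ hl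
    rw [Pi.single_eq_of_ne hl, om_zero_left, mul_zero]
  · intro h; exact absurd (mem_univ _) h

theorem brx_single_right [DecidableEq K] (χ : K → F2) (κ : K) (z : W) (b : K → W) :
    brx χ b (Pi.single κ z) = χ κ * om z (b κ) := by
  rw [brx_comm, brx_single_left]

/-- the pairing -/
def br (ξ η : K → W) : F2 := brx (fun _ => 1) ξ η

theorem br_eq (ξ η : K → W) : br ξ η = ∑ κ, om (ξ κ) (η κ) := by
  simp only [br, brx, one_mul]

theorem br_add_left (a b c : K → W) : br (a + b) c = br a c + br b c := brx_add_left _ _ _ _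

theorem br_add_right (a b c : K → W) : br a (b + c) = br a b + br a c := brx_add_right _ _ _ _

theorem br_comm (a b : K → W) : br a b = br b a := brx_comm _ _ _

theorem br_single_left [DecidableEq K] (κ : K) (z : W) (b : K → W) : br (Pi.single κ z) b = om z (b κ) := by
  rw [br, brx_single_left, one_mul]

theorem br_nd {b : K → W} (h : ∀ a, br a b = 0) : b = 0 := by
  funext κ
  apply eq_zero_of_om
  intro y
  rw [om_comm, ← br_single_left κ y b]
  exact h _

theorem KW_self (a : K → W) : a + a = 0 := funext fun _ => W_add_self _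

theorem KW_eq {a b : K → W} (h : a + b = 0) : a = b := by
  calc a = a + (b + b) := by rw [KW_self, add_zero]
    _ = b := by rw [← add_assoc, h, zero_add]

theorem F_eq : ∀ {a b : F2}, a + b = 0 → a = b := by decide

theorem W_eq {a b : W} (h : a + b = 0) : a = b := by
  calc a = a + (b + b) := by rw [W_add_self, add_zero]
    _ = b := by rw [← add_assoc, h, zero_add]

end br

variable {J υ τ : Type} [Fintype J] [Fintype υ] [Fintype τ] [LinearOrder J]
variable {M : ℕ} {jj : Fin M → ℕ}

/-- the indices of the tuples -/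
abbrev Kx (jj : Fin M → ℕ) : Type := (k : Fin M) × Fin (jj k)

variable (Md : Mdl J υ τ) (Um : Fin M → Finset υ)

/-- the indicator of the twists which contain a small prime -/
noncomputable def ind (jj : Fin M → ℕ) (u : υ) (κ : Kx jj) : F2 := if u ∈ Um κ.1 then 1 else 0

/-- the label of a large prime -/
def la (w : Kx jj → V (J ⊕ υ) τ) (i : J) : Kx jj → W := fun κ => (w κ).1 (Sum.inl i)

/-- the values at a small prime -/
def lu (w : Kx jj → V (J ⊕ υ) τ) (u : υ) : Kx jj → W := fun κ => (w κ).1 (Sum.inr u)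

/-- the values at a bad prime -/
def ls (w : Kx jj → V (J ⊕ υ) τ) (s : τ) : Kx jj → F2 := fun κ => (w κ).2 s

/-- the conditions -/
structure Cond (w w' : Kx jj → V (J ⊕ υ) τ) (Uf : τ → F2) : Prop where
  c1 : ∀ i j : J, br (la w i + la w j) (la w' i + la w' j) = 0
  c2 : ∀ (i : J) (u : υ), brx (ind Um jj u) (la w i + lu w u) (la w' i + lu w' u) = 0
  c3 : ∀ (i : J) (s : τ), ∑ κ, ee (Md.D.t s) (ls w s κ) (ls w' s κ) (la w i κ, la w' i κ) + Uf s = 0

/-- the coefficients of the symbols in the total phase -/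
noncomputable def co (w w' : Kx jj → V (J ⊕ υ) τ) (Uf : τ → F2) (p : Bt J υ τ) : F2 :=
  ∑ κ, cfo Md (Um κ.1) (w κ) (w' κ) p +
    (match p with
      | Sum.inl _ => 0
      | Sum.inr (Sum.inl _) => 0
      | Sum.inr (Sum.inr q) => Uf q.2)

theorem co_iff (w w' : Kx jj → V (J ⊕ υ) τ) (Uf : τ → F2) :
    (∀ p, co Md Um w w' Uf p = 0) ↔ Cond Md Um w w' Uf := by
  have e1 : ∀ p : {p : J × J // p.1 < p.2}, co Md Um w w' Uf (Sum.inl p) =
      br (la w p.1.1 + la w p.1.2) (la w' p.1.1 + la w' p.1.2) := by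
    intro p
    rw [br_eq]
    show ∑ κ, om _ _ + 0 = _
    rw [add_zero]
    rfl
  have e2 : ∀ p : J × υ, co Md Um w w' Uf (Sum.inr (Sum.inl p)) =
      brx (ind Um jj p.2) (la w p.1 + lu w p.2) (la w' p.1 + lu w' p.2) := by
    intro p
    show ∑ κ : Kx jj, (if p.2 ∈ Um κ.1 then _ else (0 : F2)) + 0 = _
    rw [add_zero, brx]
    refine sum_congr rfl fun κ _ => ?_
    unfold ind
    split_ifs
    · rw [one_mul]; rfl
    · rw [zero_mul]
  have e3 : ∀ p : J × τ, co Md Um w w' Uf (Sum.inr (Sum.inr p)) =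
      ∑ κ, ee (Md.D.t p.2) (ls w p.2 κ) (ls w' p.2 κ) (la w p.1 κ, la w' p.1 κ) + Uf p.2 :=
    fun p => rfl
  constructor
  · intro h
    refine ⟨fun i j => ?_, fun i u => ?_, fun i s => ?_⟩
    · rcases lt_trichotomy i j with hij | rfl | hij
      · rw [← e1 ⟨(i, j), hij⟩]; exact h _
      · rw [KW_self, br_eq]
        simp only [Pi.zero_apply, om_zero_left, sum_const_zero]
      · rw [add_comm (la w i), add_comm (la w' i), ← e1 ⟨(j, i), hij⟩]; exact h _
    · rw [← e2 (i, u)]; exact h _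
    · rw [← e3 (i, s)]; exact h _
  · rintro h (p | p | p)
    · rw [e1]; exact h.c1 _ _
    · rw [e2]; exact h.c2 _ _
    · rw [e3]; exact h.c3 _ _

/-- the total phase -/
noncomputable def Phs (x : Bt J υ τ → F2) (c : τ → F2) (w w' : Kx jj → V (J ⊕ υ) τ) (Uf : τ → F2) :
    F2 :=
  ∑ κ, Fm Md (Um κ.1) x (w κ) (w' κ) +
    ∑ s, Uf s * (c s + ∑ i : J, x (Sum.inr (Sum.inr (i, s))))

theorem Phs_aff (x : Bt J υ τ → F2) (c : τ → F2) (w w' : Kx jj → V (J ⊕ υ) τ) (Uf : τ → F2) :
    Phs Md Um x c w w' Uf = ∑ p, x p * co Md Um w w' Uf p + Phs Md Um 0 c w w' Uf := by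
  have e1 : ∑ κ : Kx jj, Fm Md (Um κ.1) x (w κ) (w' κ) =
      ∑ p, x p * ∑ κ : Kx jj, cfo Md (Um κ.1) (w κ) (w' κ) p +
      ∑ κ : Kx jj, Fm Md (Um κ.1) 0 (w κ) (w' κ) := by
    simp only [mul_sum]
    rw [sum_comm, ← sum_add_distrib]
    exact sum_congr rfl fun κ _ => Fm_aff Md (Um κ.1) x (w κ) (w' κ)
  have e2 : ∑ p, x p * co Md Um w w' Uf p =
      ∑ p, x p * ∑ κ : Kx jj, cfo Md (Um κ.1) (w κ) (w' κ) p +
      ∑ s, Uf s * ∑ i : J, x (Sum.inr (Sum.inr (i, s))) := by
    simp only [co, mul_add, sum_add_distrib]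
    congr 1
    rw [Fintype.sum_sum_type, Fintype.sum_sum_type]
    have h1 : ∑ q : J × τ, x (Sum.inr (Sum.inr q)) * Uf q.2 =
        ∑ s, Uf s * ∑ i : J, x (Sum.inr (Sum.inr (i, s))) := by
      rw [Fintype.sum_prod_type, sum_comm]
      refine sum_congr rfl fun s _ => ?_
      rw [mul_sum]
      exact sum_congr rfl fun i _ => mul_comm _ _
    simp only [mul_zero, sum_const_zero, zero_add]
    exact h1
  unfold Phs
  rw [e1, e2]
  simp only [Pi.zero_apply, sum_const_zero, add_zero, mul_add, sum_add_distrib]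
  ring

end Q283.FS
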