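import Pool.Agent.Q283.FS.Le
import Pool.Agent.TH115.SK.ShaK

/-!
The 2-Selmer group as a group of cocycles.
-/

set_option autoImplicit false
set_option linter.all false

open scoped Classical

namespace Q283.FS

open Polynomial IsDedekindDomain WeierstrassCurve WeierstrassCurve.Affine
open Pool.Agent.TH115.GD Pool.Agent.Y164.PS Pool.Agent.H341R2.Sharp Finset
open Pool.Agent.W309.TD (locConst_apply exists_root compare)

section loc

variable {K F Ω L Ω' : Type} [Field K] [Field F] [Field Ω] [Field L] [Field Ω']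
  [Algebra K F] [Algebra F Ω] [Algebra K Ω] [IsScalarTower K F Ω] [IsGalois F Ω]
  [Algebra K L] [Algebra F L] [IsScalarTower K F L]
  [Algebra L Ω'] [Algebra K Ω'] [Algebra F Ω'] [IsScalarTower K L Ω'] [IsScalarTower F L Ω']
  [IsScalarTower K F Ω'] [IsGalois L Ω'] [IsSepClosed Ω']
  (W : WeierstrassCurve K) {a b : K}

/-- locally soluble pairs give locally trivial cocycles -/
theorem locTriv_conv (hL' : IsE (W.baseChange Ω').toAffine (algebraMap K Ω' a) (algebraMap K Ω' b))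
    {f : (Ω ≃ₐ[F] Ω) → Pt W Ω} (hf2 : ∀ σ, f σ + f σ = 0) {t0 t1 : Ω} {a0 a1 : F}
    (n0 : t0 ≠ 0) (n1 : t1 ≠ 0)
    (e0 : t0 ^ 2 = algebraMap F Ω a0) (e1 : t1 ^ 2 = algebraMap F Ω a1)
    (k0 : ∀ σ, σ t0 = s0 (f σ) * t0) (k1 : ∀ σ, σ t1 = s1 (algebraMap K Ω a) (f σ) * t1)
    (hs : LocSol W a b L a0 a1) : LocTriv W L Ω' f := by
  obtain ⟨Q, c0, c1, m0, m1, w0, w1⟩ := hs
  let ι : Ω →ₐ[F] Ω' := IsSepClosed.lift
  choose res hres using exists_restrict (F := F) (Ω := Ω) (L := L) (Ω' := Ω') ι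
  set ι' : Ω →ₐ[K] Ω' := ι.restrictScalars K with hι'
  have hιx : ∀ x, ι' x = ι x := fun x => rfl
  obtain ⟨H, hH⟩ := halve_sep hL' (act W (incl K L Ω') Q)
  have ga : incl K L Ω' (algebraMap K L a) = algebraMap K Ω' a :=
    (IsScalarTower.algebraMap_apply K L Ω' a).symm
  have gb : incl K L Ω' (algebraMap K L b) = algebraMap K Ω' b :=
    (IsScalarTower.algebraMap_apply K L Ω' b).symm
  refine ⟨ι, H, fun τ σ hτσ => ?_⟩
  have hσ : res τ = σ := by
    apply AlgEquiv.ext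
    intro x
    apply ι.toRingHom.injective
    exact (hres τ x).symm.trans (hτσ x)
  have key := cob_of_rep (F := L) W hL' (f := fun τ : Ω' ≃ₐ[L] Ω' => act W ι' (f (res τ)))
    (fun τ => (two_act W ι' _).2 (hf2 _)) (t0 := ι t0) (t1 := ι t1) ((map_ne_zero ι).2 n0)
    ((map_ne_zero ι).2 n1)
    (fun τ => by rw [hres τ t0, k0, map_mul, s0_act, hιx])
    (fun τ => by
      have h3 := s1_act W ι' (algebraMap K Ω a) (f (res τ))
      rw [ι'.commutes] at h3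
      rw [hres τ t1, k1, map_mul, h3, hιx])
    (H := H) (fun τ => by rw [hH]; exact rs_act_incl W τ Q) (c0 := c0) (c1 := c1)
    (by
      have w1' : (ι t0) ^ 2 = algebraMap F Ω' a0 := by rw [← map_pow, e0, ι.commutes]
      rw [w1', IsScalarTower.algebraMap_apply F L Ω', w0, hH, map_mul, map_pow, ← ga, ← gb, d0_act]
      rfl)
    (by
      have w1' : (ι t1) ^ 2 = algebraMap F Ω' a1 := by rw [← map_pow, e1, ι.commutes]
      rw [w1', IsScalarTower.algebraMap_apply F L Ω', w1, hH, map_mul, map_pow, ← ga, ← gb, d1_act]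
      rfl) τ
  rw [hσ] at key
  exact key

end loc

section tor
variable {F : Type} [Field F] {W : Affine F} {a b : F}

/-- the points of order two with given signs -/
theorem tor_of_signs (h : IsE W a b) {e0 e1 : F} (h0 : e0 = 1 ∨ e0 = -1) (h1 : e1 = 1 ∨ e1 = -1) :
    ∃ T : W.Point, T + T = 0 ∧ s0 T = e0 ∧ s1 a T = e1 := by
  rcases h0 with rfl | rfl <;> rcases h1 with rfl | rfl
  · exact ⟨Point.zero, add_zero 0, rfl, rfl⟩
  · have n0 : W.Nonsingular 0 0 := h.nonsingular.2 (by ring)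
    refine ⟨Point.some 0 0 n0, (add_self_eq_zero_iff h n0).2 rfl, ?_, ?_⟩
    · simp only [s0, if_true]
    · simp only [s1, if_neg h.nea.symm]
  · have n0 : W.Nonsingular a 0 := h.nonsingular.2 (by ring)
    refine ⟨Point.some a 0 n0, (add_self_eq_zero_iff h n0).2 rfl, ?_, ?_⟩
    · simp only [s0, if_neg h.nea]
    · simp only [s1, if_true]
  · have n0 : W.Nonsingular b 0 := h.nonsingular.2 (by ring)
    refine ⟨Point.some b 0 n0, (add_self_eq_zero_iff h n0).2 rfl, ?_, ?_⟩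
    · simp only [s0, if_neg h.neb]
    · simp only [s1, if_neg h.neab.symm]

end tor

section coc

variable {K F Ω : Type} [Field K] [Field F] [Field Ω] [Algebra K F] [Algebra F Ω] [Algebra K Ω]
  [IsScalarTower K F Ω] [IsGalois F Ω] [IsSepClosed Ω] (W : WeierstrassCurve K) {a b : K}
  (hL : IsE (W.baseChange Ω).toAffine (algebraMap K Ω a) (algebraMap K Ω b))

include hL

/-- the cocycle of a pair -/
theorem coc_of_pair {a0 a1 : F} (n0 : a0 ≠ 0) (n1 : a1 ≠ 0) :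
    ∃ f : (Ω ≃ₐ[F] Ω) → Pt W Ω, IsCoc W f ∧ (∀ σ, f σ + f σ = 0) ∧ Rep W a f a0 a1 := by
  have h2 : (2 : Ω) ≠ 0 := hL.two
  haveI : NeZero ((2 : ℕ) : Ω) := ⟨by exact_mod_cast h2⟩
  obtain ⟨t0, e0⟩ := IsSepClosed.exists_pow_nat_eq (algebraMap F Ω a0) 2
  obtain ⟨t1, e1⟩ := IsSepClosed.exists_pow_nat_eq (algebraMap F Ω a1) 2
  have m0 : t0 ≠ 0 := by
    rintro rfl
    rw [zero_pow two_ne_zero] at e0
    exact (_root_.map_ne_zero _).2 n0 e0.symm
  have m1 : t1 ≠ 0 := by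
    rintro rfl
    rw [zero_pow two_ne_zero] at e1
    exact (_root_.map_ne_zero _).2 n1 e1.symm
  have sgn : ∀ {t : Ω} {x : F}, t ≠ 0 → t ^ 2 = algebraMap F Ω x → ∀ σ : Ω ≃ₐ[F] Ω,
      σ t / t = 1 ∨ σ t / t = -1 := by
    intro t x ht e σ
    have h1 : (σ t) ^ 2 = t ^ 2 := by rw [← map_pow, e, σ.commutes]
    rcases sq_eq_sq_iff_eq_or_eq_neg.1 h1 with h | h
    · left; rw [h, div_self ht]
    · right; rw [h, neg_div, div_self ht]
  let g : Ω × Ω → Pt W Ω := fun e => if h : ∃ T : Pt W Ω, T + T = 0 ∧ s0 T = e.1 ∧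
    s1 (algebraMap K Ω a) T = e.2 then h.choose else 0
  have hg : ∀ σ : Ω ≃ₐ[F] Ω, g (σ t0 / t0, σ t1 / t1) + g (σ t0 / t0, σ t1 / t1) = 0 ∧
      s0 (g (σ t0 / t0, σ t1 / t1)) = σ t0 / t0 ∧
      s1 (algebraMap K Ω a) (g (σ t0 / t0, σ t1 / t1)) = σ t1 / t1 := by
    intro σ
    have h := tor_of_signs hL (sgn m0 e0 σ) (sgn m1 e1 σ)
    show (dite _ _ _ : Pt W Ω) + (dite _ _ _ : Pt W Ω) = 0 ∧ s0 (dite _ _ _ : Pt W Ω) = _ ∧
      s1 (algebraMap K Ω a) (dite _ _ _ : Pt W Ω) = _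
    rw [dif_pos h]
    exact h.choose_spec
  refine ⟨fun σ => g (σ t0 / t0, σ t1 / t1), ⟨?_, fun σ τ => ?_⟩, fun σ => (hg σ).1,
    t0, t1, m0, m1, e0, e1, fun σ => ?_, fun σ => ?_⟩
  · have l0 : IsLocallyConstant (fun σ : Ω ≃ₐ[F] Ω => σ t0) := locConst_apply (K := F) t0
    have l1 : IsLocallyConstant (fun σ : Ω ≃ₐ[F] Ω => σ t1) := locConst_apply (K := F) t1
    exact l0.comp₂ l1 (fun x y => g (x / t0, y / t1))
  · show g ((σ * τ) t0 / t0, (σ * τ) t1 / t1) =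
      g (σ t0 / t0, σ t1 / t1) + act W (Pool.Agent.TH115.GD.rs K σ) (g (τ t0 / t0, τ t1 / t1))
    rw [act_tor W hL _ (hg τ).1]
    apply tor_ext hL (hg (σ * τ)).1
    · rw [add_add_add_comm, (hg σ).1, (hg τ).1, add_zero]
    · rw [(hg (σ * τ)).2.1, (s_add W hL (hg σ).1 (hg τ).1).1, (hg σ).2.1, (hg τ).2.1,
        AlgEquiv.mul_apply]
      have h1 : τ t0 = (τ t0 / t0) * t0 := (div_mul_cancel₀ _ m0).symm
      rcases sgn m0 e0 τ with h | h
      · rw [h, one_mul] at h1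
        rw [h, h1, mul_one]
      · rw [h, neg_one_mul] at h1
        rw [h, h1, map_neg, neg_div, mul_neg, mul_one]
    · rw [(hg (σ * τ)).2.2, (s_add W hL (hg σ).1 (hg τ).1).2, (hg σ).2.2, (hg τ).2.2,
        AlgEquiv.mul_apply]
      have h1 : τ t1 = (τ t1 / t1) * t1 := (div_mul_cancel₀ _ m1).symm
      rcases sgn m1 e1 τ with h | h
      · rw [h, one_mul] at h1
        rw [h, h1, mul_one]
      · rw [h, neg_one_mul] at h1
        rw [h, h1, map_neg, neg_div, mul_neg, mul_one]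
  · rw [(hg σ).2.1, div_mul_cancel₀ _ m0]
  · rw [(hg σ).2.2, div_mul_cancel₀ _ m1]

omit [IsSepClosed Ω] in
/-- two cocycles with the same pair are equal -/
theorem rep_unique {f f' : (Ω ≃ₐ[F] Ω) → Pt W Ω} (hf : ∀ σ, f σ + f σ = 0)
    (hf' : ∀ σ, f' σ + f' σ = 0) {a0 a1 a0' a1' : F} (h : Rep W a f a0 a1) (h' : Rep W a f' a0' a1')
    (q0 : SqEq a0 a0') (q1 : SqEq a1 a1') : f = f' := by
  obtain ⟨t0, t1, n0, n1, e0, e1, k0, k1⟩ := h
  obtain ⟨t0', t1', n0', n1', e0', e1', k0', k1'⟩ := h'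
  obtain ⟨c0, m0, w0⟩ := q0
  obtain ⟨c1, m1, w1⟩ := q1
  have key : ∀ {t t' : Ω} {x x' c : F}, t' ≠ 0 → t ^ 2 = algebraMap F Ω x →
      t' ^ 2 = algebraMap F Ω x' → x = c ^ 2 * x' → t = algebraMap F Ω c * t' ∨
      t = -(algebraMap F Ω c * t') := by
    intro t t' x x' c ht' e e' hc
    apply sq_eq_sq_iff_eq_or_eq_neg.1
    rw [e, hc, map_mul, map_pow, ← e']
    ring
  have fin : ∀ {t t' : Ω} {c : F} {ε ε' : Ω} (σ : Ω ≃ₐ[F] Ω), t ≠ 0 →
      (t = algebraMap F Ω c * t' ∨ t = -(algebraMap F Ω c * t')) → σ t = ε * t → σ t' = ε' * t' →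
      ε = ε' := by
    intro t t' c ε ε' σ ht h h1 h3
    have h4 : σ t = ε' * t := by
      rcases h with h | h
      · rw [h, map_mul, σ.commutes, h3]; ring
      · rw [h, map_neg, map_mul, σ.commutes, h3]; ring
    rw [h1] at h4
    exact mul_right_cancel₀ ht h4
  funext σ
  apply tor_ext hL (hf σ) (hf' σ)
  · exact fin σ n0 (key n0' e0 e0' w0) (k0 σ) (k0' σ)
  · exact fin σ n1 (key n1' e1 e1' w1) (k1 σ) (k1' σ)

omit hL [IsSepClosed Ω] in
/-- the pairs of a cocycle are equal modulo squares -/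
theorem rep_sq {f : (Ω ≃ₐ[F] Ω) → Pt W Ω} {a0 a1 a0' a1' : F} (h : Rep W a f a0 a1)
    (h' : Rep W a f a0' a1') : SqEq a0 a0' ∧ SqEq a1 a1' := by
  obtain ⟨t0, t1, n0, n1, e0, e1, k0, k1⟩ := h
  obtain ⟨t0', t1', n0', n1', e0', e1', k0', k1'⟩ := h'
  obtain ⟨c0, m0, w0⟩ := compare (K := F) n0 n0' _ (fun σ => s0_ne (f σ)) k0 k0'
  obtain ⟨c1, m1, w1⟩ := compare (K := F) n1 n1' _ (fun σ => s1_ne _ (f σ)) k1 k1'
  have inj := (algebraMap F Ω).injective
  refine ⟨⟨c0, m0, inj ?_⟩, ⟨c1, m1, inj ?_⟩⟩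
  · rw [← e0, w0, map_mul, map_pow, ← e0']; ring
  · rw [← e1, w1, map_mul, map_pow, ← e1']; ring

end coc

/-- The 2-Selmer group of a curve over `K = k(t)` all of whose points of order two are rational:
continuous cocycles of the Galois group with values in the group of the points of order two, whose
classes in `H ^ 1 (K, W)` are everywhere locally trivial. -/
def SelTwo (k : Type) {K : Type} [Field k] [Field K] [Algebra k[X] K] [IsFractionRing k[X] K]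
    (W : WeierstrassCurve K) : Set ((Sep K ≃ₐ[K] Sep K) → Pt W (Sep K)) :=
  {f | IsCoc W f ∧ (∀ σ, f σ + f σ = 0) ∧ LocallyTrivial k W f}

section lt

variable {k' K F : Type} [Field k'] [Field K] [Field F] [Algebra K F] [Algebra k'[X] F]
  [IsFractionRing k'[X] F] {W : WeierstrassCurve K}

theorem lt_conv {a b : K} (hE : ∀ (L : Type) [Field L] [Algebra K L],
      IsE (W.baseChange L).toAffine (algebraMap K L a) (algebraMap K L b))
    {f : (Sep F ≃ₐ[F] Sep F) → Pt W (Sep F)}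
    (hf2 : ∀ σ, f σ + f σ = 0) {t0 t1 : Sep F} {a0 a1 : F}
    (n0 : t0 ≠ 0) (n1 : t1 ≠ 0)
    (e0 : t0 ^ 2 = algebraMap F (Sep F) a0) (e1 : t1 ^ 2 = algebraMap F (Sep F) a1)
    (k0 : ∀ σ, σ t0 = s0 (f σ) * t0) (k1 : ∀ σ, σ t1 = s1 (algebraMap K (Sep F) a) (f σ) * t1)
    (h : LSg k' W a b a0 a1) : LocallyTrivial k' W f :=
  ⟨fun v => locTriv_conv _ (hE _) hf2 n0 n1 e0 e1 k0 k1 (h.1 v),
    locTriv_conv _ (hE _) hf2 n0 n1 e0 e1 k0 k1 h.2⟩

end lt

section sel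

variable {k K : Type} [Field k] [Field K] [Algebra k[X] K] [IsFractionRing k[X] K] {α β : K}
  (h2 : (2 : K) ≠ 0) (hα : α ≠ 0) (hβ : β ≠ 0) (hαβ : α ≠ β)

include h2 hα hβ hαβ in
theorem lsg_iff {f : (Sep K ≃ₐ[K] Sep K) → Pt (crv α β) (Sep K)} (hf : ∀ σ, f σ + f σ = 0)
    {a0 a1 : K} (h : Rep (crv α β) α f a0 a1) :
    LocallyTrivial k (crv α β) f ↔ LSg (F := K) k (crv α β) α β a0 a1 := by
  have hE : ∀ (L : Type) [Field L] [Algebra K L],
      IsE ((crv α β).baseChange L).toAffine (algebraMap K L α) (algebraMap K L β) :=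
    fun L _ _ => isE _ _ L h2 hα hβ hαβ
  obtain ⟨t0, t1, n0, n1, e0, e1, k0, k1⟩ := h
  constructor
  · intro hl
    exact lt_rep hE hl hf n0 n1 e0 e1 k0 k1
  · intro hl
    exact lt_conv hE hf n0 n1 e0 e1 k0 k1 hl

end sel

end Q283.FS
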