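import Pool.Agent.Q283.FS.Gnr

/-!
The solutions given by the symmetric matrices.
-/

set_option autoImplicit false
set_option linter.all false

open scoped Classical

namespace Q283.FS

open Finset
open Pool.Agent.Y164.PS

/-- a symmetric sum over pairs modulo two -/
theorem swap0 {K : Type} [Fintype K] (f : K → K → F2) (hf : ∀ a b, f a b = f b a) :
    ∑ a, ∑ b, f a b = ∑ a, f a a := by
  have h1 : ∑ a, ∑ b, (if a = b then 0 else f a b) = 0 := by
    rw [← sum_product']
    refine sum_involution (fun p _ => (p.2, p.1)) ?_ ?_ ?_ ?_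
    · rintro ⟨i, j⟩ _
      show (if i = j then 0 else f i j) + (if j = i then 0 else f j i) = 0
      rw [hf i j]
      by_cases h : i = j
      · rw [if_pos h, if_pos h.symm, add_zero]
      · rw [if_neg h, if_neg (Ne.symm h), F2_add_self]
    · rintro ⟨i, j⟩ _ hne h
      simp only [Prod.mk.injEq] at h
      apply hne
      show (if i = j then 0 else f i j) = 0
      rw [if_pos h.1.symm]
    · intro _ _
      exact mem_univ _
    · rintro ⟨i, j⟩ _
      rfl
  have h2 : ∀ a, ∑ b, f a b = ∑ b, (if a = b then 0 else f a b) + f a a := by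
    intro a
    have e : ∀ b, f a b = (if a = b then 0 else f a b) + (if a = b then f a b else 0) := by
      intro b
      split_ifs
      · rw [zero_add]
      · rw [add_zero]
    rw [sum_congr rfl fun b _ => e b, sum_add_distrib]
    congr 1
    rw [Finset.sum_ite_eq univ a (fun b => f a b), if_pos (mem_univ _)]
  rw [sum_congr rfl fun a _ => h2 a, sum_add_distrib, h1, zero_add]

variable {J υ τ : Type} [Fintype J] [Fintype υ] [Fintype τ] [LinearOrder J]
variable {M : ℕ} {jj : Fin M → ℕ}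

/-- the symmetric matrices with blocks -/
structure IsCS (c : Kx jj → Kx jj → F2) : Prop where
  symm : ∀ κ l, c κ l = c l κ
  blk : ∀ κ l, κ.1 ≠ l.1 → c κ l = 0

variable (Md : Mdl J υ τ) (Um : Fin M → Finset υ)

/-- the tuple given by a matrix -/
noncomputable def wc (c : Kx jj → Kx jj → F2) (w : Kx jj → V (J ⊕ υ) τ) (κ : Kx jj) :
    V (J ⊕ υ) τ := ∑ l, c κ l • w l + c κ κ • wo Md.D

theorem wc_fst (c : Kx jj → Kx jj → F2) (w : Kx jj → V (J ⊕ υ) τ) (κ : Kx jj) (p : J ⊕ υ) :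
    (wc Md c w κ).1 p = ∑ l, c κ l • (w l).1 p := by
  show (∑ l, c κ l • w l : V (J ⊕ υ) τ).1 p + c κ κ • (0 : W) = _
  rw [smul_zero, add_zero, Prod.fst_sum, Finset.sum_apply]
  rfl

theorem wc_snd (c : Kx jj → Kx jj → F2) (w : Kx jj → V (J ⊕ υ) τ) (κ : Kx jj) (s : τ) :
    (wc Md c w κ).2 s = ∑ l, c κ l * (w l).2 s + c κ κ * (if Md.D.t s = 0 then 0 else 1) := by
  show (∑ l, c κ l • w l : V (J ⊕ υ) τ).2 s + c κ κ * (if Md.D.t s = 0 then 0 else 1) = _
  rw [Prod.snd_sum, Finset.sum_apply]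
  rfl

theorem wc_mem {c : Kx jj → Kx jj → F2} (hc : IsCS c) {w : Kx jj → V (J ⊕ υ) τ}
    (hw : ∀ κ, w κ ∈ SU Md (Um κ.1)) (κ : Kx jj) : wc Md c w κ ∈ SU Md (Um κ.1) := by
  refine add_mem (sum_mem fun l _ => ?_) ((SU Md (Um κ.1)).smul_mem _ (wo_mem Md _))
  by_cases h : κ.1 = l.1
  · rw [h]
    exact (SU Md (Um l.1)).smul_mem _ (hw l)
  · rw [hc.blk κ l h, zero_smul]
    exact zero_mem _

theorem wc_cond {c : Kx jj → Kx jj → F2} (hc : IsCS c) {w : Kx jj → V (J ⊕ υ) τ}
    (hw : ∀ κ, w κ ∈ SU Md (Um κ.1)) : Cond Md Um w (wc Md c w) 0 := by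
  have key : ∀ (χ : Kx jj → F2) (hχ : ∀ κ l, κ.1 = l.1 → χ κ = χ l) (v : Kx jj → W),
      brx χ v (fun κ => ∑ l, c κ l • v l) = 0 := by
    intro χ hχ v
    have h1 : brx χ v (fun κ => ∑ l, c κ l • v l) =
        ∑ κ, ∑ l, χ κ * (c κ l * om (v κ) (v l)) := by
      unfold brx
      refine sum_congr rfl fun κ _ => ?_
      rw [om_sum_right, mul_sum]
      exact sum_congr rfl fun l _ => by rw [om_smul_right]
    rw [h1, swap0]
    · apply sum_eq_zero
      intro κ _
      rw [om_self, mul_zero, mul_zero]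
    · intro κ l
      by_cases h : κ.1 = l.1
      · rw [hχ κ l h, hc.symm κ l, om_comm]
      · rw [hc.blk κ l h, hc.blk l κ (Ne.symm h), zero_mul, zero_mul, mul_zero, mul_zero]
  have ela : ∀ i j : J, la (wc Md c w) i + la (wc Md c w) j =
      fun κ => ∑ l, c κ l • (la w i + la w j) l := by
    intro i j
    funext κ
    show (wc Md c w κ).1 (Sum.inl i) + (wc Md c w κ).1 (Sum.inl j) = _
    rw [wc_fst, wc_fst, ← sum_add_distrib]
    exact sum_congr rfl fun l _ => (smul_add _ _ _).symm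
  have elu : ∀ (i : J) (u : υ), la (wc Md c w) i + lu (wc Md c w) u =
      fun κ => ∑ l, c κ l • (la w i + lu w u) l := by
    intro i u
    funext κ
    show (wc Md c w κ).1 (Sum.inl i) + (wc Md c w κ).1 (Sum.inr u) = _
    rw [wc_fst, wc_fst, ← sum_add_distrib]
    exact sum_congr rfl fun l _ => (smul_add _ _ _).symm
  refine ⟨fun i j => ?_, fun i u => ?_, fun i s => ?_⟩
  · rw [ela]
    exact key _ (fun _ _ _ => rfl) _
  · rw [elu]
    refine key _ (fun κ l h => ?_) _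
    unfold ind
    rw [h]
  · show ∑ κ, ee _ _ _ _ + 0 = 0
    rw [add_zero]
    set t := Md.D.t s with ht
    set ξ : Kx jj → F2 := fun κ => om (la w i κ) t with hξ
    set z : Kx jj → F2 := fun κ => ls w s κ with hz
    have h1 : ∀ κ, om (la (wc Md c w) i κ) t = ∑ l, c κ l * ξ l := by
      intro κ
      show om ((wc Md c w κ).1 (Sum.inl i)) t = _
      rw [wc_fst, om_sum_left]
      exact sum_congr rfl fun l _ => om_smul_left _ _ _
    have h2 : ∀ κ, ls (wc Md c w) s κ * ξ κ = ∑ l, c κ l * z l * ξ κ + c κ κ * ξ κ := by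
      intro κ
      show (wc Md c w κ).2 s * ξ κ = _
      rw [wc_snd, add_mul, sum_mul, ← ht]
      congr 1
      by_cases h : t = 0
      · have : ξ κ = 0 := by
          show om _ t = 0
          rw [h, om_zero_right]
        rw [this, mul_zero, mul_zero]
      · rw [if_neg h, mul_one]
    have h3 : ∀ κ, ee t (ls w s κ) (ls (wc Md c w) s κ) (la w i κ, la (wc Md c w) i κ) =
        ∑ l, ξ κ * (c κ l * ξ l) + ∑ l, z κ * (c κ l * ξ l) +
          (∑ l, c κ l * z l * ξ κ + c κ κ * ξ κ) := by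
      intro κ
      rw [← h2]
      unfold ee
      rw [h1, om_comm t, h1, mul_sum, mul_sum]
    rw [sum_congr rfl fun κ _ => h3 κ]
    simp only [sum_add_distrib]
    have h4 : ∑ κ, ∑ l, ξ κ * (c κ l * ξ l) = ∑ κ, c κ κ * ξ κ := by
      rw [swap0]
      · refine sum_congr rfl fun κ _ => ?_
        have := F2_sq (ξ κ)
        calc ξ κ * (c κ κ * ξ κ) = c κ κ * (ξ κ * ξ κ) := by ring
          _ = _ := by rw [this]
      · intro κ l
        rw [hc.symm κ l]; ring
    have h5 : ∑ κ, ∑ l, z κ * (c κ l * ξ l) = ∑ κ, ∑ l, c κ l * z l * ξ κ := by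
      rw [sum_comm]
      refine sum_congr rfl fun κ _ => sum_congr rfl fun l _ => ?_
      rw [hc.symm κ l]; ring
    rw [h4, h5]
    have g1 := F2_add_self (∑ κ, c κ κ * ξ κ)
    have g2 := F2_add_self (∑ κ, ∑ l, c κ l * z l * ξ κ)
    calc ∑ κ, c κ κ * ξ κ + ∑ κ, ∑ l, c κ l * z l * ξ κ +
          (∑ κ, ∑ l, c κ l * z l * ξ κ + ∑ κ, c κ κ * ξ κ) =
          (∑ κ, c κ κ * ξ κ + ∑ κ, c κ κ * ξ κ) +
          (∑ κ, ∑ l, c κ l * z l * ξ κ + ∑ κ, ∑ l, c κ l * z l * ξ κ) := by ring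
      _ = 0 := by rw [g1, g2, add_zero]

theorem Fm_sum_right (U : Finset υ) (x : Bt J υ τ → F2) {α : Type} (s : Finset α)
    (f : α → V (J ⊕ υ) τ) (w : V (J ⊕ υ) τ) :
    Fm Md U x w (∑ a ∈ s, f a) = ∑ a ∈ s, Fm Md U x w (f a) := by
  classical
  induction s using Finset.induction_on with
  | empty => rw [sum_empty, sum_empty, Fm_zero_right]
  | insert a s ha ih => rw [sum_insert ha, sum_insert ha, Fm_add_right, ih]

theorem wc_phs {c : Kx jj → Kx jj → F2} (hc : IsCS c) {w : Kx jj → V (J ⊕ υ) τ}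
    (hw : ∀ κ, w κ ∈ SU Md (Um κ.1)) (x : Bt J υ τ → F2) (cc : τ → F2) :
    Phs Md Um x cc w (wc Md c w) 0 = 0 := by
  unfold Phs
  simp only [Pi.zero_apply, zero_mul, sum_const_zero, add_zero]
  have h1 : ∀ κ, Fm Md (Um κ.1) x (w κ) (wc Md c w κ) =
      ∑ l, c κ l * Fm Md (Um κ.1) x (w κ) (w l) + c κ κ * Fm Md (Um κ.1) x (w κ) (wo Md.D) := by
    intro κ
    unfold wc
    rw [Fm_add_right, Fm_sum_right, Fm_smul_right]
    congr 1
    exact sum_congr rfl fun l _ => Fm_smul_right _ _ _ _ _ _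
  rw [sum_congr rfl fun κ _ => h1 κ, sum_add_distrib, swap0]
  · rw [← sum_add_distrib]
    apply sum_eq_zero
    intro κ _
    rw [Fm_diag Md _ x (hw κ)]
    exact F2_add_self _
  · intro κ l
    by_cases h : κ.1 = l.1
    · rw [hc.symm κ l, h, Fm_comm]
    · rw [hc.blk κ l h, hc.blk l κ (Ne.symm h), zero_mul, zero_mul]

/-- the matrices as a finite set -/
noncomputable def CS (jj : Fin M → ℕ) : Finset (Kx jj → Kx jj → F2) := univ.filter IsCS

theorem mem_CS {c : Kx jj → Kx jj → F2} : c ∈ CS jj ↔ IsCS c := by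
  rw [CS, mem_filter]
  exact ⟨fun h => h.2, fun h => ⟨mem_univ _, h⟩⟩

theorem card_CS (jj : Fin M → ℕ) : (CS jj).card = ∏ k, 2 ^ ((jj k + 1).choose 2) := by
  have h1 : ∀ k, Fintype.card (Sym2 (Fin (jj k)) → F2) = 2 ^ ((jj k + 1).choose 2) := by
    intro k
    rw [Fintype.card_fun, ZMod.card, Sym2.card, Fintype.card_fin]
  rw [prod_congr rfl fun k _ => (h1 k).symm, ← Fintype.card_pi]
  rw [← Fintype.card_coe]
  refine Fintype.card_congr (Equiv.ofBijective
    (fun c : CS jj => fun k => Sym2.lift ⟨fun a b => c.1 ⟨k, a⟩ ⟨k, b⟩,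
      fun a b => (mem_CS.1 c.2).symm _ _⟩) ⟨?_, ?_⟩)
  · intro c c' h
    apply Subtype.ext
    funext κ l
    by_cases hk : κ.1 = l.1
    · obtain ⟨k, a⟩ := κ
      obtain ⟨k', b⟩ := l
      obtain rfl : k = k' := hk
      have h2 := congrFun (congrFun h k) (Sym2.mk a b)
      exact h2
    · rw [(mem_CS.1 c.2).blk _ _ hk, (mem_CS.1 c'.2).blk _ _ hk]
  · intro f
    refine ⟨⟨fun κ l => if h : κ.1 = l.1 then f l.1 (Sym2.mk (h ▸ κ.2) l.2) else 0, mem_CS.2
      ⟨?_, ?_⟩⟩, ?_⟩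
    · rintro ⟨k, a⟩ ⟨k', b⟩
      by_cases h : k = k'
      · obtain rfl := h
        simp only [dif_pos]
        rw [Sym2.eq_swap]
      · rw [dif_neg h, dif_neg (Ne.symm h)]
    · intro κ l h
      exact dif_neg h
    · funext k
      ext p
      induction p using Sym2.ind with
      | _ a b => simp
end Q283.FS
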