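import Pool.Agent.Q283.FS.Cnd

/-!
Maximal totally singular subspaces of the space of the labels.
-/

set_option autoImplicit false
set_option linter.all false

open scoped Classical

namespace Q283.FS

open Finset Module
open Pool.Agent.Y164.PS

variable {K : Type} [Fintype K]

/-- the space of the labels -/
abbrev Lb (K : Type) : Type := (K → W) × (K → W)

/-- the polar form -/
noncomputable def BL (K : Type) [Fintype K] : LinearMap.BilinForm F2 (Lb K) :=
  LinearMap.mk₂ F2 (fun X Y => br X.1 Y.2 + br Y.1 X.2)
    (fun a b c => by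
      simp only [Prod.fst_add, Prod.snd_add, br_add_left, br_add_right]; ring)
    (fun c a b => by
      rcases F2_cases c with rfl | rfl
      · have z1 : ∀ y : K → W, br 0 y = 0 := fun y => by
          rw [br_eq]; simp only [Pi.zero_apply, om_zero_left, sum_const_zero]
        have z2 : ∀ y : K → W, br y 0 = 0 := fun y => by rw [br_comm, z1]
        simp only [zero_smul, Prod.fst_zero, Prod.snd_zero, z1, z2, add_zero]
      · simp only [one_smul])
    (fun a b c => by
      simp only [Prod.fst_add, Prod.snd_add, br_add_left, br_add_right]; ring)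
    (fun c a b => by
      rcases F2_cases c with rfl | rfl
      · have z1 : ∀ y : K → W, br 0 y = 0 := fun y => by
          rw [br_eq]; simp only [Pi.zero_apply, om_zero_left, sum_const_zero]
        have z2 : ∀ y : K → W, br y 0 = 0 := fun y => by rw [br_comm, z1]
        simp only [zero_smul, Prod.fst_zero, Prod.snd_zero, z1, z2, add_zero]
      · simp only [one_smul])

theorem BL_apply (X Y : Lb K) : BL K X Y = br X.1 Y.2 + br Y.1 X.2 := rfl

theorem BL_add_left (X Y Z : Lb K) : BL K (X + Y) Z = BL K X Z + BL K Y Z := by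
  rw [map_add]; rfl

theorem BL_add_right (X Y Z : Lb K) : BL K Z (X + Y) = BL K Z X + BL K Z Y := map_add _ _ _

theorem BL_smul_left (c : F2) (X Z : Lb K) : BL K (c • X) Z = c • BL K X Z := by
  rw [map_smul]; rfl

theorem BL_smul_right (c : F2) (X Z : Lb K) : BL K Z (c • X) = c • BL K Z X := map_smul _ _ _

theorem BL_comm (X Y : Lb K) : BL K X Y = BL K Y X := by
  rw [BL_apply, BL_apply, add_comm]

theorem br_zero_right (y : K → W) : br y 0 = 0 := by
  rw [br_eq]; simp only [Pi.zero_apply, om_zero_right, sum_const_zero]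

theorem br_zero_left (y : K → W) : br 0 y = 0 := by rw [br_comm, br_zero_right]

theorem BL_sep (X : Lb K) (h : ∀ Y, BL K X Y = 0) : X = 0 := by
  refine Prod.ext ?_ ?_
  · apply br_nd
    intro a
    have := h (0, a)
    rw [BL_apply, br_zero_left, add_zero] at this
    rw [br_comm]; exact this
  · apply br_nd
    intro a
    have := h (a, 0)
    rw [BL_apply, br_zero_right, zero_add] at this
    exact this

theorem BL_nd : (BL K).Nondegenerate :=
  ⟨fun X h => BL_sep X h, fun X h => BL_sep X fun Y => by rw [BL_comm]; exact h Y⟩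

/-- the quadratic form -/
def qL (X : Lb K) : F2 := br X.1 X.2

theorem qL_add (X Y : Lb K) : qL (X + Y) = qL X + qL Y + BL K X Y := by
  rw [BL_apply]
  simp only [qL, Prod.fst_add, Prod.snd_add, br_add_left, br_add_right]
  ring

theorem Lb_self (X : Lb K) : X + X = 0 := Prod.ext (KW_self _) (KW_self _)

theorem finrank_Lb : 2 ^ finrank F2 (Lb K) = Fintype.card (K → W) ^ 2 := by
  have h := Module.card_eq_pow_finrank (K := F2) (V := Lb K)
  rw [ZMod.card] at h
  rw [← h, Fintype.card_prod, sq]

theorem card_KW [DecidableEq K] : Fintype.card (K → W) = 2 ^ (2 * Fintype.card K) := by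
  rw [Fintype.card_fun, Fintype.card_prod, ZMod.card, pow_mul]
  norm_num

theorem fr_Lb : finrank F2 (Lb K) = 2 * (2 * Fintype.card K) := by
  have h := finrank_Lb (K := K)
  rw [card_KW, ← pow_mul] at h
  have h2 := Nat.pow_right_injective (le_refl 2) h
  rw [h2]; ring

/-- a large set of labels with singular differences is a coset of a maximal totally singular
subspace -/
theorem lagr {J : Type} [Fintype J] (X : J → Lb K) (hX : ∀ i j, qL (X i + X j) = 0)
    (hbig0 : 2 ^ (2 * Fintype.card K) ≤ (univ.image X).card) :
    ∃ T : Submodule F2 (Lb K), (∀ t, (∀ t' ∈ T, BL K t t' = 0) ↔ t ∈ T) ∧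
      (∀ i, ∀ t ∈ T, ∃ j, X j = X i + t) ∧ (∀ i j, X i + X j ∈ T) := by
  have hbig : Fintype.card (K → W) ≤ (univ.image X).card := by rw [card_KW]; exact hbig0
  have hJ : Nonempty J := by
    by_contra h
    rw [not_nonempty_iff] at h
    have : (univ : Finset J) = ∅ := univ_eq_empty
    rw [this, image_empty, card_empty] at hbig
    have h2 : 0 < Fintype.card (K → W) := Fintype.card_pos
    omega
  obtain ⟨i0⟩ := hJ
  set g : J → Lb K := fun i => X i + X i0 with hg
  set T : Submodule F2 (Lb K) := Submodule.span F2 (Set.range g) with hT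
  have hgg : ∀ i j, BL K (g i) (g j) = 0 := by
    intro i j
    have h1 := qL_add (g i) (g j)
    have h2 : g i + g j = X i + X j := by
      show X i + X i0 + (X j + X i0) = _
      have := Lb_self (X i0)
      calc X i + X i0 + (X j + X i0) = X i + X j + (X i0 + X i0) := by abel
        _ = _ := by rw [this, add_zero]
    rw [h2, hX] at h1
    have h3 : qL (g i) = 0 := hX i i0
    have h4 : qL (g j) = 0 := hX j i0
    rw [h3, h4, zero_add, zero_add] at h1
    exact h1.symm
  have hiso : ∀ t ∈ T, ∀ t' ∈ T, BL K t t' = 0 := by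
    intro t ht
    have h1 : ∀ j, BL K t (g j) = 0 := by
      intro j
      refine Submodule.span_induction ?_ ?_ ?_ ?_ ht
      · rintro _ ⟨i, rfl⟩
        exact hgg i j
      · rw [map_zero]; rfl
      · intro x y _ _ hx hy
        rw [BL_add_left, hx, hy, add_zero]
      · intro c x _ hx
        rw [BL_smul_left, hx, smul_zero]
    intro t' ht'
    refine Submodule.span_induction ?_ ?_ ?_ ?_ ht'
    · rintro _ ⟨i, rfl⟩
      exact h1 i
    · exact map_zero _
    · intro x y _ _ hx hy
      rw [BL_add_right, hx, hy, add_zero]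
    · intro c x _ hx
      rw [BL_smul_right, hx, smul_zero]
  have hle : T ≤ (BL K).orthogonal T := by
    intro t ht
    rw [LinearMap.BilinForm.mem_orthogonal_iff]
    intro n hn
    exact hiso n hn t ht
  have hfr := LinearMap.BilinForm.finrank_orthogonal (BL_nd (K := K)) T
  have hfle := Submodule.finrank_mono hle
  rw [hfr, fr_Lb] at hfle
  have hcT : Fintype.card T = 2 ^ finrank F2 T := by
    have h := Module.card_eq_pow_finrank (K := F2) (V := T)
    rw [ZMod.card] at h
    exact h
  have him : univ.image X ⊆ (univ : Finset T).image fun t => X i0 + t.1 := by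
    intro Y hY
    obtain ⟨i, -, rfl⟩ := mem_image.1 hY
    refine mem_image.2 ⟨⟨g i, Submodule.subset_span ⟨i, rfl⟩⟩, mem_univ _, ?_⟩
    show X i0 + (X i + X i0) = X i
    have := Lb_self (X i0)
    calc X i0 + (X i + X i0) = X i + (X i0 + X i0) := by abel
      _ = _ := by rw [this, add_zero]
  have hle2 : finrank F2 T ≤ 2 * Fintype.card K := by omega
  have hc1 : (univ.image fun t : T => X i0 + t.1).card ≤ Fintype.card T :=
    card_image_le.trans (le_of_eq card_univ)
  have hc2 : Fintype.card T ≤ Fintype.card (K → W) := by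
    rw [hcT, card_KW]
    exact Nat.pow_le_pow_right (by norm_num) hle2
  have heq : univ.image X = (univ : Finset T).image fun t => X i0 + t.1 :=
    eq_of_subset_of_card_le him (hc1.trans (hc2.trans hbig))
  have hfrT : finrank F2 T = 2 * Fintype.card K := by
    have h1 : Fintype.card (K → W) ≤ Fintype.card T := hbig.trans ((card_le_card him).trans hc1)
    rw [hcT, card_KW] at h1
    have := (Nat.pow_le_pow_iff_right (by norm_num : 1 < 2)).1 h1
    omega
  have hTT : (BL K).orthogonal T = T := by
    symm
    apply Submodule.eq_of_le_of_finrank_eq hle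
    rw [hfr, fr_Lb, hfrT]
    omega
  have hX0 : ∀ i, X i + X i0 ∈ T := fun i => Submodule.subset_span ⟨i, rfl⟩
  have hij : ∀ i j, X i + X j ∈ T := by
    intro i j
    have : X i + X j = (X i + X i0) + (X j + X i0) := by
      have := Lb_self (X i0)
      calc X i + X j = X i + X j + (X i0 + X i0) := by rw [this, add_zero]
        _ = _ := by abel
    rw [this]
    exact add_mem (hX0 i) (hX0 j)
  refine ⟨T, fun t => ⟨fun h => ?_, fun h => hiso t h⟩, fun i t ht => ?_, hij⟩
  · rw [← hTT, LinearMap.BilinForm.mem_orthogonal_iff]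
    intro n hn
    show BL K n t = 0
    rw [BL_comm]
    exact h n hn
  · have h1 : X i0 + (X i + X i0 + t) ∈ univ.image X := by
      rw [heq]
      exact mem_image.2 ⟨⟨_, add_mem (hX0 i) ht⟩, mem_univ _, rfl⟩
    obtain ⟨j, -, hj⟩ := mem_image.1 h1
    refine ⟨j, ?_⟩
    rw [hj]
    have := Lb_self (X i0)
    calc X i0 + (X i + X i0 + t) = X i + t + (X i0 + X i0) := by abel
      _ = _ := by rw [this, add_zero]

end Q283.FS
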