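import Pool.Agent.Q283.FS.Gnr
import Pool.Agent.Q283.FS.Lgr

/-!
The tuples which are not generic.
-/

set_option autoImplicit false
set_option linter.all false

open scoped Classical

namespace Q283.FS

open Finset Module
open Pool.Agent.Y164.PS

theorem W_repr (f : W → F2) (h : ∀ x y, f (x + y) = f x + f y) (x : W) :
    f x = om x (f (0, 1), f (1, 0)) := by
  have h0 : f 0 = 0 := by
    have := h 0 0
    rw [add_zero] at this
    have h2 := F2_add_self (f 0)
    rw [this]; exact h2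
  have key : ∀ x : W, x = 0 ∨ x = (0, 1) ∨ x = (1, 0) ∨ x = (0, 1) + (1, 0) := by decide
  rcases key x with rfl | rfl | rfl | rfl
  · rw [h0, om_zero_left]
  · simp [om]
  · simp [om]
  · rw [h]
    simp [om]
    ring

variable {J υ τ : Type} [Fintype J] [Fintype υ] [Fintype τ] [LinearOrder J]
variable {M : ℕ} {jj : Fin M → ℕ}
variable (Md : Mdl J υ τ) (Um : Fin M → Finset υ)

theorem ml2 {w w' : Kx jj → V (J ⊕ υ) τ} {Uf : τ → F2}
    (hU : Function.Injective Um) (hG : ∀ u : W, u ≠ 0 → ∃ s, om u (Md.D.t s) ≠ 0)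
    (hN : ∀ k, ∑ p, dd Md (Um k) p + Md.D.N = 1)
    (hw : ∀ κ, w κ ∈ SU Md (Um κ.1)) (hc : Cond Md Um w w' Uf)
    (hbig : 2 ^ (2 * Fintype.card (Kx jj)) ≤ (univ.image fun i : J => ((la w i, la w' i) : Lb (Kx jj))).card) :
    (∀ ξ : Kx jj → W, ∃ i : J, la w i = ξ) ∨
      ∃ (k : Fin M) (c : Fin (jj k) → F2), c ≠ 0 ∧ ∑ a, c a • w ⟨k, a⟩ = 0 := by
  set X : J → Lb (Kx jj) := fun i => (la w i, la w' i) with hX
  obtain ⟨T, hperp, hcos, hdiff⟩ := lagr X (fun i j => hc.c1 i j) hbig
  have hJ : Nonempty J := by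
    by_contra h
    rw [not_nonempty_iff] at h
    have : (univ : Finset J) = ∅ := univ_eq_empty
    rw [this, image_empty, card_empty] at hbig
    have h2 : 0 < 2 ^ (2 * Fintype.card (Kx jj)) := by positivity
    omega
  obtain ⟨i0⟩ := hJ
  by_contra hcon
  push Not at hcon
  obtain ⟨⟨ξ0, hξ0⟩, hind⟩ := hcon
  -- the operators
  have hP : ∀ u, ∀ t ∈ T, ((fun κ => ind Um jj u κ • t.1 κ, fun κ => ind Um jj u κ • t.2 κ) :
      Lb (Kx jj)) ∈ T := by
    intro u t ht
    rw [← hperp]
    intro t' ht'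
    obtain ⟨j1, h1⟩ := hcos i0 t ht
    obtain ⟨j2, h2⟩ := hcos i0 t' ht'
    obtain ⟨j3, h3⟩ := hcos i0 (t + t') (add_mem ht ht')
    have e0 := hc.c2 i0 u
    have e1 := hc.c2 j1 u
    have e2 := hc.c2 j2 u
    have e3 := hc.c2 j3 u
    have a1 : la w j1 = la w i0 + t.1 := congrArg Prod.fst h1
    have b1 : la w' j1 = la w' i0 + t.2 := congrArg Prod.snd h1
    have a2 : la w j2 = la w i0 + t'.1 := congrArg Prod.fst h2
    have b2 : la w' j2 = la w' i0 + t'.2 := congrArg Prod.snd h2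
    have a3 : la w j3 = la w i0 + (t.1 + t'.1) := congrArg Prod.fst h3
    have b3 : la w' j3 = la w' i0 + (t.2 + t'.2) := congrArg Prod.snd h3
    rw [a1, b1] at e1
    rw [a2, b2] at e2
    rw [a3, b3] at e3
    simp only [brx_add_left, brx_add_right] at e0 e1 e2 e3
    have h4 : BL (Kx jj) (fun κ => ind Um jj u κ • t.1 κ, fun κ => ind Um jj u κ • t.2 κ) t' =
        brx (ind Um jj u) t.1 t'.2 + brx (ind Um jj u) t'.1 t.2 := by
      rw [BL_apply, br_eq, br_eq]
      unfold brx
      congr 1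
      · exact sum_congr rfl fun κ _ => om_smul_left _ _ _
      · exact sum_congr rfl fun κ _ => om_smul_right _ _ _
    rw [h4]
    linear_combination e3 - e1 - e2 + e0
  have hR : ∀ s, ∀ t ∈ T, ((fun κ => om (t.1 κ) (Md.D.t s) • Md.D.t s,
      fun κ => om (t.2 κ) (Md.D.t s) • Md.D.t s) : Lb (Kx jj)) ∈ T := by
    intro s t ht
    rw [← hperp]
    intro t' ht'
    obtain ⟨j1, h1⟩ := hcos i0 t ht
    obtain ⟨j2, h2⟩ := hcos i0 t' ht'
    obtain ⟨j3, h3⟩ := hcos i0 (t + t') (add_mem ht ht')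
    have e0 := hc.c3 i0 s
    have e1 := hc.c3 j1 s
    have e2 := hc.c3 j2 s
    have e3 := hc.c3 j3 s
    have a1 : la w j1 = la w i0 + t.1 := congrArg Prod.fst h1
    have b1 : la w' j1 = la w' i0 + t.2 := congrArg Prod.snd h1
    have a2 : la w j2 = la w i0 + t'.1 := congrArg Prod.fst h2
    have b2 : la w' j2 = la w' i0 + t'.2 := congrArg Prod.snd h2
    have a3 : la w j3 = la w i0 + (t.1 + t'.1) := congrArg Prod.fst h3
    have b3 : la w' j3 = la w' i0 + (t.2 + t'.2) := congrArg Prod.snd h3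
    rw [a1, b1] at e1
    rw [a2, b2] at e2
    rw [a3, b3] at e3
    simp only [ee, Pi.add_apply, om_add_left, om_add_right, mul_add, add_mul,
      sum_add_distrib] at e0 e1 e2 e3
    have h4 : BL (Kx jj) (fun κ => om (t.1 κ) (Md.D.t s) • Md.D.t s,
        fun κ => om (t.2 κ) (Md.D.t s) • Md.D.t s) t' =
        ∑ κ, om (t.1 κ) (Md.D.t s) * om (t'.2 κ) (Md.D.t s) +
        ∑ κ, om (t'.1 κ) (Md.D.t s) * om (t.2 κ) (Md.D.t s) := by
      rw [BL_apply, br_eq, br_eq]
      congr 1
      · refine sum_congr rfl fun κ _ => ?_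
        rw [om_smul_left, om_comm (Md.D.t s)]
      · refine sum_congr rfl fun κ _ => ?_
        rw [om_smul_right, mul_comm]
    rw [h4]
    linear_combination e3 - e1 - e2 + e0
  -- the projection is not surjective
  have hlt : T.map (LinearMap.fst F2 (Kx jj → W) (Kx jj → W)) < ⊤ := by
    rw [lt_top_iff_ne_top]
    intro htop
    have h1 : la w i0 + ξ0 ∈ T.map (LinearMap.fst F2 (Kx jj → W) (Kx jj → W)) := by
      rw [htop]; trivial
    obtain ⟨t, ht, h2⟩ := h1
    obtain ⟨j, hj⟩ := hcos i0 t ht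
    apply hξ0 j
    have h3 : la w j = la w i0 + t.1 := congrArg Prod.fst hj
    have h4 : t.1 = la w i0 + ξ0 := h2
    rw [h3, h4, ← add_assoc, KW_self, zero_add]
  obtain ⟨f, hf0, hfker⟩ := Submodule.exists_le_ker_of_lt_top _ hlt
  obtain ⟨ζ, hζ⟩ : ∃ ζ : Kx jj → W, ζ = fun κ => (f (Pi.single κ (0, 1)), f (Pi.single κ (1, 0))) :=
    ⟨_, rfl⟩
  have hfζ : ∀ x, f x = br x ζ := by
    intro x
    conv_lhs => rw [← Finset.univ_sum_single x]
    rw [map_sum, br_eq]
    refine sum_congr rfl fun κ _ => ?_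
    rw [hζ]
    exact W_repr (fun y => f (Pi.single κ y)) (fun a b => by
      show f (Pi.single κ (a + b)) = _
      rw [Pi.single_add, map_add]) (x κ)
  have hζ0 : ζ ≠ 0 := by
    intro h
    apply hf0
    refine LinearMap.ext fun x => ?_
    rw [hfζ, h, br_zero_right]
    rfl
  have hζT : ((0, ζ) : Lb (Kx jj)) ∈ T := by
    rw [← hperp]
    intro t' ht'
    rw [BL_apply, br_zero_left, zero_add, ← hfζ]
    exact hfker ⟨t', ht', rfl⟩
  obtain ⟨κ0, hκ0⟩ : ∃ κ, ζ κ ≠ 0 := by
    by_contra h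
    push Not at h
    exact hζ0 (funext h)
  -- isolate a block
  have hiso : ∀ L : Finset (Fin M), κ0.1 ∉ L → ∃ ζ' : Kx jj → W, ((0, ζ') : Lb (Kx jj)) ∈ T ∧
      (∀ κ, κ.1 = κ0.1 → ζ' κ = ζ κ) ∧ ∀ κ, κ.1 ∈ L → ζ' κ = 0 := by
    intro L
    induction L using Finset.induction_on with
    | empty =>
      intro _
      exact ⟨ζ, hζT, fun _ _ => rfl, fun κ h => absurd h (notMem_empty _)⟩
    | insert l L hl ih =>
      intro hk
      rw [mem_insert] at hk
      push Not at hk
      obtain ⟨ζ', h1, h2, h3⟩ := ih hk.2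
      have hne : Um κ0.1 ≠ Um l := fun h => hk.1 (hU h)
      obtain ⟨u, hu⟩ : ∃ u, ¬ (u ∈ Um κ0.1 ↔ u ∈ Um l) := by
        by_contra h
        push Not at h
        exact hne (Finset.ext h)
      have hPζ := hP u _ h1
      have hz : ((fun κ => ind Um jj u κ • ((0, ζ') : Lb (Kx jj)).1 κ,
          fun κ => ind Um jj u κ • ((0, ζ') : Lb (Kx jj)).2 κ) : Lb (Kx jj)) =
          (0, fun κ => ind Um jj u κ • ζ' κ) := by
        refine Prod.ext ?_ rfl
        funext κ
        show ind Um jj u κ • (0 : W) = 0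
        exact smul_zero _
      rw [hz] at hPζ
      by_cases g1 : u ∈ Um κ0.1
      · have g2 : u ∉ Um l := fun h => hu (iff_of_true g1 h)
        refine ⟨_, hPζ, fun κ hκ => ?_, fun κ hκ => ?_⟩
        · show ind Um jj u κ • ζ' κ = _
          unfold ind
          rw [hκ, if_pos g1, one_smul, h2 κ hκ]
        · show ind Um jj u κ • ζ' κ = _
          rcases mem_insert.1 hκ with h | h
          · unfold ind
            rw [h, if_neg g2, zero_smul]
          · rw [h3 κ h, smul_zero]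
      · have g2 : u ∈ Um l := by
          by_contra h
          exact hu (iff_of_false g1 h)
        refine ⟨_, add_mem h1 hPζ, fun κ hκ => ?_, fun κ hκ => ?_⟩
        · show ζ' κ + ind Um jj u κ • ζ' κ = _
          unfold ind
          rw [hκ, if_neg g1, zero_smul, add_zero, h2 κ hκ]
        · show ζ' κ + ind Um jj u κ • ζ' κ = _
          rcases mem_insert.1 hκ with h | h
          · unfold ind
            rw [h, if_pos g2, one_smul, W_add_self]
          · rw [h3 κ h, smul_zero, add_zero]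
  obtain ⟨ζ', z1, z2, z3⟩ := hiso (univ.erase κ0.1) (notMem_erase _ _)
  have z4 : ∀ κ : Kx jj, κ.1 ≠ κ0.1 → ζ' κ = 0 := fun κ h =>
    z3 κ (mem_erase.2 ⟨h, mem_univ _⟩)
  obtain ⟨s, hs⟩ := hG (ζ' κ0) (by rw [z2 κ0 rfl]; exact hκ0)
  have hts : Md.D.t s ≠ 0 := by
    intro h
    rw [h, om_zero_right] at hs
    exact hs rfl
  obtain ⟨s', hs'⟩ := hG _ hts
  obtain ⟨c, hcd⟩ : ∃ c : Kx jj → F2, c = fun κ => om (ζ' κ) (Md.D.t s) := ⟨_, rfl⟩
  have hcc : ∀ κ, c κ = om (ζ' κ) (Md.D.t s) := fun κ => by rw [hcd]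
  have hcoff : ∀ κ : Kx jj, κ.1 ≠ κ0.1 → c κ = 0 := by
    intro κ h
    rw [hcc, z4 κ h, om_zero_left]
  have hc0 : c κ0 = 1 := F2_ne1 (by rw [hcc]; exact hs)
  have m1 : ((0, fun κ => c κ • Md.D.t s) : Lb (Kx jj)) ∈ T := by
    have h := hR s _ z1
    have e : ((fun κ => om (((0, ζ') : Lb (Kx jj)).1 κ) (Md.D.t s) • Md.D.t s,
      fun κ => om (((0, ζ') : Lb (Kx jj)).2 κ) (Md.D.t s) • Md.D.t s) : Lb (Kx jj)) =
        (0, fun κ => c κ • Md.D.t s) := by
      refine Prod.ext ?_ ?_
      · funext κ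
        show om (0 : W) (Md.D.t s) • Md.D.t s = 0
        rw [om_zero_left, zero_smul]
      · funext κ
        show om (ζ' κ) (Md.D.t s) • Md.D.t s = c κ • Md.D.t s
        rw [hcc]
    rw [e] at h
    exact h
  have m2 : ((0, fun κ => c κ • Md.D.t s') : Lb (Kx jj)) ∈ T := by
    have h := hR s' _ m1
    have e : ((fun κ => om (((0, fun κ => c κ • Md.D.t s) : Lb (Kx jj)).1 κ) (Md.D.t s') • Md.D.t s',
      fun κ => om (((0, fun κ => c κ • Md.D.t s) : Lb (Kx jj)).2 κ) (Md.D.t s') • Md.D.t s') :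
        Lb (Kx jj)) = (0, fun κ => c κ • Md.D.t s') := by
      refine Prod.ext ?_ ?_
      · funext κ
        show om (0 : W) (Md.D.t s') • Md.D.t s' = 0
        rw [om_zero_left, zero_smul]
      · funext κ
        show om (c κ • Md.D.t s) (Md.D.t s') • Md.D.t s' = c κ • Md.D.t s'
        rw [om_smul_left, F2_ne1 hs', mul_one]
    rw [e] at h
    exact h
  have m3 : ∀ z : W, ((0, fun κ => c κ • z) : Lb (Kx jj)) ∈ T := by
    intro z
    have h12 : om (Md.D.t s) (Md.D.t s') = 1 := F2_ne1 hs'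
    have h := add_mem (T.smul_mem (om z (Md.D.t s')) m1) (T.smul_mem (om z (Md.D.t s)) m2)
    have e : (om z (Md.D.t s') • ((0, fun κ => c κ • Md.D.t s) : Lb (Kx jj)) +
        om z (Md.D.t s) • ((0, fun κ => c κ • Md.D.t s') : Lb (Kx jj))) =
        (0, fun κ => c κ • z) := by
      refine Prod.ext ?_ ?_
      · show om z (Md.D.t s') • (0 : Kx jj → W) + om z (Md.D.t s) • (0 : Kx jj → W) = 0
        rw [smul_zero, smul_zero, add_zero]
      · funext κ
        show om z (Md.D.t s') • (c κ • Md.D.t s) + om z (Md.D.t s) • (c κ • Md.D.t s') = c κ • z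
        conv_rhs => rw [W_vec2 (Md.D.t s) (Md.D.t s') z h12]
        rw [smul_add, smul_comm (c κ), smul_comm (c κ)]
    rw [e] at h
    exact h
  -- the combination
  set v : V (J ⊕ υ) τ := ∑ κ, c κ • w κ with hv
  have hv1 : ∀ p, v.1 p = ∑ κ, c κ • (w κ).1 p := by
    intro p
    rw [hv, Prod.fst_sum, Finset.sum_apply]
    rfl
  have hv2 : ∀ s, v.2 s = ∑ κ, c κ * (w κ).2 s := by
    intro s
    rw [hv, Prod.snd_sum, Finset.sum_apply]
    rfl
  have hvm : v ∈ SU Md (Um κ0.1) := by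
    refine sum_mem fun κ _ => ?_
    by_cases h : κ.1 = κ0.1
    · rw [← h]
      exact (SU Md (Um κ.1)).smul_mem _ (hw κ)
    · rw [hcoff κ h, zero_smul]
      exact zero_mem _
  obtain ⟨β, hβ⟩ : ∃ β, β = v.1 (Sum.inl i0) := ⟨_, rfl⟩
  have va : ∀ i : J, v.1 (Sum.inl i) = β := by
    intro i
    apply W_eq
    apply eq_zero_of_om
    intro z
    have h1 := (hperp _).2 (hdiff i i0) _ (m3 z)
    rw [BL_apply] at h1
    have h2 : br ((X i + X i0).1) (fun κ => c κ • z) = 0 := by
      rw [br_zero_left, add_zero] at h1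
      exact h1
    rw [br_eq] at h2
    rw [hβ, hv1, hv1, ← sum_add_distrib, om_sum_left, ← h2]
    refine sum_congr rfl fun κ _ => ?_
    show om (c κ • la w i κ + c κ • la w i0 κ) z = om (la w i κ + la w i0 κ) (c κ • z)
    rw [← smul_add, om_smul_left, om_smul_right]
  have vu : ∀ u ∈ Um κ0.1, v.1 (Sum.inr u) = β := by
    intro u hu
    apply W_eq
    apply eq_zero_of_om
    intro z
    obtain ⟨j, hj⟩ := hcos i0 _ (m3 z)
    have a1 : la w j = la w i0 := by
      have := congrArg Prod.fst hj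
      have h2 : la w j = la w i0 + 0 := this
      rw [h2, add_zero]
    have b1 : la w' j = la w' i0 + fun κ => c κ • z := congrArg Prod.snd hj
    have e0 := hc.c2 i0 u
    have e1 := hc.c2 j u
    rw [a1, b1] at e1
    have e2 : la w' i0 + (fun κ => c κ • z) + lu w' u = (la w' i0 + lu w' u) + fun κ => c κ • z := by
      abel
    rw [e2, brx_add_right, e0, zero_add] at e1
    rw [hβ, hv1, hv1, ← sum_add_distrib, om_sum_left, ← e1]
    unfold brx
    refine sum_congr rfl fun κ _ => ?_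
    show om (c κ • lu w u κ + c κ • la w i0 κ) z =
      ind Um jj u κ * om (la w i0 κ + lu w u κ) (c κ • z)
    rw [← smul_add, om_smul_left, om_smul_right, add_comm (lu w u κ)]
    by_cases h : κ.1 = κ0.1
    · have : ind Um jj u κ = 1 := by
        unfold ind
        rw [h, if_pos hu]
      rw [this, one_mul]
    · rw [hcoff κ h, zero_mul, mul_zero]
  have vs : ∀ s, Md.D.t s ≠ 0 → v.2 s = om β (Md.D.t s) := by
    intro s hs
    obtain ⟨z, hz⟩ := W_ex _ hs
    obtain ⟨j, hj⟩ := hcos i0 _ (m3 z)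
    have a1 : la w j = la w i0 := by
      have := congrArg Prod.fst hj
      have h2 : la w j = la w i0 + 0 := this
      rw [h2, add_zero]
    have b1 : ∀ κ, la w' j κ = la w' i0 κ + c κ • z := fun κ => by
      have := congrArg Prod.snd hj
      have h2 : la w' j = la w' i0 + fun κ => c κ • z := this
      rw [h2]; rfl
    have e0 := hc.c3 i0 s
    have e1 := hc.c3 j s
    rw [a1] at e1
    simp only [ee, b1, om_add_left, om_add_right, mul_add, sum_add_distrib, om_smul_left,
      om_smul_right, hz, mul_one, om_comm (Md.D.t s) z] at e0 e1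
    have e2 : ∑ κ, om (la w i0 κ) (Md.D.t s) * c κ + ∑ κ, ls w s κ * c κ = 0 := by
      linear_combination e1 - e0
    have e3 : om β (Md.D.t s) + v.2 s = 0 := by
      rw [hβ, hv1, hv2, om_sum_left, ← e2]
      congr 1
      · refine sum_congr rfl fun κ _ => ?_
        show om (c κ • la w i0 κ) _ = _
        rw [om_smul_left, mul_comm]
      · refine sum_congr rfl fun κ _ => ?_
        show c κ * ls w s κ = _
        rw [mul_comm]
    exact (F_eq e3).symm
  have hβ0 : β = 0 := by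
    have h1 := hvm.1.1
    have h2 : dg Md.D (dd Md (Um κ0.1)) v = dg Md.D (dd Md (Um κ0.1)) (TT Md.D β) := by
      unfold dg
      congr 1
      · refine sum_congr rfl fun p _ => ?_
        rcases p with i | u
        · rw [va]; rfl
        · by_cases hu : u ∈ Um κ0.1
          · rw [vu u hu]; rfl
          · have : dd Md (Um κ0.1) (Sum.inr u) = 0 := if_neg hu
            rw [this, zero_smul, zero_smul]
      · refine sum_congr rfl fun s _ => ?_
        by_cases hs : Md.D.t s = 0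
        · rw [hs, smul_zero, smul_zero]
        · rw [vs s hs]; rfl
    rw [h1, dg_TT, hN, one_smul] at h2
    exact h2.symm
  have hv0 : v = 0 := by
    refine Prod.ext ?_ ?_
    · funext p
      rcases p with i | u
      · rw [va, hβ0]; rfl
      · by_cases hu : u ∈ Um κ0.1
        · rw [vu u hu, hβ0]; rfl
        · exact hvm.2 u hu
    · funext s
      by_cases hs : Md.D.t s = 0
      · exact hvm.1.2 s hs
      · rw [vs s hs, hβ0, om_zero_left]; rfl
  apply hind κ0.1 (fun a => c ⟨κ0.1, a⟩)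
  · intro h
    have := congrFun h κ0.2
    have h2 : c κ0 = 0 := this
    rw [hc0] at h2
    exact one_ne_zero h2
  · rw [← hv0, hv, Fintype.sum_sigma]
    symm
    apply sum_eq_single κ0.1
    · intro k _ hk
      apply sum_eq_zero
      intro a _
      rw [hcoff ⟨k, a⟩ hk, zero_smul]
    · intro h; exact absurd (mem_univ _) h

end Q283.FS
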