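import Pool.Agent.Y164.PS.Sel4

/-!
The points over finite fields give all classes.
-/

set_option autoImplicit false
set_option linter.all false

open scoped Classical

namespace Q283.FS

open Polynomial IsDedekindDomain WeierstrassCurve WeierstrassCurve.Affine
open Pool.Agent.TH115.GD Pool.Agent.Y164.PS

section ff

variable {κ : Type} [Field κ] [Finite κ] {α β : κ}

theorem fin_pt : Finite (Pt (crv α β) κ) := by
  let f : Pt (crv α β) κ → Option (κ × κ) := fun P => match P with
    | .zero => none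
    | .some x y _ => some (x, y)
  apply Finite.of_injective f
  intro P Q h
  rcases P with _ | ⟨x, y, hxy⟩ <;> rcases Q with _ | ⟨x', y', hxy'⟩
  · rfl
  · cases h
  · cases h
  · have h1 : (some (x, y) : Option (κ × κ)) = some (x', y') := h
    rw [Option.some.injEq, Prod.mk.injEq] at h1
    obtain ⟨rfl, rfl⟩ := h1
    rfl

theorem sqEq_one {x : κ} (hx : x ≠ 0) (h : IsSquare x) : SqEq x 1 := by
  obtain ⟨c, rfl⟩ := h
  exact ⟨c, fun h => hx (by rw [h, mul_zero]), by ring⟩

theorem ff_sol (h2 : (2 : κ) ≠ 0) (hα : α ≠ 0) (hβ : β ≠ 0) (hαβ : α ≠ β) {u0 u1 : κ} (n0 : u0 ≠ 0)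
    (n1 : u1 ≠ 0) : ∃ Q : Pt (crv α β) κ, SqEq u0 (d0 α β Q) ∧ SqEq u1 (d1 α β Q) := by
  haveI := Fintype.ofFinite κ
  haveI := fin_pt (α := α) (β := β)
  have hE := isE α β κ h2 hα hβ hαβ
  have m0 : ∀ Q : Pt (crv α β) κ, d0 α β Q ≠ 0 := fun Q => d0_ne hE Q
  have m1 : ∀ Q : Pt (crv α β) κ, d1 α β Q ≠ 0 := fun Q => d1_ne hE Q
  have hadd : ∀ P Q : Pt (crv α β) κ, ∃ c0 c1 : κ, c0 ≠ 0 ∧ c1 ≠ 0 ∧
      d0 α β (P + Q) = c0 ^ 2 * (d0 α β P * d0 α β Q) ∧
      d1 α β (P + Q) = c1 ^ 2 * (d1 α β P * d1 α β Q) := fun P Q =>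
    d_add (K := κ) (F := κ) (Ω := Sep κ) (crv α β) (isE α β (Sep κ) h2 hα hβ hαβ) P Q
  have chm : ∀ {c x y : κ}, c ≠ 0 → x ≠ 0 → y ≠ 0 → ch (c ^ 2 * (x * y)) = ch x + ch y := by
    intro c x y hc hx hy
    rw [ch_mul (pow_ne_zero 2 hc) (mul_ne_zero hx hy), ch_mul hx hy,
      (ch_eq_zero_iff (pow_ne_zero 2 hc)).2 ⟨c, pow_two c⟩, zero_add]
  let f : Pt (crv α β) κ → F2 × F2 := fun Q => (ch (d0 α β Q), ch (d1 α β Q))
  have hf : ∀ P Q, f (P + Q) = f P + f Q := by
    intro P Q
    obtain ⟨c0, c1, k0, k1, e0, e1⟩ := hadd P Q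
    refine Prod.ext ?_ ?_
    · show ch (d0 α β (P + Q)) = ch (d0 α β P) + ch (d0 α β Q)
      rw [e0, chm k0 (m0 P) (m0 Q)]
    · show ch (d1 α β (P + Q)) = ch (d1 α β P) + ch (d1 α β Q)
      rw [e1, chm k1 (m1 P) (m1 Q)]
  let φ : Pt (crv α β) κ →+ F2 × F2 := ⟨⟨f, by
    have h := hf 0 0
    rw [add_zero] at h
    exact left_eq_add.1 h⟩, hf⟩
  let dbl : Pt (crv α β) κ →+ Pt (crv α β) κ := ⟨⟨fun P => P + P, add_zero 0⟩, fun P Q =>
    add_add_add_comm P Q P Q⟩
  have hker : φ.ker ≤ dbl.range := by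
    intro Q hQ
    have h1 : f Q = 0 := hQ
    have h3 : ch (d0 α β Q) = 0 := congrArg Prod.fst h1
    have h4 : ch (d1 α β Q) = 0 := congrArg Prod.snd h1
    rw [ch_eq_zero_iff (m0 Q)] at h3
    rw [ch_eq_zero_iff (m1 Q)] at h4
    obtain ⟨R, hR⟩ := half_F (K := κ) (F := κ) h2 hα hβ hαβ Q (sqEq_one (m0 Q) h3)
      (sqEq_one (m1 Q) h4)
    exact ⟨R, hR⟩
  have c1 := φ.ker.card_mul_index
  rw [AddSubgroup.index_ker] at c1
  have c2 := dbl.ker.card_mul_index
  rw [AddSubgroup.index_ker] at c2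
  have c3 : Nat.card φ.ker ≤ Nat.card dbl.range :=
    Nat.card_le_card_of_injective (fun x => ⟨x.1, hker x.2⟩ : φ.ker → dbl.range)
      (fun x y h => Subtype.ext (congrArg (fun z : dbl.range => z.1) h))
  -- the points of order two
  have p0 : ((crv α β).baseChange κ).toAffine.Nonsingular 0 0 := hE.nonsingular.2 (by ring)
  have pa : ((crv α β).baseChange κ).toAffine.Nonsingular α 0 :=
    hE.nonsingular.2 (by rw [Algebra.algebraMap_self_apply]; ring)
  have pb : ((crv α β).baseChange κ).toAffine.Nonsingular β 0 :=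
    hE.nonsingular.2 (by rw [Algebra.algebraMap_self_apply, Algebra.algebraMap_self_apply]; ring)
  have t0 : (Point.some 0 0 p0 : Pt (crv α β) κ) + Point.some 0 0 p0 = 0 :=
    (add_self_eq_zero_iff hE p0).2 rfl
  have ta : (Point.some α 0 pa : Pt (crv α β) κ) + Point.some α 0 pa = 0 :=
    (add_self_eq_zero_iff hE pa).2 rfl
  have tb : (Point.some β 0 pb : Pt (crv α β) κ) + Point.some β 0 pb = 0 :=
    (add_self_eq_zero_iff hE pb).2 rfl
  let g : Option (Option (Option Unit)) → dbl.ker := fun o => match o with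
    | none => 0
    | some none => ⟨Point.some 0 0 p0, t0⟩
    | some (some none) => ⟨Point.some α 0 pa, ta⟩
    | some (some (some _)) => ⟨Point.some β 0 pb, tb⟩
  let h : Pt (crv α β) κ → Option κ := fun P => match P with
    | .zero => none
    | .some x _ _ => some x
  have hg : Function.Injective g := by
    have e : Function.Injective (fun o => h (g o).1) := by
      intro o o' hoo
      have e0 : h (g none).1 = none := rfl
      have e1 : h (g (some none)).1 = some 0 := rfl
      have e2 : h (g (some (some none))).1 = some α := rfl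
      have e3 : h (g (some (some (some ())))).1 = some β := rfl
      have hoo' : h (g o).1 = h (g o').1 := hoo
      rcases o with _ | _ | _ | u <;> rcases o' with _ | _ | _ | u' <;>
        simp only [e0, e1, e2, e3, reduceCtorEq, Option.some.injEq] at hoo' <;>
        first
        | rfl
        | exact absurd hoo'.symm hα
        | exact absurd hoo' hα
        | exact absurd hoo'.symm hβ
        | exact absurd hoo' hβ
        | exact absurd hoo' hαβ
        | exact absurd hoo'.symm hαβ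
    intro o o' hoo
    exact e (congrArg (fun z : dbl.ker => h z.1) hoo)
  have c4 : 4 ≤ Nat.card dbl.ker := by
    have := Nat.card_le_card_of_injective g hg
    simpa using this
  have c5 : 4 ≤ Nat.card φ.range := by
    have p1 : 0 < Nat.card φ.ker := Nat.card_pos
    have p2 : 0 < Nat.card dbl.range := Nat.card_pos
    have e : Nat.card φ.ker * Nat.card φ.range = Nat.card dbl.ker * Nat.card dbl.range := c1.trans c2.symm
    by_contra hlt
    have h1 : Nat.card φ.ker * Nat.card φ.range ≤ Nat.card dbl.range * 3 :=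
      Nat.mul_le_mul c3 (by omega)
    have h3 : 4 * Nat.card dbl.range ≤ Nat.card dbl.ker * Nat.card dbl.range :=
      Nat.mul_le_mul_right _ c4
    omega
  have c6 : Nat.card (F2 × F2) = 4 := by
    rw [Nat.card_eq_fintype_card, Fintype.card_prod, ZMod.card]
  have htop : φ.range = ⊤ := by
    apply AddSubgroup.eq_top_of_card_eq
    apply le_antisymm
    · exact Nat.card_le_card_of_injective (fun x => x.1 : φ.range → F2 × F2) Subtype.val_injective
    · rw [c6]
      exact c5
  obtain ⟨Q, hQ⟩ : ∃ Q, φ Q = (ch u0, ch u1) := by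
    have : (ch u0, ch u1) ∈ φ.range := by rw [htop]; exact AddSubgroup.mem_top _
    exact this
  have q0 : ch (d0 α β Q) = ch u0 := congrArg Prod.fst hQ
  have q1 : ch (d1 α β Q) = ch u1 := congrArg Prod.snd hQ
  have fin : ∀ {x y : κ}, x ≠ 0 → y ≠ 0 → ch y = ch x → SqEq x y := by
    intro x y hx hy e
    have h1 : ch (x * y) = 0 := by rw [ch_mul hx hy, e, F2_add_self]
    rw [ch_eq_zero_iff (mul_ne_zero hx hy)] at h1
    obtain ⟨c, hc⟩ := h1
    refine ⟨c / y, div_ne_zero ?_ hy, ?_⟩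
    · rintro rfl
      rw [mul_zero] at hc
      exact mul_ne_zero hx hy hc
    · field_simp
      linear_combination hc
  exact ⟨Q, fin n0 (m0 Q) q0, fin n1 (m1 Q) q1⟩

end ff

end Q283.FS
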