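import Pool.Agent.Q283.FS.Cnd

/-!
The solutions of the conditions for generic tuples.
-/

set_option autoImplicit false
set_option linter.all false

open scoped Classical

namespace Q283.FS

open Finset
open Pool.Agent.Y164.PS

theorem W_vec1 : ∀ t1 t2 v : W, om t1 t2 = 1 → om v t1 = 0 → v = om v t2 • t1 := by decide

theorem W_vec2 : ∀ t1 t2 z : W, om t1 t2 = 1 → z = om z t2 • t1 + om z t1 • t2 := by decide

theorem W_ex : ∀ t : W, t ≠ 0 → ∃ z : W, om z t = 1 := by decide

theorem F2_ne1 : ∀ {x : F2}, x ≠ 0 → x = 1 := by decide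

theorem W_smul_add (c : F2) (x y : W) : c • (x + y) = c • x + c • y := smul_add _ _ _

/-- an additive map is linear -/
theorem add_smulW {f : W → W} (hf : ∀ x y, f (x + y) = f x + f y) (c : F2) (x : W) :
    f (c • x) = c • f x := by
  have h0 : f 0 = 0 := by
    have := hf 0 0
    rw [add_zero] at this
    have h2 := W_add_self (f 0)
    rw [this]
    exact h2
  rcases F2_cases c with rfl | rfl
  · rw [zero_smul, zero_smul, h0]
  · rw [one_smul, one_smul]

/-- two vectors which pair to one -/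
theorem ex_pair {τ : Type} [Fintype τ] {D : Dat τ}
    (hG : ∀ u : W, u ≠ 0 → ∃ s, om u (D.t s) ≠ 0) :
    ∃ s1 s2, om (D.t s1) (D.t s2) = 1 := by
  obtain ⟨s1, h1⟩ := hG (1, 0) (by decide)
  have h2 : D.t s1 ≠ 0 := by
    intro h
    rw [h, om_zero_right] at h1
    exact h1 rfl
  obtain ⟨s2, h3⟩ := hG _ h2
  exact ⟨s1, s2, F2_ne1 h3⟩

section dgl
variable {ι τ : Type} [Fintype ι] [Fintype τ] (D : Dat τ) (d : ι → F2)

theorem dg_zero : dg D d (0 : V ι τ) = 0 := by
  have h := dg_add D d (0 : V ι τ) 0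
  rw [add_zero, W_add_self] at h
  exact h

theorem dg_smul (c : F2) (w : V ι τ) : dg D d (c • w) = c • dg D d w := by
  rcases F2_cases c with rfl | rfl
  · rw [zero_smul, zero_smul, dg_zero]
  · rw [one_smul, one_smul]

theorem dg_sum {α : Type} (s : Finset α) (f : α → V ι τ) :
    dg D d (∑ a ∈ s, f a) = ∑ a ∈ s, dg D d (f a) := by
  classical
  induction s using Finset.induction_on with
  | empty => rw [sum_empty, sum_empty, dg_zero]
  | insert a s ha ih => rw [sum_insert ha, sum_insert ha, dg_add, ih]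

end dgl

variable {J υ τ : Type} [Fintype J] [Fintype υ] [Fintype τ] [LinearOrder J]
variable {M : ℕ} {jj : Fin M → ℕ}
variable (Md : Mdl J υ τ) (Um : Fin M → Finset υ)

theorem ml1 {w w' : Kx jj → V (J ⊕ υ) τ} {Uf : τ → F2}
    (hU : Function.Injective Um) (hG : ∀ u : W, u ≠ 0 → ∃ s, om u (Md.D.t s) ≠ 0)
    (hN : ∀ k, ∑ p, dd Md (Um k) p + Md.D.N = 1)
    (hw : ∀ κ, w κ ∈ SU Md (Um κ.1)) (hw' : ∀ κ, w' κ ∈ SU Md (Um κ.1))
    (hsur : ∀ ξ : Kx jj → W, ∃ i : J, la w i = ξ) (hc : Cond Md Um w w' Uf) :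
    ∃ c : Kx jj → Kx jj → F2, (∀ κ l, c κ l = c l κ) ∧ (∀ κ l, κ.1 ≠ l.1 → c κ l = 0) ∧
      (∀ κ, w' κ = ∑ l, c κ l • w l + c κ κ • wo Md.D) ∧ Uf = 0 := by
  choose ii hii using hsur
  obtain ⟨φ, hφ⟩ : ∃ φ : (Kx jj → W) → (Kx jj → W), φ = fun ξ => la w' (ii ξ) := ⟨_, rfl⟩
  have F1 : ∀ ξ η, br (ξ + η) (φ ξ + φ η) = 0 := by
    intro ξ η
    have h := hc.c1 (ii ξ) (ii η)
    rw [hii, hii] at h
    rw [hφ]; exact h
  have F0 : ∀ i, la w' i = φ (la w i) := by
    intro i
    apply KW_eq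
    apply br_nd
    intro a
    have h1 := hc.c1 i (ii (la w i + a))
    have h2 := hc.c1 (ii (la w i)) (ii (la w i + a))
    rw [hii, ← add_assoc, KW_self, zero_add] at h1
    rw [hii, hii, ← add_assoc, KW_self, zero_add] at h2
    have h3 : φ (la w i) = la w' (ii (la w i)) := by rw [hφ]
    rw [h3, br_add_right]
    rw [br_add_right] at h1 h2
    have := F_eq h1
    have h4 := F_eq h2
    rw [this, h4]
    exact F2_add_self _
  obtain ⟨f0, hf0⟩ : ∃ f0, f0 = φ 0 := ⟨_, rfl⟩
  obtain ⟨ψ, hψ⟩ : ∃ ψ : (Kx jj → W) → (Kx jj → W), ψ = fun ξ => φ ξ + f0 := ⟨_, rfl⟩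
  have hφψ : ∀ ξ, φ ξ = ψ ξ + f0 := by
    intro ξ
    rw [hψ]
    show _ = φ ξ + f0 + f0
    rw [add_assoc, KW_self, add_zero]
  have ψ0 : ψ 0 = 0 := by
    rw [hψ]
    show φ 0 + f0 = 0
    rw [← hf0, KW_self]
  have P1 : ∀ ξ, br ξ (ψ ξ) = 0 := by
    intro ξ
    have h := F1 ξ 0
    rw [add_zero, ← hf0] at h
    rw [hψ]; exact h
  have P12 : ∀ ξ η, br (ξ + η) (ψ ξ + ψ η) = 0 := by
    intro ξ η
    have h := F1 ξ η
    have e : ψ ξ + ψ η = φ ξ + φ η := by
      rw [hφψ, hφψ]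
      have := KW_self f0
      calc ψ ξ + ψ η = ψ ξ + ψ η + (f0 + f0) := by rw [this, add_zero]
        _ = _ := by abel
    rw [e]; exact h
  have P2 : ∀ ξ η, br ξ (ψ η) = br η (ψ ξ) := by
    intro ξ η
    have h := P12 ξ η
    rw [br_add_left, br_add_right, br_add_right, P1, P1, zero_add, add_zero] at h
    exact F_eq h
  have P3 : ∀ ξ η, ψ (ξ + η) = ψ ξ + ψ η := by
    intro ξ η
    apply KW_eq
    apply br_nd
    intro a
    rw [br_add_right, br_add_right, P2 a (ξ + η), P2 a ξ, P2 a η, br_add_left]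
    exact F2_add_self _
  obtain ⟨m, hm⟩ : ∃ m : Kx jj → Kx jj → W → W, m = fun κ l z => ψ (Pi.single l z) κ := ⟨_, rfl⟩
  have hm' : ∀ κ l z, ψ (Pi.single l z) κ = m κ l z := fun κ l z => by rw [hm]
  have madd : ∀ κ l x y, m κ l (x + y) = m κ l x + m κ l y := by
    intro κ l x y
    rw [← hm', ← hm', ← hm', Pi.single_add, P3]
    rfl
  have SA : ∀ κ l z z', om z (m κ l z') = om z' (m l κ z) := by
    intro κ l z z'
    have h := P2 (Pi.single κ z) (Pi.single l z')
    rw [br_single_left, br_single_left, hm', hm'] at h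
    exact h
  -- the conditions at the small primes
  obtain ⟨bb, hbb⟩ : ∃ bb : υ → Kx jj → W, bb = fun u => f0 + lu w' u := ⟨_, rfl⟩
  have hbb' : ∀ u, f0 + lu w' u = bb u := fun u => by rw [hbb]
  have Q1 : ∀ u ξ, brx (ind Um jj u) ξ (ψ ξ) + brx (ind Um jj u) ξ (bb u) +
      brx (ind Um jj u) (lu w u) (ψ ξ) = 0 := by
    intro u
    have h : ∀ ξ, brx (ind Um jj u) ξ (ψ ξ) + brx (ind Um jj u) ξ (bb u) +
      brx (ind Um jj u) (lu w u) (ψ ξ) + brx (ind Um jj u) (lu w u) (bb u) = 0 := by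
      intro ξ
      have h := hc.c2 (ii ξ) u
      rw [hii, F0, hii, hφψ, add_assoc (ψ ξ), hbb', brx_add_left, brx_add_right,
        brx_add_right] at h
      rw [← h]; ring
    have h0 := h 0
    have z1 : ∀ b, brx (ind Um jj u) 0 b = 0 := by
      intro b
      simp only [brx, Pi.zero_apply, om_zero_left, mul_zero, sum_const_zero]
    have z2 : ∀ b, brx (ind Um jj u) b 0 = 0 := by
      intro b
      rw [brx_comm, z1]
    rw [ψ0, z1, z1, z2, zero_add, zero_add, zero_add] at h0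
    intro ξ
    have h1 := h ξ
    rw [h0, add_zero] at h1
    exact h1
  have Q2 : ∀ u ξ η, brx (ind Um jj u) ξ (ψ η) + brx (ind Um jj u) η (ψ ξ) = 0 := by
    intro u ξ η
    have h1 := Q1 u (ξ + η)
    have h2 := Q1 u ξ
    have h3 := Q1 u η
    simp only [P3, brx_add_left, brx_add_right] at h1
    linear_combination h1 - h2 - h3
  have hblk : ∀ κ l : Kx jj, κ.1 ≠ l.1 → ∀ z', m κ l z' = 0 := by
    intro κ l hkl z'
    apply eq_zero_of_om
    intro z
    rw [om_comm]
    have hne : Um κ.1 ≠ Um l.1 := fun h => hkl (hU h)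
    obtain ⟨u, hu⟩ : ∃ u, ¬ (u ∈ Um κ.1 ↔ u ∈ Um l.1) := by
      by_contra h
      push Not at h
      exact hne (Finset.ext h)
    have h := Q2 u (Pi.single κ z) (Pi.single l z')
    rw [brx_single_left, brx_single_left, hm', hm'] at h
    unfold ind at h
    by_cases h1 : u ∈ Um κ.1
    · by_cases h2 : u ∈ Um l.1
      · exact absurd (iff_of_true h1 h2) hu
      · rw [if_pos h1, if_neg h2, one_mul, zero_mul, add_zero] at h
        exact h
    · by_cases h2 : u ∈ Um l.1
      · rw [if_neg h1, if_pos h2, one_mul, zero_mul, zero_add] at h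
        rw [SA]; exact h
      · exact absurd (iff_of_false h1 h2) hu
  -- the conditions at the bad primes
  have R1 : ∀ s, (∀ ξ, ∑ κ, om (ξ κ) (Md.D.t s) * om (ψ ξ κ) (Md.D.t s) +
      ∑ κ, om (ξ κ) (Md.D.t s) * om (f0 κ) (Md.D.t s) +
      ∑ κ, ls w s κ * om (Md.D.t s) (ψ ξ κ) + ∑ κ, ls w' s κ * om (ξ κ) (Md.D.t s) = 0) ∧
      Uf s = ∑ κ, ls w s κ * om (Md.D.t s) (f0 κ) := by
    intro s
    have h : ∀ ξ, ∑ κ, om (ξ κ) (Md.D.t s) * om (ψ ξ κ) (Md.D.t s) +
      ∑ κ, om (ξ κ) (Md.D.t s) * om (f0 κ) (Md.D.t s) +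
      ∑ κ, ls w s κ * om (Md.D.t s) (ψ ξ κ) + ∑ κ, ls w' s κ * om (ξ κ) (Md.D.t s) +
      (∑ κ, ls w s κ * om (Md.D.t s) (f0 κ) + Uf s) = 0 := by
      intro ξ
      have h := hc.c3 (ii ξ) s
      rw [hii, F0, hii, hφψ] at h
      rw [← h]
      simp only [ee, Pi.add_apply, om_add_left, om_add_right, mul_add, sum_add_distrib]
      ring
    have h0 := h 0
    rw [ψ0] at h0
    simp only [Pi.zero_apply, om_zero_left, om_zero_right, zero_mul, mul_zero, sum_const_zero,
      zero_add] at h0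
    refine ⟨fun ξ => ?_, ?_⟩
    · have h1 := h ξ
      rw [h0, add_zero] at h1
      exact h1
    · have := F_eq h0
      exact this.symm
  have R2 : ∀ s κ l z z', om z (Md.D.t s) * om (m κ l z') (Md.D.t s) +
      om z' (Md.D.t s) * om (m l κ z) (Md.D.t s) = 0 := by
    intro s κ l z z'
    have h1 := (R1 s).1 (Pi.single κ z + Pi.single l z')
    have h2 := (R1 s).1 (Pi.single κ z)
    have h3 := (R1 s).1 (Pi.single l z')
    have key : ∀ (a : Kx jj) (y : W) (g : Kx jj → F2),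
        ∑ μ, om ((Pi.single a y : Kx jj → W) μ) (Md.D.t s) * g μ = om y (Md.D.t s) * g a := by
      intro a y g
      rw [sum_eq_single a]
      · rw [Pi.single_eq_same]
      · intro b _ hb
        rw [Pi.single_eq_of_ne hb, om_zero_left, zero_mul]
      · intro h; exact absurd (mem_univ _) h
    simp only [P3, Pi.add_apply, om_add_left, om_add_right, mul_add, add_mul, sum_add_distrib,
      key, hm'] at h1 h2 h3
    linear_combination h1 - h2 - h3
  obtain ⟨s1, s2, h12⟩ := ex_pair hG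
  set t1 := Md.D.t s1 with ht1
  set t2 := Md.D.t s2 with ht2
  have h21 : om t2 t1 = 1 := by rw [om_comm]; exact h12
  have E1 : ∀ κ l, om (m κ l t1) t1 = 0 := by
    intro κ l
    have h := R2 s1 l κ t1 t2
    rw [← ht1, om_self, zero_mul, zero_add, h21, one_mul] at h
    exact h
  have E2 : ∀ κ l, om (m κ l t2) t2 = 0 := by
    intro κ l
    have h := R2 s2 l κ t2 t1
    rw [← ht2, om_self, zero_mul, zero_add, h12, one_mul] at h
    exact h
  obtain ⟨c, hcd⟩ : ∃ c : Kx jj → Kx jj → F2, c = fun κ l => om (m κ l t1) t2 := ⟨_, rfl⟩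
  have hc' : ∀ κ l, c κ l = om (m κ l t1) t2 := fun κ l => by rw [hcd]
  have M1 : ∀ κ l, m κ l t1 = c κ l • t1 := by
    intro κ l
    rw [hc']
    exact W_vec1 t1 t2 _ h12 (E1 κ l)
  have M2 : ∀ κ l, m κ l t2 = om (m κ l t2) t1 • t2 := fun κ l => W_vec1 t2 t1 _ h21 (E2 κ l)
  have D1 : ∀ κ l, om (m κ l t2) t1 = c l κ := by
    intro κ l
    have h := SA κ l t1 t2
    rw [om_comm t1, om_comm t2] at h
    rw [h, hc']
  have D2 : ∀ κ l, om (m κ l t2) t1 = om (m l κ t2) t1 := by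
    intro κ l
    have h := R2 s1 κ l t2 t2
    rw [← ht1, h21, one_mul, one_mul] at h
    exact F_eq h
  have csymm : ∀ κ l, c κ l = c l κ := by
    intro κ l
    rw [← D1 l κ, D2, D1]
  have Mz : ∀ κ l z, m κ l z = c κ l • z := by
    intro κ l z
    rw [W_vec2 t1 t2 z h12, madd, add_smulW (madd κ l), add_smulW (madd κ l), M1, M2, D1,
      ← csymm κ l, smul_add, smul_comm (c κ l), smul_comm (c κ l)]
  have coff : ∀ κ l : Kx jj, κ.1 ≠ l.1 → c κ l = 0 := by
    intro κ l h
    rw [hc', hblk κ l h, om_zero_left]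
  have Pψ : ∀ ξ κ, ψ ξ κ = ∑ l, c κ l • ξ l := by
    intro ξ κ
    let Ψ : (Kx jj → W) →+ (Kx jj → W) := ⟨⟨ψ, ψ0⟩, P3⟩
    have h1 : ψ ξ = ∑ l, ψ (Pi.single l (ξ l)) := by
      conv_lhs => rw [← Finset.univ_sum_single ξ]
      exact map_sum Ψ _ _
    rw [h1, Finset.sum_apply]
    exact sum_congr rfl fun l _ => by rw [hm', Mz]
  -- the linear terms
  have Lu : ∀ (κ : Kx jj) (u : υ), u ∈ Um κ.1 →
      (w' κ).1 (Sum.inr u) = ∑ l, c κ l • (w l).1 (Sum.inr u) + f0 κ := by
    intro κ u hu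
    have h1 : f0 κ + lu w' u κ + ∑ l, c κ l • lu w u l = 0 := by
      apply eq_zero_of_om
      intro z
      have h := Q1 u (Pi.single κ z)
      have hi : ind Um jj u κ = 1 := if_pos hu
      have h2 : brx (ind Um jj u) (lu w u) (ψ (Pi.single κ z)) =
          om (∑ l, c κ l • lu w u l) z := by
        rw [om_sum_left]
        unfold brx
        refine sum_congr rfl fun l _ => ?_
        rw [hm', Mz, om_smul_right, om_smul_left, csymm κ l]
        by_cases hl : l.1 = κ.1
        · have : ind Um jj u l = 1 := by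
            unfold ind
            rw [if_pos (by rw [hl]; exact hu)]
          rw [this, one_mul]
        · rw [coff l κ hl, zero_mul, mul_zero]
      rw [brx_single_left, brx_single_left, hi, one_mul, one_mul, hm', Mz, om_smul_right, om_self,
        mul_zero, zero_add, h2, ← hbb'] at h
      rw [om_add_left, om_comm (f0 κ + lu w' u κ) z]
      exact h
    have h2 := W_eq h1
    have h3 : lu w' u κ = ∑ l, c κ l • lu w u l + f0 κ := by
      rw [← h2, add_comm (f0 κ), add_assoc, W_add_self, add_zero]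
    exact h3
  have Ls : ∀ (κ : Kx jj) (s : τ), Md.D.t s ≠ 0 →
      (w' κ).2 s = ∑ l, c κ l * (w l).2 s + om (f0 κ) (Md.D.t s) + c κ κ := by
    intro κ s hs
    obtain ⟨z, hz⟩ := W_ex _ hs
    have h := (R1 s).1 (Pi.single κ z)
    have key : ∀ (g : Kx jj → F2),
        ∑ μ, om ((Pi.single κ z : Kx jj → W) μ) (Md.D.t s) * g μ = g κ := by
      intro g
      rw [sum_eq_single κ]
      · rw [Pi.single_eq_same, hz, one_mul]
      · intro b _ hb
        rw [Pi.single_eq_of_ne hb, om_zero_left, zero_mul]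
      · intro h; exact absurd (mem_univ _) h
    have key' : ∑ μ, ls w' s μ * om ((Pi.single κ z : Kx jj → W) μ) (Md.D.t s) = ls w' s κ := by
      rw [← key (ls w' s)]
      exact sum_congr rfl fun _ _ => mul_comm _ _
    rw [key, key, key', hm', Mz, om_smul_left, hz, mul_one] at h
    have h2 : ∑ μ, ls w s μ * om (Md.D.t s) (ψ (Pi.single κ z) μ) = ∑ l, c κ l * ls w s l := by
      refine sum_congr rfl fun l _ => ?_
      rw [hm', Mz, om_smul_right, om_comm, hz, mul_one, csymm l κ, mul_comm]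
    rw [h2] at h
    have h3 := F_eq h
    show ls w' s κ = ∑ l, c κ l * ls w s l + om (f0 κ) (Md.D.t s) + c κ κ
    rw [← h3]; ring
  have La : ∀ (κ : Kx jj) (i : J),
      (w' κ).1 (Sum.inl i) = ∑ l, c κ l • (w l).1 (Sum.inl i) + f0 κ := by
    intro κ i
    have h : la w' i κ = φ (la w i) κ := by rw [F0]
    rw [hφψ] at h
    have h2 : la w' i κ = ψ (la w i) κ + f0 κ := h
    rw [Pψ] at h2
    exact h2
  -- the constant is zero
  have hf00 : ∀ κ, f0 κ = 0 := by
    intro κ
    have h1 : dg Md.D (dd Md (Um κ.1)) (w' κ) = dg Md.D (dd Md (Um κ.1))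
        (∑ l, c κ l • w l + TT Md.D (f0 κ) + c κ κ • wo Md.D) := by
      have g1 : ∀ p, (∑ l, c κ l • w l + TT Md.D (f0 κ) + c κ κ • wo Md.D : V (J ⊕ υ) τ).1 p =
          ∑ l, c κ l • (w l).1 p + f0 κ := by
        intro p
        show (∑ l, c κ l • w l : V (J ⊕ υ) τ).1 p + f0 κ + c κ κ • (0 : W) = _
        rw [smul_zero, add_zero, Prod.fst_sum, Finset.sum_apply]
        rfl
      have g2 : ∀ s, (∑ l, c κ l • w l + TT Md.D (f0 κ) + c κ κ • wo Md.D : V (J ⊕ υ) τ).2 s =
          ∑ l, c κ l * (w l).2 s + om (f0 κ) (Md.D.t s) +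
            c κ κ * (if Md.D.t s = 0 then 0 else 1) := by
        intro s
        show (∑ l, c κ l • w l : V (J ⊕ υ) τ).2 s + om (f0 κ) (Md.D.t s) +
          c κ κ * (if Md.D.t s = 0 then 0 else 1) = _
        rw [Prod.snd_sum, Finset.sum_apply]
        rfl
      unfold dg
      congr 1
      · refine sum_congr rfl fun p _ => ?_
        rw [g1]
        rcases p with i | u
        · rw [La]
        · by_cases hu : u ∈ Um κ.1
          · rw [Lu κ u hu]
          · have : dd Md (Um κ.1) (Sum.inr u) = 0 := if_neg hu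
            rw [this, zero_smul, zero_smul]
      · refine sum_congr rfl fun s _ => ?_
        by_cases hs : Md.D.t s = 0
        · rw [hs, smul_zero, smul_zero]
        · rw [g2, Ls κ s hs, if_neg hs, mul_one]
    have h2 : dg Md.D (dd Md (Um κ.1)) (∑ l, c κ l • w l) = 0 := by
      rw [dg_sum]
      apply sum_eq_zero
      intro l _
      rw [dg_smul]
      by_cases hl : κ.1 = l.1
      · rw [hl, (hw l).1.1, smul_zero]
      · rw [coff κ l hl, zero_smul]
    have h3 : dg Md.D (dd Md (Um κ.1)) (wo Md.D : V (J ⊕ υ) τ) = 0 := (wo_mem Md (Um κ.1)).1.1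
    rw [(hw' κ).1.1, dg_add, dg_add, h2, dg_TT, hN, one_smul, dg_smul, h3, smul_zero, zero_add,
      add_zero] at h1
    exact h1.symm
  refine ⟨c, csymm, coff, fun κ => ?_, ?_⟩
  · refine Prod.ext ?_ ?_
    · funext p
      have g1 : (∑ l, c κ l • w l + c κ κ • wo Md.D : V (J ⊕ υ) τ).1 p =
          ∑ l, c κ l • (w l).1 p := by
        show (∑ l, c κ l • w l : V (J ⊕ υ) τ).1 p + c κ κ • (0 : W) = _
        rw [smul_zero, add_zero, Prod.fst_sum, Finset.sum_apply]
        rfl
      rw [g1]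
      rcases p with i | u
      · rw [La, hf00, add_zero]
      · by_cases hu : u ∈ Um κ.1
        · rw [Lu κ u hu, hf00, add_zero]
        · rw [(hw' κ).2 u hu]
          symm
          apply sum_eq_zero
          intro l _
          by_cases hl : κ.1 = l.1
          · rw [(hw l).2 u (by rw [← hl]; exact hu), smul_zero]
          · rw [coff κ l hl, zero_smul]
    · funext s
      have g2 : (∑ l, c κ l • w l + c κ κ • wo Md.D : V (J ⊕ υ) τ).2 s =
          ∑ l, c κ l * (w l).2 s + c κ κ * (if Md.D.t s = 0 then 0 else 1) := by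
        show (∑ l, c κ l • w l : V (J ⊕ υ) τ).2 s + c κ κ * (if Md.D.t s = 0 then 0 else 1) = _
        rw [Prod.snd_sum, Finset.sum_apply]
        rfl
      rw [g2]
      by_cases hs : Md.D.t s = 0
      · rw [(hw' κ).1.2 s hs, if_pos hs, mul_zero, add_zero]
        symm
        apply sum_eq_zero
        intro l _
        rw [(hw l).1.2 s hs, mul_zero]
      · rw [Ls κ s hs, hf00, om_zero_left, add_zero, if_neg hs, mul_one]
  · funext s
    rw [(R1 s).2]
    apply sum_eq_zero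
    intro κ _
    rw [hf00, om_zero_right, mul_zero]

end Q283.FS
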