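import Pool.Agent.Q283.FS.Bnd
import Pool.Agent.Y697.PQ.Ten

/-!
The number of the independent tuples in the kernels.
-/

set_option autoImplicit false
set_option linter.all false

open scoped Classical

namespace Q283.FS

open Finset Module
open Pool.Agent.Y164.PS
open Pool.Agent.Y697.PQ (ij card_LI)

variable {J υ τ : Type} [Fintype J] [Fintype υ] [Fintype τ] [LinearOrder J]
variable {M : ℕ} {jj : Fin M → ℕ}
variable (Md : Mdl J υ τ) (Um : Fin M → Finset υ)
variable {Θ : Type} (𝒯 : Finset Θ) (x : Θ → Bt J υ τ → F2) (cc : τ → F2)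

theorem tup_card {E : Type} [AddCommGroup E] [Module F2 E] [Fintype E] [DecidableEq E]
    (S : Fin M → Submodule F2 E) :
    (((univ : Finset (Kx jj → E)).filter fun w => ∀ k, (∀ a : Fin (jj k), w ⟨k, a⟩ ∈ S k) ∧
      LinearIndependent F2 fun a : Fin (jj k) => w ⟨k, a⟩).card : ℝ) =
      ∏ k, ij (jj k) (2 ^ finrank F2 (S k)) := by
  have h1 : ((univ : Finset (Kx jj → E)).filter fun w => ∀ k, (∀ a : Fin (jj k), w ⟨k, a⟩ ∈ S k) ∧
      LinearIndependent F2 fun a : Fin (jj k) => w ⟨k, a⟩).card =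
      (Fintype.piFinset fun k : Fin M => (univ : Finset (Fin (jj k) → E)).filter fun v =>
        (∀ i, v i ∈ S k) ∧ LinearIndependent F2 v).card := by
    refine card_nbij' (fun w k a => w ⟨k, a⟩) (fun v κ => v κ.1 κ.2) ?_ ?_ ?_ ?_
    · intro w hw
      rw [Finset.mem_coe, mem_filter] at hw
      rw [Finset.mem_coe, Fintype.mem_piFinset]
      intro k
      rw [mem_filter]
      exact ⟨mem_univ _, hw.2 k⟩
    · intro v hv
      rw [Finset.mem_coe, Fintype.mem_piFinset] at hv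
      rw [Finset.mem_coe, mem_filter]
      refine ⟨mem_univ _, fun k => ?_⟩
      exact (mem_filter.1 (hv k)).2
    · intro w _
      rfl
    · intro v _
      rfl
  rw [h1, Fintype.card_piFinset]
  push_cast
  exact prod_congr rfl fun k _ => card_LI (S k) (jj k)

theorem Mm_eq : Mm Md Um 𝒯 x cc jj =
    ∑ T ∈ 𝒯.filter (fun T => clx cc (x T)), ∏ k, ij (jj k) (2 ^ finrank F2 (Kr Md (Um k) (x T))) := by
  have h1 : ∀ T, ∏ k, ij (jj k) (2 ^ finrank F2 (Kr Md (Um k) (x T))) =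
      ∑ w ∈ (VV Md Um jj).filter (fun w => ∀ k, LinearIndependent F2 fun a : Fin (jj k) => w ⟨k, a⟩),
        if (∀ κ, w κ ∈ Kr Md (Um κ.1) (x T)) then (1 : ℝ) else 0 := by
    intro T
    rw [sum_boole, ← tup_card (jj := jj) fun k => Kr Md (Um k) (x T)]
    congr 2
    ext w
    rw [mem_filter, mem_filter, mem_filter, mem_VV]
    constructor
    · rintro ⟨-, h2⟩
      exact ⟨⟨fun κ => ((h2 κ.1).1 κ.2).1, fun k => (h2 k).2⟩, fun κ => (h2 κ.1).1 κ.2⟩
    · rintro ⟨⟨-, h2⟩, h3⟩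
      exact ⟨mem_univ _, fun k => ⟨fun a => h3 ⟨k, a⟩, h2 k⟩⟩
  rw [sum_congr rfl fun T _ => h1 T, sum_comm, Mm]
  refine sum_congr rfl fun w _ => ?_
  rw [Nw, sum_boole, filter_filter]

end Q283.FS
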