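import Pool.Agent.Q283.FS.Ker

/-!
The order of the kernel is a power of four.
-/

set_option autoImplicit false
set_option linter.all false

namespace Q283.FS

open Finset
open Pool.Agent.Y164.PS

variable {ι τ : Type} [Fintype ι] [Fintype τ]
variable (D : Dat τ) (A : ι → ι → F2) (B : ι → τ → F2) (d : ι → F2)

theorem pow_fourE {c a b : ℕ} (h : c * 4 ^ a = 4 ^ b) : ∃ e, c = 4 ^ e := by
  have hc : c ∣ 4 ^ b := ⟨4 ^ a, h.symm⟩
  rcases Nat.lt_or_ge b a with hab | hab
  · exfalso
    have h1 : 4 ^ b < 4 ^ a := Nat.pow_lt_pow_right (by norm_num) hab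
    rcases Nat.eq_zero_or_pos c with rfl | hc
    · rw [zero_mul] at h
      have : 0 < 4 ^ b := by positivity
      omega
    · have h2 : 4 ^ a ≤ c * 4 ^ a := Nat.le_mul_of_pos_left _ hc
      omega
  · obtain ⟨e, rfl⟩ := Nat.exists_eq_add_of_le hab
    rw [pow_add, mul_comm] at h
    exact ⟨e, Nat.eq_of_mul_eq_mul_left (by positivity) h⟩

variable {A}

theorem kc_pow (hA : ∀ i j, A i j = A j i) (hN : ∑ i, d i + D.N = 1) :
    ∃ e, kc D A B d = 4 ^ e := by
  classical
  let φ : V ι τ →+ W := ⟨⟨dg D d, by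
    have h := dg_add D d (0 : V ι τ) 0
    rw [add_zero, W_add_self] at h
    exact h⟩, dg_add D d⟩
  have hφ : ∀ w, φ w = dg D d w := fun _ => rfl
  have hφs : Function.Surjective φ := fun y => ⟨TT D y, by rw [hφ, dg_TT, hN, one_smul]⟩
  have hcV : Nat.card (V ι τ) = 4 ^ Fintype.card ι * 2 ^ Fintype.card τ := by
    rw [Nat.card_eq_fintype_card, Fintype.card_prod, Fintype.card_fun, Fintype.card_fun,
      Fintype.card_prod, ZMod.card]
  have hc : Nat.card (V ι τ) = 4 * Nat.card φ.ker := by
    rw [AddSubgroup.card_eq_card_quotient_mul_card_addSubgroup φ.ker,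
      Nat.card_congr (QuotientAddGroup.quotientKerEquivOfSurjective φ hφs).toEquiv]
    simp
  have hwsm : (ws : V ι τ) ∈ φ.ker := by
    rw [AddMonoidHom.mem_ker, hφ, dg_ws]
  let lam : V ι τ → F2 := fun w => FF D A B d w ws
  have hlam : ∀ w w', lam (w + w') = lam w + lam w' := fun w w' => FF_add_left D A B d w w' ws
  let β : V ι τ → V ι τ → F2 := fun w w' => FF D A B d w w' + lam w * lam w'
  have hβa : ∀ x y z, β (x + y) z = β x z + β y z := by
    intro x y z
    show FF D A B d (x + y) z + lam (x + y) * lam z = _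
    rw [FF_add_left, hlam]
    show _ = FF D A B d x z + lam x * lam z + (FF D A B d y z + lam y * lam z)
    ring
  have hβc : ∀ x y, β x y = β y x := by
    intro x y
    show FF D A B d x y + lam x * lam y = FF D A B d y x + lam y * lam x
    rw [FF_comm D B d hA, mul_comm]
  obtain ⟨r, hr⟩ := alt_card _ φ.ker (fun x y => β x y) (fun x y z => hβa _ _ _)
    (fun x y => hβc _ _) (fun x => by
      show FF D A B d x x + lam x * lam x = 0
      rw [FF_diag D B d hA _ x.2, F2_sq]
      exact F2_add_self _) le_rfl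
  have hlws : lam ws = (Fintype.card τ : F2) := by
    show FF D A B d ws ws = _
    have hswap : ∑ s, ∑ s', D.G s s' * (om (D.t s') (D.t s)) = 0 := by
      rw [← sum_product']
      refine sum_involution (fun p _ => (p.2, p.1)) ?_ ?_ ?_ ?_
      · rintro ⟨i, j⟩ _
        show D.G i j * (om (D.t j) (D.t i)) + D.G j i * (om (D.t i) (D.t j)) = 0
        rw [D.symm i j, om_comm, F2_add_self]
      · rintro ⟨i, j⟩ _ hne h
        simp only [Prod.mk.injEq] at h
        apply hne
        show D.G i j * (om (D.t j) (D.t i)) = 0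
        rw [h.1, om_self, mul_zero]
      · intro _ _
        exact mem_univ _
      · rintro ⟨i, j⟩ _
        rfl
    simp only [FF, ws, Pi.zero_apply, om_zero_left, om_zero_right, mul_zero, add_zero, zero_add,
      mul_one, one_mul, sum_const_zero, hswap, sum_const, card_univ, nsmul_eq_mul]
  -- the two kernels
  have hK : kc D A B d = Nat.card {x : φ.ker // ∀ y : φ.ker, FF D A B d x y = 0} := by
    refine Nat.card_congr ⟨fun x => ⟨⟨x.1, x.2.1⟩, fun y => x.2.2 y.1 y.2⟩,
      fun x => ⟨x.1.1, x.1.2, fun w' hw' => x.2 ⟨w', hw'⟩⟩, fun _ => rfl, fun _ => rfl⟩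
  have hlK : ∀ x : φ.ker, (∀ y : φ.ker, FF D A B d x y = 0) → lam x = 0 := fun x hx => hx ⟨ws, hwsm⟩
  have hwslam : ∀ w : V ι τ, FF D A B d ws w = lam w := fun w => FF_comm D B d hA _ _
  rcases Nat.even_or_odd (Fintype.card τ) with he | ho
  · have h0 : lam ws = 0 := by rw [hlws]; exact (ZMod.natCast_eq_zero_iff_even).2 he
    have hK1 : Nat.card {x : φ.ker // ∀ y : φ.ker, FF D A B d x y = 0} =
        Nat.card {x : φ.ker // ∀ y : φ.ker, β x y = 0} := by
      refine Nat.card_congr (Equiv.subtypeEquivRight fun x => ⟨fun h y => ?_, fun h y => ?_⟩)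
      · show FF D A B d x y + lam x * lam y = 0
        rw [h y, hlK x h, zero_mul, add_zero]
      · have h1 : FF D A B d x ws + lam x * lam ws = 0 := h ⟨ws, hwsm⟩
        rw [h0, mul_zero, add_zero] at h1
        have h2 : FF D A B d x y + lam x * lam y = 0 := h y
        have h3 : lam x = 0 := h1
        rw [h3, zero_mul, add_zero] at h2
        exact h2
    obtain ⟨j, hj⟩ := he
    rw [hK, hK1]
    apply pow_fourE (a := r + 1) (b := Fintype.card ι + j)
    rw [hcV, hr, hj] at hc
    rw [pow_add 4 (Fintype.card ι) j]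
    have : (4 : ℕ) ^ j = 2 ^ (j + j) := by
      rw [← two_mul, pow_mul]; norm_num
    rw [this, hc, pow_succ]
    ring
  · have h0 : lam ws = 1 := by
      rw [hlws]
      obtain ⟨j, hj⟩ := ho
      rw [hj]
      push_cast
      have : (2 : F2) = 0 := by decide
      rw [this]
      ring
    let K1 : AddSubgroup (V ι τ) :=
      { carrier := {w | dg D d w = 0 ∧ ∀ w', dg D d w' = 0 → β w w' = 0}
        zero_mem' := by
          refine ⟨(AddMonoidHom.map_zero φ), fun w' _ => ?_⟩
          show FF D A B d 0 w' + lam 0 * lam w' = 0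
          have : lam 0 = 0 := FF_zero_left D B d ws
          rw [FF_zero_left, this, zero_mul, add_zero]
        add_mem' := by
          rintro x y ⟨hx, hx'⟩ ⟨hy, hy'⟩
          refine ⟨by rw [dg_add, hx, hy, add_zero], fun w' hw' => ?_⟩
          rw [hβa, hx' w' hw', hy' w' hw', add_zero]
        neg_mem' := by
          rintro x ⟨hx, hx'⟩
          have : -x = x := by
            rw [neg_eq_iff_add_eq_zero]
            apply Prod.ext
            · funext i
              exact W_add_self _
            · funext s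
              exact F2_add_self _
          rw [this]
          exact ⟨hx, hx'⟩ }
    have hK1 : Nat.card {x : φ.ker // ∀ y : φ.ker, β x y = 0} = Nat.card K1 := by
      refine Nat.card_congr ⟨fun x => ⟨x.1.1, x.1.2, fun w' hw' => x.2 ⟨w', hw'⟩⟩,
        fun x => ⟨⟨x.1, x.2.1⟩, fun y => x.2.2 y.1 y.2⟩, fun _ => rfl, fun _ => rfl⟩
    let ψ : K1 →+ F2 := ⟨⟨fun x => lam x, FF_zero_left D B d ws⟩, fun x y => hlam _ _⟩
    have hws1 : (ws : V ι τ) ∈ K1 := by
      refine ⟨dg_ws D d, fun w' hw' => ?_⟩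
      show FF D A B d ws w' + lam ws * lam w' = 0
      rw [hwslam, h0, one_mul, F2_add_self]
    have hψs : Function.Surjective ψ := by
      intro y
      rcases F2_cases y with rfl | rfl
      · exact ⟨0, map_zero ψ⟩
      · exact ⟨⟨ws, hws1⟩, h0⟩
    have hc2 : Nat.card K1 = 2 * Nat.card ψ.ker := by
      rw [AddSubgroup.card_eq_card_quotient_mul_card_addSubgroup ψ.ker,
        Nat.card_congr (QuotientAddGroup.quotientKerEquivOfSurjective ψ hψs).toEquiv]
      simp
    have hK2 : Nat.card ψ.ker = Nat.card {x : φ.ker // ∀ y : φ.ker, FF D A B d x y = 0} := by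
      refine Nat.card_congr ⟨fun x => ⟨⟨x.1.1, x.1.2.1⟩, ?_⟩, fun x => ⟨⟨x.1.1, x.1.2, ?_⟩, ?_⟩, ?_, ?_⟩
      · intro y
        have h1 : FF D A B d x.1.1 y + lam x.1.1 * lam y = 0 := x.1.2.2 y.1 y.2
        have h2 : lam x.1.1 = 0 := x.2
        rw [h2, zero_mul, add_zero] at h1
        exact h1
      · intro w' hw'
        show FF D A B d x.1.1 w' + lam x.1.1 * lam w' = 0
        rw [hlK x.1 x.2, zero_mul, add_zero]
        exact x.2 ⟨w', hw'⟩
      · exact hlK x.1 x.2
      · intro x
        rfl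
      · intro x
        rfl
    obtain ⟨j, hj⟩ := ho
    rw [hK, ← hK2]
    apply pow_fourE (a := r + 1) (b := Fintype.card ι + j)
    rw [hcV, hr, hK1, hc2, hj, pow_succ 2 (2 * j)] at hc
    rw [pow_add 4 (Fintype.card ι) j]
    have h4 : (4 : ℕ) ^ j = 2 ^ (2 * j) := by
      rw [pow_mul]; norm_num
    rw [h4]
    have h5 : 2 * (Nat.card ψ.ker * 4 ^ (r + 1)) = 2 * (4 ^ Fintype.card ι * 2 ^ (2 * j)) := by
      rw [pow_succ]
      linarith
    omega


end Q283.FS
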