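import Pool.Agent.Q283.FS.Ind
import Pool.Agent.Y164.PS.Cell

/-!
The kernels of the model and the kernels of the families.
-/

set_option autoImplicit false
set_option linter.all false

open scoped Classical

namespace Q283.FS

open Finset Module Polynomial
open Pool.Agent.Y164.PS

section res
variable {ι ι' τ : Type} [Fintype ι] [Fintype ι'] [Fintype τ]
variable (D : Dat τ) (A : ι → ι → F2) (B : ι → τ → F2) (d : ι → F2) (e : ι' → ι)

/-- the restriction -/
def rs (w : V ι τ) : V ι' τ := (fun i => w.1 (e i), w.2)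

theorem dg_rs (he : Function.Injective e) (hd : ∀ p, p ∉ Set.range e → d p = 0) (w : V ι τ) :
    dg D d w = dg D (fun i => d (e i)) (rs e w) := by
  unfold dg
  congr 1
  symm
  exact Fintype.sum_of_injective e he _ _ (fun p hp => by rw [hd p hp, zero_smul]) fun i => rfl

theorem FF_rs (he : Function.Injective e) (hA : ∀ p q, p ∉ Set.range e → A p q = 0)
    (hA' : ∀ p q, q ∉ Set.range e → A p q = 0)
    (hB : ∀ p s, p ∉ Set.range e → B p s = 0)
    (hd : ∀ p, p ∉ Set.range e → d p = 0) (w w' : V ι τ) :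
    FF D A B d w w' = FF D (fun i j => A (e i) (e j)) (fun i s => B (e i) s) (fun i => d (e i))
      (rs e w) (rs e w') := by
  unfold FF
  have h1 : ∑ i, ∑ j, A (e i) (e j) * (om ((rs e w).1 j) ((rs e w').1 i) +
      om ((rs e w).1 i) ((rs e w').1 i)) = ∑ p, ∑ q, A p q * (om (w.1 q) (w'.1 p) +
      om (w.1 p) (w'.1 p)) := by
    refine Fintype.sum_of_injective e he _ _ (fun p hp => ?_) fun i => ?_
    · exact sum_eq_zero fun q _ => by rw [hA p q hp, zero_mul]
    · exact Fintype.sum_of_injective e he _ _ (fun q hq => by rw [hA' _ q hq, zero_mul]) fun j => rfl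
  have h2 : ∑ i, ∑ s, B (e i) s * (om ((rs e w).1 i) (D.t s) * om ((rs e w').1 i) (D.t s) +
      (rs e w).2 s * om (D.t s) ((rs e w').1 i) + (rs e w').2 s * om ((rs e w).1 i) (D.t s)) =
      ∑ p, ∑ s, B p s * (om (w.1 p) (D.t s) * om (w'.1 p) (D.t s) +
      w.2 s * om (D.t s) (w'.1 p) + w'.2 s * om (w.1 p) (D.t s)) := by
    refine Fintype.sum_of_injective e he _ _ (fun p hp => ?_) fun i => rfl
    exact sum_eq_zero fun q _ => by rw [hB p q hp, zero_mul]
  have h3 : ∑ i, d (e i) * om (ks D.l ((rs e w).1 i)) ((rs e w').1 i) =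
      ∑ p, d p * om (ks D.l (w.1 p)) (w'.1 p) :=
    Fintype.sum_of_injective e he _ _ (fun p hp => by rw [hd p hp, zero_mul]) fun i => rfl
  rw [h1, h2, h3]
  rfl

/-- the extension by zero -/
noncomputable def xt (w : V ι' τ) : V ι τ := (Function.extend e w.1 0, w.2)

theorem rs_xt (he : Function.Injective e) (w : V ι' τ) : rs e (xt e w) = w := by
  refine Prod.ext ?_ rfl
  funext i
  exact he.extend_apply _ _ i

theorem xt_off (w : V ι' τ) {p : ι} (hp : p ∉ Set.range e) : (xt e w).1 p = 0 :=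
  Function.extend_apply' _ _ p (fun h => hp h)

/-- the kernel does not depend on the names of the primes -/
theorem kc_equiv (e : ι' ≃ ι) : kc D (fun i j => A (e i) (e j)) (fun i s => B (e i) s)
    (fun i => d (e i)) = kc D A B d := by
  have hr : ∀ p, ¬ p ∉ Set.range e := fun p h => h ⟨e.symm p, e.apply_symm_apply p⟩
  have hF := fun w w' => FF_rs D A B d e e.injective (fun p _ h => absurd h (hr p))
    (fun _ q h => absurd h (hr q)) (fun p _ h => absurd h (hr p)) (fun p h => absurd h (hr p)) w w'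
  have hg := fun w => dg_rs D d e e.injective (fun p h => absurd h (hr p)) w
  unfold kc
  have hx : ∀ w : V ι τ, xt e (rs e w) = w := by
    intro w
    refine Prod.ext ?_ rfl
    funext p
    obtain ⟨i, rfl⟩ := e.surjective p
    exact e.injective.extend_apply _ _ i
  refine Nat.card_congr ⟨fun w => ⟨xt e w.1, ?_, fun w' hw' => ?_⟩, fun w => ⟨rs e w.1, ?_, fun w' hw' => ?_⟩,
    fun w => Subtype.ext (rs_xt e e.injective w.1), fun w => Subtype.ext (hx w.1)⟩
  · rw [hg, rs_xt e e.injective]
    exact w.2.1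
  · rw [hF, rs_xt e e.injective]
    exact w.2.2 _ (by rw [← hg]; exact hw')
  · rw [← hg]
    exact w.2.1
  · have h := w.2.2 (xt e w') (by rw [hg, rs_xt e e.injective]; exact hw')
    rw [hF, rs_xt e e.injective] at h
    exact h

end res

section kr
variable {J υ τ ι' : Type} [Fintype J] [Fintype υ] [Fintype τ] [LinearOrder J] [Fintype ι']
variable (Md : Mdl J υ τ) (U : Finset υ) (x : Bt J υ τ → F2)

theorem card_Kr (e : ι' → J ⊕ υ) (he : Function.Injective e)
    (hr : ∀ p, p ∈ Set.range e ↔ ∀ u, p = Sum.inr u → u ∈ U) :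
    Nat.card (Kr Md U x) = kc Md.D (fun i j => AA Md U x (e i) (e j))
      (fun i s => BB Md U x (e i) s) (fun i => dd Md U (e i)) := by
  have hoff : ∀ p, p ∉ Set.range e → ∃ u, p = Sum.inr u ∧ u ∉ U := by
    intro p hp
    rw [hr] at hp
    push Not at hp
    exact hp
  have hA : ∀ p q, p ∉ Set.range e → AA Md U x p q = 0 := by
    intro p q hp
    obtain ⟨u, rfl, hu⟩ := hoff p hp
    rcases q with j | v
    · exact if_neg hu
    · exact if_neg fun h => hu h.1
  have hA' : ∀ p q, q ∉ Set.range e → AA Md U x p q = 0 := by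
    intro p q hq
    rw [AA_comm]
    exact hA q p hq
  have hB : ∀ p s, p ∉ Set.range e → BB Md U x p s = 0 := by
    intro p s hp
    obtain ⟨u, rfl, hu⟩ := hoff p hp
    exact if_neg hu
  have hd : ∀ p, p ∉ Set.range e → dd Md U p = 0 := by
    intro p hp
    obtain ⟨u, rfl, hu⟩ := hoff p hp
    exact if_neg hu
  have hF := fun w w' => FF_rs Md.D (AA Md U x) (BB Md U x) (dd Md U) e he hA hA' hB hd w w'
  have hg := fun w => dg_rs Md.D (dd Md U) e he hd w
  rw [kc_eq Md.D _ _ (fun i j => AA_comm Md U x _ _)]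
  have hu : ∀ w : V ι' τ, ∀ u, u ∉ U → (xt e w).1 (Sum.inr u) = 0 := by
    intro w u hu
    apply xt_off
    intro h
    exact hu ((hr _).1 h u rfl)
  have hV : ∀ w : V ι' τ, IsV0 Md.D (fun i => dd Md U (e i)) w → xt e w ∈ SU Md U := by
    intro w hw
    refine ⟨⟨?_, hw.2⟩, hu w⟩
    rw [hg, rs_xt e he]
    exact hw.1
  have hV' : ∀ w : V (J ⊕ υ) τ, w ∈ SU Md U → IsV0 Md.D (fun i => dd Md U (e i)) (rs e w) := by
    intro w hw
    refine ⟨?_, hw.1.2⟩
    rw [← hg]
    exact hw.1.1
  have hx : ∀ w : V (J ⊕ υ) τ, w ∈ SU Md U → xt e (rs e w) = w := by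
    intro w hw
    refine Prod.ext ?_ rfl
    funext p
    by_cases hp : p ∈ Set.range e
    · obtain ⟨i, rfl⟩ := hp
      exact he.extend_apply _ _ i
    · rw [xt_off e _ hp]
      obtain ⟨u, rfl, hu⟩ := hoff p hp
      exact (hw.2 u hu).symm
  refine Nat.card_congr ⟨fun w => ⟨rs e w.1, hV' _ w.2.1, fun w' hw' => ?_⟩,
    fun w => ⟨xt e w.1, hV _ w.2.1, fun w' hw' => ?_⟩,
    fun w => Subtype.ext (hx w.1 w.2.1), fun w => Subtype.ext (rs_xt e he w.1)⟩
  · have h := w.2.2 (xt e w') (hV _ hw')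
    rw [Fm, hF, rs_xt e he] at h
    exact h
  · rw [Fm, hF, rs_xt e he]
    exact w.2.2 _ (hV' _ hw')

end kr

section poly
variable {k : Type} [Field k] [Fintype k] [DecidableEq k]
variable {τ : Type} [Fintype τ] (D : Dat τ) (Q : τ → k[X])

/-- the order of the kernel for a set of primes -/
noncomputable def kp (F : Finset k[X]) : ℕ :=
  kc D (AT fun P : F => P.1) (BT Q fun P : F => P.1) (fun P : F => (P.1.natDegree : F2))

theorem kp_eq {ι : Type} [Fintype ι] {P : ι → k[X]} (hP : Function.Injective P) {F : Finset k[X]}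
    (hF : univ.image P = F) :
    kc D (AT P) (BT Q P) (fun i => ((P i).natDegree : F2)) = kp D Q F := by
  have hm : ∀ i, P i ∈ F := fun i => by
    rw [← hF]
    exact mem_image_of_mem _ (mem_univ i)
  let f : ι → F := fun i => ⟨P i, hm i⟩
  have hf : Function.Bijective f := by
    constructor
    · intro i j h
      exact hP (congrArg Subtype.val h)
    · rintro ⟨y, hy⟩
      rw [← hF, mem_image] at hy
      obtain ⟨i, -, hi⟩ := hy
      exact ⟨i, Subtype.ext hi⟩
  exact kc_equiv D (AT fun P : F => P.1) (BT Q fun P : F => P.1)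
    (fun P : F => (P.1.natDegree : F2)) (Equiv.ofBijective f hf)

end poly

end Q283.FS
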