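import Pool.Agent.Q283.FS.Gd

/-!
Local solubility: sufficient conditions.
-/

set_option autoImplicit false
set_option linter.all false

open scoped Classical

namespace Q283.FS

open Polynomial IsDedekindDomain WeierstrassCurve WeierstrassCurve.Affine
open Pool.Agent.TH115.GD Pool.Agent.Y164.PS Pool.Agent.H341R2.Sharp Finset

section gen
variable {L : Type} [Field L]

theorem sqEq_of_mul {x y : L} (hy : y ≠ 0) (h : SqEq (x * y) 1) : SqEq x y := by
  obtain ⟨c, hc, e⟩ := h
  refine ⟨c / y, div_ne_zero hc hy, ?_⟩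
  field_simp
  linear_combination e

theorem sqEq_map {F : Type} [Field F] (j : F →+* L) {x y : F} (h : SqEq x y) : SqEq (j x) (j y) := by
  obtain ⟨c, hc, e⟩ := h
  exact ⟨j c, (_root_.map_ne_zero j).2 hc, by rw [e, map_mul, map_pow]⟩

theorem isE_mk {α β : L} (h2 : (2 : L) ≠ 0) (hα : α ≠ 0) (hβ : β ≠ 0) (hαβ : α ≠ β) :
    IsE ((crv α β).toAffine) α β := ⟨rfl, rfl, rfl, rfl, rfl, h2, hα, hβ, hαβ⟩

/-- local solubility from a point with given coordinates -/
theorem locR_pt {F : Type} [Field F] (j : F →+* L) {α β a0 a1 : F} (h2 : (2 : L) ≠ 0)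
    (hα : j α ≠ 0) (hβ : j β ≠ 0) (hαβ : j α ≠ j β) {x y : L}
    (e : y ^ 2 = x * (x - j α) * (x - j β)) (h0 : x ≠ 0) (h1 : x ≠ j α)
    (s0 : SqEq (j a0) x) (s1 : SqEq (j a1) (x - j α)) : LocR j α β a0 a1 := by
  have hE := isE_mk h2 hα hβ hαβ
  obtain ⟨c0, n0, e0⟩ := s0
  obtain ⟨c1, n1, e1⟩ := s1
  refine ⟨_, Point.some x y (hE.nonsingular.2 e), c0, c1, hE, n0, n1, ?_, ?_⟩
  · rw [e0]
    simp only [d0, if_neg h0]
  · rw [e1]
    simp only [d1, if_neg h1]

/-- local solubility from a point of order two -/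
theorem locR_tor {F : Type} [Field F] (j : F →+* L) {α β a0 a1 : F} (h2 : (2 : L) ≠ 0)
    (hα : j α ≠ 0) (hβ : j β ≠ 0) (hαβ : j α ≠ j β)
    (h : (SqEq (j a0) 1 ∧ SqEq (j a1) 1) ∨ (SqEq (j a0) (j α * j β) ∧ SqEq (j a1) (-(j α))) ∨
      (SqEq (j a0) (j α) ∧ SqEq (j a1) (j α * (j α - j β))) ∨
      (SqEq (j a0) (j β) ∧ SqEq (j a1) (j β - j α))) : LocR j α β a0 a1 := by
  have hE := isE_mk h2 hα hβ hαβ
  rcases h with ⟨⟨c0, n0, e0⟩, ⟨c1, n1, e1⟩⟩ | ⟨⟨c0, n0, e0⟩, ⟨c1, n1, e1⟩⟩ |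
    ⟨⟨c0, n0, e0⟩, ⟨c1, n1, e1⟩⟩ | ⟨⟨c0, n0, e0⟩, ⟨c1, n1, e1⟩⟩
  · exact ⟨_, Point.zero, c0, c1, hE, n0, n1, e0, e1⟩
  · refine ⟨_, Point.some 0 0 (hE.nonsingular.2 (by ring)), c0, c1, hE, n0, n1, ?_, ?_⟩
    · rw [e0]
      simp only [d0, if_true]
    · rw [e1]
      simp only [d1, if_neg hα.symm, zero_sub]
  · refine ⟨_, Point.some (j α) 0 (hE.nonsingular.2 (by ring)), c0, c1, hE, n0, n1, ?_, ?_⟩
    · rw [e0]
      simp only [d0, if_neg hα]
    · rw [e1]
      simp only [d1, if_true]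
  · refine ⟨_, Point.some (j β) 0 (hE.nonsingular.2 (by ring)), c0, c1, hE, n0, n1, ?_, ?_⟩
    · rw [e0]
      simp only [d0, if_neg hβ]
    · rw [e1]
      simp only [d1, if_neg hαβ.symm]

/-- a curve is determined by its coefficients -/
theorem eq_of_isE {W W' : Affine L} {α β : L} (h : IsE W α β) (h' : IsE W' α β) : W = W' := by
  apply WeierstrassCurve.ext
  · rw [h.a1, h'.a1]
  · rw [h.a2, h'.a2]
  · rw [h.a3, h'.a3]
  · rw [h.a4, h'.a4]
  · rw [h.a6, h'.a6]

theorem locSol_of {K : Type} [Field K] (i1 i2 : Algebra K L) {α β a0 a1 : K}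
    (h2 : (2 : K) ≠ 0) (hα : α ≠ 0) (hβ : β ≠ 0) (hαβ : α ≠ β)
    (h : ∀ x, @algebraMap K L _ _ i1 x = @algebraMap K L _ _ i2 x)
    (hs : LocR (@algebraMap K L _ _ i2) α β a0 a1) :
    @LocSol K K _ _ (crv α β) α β L _ i1 i2 a0 a1 := by
  obtain ⟨W, Q, c0, c1, hE, n0, n1, e0, e1⟩ := hs
  have hE' := @isE K _ α β L _ i1 h2 hα hβ hαβ
  rw [h α, h β] at hE'
  have hW := eq_of_isE hE hE'
  subst hW
  refine ⟨Q, c0, c1, n0, n1, ?_, ?_⟩
  · rw [h α, h β]
    exact e0
  · rw [h α, h β]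
    exact e1

end gen

variable {k K : Type} [Field k] [Fintype k] [DecidableEq k] [Field K] [Algebra k[X] K]
  [IsFractionRing k[X] K]

/-- polynomials which are equal modulo squares at a place -/
theorem near_mod (hk : (2 : k) ≠ 0) (v : HeightOneSpectrum k[X]) {p q s : k[X]}
    (h : p - s ^ 2 * q ∈ v.asIdeal) (hs : s ∉ v.asIdeal) (hq : q ∉ v.asIdeal) :
    SqEq (algebraMap K (Comp k[X] K v) (algebraMap k[X] K p))
      (algebraMap K (Comp k[X] K v) (algebraMap k[X] K q)) := by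
  have hs0 : s ≠ 0 := by
    rintro rfl
    exact hs v.asIdeal.zero_mem
  have hsq : s ^ 2 * q ∉ v.asIdeal := by
    intro h1
    rcases v.isPrime.mem_or_mem h1 with h3 | h3
    · exact hs (v.isPrime.mem_of_pow_mem 2 h3)
    · exact hq h3
  have h1 : SqEq (algebraMap K (Comp k[X] K v) (algebraMap k[X] K p))
      (algebraMap K (Comp k[X] K v) (algebraMap k[X] K (s ^ 2 * q))) := by
    apply near (hensK v hk)
    rw [← map_sub, ← map_sub, wv_coe, wv_coe, (valK_one v).2 hsq]
    exact (valK_lt v).2 h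
  refine h1.trans ⟨algebraMap K (Comp k[X] K v) (algebraMap k[X] K s), ?_, ?_⟩
  · refine (_root_.map_ne_zero _).2 ?_
    rw [Ne, IsFractionRing.to_map_eq_zero_iff]
    exact hs0
  · simp only [map_mul, map_pow]

variable {κ : Type} [Fintype κ] {R : κ → k[X]}

/-- local comparison, converse -/
theorem loc_conv (hk : ringChar k ≠ 2) (hR : Fam R) (x0 : κ) {r r' : k} (hr : r ≠ 0) (hr' : r' ≠ 0)
    (n n' : κ → ℕ) (h1 : (n x0 : F2) = n' x0) (h2 : Lm R r n (R x0) = Lm R r' n' (R x0)) :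
    SqEq (algebraMap K (Comp k[X] K (plK (hR.irr x0))) (algebraMap k[X] K (el R r n)))
      (algebraMap K (Comp k[X] K (plK (hR.irr x0))) (algebraMap k[X] K (el R r' n'))) := by
  set v := plK (hR.irr x0) with hv
  have hrr : r * r' ≠ 0 := mul_ne_zero hr hr'
  have hne : ∀ {u : k} (hu : u ≠ 0) (m : κ → ℕ),
      algebraMap K (Comp k[X] K v) (algebraMap k[X] K (el R u m)) ≠ 0 := by
    intro u hu m
    refine (_root_.map_ne_zero _).2 ?_
    rw [Ne, IsFractionRing.to_map_eq_zero_iff]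
    exact el_ne hR hu _
  apply sqEq_of_mul (hne hr' n')
  rw [← map_mul, ← map_mul, el_mul, el_eq x0]
  have h3 : Even ((n + n') x0) := by
    rw [← cast_eq_zero_iff_even, Pi.add_apply, Nat.cast_add, h1, F2_add_self]
  obtain ⟨m, hm⟩ := h3
  have h4 : L (el' R x0 (r * r') (n + n')) (R x0) = 0 := by
    rw [L_el' hR x0 hrr, Lm_mul hr hr', h2, F2_add_self]
  rw [L_eq_zero_iff hk (hR.mon x0) (hR.irr x0) (el'_not_dvd hR x0 hrr _)] at h4
  obtain ⟨z, hz⟩ := h4
  have h5 : ¬ R x0 ∣ z := by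
    intro h
    apply el'_not_dvd hR x0 hrr (n + n')
    have h6 : R x0 ∣ z ^ 2 - (z ^ 2 - el' R x0 (r * r') (n + n')) :=
      dvd_sub (h.trans (dvd_pow_self z two_ne_zero)) hz
    rwa [sub_sub_cancel] at h6
  have h6 : SqEq (algebraMap K (Comp k[X] K v) (algebraMap k[X] K (el' R x0 (r * r') (n + n'))))
      (algebraMap K (Comp k[X] K v) (algebraMap k[X] K 1)) := by
    apply near_mod (Ring.two_ne_zero hk) v (s := z)
    · rw [mem_plK, mul_one]
      have := (dvd_neg).2 hz
      rwa [neg_sub] at this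
    · rw [mem_plK]
      exact h5
    · rw [mem_plK]
      intro h
      exact (hR.irr x0).not_isUnit (isUnit_of_dvd_one h)
  rw [map_one, map_one] at h6
  have hP : algebraMap K (Comp k[X] K v) (algebraMap k[X] K (R x0 ^ m)) ≠ 0 := by
    refine (_root_.map_ne_zero _).2 ?_
    rw [Ne, IsFractionRing.to_map_eq_zero_iff]
    exact pow_ne_zero _ (hR.irr x0).ne_zero
  have h7 := (SqEq.sq hP).mul h6
  rw [mul_one] at h7
  rw [hm, pow_add, map_mul, map_mul, map_mul, map_mul, ← pow_two]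
  exact h7

/-- comparison at infinity -/
theorem inf_conv (hk : (2 : k) ≠ 0) {f g : k[X]} (hf : f ≠ 0) (hg : g ≠ 0)
    (h1 : Even (f.natDegree + g.natDegree)) (h2 : IsSquare (f.leadingCoeff * g.leadingCoeff)) :
    SqEq (algebraMap K (CompInf k K) (algebraMap k[X] K f))
      (algebraMap K (CompInf k K) (algebraMap k[X] K g)) := by
  have hne : ∀ {p : k[X]}, p ≠ 0 → algebraMap K (CompInf k K) (algebraMap k[X] K p) ≠ 0 := by
    intro p hp
    refine (_root_.map_ne_zero _).2 ?_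
    rw [Ne, IsFractionRing.to_map_eq_zero_iff]
    exact hp
  apply sqEq_of_mul (hne hg)
  rw [← map_mul, ← map_mul]
  obtain ⟨m, hm⟩ := h1
  obtain ⟨c, hc⟩ := h2
  have hfg : f * g ≠ 0 := mul_ne_zero hf hg
  have hlc : (f * g).leadingCoeff = c * c := by rw [leadingCoeff_mul, hc]
  have hdeg : (f * g).natDegree = m + m := by rw [natDegree_mul hf hg, hm]
  have hc0 : c ≠ 0 := by
    rintro rfl
    rw [mul_zero, leadingCoeff_eq_zero] at hlc
    exact hfg hlc
  set t : k[X] := C c * X ^ m with ht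
  have ht0 : t ≠ 0 := mul_ne_zero (C_ne_zero.2 hc0) (pow_ne_zero _ X_ne_zero)
  have htd : (t * t).natDegree = m + m := by
    rw [natDegree_mul ht0 ht0, ht, natDegree_C_mul_X_pow m c hc0]
  have htl : (t * t).leadingCoeff = c * c := by
    rw [leadingCoeff_mul, ht, leadingCoeff_C_mul_X_pow]
  have hH : Hens (wi k K) := hensK (F := AtInf K) (pl (0 : k)) hk
  have h3 : SqEq (algebraMap K (CompInf k K) (algebraMap k[X] K (f * g)))
      (algebraMap K (CompInf k K) (algebraMap k[X] K (t * t))) := by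
    apply near hH
    rw [← map_sub, ← map_sub, wi_coe, wi_coe, vInf_poly (mul_ne_zero ht0 ht0), htd]
    by_cases h0 : f * g - t * t = 0
    · rw [h0, map_zero, map_zero]
      exact zero_lt_iff.2 WithZero.exp_ne_zero
    · rw [vInf_poly h0, WithZero.exp_lt_exp]
      have h4 : (f * g - t * t).degree < (f * g).degree := by
        apply degree_sub_lt
        · rw [degree_eq_natDegree hfg, degree_eq_natDegree (mul_ne_zero ht0 ht0), hdeg, htd]
        · exact hfg
        · rw [hlc, htl]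
      have h5 := natDegree_lt_natDegree h0 h4
      rw [hdeg] at h5
      exact_mod_cast h5
  refine h3.trans ?_
  rw [map_mul, map_mul, ← pow_two]
  exact SqEq.sq (hne ht0)

/-- the good places -/
theorem good_loc (hk : ringChar k ≠ 2) (v : HeightOneSpectrum k[X]) {α β f0 f1 : k[X]}
    (hα : α ∉ v.asIdeal) (hβ : β ∉ v.asIdeal) (hαβ : α - β ∉ v.asIdeal) (h0 : f0 ∉ v.asIdeal)
    (h1 : f1 ∉ v.asIdeal) : LocR (algebraMap K (Comp k[X] K v)) (algebraMap k[X] K α)
      (algebraMap k[X] K β) (algebraMap k[X] K f0) (algebraMap k[X] K f1) := by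
  have h2 : (2 : k) ≠ 0 := Ring.two_ne_zero hk
  obtain ⟨π, hπ, hv⟩ := exists_gen v
  haveI : Fact (Irreducible π) := ⟨hπ⟩
  have hne : ∀ {p : k[X]}, p ≠ 0 →
      algebraMap K (Comp k[X] K v) (algebraMap k[X] K p) ≠ 0 := by
    intro p hp
    refine (_root_.map_ne_zero _).2 ?_
    rw [Ne, IsFractionRing.to_map_eq_zero_iff]
    exact hp
  have nz : ∀ {p : k[X]}, p ∉ v.asIdeal → p ≠ 0 := by
    rintro p hp rfl
    exact hp v.asIdeal.zero_mem
  have j2 : (2 : Comp k[X] K v) ≠ 0 := by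
    have h3 : (2 : K) ≠ 0 := tt h2
    have h4 := (_root_.map_ne_zero (algebraMap K (Comp k[X] K v))).2 h3
    rwa [map_ofNat] at h4
  have jαβ : algebraMap K (Comp k[X] K v) (algebraMap k[X] K α) ≠
      algebraMap K (Comp k[X] K v) (algebraMap k[X] K β) := by
    intro h
    have h3 := hne (nz hαβ)
    rw [map_sub, map_sub, h, sub_self] at h3
    exact h3 rfl
  -- the residue field
  let κ := AdjoinRoot π
  haveI : Module.Finite k κ := (AdjoinRoot.powerBasis hπ.ne_zero).finite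
  haveI : Finite κ := Module.finite_of_finite k
  have hmk : ∀ p : k[X], AdjoinRoot.mk π p = 0 ↔ p ∈ v.asIdeal := fun p => by
    rw [AdjoinRoot.mk_eq_zero, hv]
  have mne : ∀ {p : k[X]}, p ∉ v.asIdeal → AdjoinRoot.mk π p ≠ 0 := fun hp h => hp ((hmk _).1 h)
  have k2 : (2 : κ) ≠ 0 := by
    have h3 := (_root_.map_ne_zero (algebraMap k κ)).2 h2
    rwa [map_ofNat] at h3
  have hαβ' : AdjoinRoot.mk π α ≠ AdjoinRoot.mk π β := by
    intro h
    apply mne hαβ
    rw [map_sub, h, sub_self]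
  obtain ⟨Q, ⟨c0, n0, e0⟩, ⟨c1, n1, e1⟩⟩ := ff_sol k2 (mne hα) (mne hβ) hαβ' (mne h0) (mne h1)
  obtain ⟨s0, rfl⟩ := AdjoinRoot.mk_surjective c0
  obtain ⟨s1, rfl⟩ := AdjoinRoot.mk_surjective c1
  have m0 : s0 ∉ v.asIdeal := fun h => n0 ((hmk _).2 h)
  have m1 : s1 ∉ v.asIdeal := fun h => n1 ((hmk _).2 h)
  -- the comparison of two polynomials
  have cmp : ∀ {p q s : k[X]}, s ∉ v.asIdeal → q ∉ v.asIdeal →
      AdjoinRoot.mk π p = AdjoinRoot.mk π s ^ 2 * AdjoinRoot.mk π q →
      SqEq (algebraMap K (Comp k[X] K v) (algebraMap k[X] K p))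
        (algebraMap K (Comp k[X] K v) (algebraMap k[X] K q)) := by
    intro p q s hs hq e
    apply near_mod h2 v (s := s) _ hs hq
    rw [← hmk, map_sub, map_mul, map_pow, e, sub_self]
  have one_nm : (1 : k[X]) ∉ v.asIdeal := fun h => v.isPrime.ne_top ((Ideal.eq_top_iff_one _).2 h)
  have mulnm : ∀ {p q : k[X]}, p ∉ v.asIdeal → q ∉ v.asIdeal → p * q ∉ v.asIdeal := by
    intro p q hp hq h
    rcases v.isPrime.mem_or_mem h with h | h
    · exact hp h
    · exact hq h
  have hE := isE (AdjoinRoot.mk π α) (AdjoinRoot.mk π β) κ k2 (mne hα) (mne hβ) hαβ'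
  rcases Q with _ | ⟨x, y, hxy⟩
  · simp only [d0, d1] at e0 e1
    apply locR_tor _ j2 (hne (nz hα)) (hne (nz hβ)) jαβ
    left
    have g0 := cmp (p := f0) (q := 1) m0 one_nm (by rw [map_one]; exact e0)
    have g1 := cmp (p := f1) (q := 1) m1 one_nm (by rw [map_one]; exact e1)
    rw [map_one, map_one] at g0 g1
    exact ⟨g0, g1⟩
  · obtain ⟨X0, rfl⟩ := AdjoinRoot.mk_surjective x
    obtain ⟨Y0, rfl⟩ := AdjoinRoot.mk_surjective y
    have heq : AdjoinRoot.mk π Y0 ^ 2 = AdjoinRoot.mk π X0 * (AdjoinRoot.mk π X0 - AdjoinRoot.mk π α) *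
      (AdjoinRoot.mk π X0 - AdjoinRoot.mk π β) := hE.nonsingular.1 hxy
    by_cases hY : AdjoinRoot.mk π Y0 = 0
    · -- points of order two
      rcases root_of_tor hE hxy hY with h | h | h
      · simp only [d0, d1, h, if_true, if_neg (mne hα).symm, zero_sub] at e0 e1
        apply locR_tor _ j2 (hne (nz hα)) (hne (nz hβ)) jαβ
        right; left
        have g0 := cmp (p := f0) (q := α * β) m0 (mulnm hα hβ) (by rw [map_mul]; exact e0)
        have hnα : -α ∉ v.asIdeal := fun h => hα (neg_mem_iff.1 h)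
        have g1 := cmp (p := f1) (q := -α) m1 hnα (by rw [map_neg]; exact e1)
        simp only [map_mul, map_neg] at g0 g1
        exact ⟨g0, g1⟩
      · have h' : AdjoinRoot.mk π X0 = AdjoinRoot.mk π α := h
        simp only [d0, d1, h', if_true, if_neg (mne hα)] at e0 e1
        apply locR_tor _ j2 (hne (nz hα)) (hne (nz hβ)) jαβ
        right; right; left
        have g0 := cmp (p := f0) (q := α) m0 hα e0
        have g1 := cmp (p := f1) (q := α * (α - β)) m1 (mulnm hα hαβ) (by rw [map_mul, map_sub]; exact e1)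
        simp only [map_mul, map_sub] at g0 g1
        exact ⟨g0, g1⟩
      · have h' : AdjoinRoot.mk π X0 = AdjoinRoot.mk π β := h
        simp only [d0, d1, h', if_neg (mne hβ), if_neg hαβ'.symm] at e0 e1
        apply locR_tor _ j2 (hne (nz hα)) (hne (nz hβ)) jαβ
        right; right; right
        have hβα : β - α ∉ v.asIdeal := fun h => hαβ (by
          have := neg_mem h
          rwa [neg_sub] at this)
        have g0 := cmp (p := f0) (q := β) m0 hβ e0
        have g1 := cmp (p := f1) (q := β - α) m1 hβα (by rw [map_sub]; exact e1)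
        simp only [map_sub] at g0 g1
        exact ⟨g0, g1⟩
    · -- the other points
      have nY : Y0 ∉ v.asIdeal := fun h => hY ((hmk _).2 h)
      have hx0 : AdjoinRoot.mk π X0 ≠ 0 := by
        intro h
        apply hY
        rw [h, zero_mul, zero_mul] at heq
        exact pow_eq_zero_iff two_ne_zero |>.1 heq
      have hxa : AdjoinRoot.mk π X0 ≠ AdjoinRoot.mk π α := by
        intro h
        apply hY
        rw [h, sub_self, mul_zero, zero_mul] at heq
        exact pow_eq_zero_iff two_ne_zero |>.1 heq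
      simp only [d0, d1, if_neg hx0, if_neg hxa] at e0 e1
      have nX : X0 ∉ v.asIdeal := fun h => hx0 ((hmk _).2 h)
      have nXa : X0 - α ∉ v.asIdeal := fun h => hxa (by
        have := (hmk _).2 h
        rw [map_sub, sub_eq_zero] at this
        exact this)
      have g0 := cmp (p := f0) (q := X0) m0 nX e0
      have g1 := cmp (p := f1) (q := X0 - α) m1 nXa (by rw [map_sub]; exact e1)
      have g2 := cmp (p := X0 * (X0 - α) * (X0 - β)) (q := 1) nY one_nm (by
        rw [map_one, mul_one]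
        simp only [map_mul, map_sub]
        exact heq.symm)
      rw [map_one, map_one] at g2
      obtain ⟨Y, hY0, hYe⟩ := g2
      have hxne : algebraMap K (Comp k[X] K v) (algebraMap k[X] K X0) ≠ 0 := hne (nz nX)
      refine locR_pt _ j2 (hne (nz hα)) (hne (nz hβ)) jαβ (y := Y) ?_ hxne ?_ g0 ?_
      · rw [mul_one] at hYe
        rw [← hYe]
        simp only [map_mul, map_sub]
      · intro h
        have h3 := hne (nz nXa)
        rw [map_sub, map_sub, h, sub_self] at h3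
        exact h3 rfl
      · simp only [map_sub] at g1
        exact g1

end Q283.FS
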