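import Pool.Agent.Q283.FS.Ker

/-!
The number of the solutions of the local equations.
-/

set_option autoImplicit false
set_option linter.all false

open scoped Classical

namespace Q283.FS

open Finset
open Pool.Agent.Y164.PS

variable {ι τ : Type} [Fintype ι] [Fintype τ]
variable (D : Dat τ) (A : ι → ι → F2) (B : ι → τ → F2) (d : ι → F2)

theorem FF_key (w : V ι τ) (x0 : W) (w' : V ι τ) : FF D A B d w w' + om x0 (dg D d w') =
      ∑ i, om (E1 (A := A) D B d w x0 i) (w'.1 i) + ∑ s, E2 (ι := ι) D B w x0 s * w'.2 s := by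
  have a1 : ∀ i, om (E1 (A := A) D B d w x0 i) (w'.1 i) =
      ∑ j, A i j * (om (w.1 j) (w'.1 i) + om (w.1 i) (w'.1 i)) +
      ∑ s, B i s * (om (w.1 i) (D.t s) * om (D.t s) (w'.1 i) + w.2 s * om (D.t s) (w'.1 i)) +
      (d i * om (ks D.l (w.1 i)) (w'.1 i) + d i * om x0 (w'.1 i)) := by
    intro i
    simp only [E1, om_add_left, om_sum_left, om_smul_left]
    rw [mul_add (d i)]
  have a2 : ∀ s, E2 (ι := ι) D B w x0 s * w'.2 s = w.2 s * w'.2 s +
      ∑ i, B i s * (w'.2 s * om (w.1 i) (D.t s)) +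
      ∑ s', D.G s s' * (w.2 s' * w'.2 s * om (D.t s') (D.t s)) +
      D.e s * w'.2 s * om x0 (D.t s) := by
    intro s
    simp only [E2, add_mul, sum_mul]
    congr 1
    · congr 1
      · congr 1
        refine sum_congr rfl fun i _ => ?_
        ring
      · refine sum_congr rfl fun i _ => ?_
        ring
    · ring
  have a3 : om x0 (dg D d w') = ∑ i, d i * om x0 (w'.1 i) + ∑ s, D.e s * w'.2 s * om x0 (D.t s) := by
    simp only [dg, om_add_right, om_sum_right, om_smul_right]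
  have a4 : ∑ i, ∑ s, B i s * (om (w.1 i) (D.t s) * om (w'.1 i) (D.t s) +
      w.2 s * om (D.t s) (w'.1 i) + w'.2 s * om (w.1 i) (D.t s)) =
      ∑ i, ∑ s, B i s * (om (w.1 i) (D.t s) * om (D.t s) (w'.1 i) + w.2 s * om (D.t s) (w'.1 i)) +
      ∑ s, ∑ i, B i s * (w'.2 s * om (w.1 i) (D.t s)) := by
    rw [sum_comm (s := (univ : Finset τ)) (t := (univ : Finset ι)), ← sum_add_distrib]
    refine sum_congr rfl fun i _ => ?_
    rw [← sum_add_distrib]
    refine sum_congr rfl fun s _ => ?_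
    rw [om_comm (w'.1 i) (D.t s)]; ring
  rw [a3]
  simp only [a1, a2, sum_add_distrib]
  rw [FF, a4]
  ring

/-- the solutions of the local equations -/
def Sol : Type := {p : V ι τ × W // (∀ i, E1 (A := A) D B d p.1 p.2 i = 0) ∧
  ∀ s, E2 (ι := ι) D B p.1 p.2 s = 0}

theorem TT_self (y : W) : (TT D y : V ι τ) + TT D y = 0 := by
  apply Prod.ext
  · funext i
    exact W_add_self _
  · funext s
    exact F2_add_self _

theorem V_cancel (w : V ι τ) (y : W) : w + TT D y + TT D y = w := by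
  rw [add_assoc, TT_self, add_zero]

theorem V_self (w : V ι τ) : w + w = 0 := by
  apply Prod.ext
  · funext i
    exact W_add_self _
  · funext s
    exact F2_add_self _

variable {D A B d}

/-- a kernel vector satisfies the equations -/
theorem eqs_of_ker (hA : ∀ i j, A i j = A j i) (hcl : ∀ s, 1 + ∑ i, B i s + D.g s = 0)
    (hN : ∑ i, d i + D.N = 1) {w : V ι τ} (h0 : dg D d w = 0)
    (h : ∀ w' : V ι τ, dg D d w' = 0 → FF D A B d w w' = 0) :
    (∀ i, E1 (A := A) D B d w 0 i = 0) ∧ ∀ s, E2 (ι := ι) D B w 0 s = 0 := by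
  have hdT : ∀ y : W, dg D d (TT D y) = y := fun y => by rw [dg_TT, hN, one_smul]
  have hT : ∀ y : W, FF D A B d w (TT D y) = 0 := by
    intro y
    rw [FF_comm D B d hA, FF_eq D B d _ _ (E1_TT D B d y) (E2_TT D B hcl y), h0, om_zero_right]
  have hall : ∀ w' : V ι τ, FF D A B d w w' = 0 := by
    intro w'
    have h1 := h (w' + TT D (dg D d w')) (by rw [dg_add, hdT, W_add_self])
    rw [FF_add_right D B d hA, hT, add_zero] at h1
    exact h1
  have key : ∀ w' : V ι τ, ∑ i, om (E1 (A := A) D B d w 0 i) (w'.1 i) +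
      ∑ s, E2 (ι := ι) D B w 0 s * w'.2 s = 0 := by
    intro w'
    rw [← FF_key, hall, om_zero_left, add_zero]
  constructor
  · intro i
    apply eq_zero_of_om
    intro y
    have h1 := key (Pi.single i y, 0)
    rw [sum_eq_single i] at h1
    · simpa using h1
    · intro j _ hj
      show om _ ((Pi.single i y : ι → W) j) = 0
      rw [Pi.single_eq_of_ne hj, om_zero_right]
    · intro hi
      exact absurd (mem_univ _) hi
  · intro s
    have h1 := key (0, Pi.single s 1)
    rw [sum_eq_zero (fun i _ => ?_), zero_add, sum_eq_single s] at h1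
    · simpa using h1
    · intro j _ hj
      show _ * ((Pi.single s (1 : F2) : τ → F2) j) = 0
      rw [Pi.single_eq_of_ne hj, mul_zero]
    · intro hi
      exact absurd (mem_univ _) hi
    · exact om_zero_right _

/-- the solutions are kernel vectors and torsion vectors -/
theorem ker_of_eqs (hcl : ∀ s, 1 + ∑ i, B i s + D.g s = 0)
    (hA : ∀ i j, A i j = A j i) (hN : ∑ i, d i + D.N = 1) {w : V ι τ} {x0 : W}
    (h1 : ∀ i, E1 (A := A) D B d w x0 i = 0) (h2 : ∀ s, E2 (ι := ι) D B w x0 s = 0) :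
    dg D d (w + TT D (dg D d w)) = 0 ∧
    (∀ w' : V ι τ, dg D d w' = 0 → FF D A B d (w + TT D (dg D d w)) w' = 0) ∧
    x0 = ks D.l (dg D d w) := by
  set y := dg D d w with hy
  have hdT : ∀ y : W, dg D d (TT D y) = y := fun y => by rw [dg_TT, hN, one_smul]
  have k1 : ∀ i, E1 (A := A) D B d (w + TT D y) (x0 + ks D.l y) i = 0 := fun i => by
    rw [E1_add, h1, E1_TT, add_zero]
  have k2 : ∀ s, E2 (ι := ι) D B (w + TT D y) (x0 + ks D.l y) s = 0 := fun s => by
    rw [E2_add, h2, E2_TT D B hcl, add_zero]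
  have k3 := FF_eq D B d _ _ k1 k2
  have k0 : dg D d (w + TT D y) = 0 := by rw [dg_add, hdT, ← hy, W_add_self]
  refine ⟨k0, fun w' hw' => by rw [k3, hw', om_zero_right], ?_⟩
  have k6 : x0 + ks D.l y = 0 := by
    apply eq_zero_of_om
    intro z
    have h3 := k3 (TT D z)
    rw [hdT, FF_comm D B d hA, FF_eq D B d _ _ (E1_TT D B d z) (E2_TT D B hcl z), k0,
      om_zero_right] at h3
    exact h3.symm
  calc x0 = x0 + (ks D.l y + ks D.l y) := by rw [W_add_self, add_zero]
    _ = _ := by rw [← add_assoc, k6, zero_add]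

theorem Sol_z {p : V ι τ × W} (h2 : ∀ s, E2 (ι := ι) D B p.1 p.2 s = 0) {s : τ}
    (ht : D.t s = 0) : p.1.2 s = 0 := by
  have h := h2 s
  unfold E2 at h
  rw [ht, om_zero_right, mul_zero, add_zero, sum_eq_zero (fun i _ => by rw [om_zero_right, mul_zero]),
    add_zero, sum_eq_zero (fun i _ => by rw [om_zero_right, mul_zero, mul_zero]), add_zero] at h
  exact h

theorem card_Sol (hA : ∀ i j, A i j = A j i) (hcl : ∀ s, 1 + ∑ i, B i s + D.g s = 0)
    (hN : ∑ i, d i + D.N = 1) : Nat.card (Sol D A B d) = 4 * kc D A B d := by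
  have hdT : ∀ y : W, dg D d (TT D y : V ι τ) = y := fun y => by rw [dg_TT, hN, one_smul]
  unfold kc Sol
  rw [mul_comm]
  have h4 : Nat.card W = 4 := by
    rw [Nat.card_eq_fintype_card, Fintype.card_prod, ZMod.card]
  rw [← h4, ← Nat.card_prod]
  refine Nat.card_congr ?_
  refine ⟨fun p => (⟨p.1.1 + TT D (dg D d p.1.1), (ker_of_eqs hcl hA hN p.2.1 p.2.2).1,
    (ker_of_eqs hcl hA hN p.2.1 p.2.2).2.1⟩, dg D d p.1.1),
    fun q => ⟨(q.1.1 + TT D q.2, ks D.l q.2), ?_, ?_⟩, ?_, ?_⟩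
  · intro i
    have h := (eqs_of_ker hA hcl hN q.1.2.1 q.1.2.2).1 i
    have h1 := E1_add (A := A) (B := B) D d q.1.1 (TT D q.2) 0 (ks D.l q.2) i
    rw [zero_add, h, E1_TT, add_zero] at h1
    exact h1
  · intro s
    have h := (eqs_of_ker hA hcl hN q.1.2.1 q.1.2.2).2 s
    have h1 := E2_add (ι := ι) (B := B) D q.1.1 (TT D q.2) 0 (ks D.l q.2) s
    rw [zero_add, h, E2_TT D B hcl, add_zero] at h1
    exact h1
  · rintro ⟨⟨w, x0⟩, h1, h2⟩
    apply Subtype.ext
    apply Prod.ext
    · exact V_cancel D w _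
    · exact (ker_of_eqs hcl hA hN h1 h2).2.2.symm
  · rintro ⟨⟨w, h1, h2⟩, y⟩
    have e : dg D d (w + TT D y) = y := by rw [dg_add, h1, hdT, zero_add]
    apply Prod.ext
    · apply Subtype.ext
      show w + TT D y + TT D (dg D d (w + TT D y)) = w
      rw [e, V_cancel]
    · exact e

end Q283.FS
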