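import Pool.Agent.Q283.FS.Lc
import Pool.Agent.Q283.FS.So

/-!
The classes of the points of order two at the bad primes.
-/

set_option autoImplicit false
set_option linter.all false

open scoped Classical

namespace Q283.FS

open Polynomial IsDedekindDomain WeierstrassCurve WeierstrassCurve.Affine
open Pool.Agent.TH115.GD Pool.Agent.Y164.PS Pool.Agent.H341R2.Sharp Finset

variable {k K : Type} [Field k] [Fintype k] [DecidableEq k] [Field K] [Algebra k[X] K]
  [IsFractionRing k[X] K]
variable {a b : k[X]} {N : ℕ} (H : Hyp a b N)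
variable {ι : Type} [Fintype ι] {P : ι → k[X]}

/-- the type of a bad prime -/
noncomputable def ev (a b : k[X]) (s : Tau a b) : W :=
  if QQ a b s ∣ a then (1, 1) else if QQ a b s ∣ b then (1, 0) else (0, 1)

theorem ev_ne (s : Tau a b) : ev a b s ≠ 0 := by
  unfold ev
  split_ifs <;> decide

include H in
theorem tv_ev (s : Tau a b) : tv a b s = 0 ∨ tv a b s = ev a b s := by
  rcases tri H s with ⟨h1, h2, h3⟩ | ⟨h1, h2, h3⟩ | ⟨h1, h2, h3⟩
  · have e2 : mu b s.1 = 0 := mu_eq_zero h2
    have e3 : mu (a - b) s.1 = 0 := mu_eq_zero h3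
    rw [tv, ev, if_pos h1, e2, e3]
    rcases F2_cases (mu a s.1 : F2) with h | h <;> rw [h]
    · left; simp
    · right; simp
  · have e1 : mu a s.1 = 0 := mu_eq_zero h1
    have e3 : mu (a - b) s.1 = 0 := mu_eq_zero h3
    rw [tv, ev, if_neg h1, if_pos h2, e1, e3]
    rcases F2_cases (mu b s.1 : F2) with h | h <;> rw [h]
    · left; simp
    · right; simp
  · have e1 : mu a s.1 = 0 := mu_eq_zero h1
    have e2 : mu b s.1 = 0 := mu_eq_zero h2
    rw [tv, ev, if_neg h1, if_neg h2, e1, e2]
    rcases F2_cases (mu (a - b) s.1 : F2) with h | h <;> rw [h]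
    · left; simp
    · right; simp

include H in
theorem h1_ev (s : Tau a b) (y : W) :
    ∑ s', L (QQ a b s) (QQ a b s') * (om y (tv a b s') * om (tv a b s') (ev a b s)) +
      ((QQ a b s).natDegree : F2) * om (ks (datum H).l y) (ev a b s) =
      gv a b s * om y (ev a b s) := by
  have hc : a - b ≠ 0 := sub_ne_zero.2 H.hab
  obtain ⟨da, db, dc⟩ := dvd3 H
  have S : ∀ {f : k[X]}, f ≠ 0 → (∀ Q : k[X], Q ∣ f → Q ∣ a * b * (a - b)) → ¬ QQ a b s ∣ f →
      ∑ s', L (QQ a b s) (QQ a b s') * (mu f s'.1 : F2) =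
      L f (QQ a b s) + ((QQ a b s).natDegree : F2) * ch f.leadingCoeff := by
    intro f hf hd hs
    rw [L_fac H hf hd s hs]
    have h1 : ∑ s', L (QQ a b s) (QQ a b s') * (mu f s'.1 : F2) =
        ∑ s', (mu f s'.1 : F2) * L (QQ a b s') (QQ a b s) :=
      sum_congr rfl fun s' _ => by rw [L_comm H.hm, mul_comm]
    rw [h1]
    have := F2_add_self (((QQ a b s).natDegree : F2) * ch f.leadingCoeff)
    rw [add_assoc, this, add_zero]
  have hirr := (H.fam).irr s
  have hmon := (H.fam).mon s
  rcases tri H s with ⟨h1, h2, h3⟩ | ⟨h1, h2, h3⟩ | ⟨h1, h2, h3⟩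
  · have hL : L (a - b) (QQ a b s) = L b (QQ a b s) := by
      rw [← L_neg_left H.hk H.hm hmon hirr]
      apply L_congr H.hk hmon hirr
      have : -(a - b) - b = -a := by ring
      rw [this]
      exact (dvd_neg).2 h1
    have k1 : ∀ s', L (QQ a b s) (QQ a b s') * (om y (tv a b s') * om (tv a b s') (ev a b s)) =
        (y.1 * (L (QQ a b s) (QQ a b s') * (mu (a - b) s'.1 : F2)) +
          y.2 * (L (QQ a b s) (QQ a b s') * (mu b s'.1 : F2))) := by
      intro s'
      obtain ⟨c1, c2, c3⟩ := cross H s'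
      have := id1 (mu a s'.1) (mu b s'.1) (mu (a - b) s'.1) y.1 y.2 c1 c2 c3
      simp only [om, tv, ev, if_pos h1]
      linear_combination (L (QQ a b s) (QQ a b s')) * this +
        (L (QQ a b s) (QQ a b s') * (mu a s'.1 : F2) *
          (y.1 * (mu a s'.1 + mu (a - b) s'.1) + y.2 * (mu a s'.1 + mu b s'.1))) * F2_add_self 1
    rw [sum_congr rfl (fun s' _ => k1 s'), sum_add_distrib, ← mul_sum, ← mul_sum,
      S hc dc h3, S H.hb db h2, hL, gv, if_pos h1]
    simp only [om, ks, ev, if_pos h1, datum]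
    linear_combination ((QQ a b s).natDegree : F2) *
      (y.1 * ch (a - b).leadingCoeff + y.2 * ch b.leadingCoeff + y.1 * ch a.leadingCoeff +
        y.2 * ch a.leadingCoeff) * F2_add_self 1
  · have hL : L (a - b) (QQ a b s) = L a (QQ a b s) := by
      apply L_congr H.hk hmon hirr
      have : a - b - a = -b := by ring
      rw [this]
      exact (dvd_neg).2 h2
    have k1 : ∀ s', L (QQ a b s) (QQ a b s') * (om y (tv a b s') * om (tv a b s') (ev a b s)) =
        (y.1 * (L (QQ a b s) (QQ a b s') * (mu a s'.1 : F2)) +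
          y.1 * (L (QQ a b s) (QQ a b s') * (mu (a - b) s'.1 : F2)) +
          y.2 * (L (QQ a b s) (QQ a b s') * (mu a s'.1 : F2))) := by
      intro s'
      obtain ⟨c1, c2, c3⟩ := cross H s'
      have := id2 (mu a s'.1) (mu b s'.1) (mu (a - b) s'.1) y.1 y.2 c1 c2 c3
      simp only [om, tv, ev, if_neg h1, if_pos h2]
      linear_combination (L (QQ a b s) (QQ a b s')) * this
    rw [sum_congr rfl (fun s' _ => k1 s'), sum_add_distrib, sum_add_distrib, ← mul_sum,
      ← mul_sum, ← mul_sum, S hc dc h3, S H.ha da h1, hL, gv, if_neg h1]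
    simp only [om, ks, ev, if_neg h1, if_pos h2, datum]
    linear_combination (((QQ a b s).natDegree : F2) *
      (y.1 * ch (a - b).leadingCoeff + y.1 * ch a.leadingCoeff +
        y.2 * ch a.leadingCoeff) + y.1 * L a (QQ a b s)) * F2_add_self 1
  · have hL : L b (QQ a b s) = L a (QQ a b s) := by
      symm
      apply L_congr H.hk hmon hirr
      exact h3
    have k1 : ∀ s', L (QQ a b s) (QQ a b s') * (om y (tv a b s') * om (tv a b s') (ev a b s)) =
        (y.1 * (L (QQ a b s) (QQ a b s') * (mu a s'.1 : F2)) +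
          y.2 * (L (QQ a b s) (QQ a b s') * (mu a s'.1 : F2)) +
          y.2 * (L (QQ a b s) (QQ a b s') * (mu b s'.1 : F2))) := by
      intro s'
      obtain ⟨c1, c2, c3⟩ := cross H s'
      have := id3 (mu a s'.1) (mu b s'.1) (mu (a - b) s'.1) y.1 y.2 c1 c2 c3
      simp only [om, tv, ev, if_neg h1, if_neg h2]
      linear_combination (L (QQ a b s) (QQ a b s')) * this
    rw [sum_congr rfl (fun s' _ => k1 s'), sum_add_distrib, sum_add_distrib, ← mul_sum,
      ← mul_sum, ← mul_sum, S H.hb db h2, S H.ha da h1, hL, gv, if_neg h1]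
    simp only [om, ks, ev, if_neg h1, if_neg h2, datum]
    linear_combination (((QQ a b s).natDegree : F2) *
      (y.1 * ch a.leadingCoeff + y.2 * ch a.leadingCoeff +
        y.2 * ch b.leadingCoeff) + y.2 * L a (QQ a b s)) * F2_add_self 1

/-- the symbols of the points of order two at a bad prime -/
noncomputable def LTv (P : ι → k[X]) (s : Tau a b) (y : W) : W :=
  LW (RR a b P) (rp0 a b y) (rp1 a b y) (np0 ι a b y) (np1 ι a b y) (QQ a b s)

include H in
theorem LTv_eq (s : Tau a b) (y : W) : LTv P s y = ∑ j, L (P j) (QQ a b s) • y +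
    ∑ s', L (QQ a b s') (QQ a b s) • (om y (tv a b s') • tv a b s') +
    ((QQ a b s).natDegree : F2) • ks (datum H).l y := by
  rw [LTv, LW_eq, rp_ch H]
  simp only [np_inl, np_inr H]

include H in
theorem LTv_add (s : Tau a b) (y y' : W) : LTv P s (y + y') = LTv P s y + LTv P s y' := by
  rw [LTv_eq H, LTv_eq H, LTv_eq H]
  simp only [smul_add, om_add_left, add_smul, ks_add, sum_add_distrib]
  abel

include H in
theorem om_LTv (s : Tau a b) (y y' : W) : om (LTv P s y) y' =
    (∑ j, L (P j) (QQ a b s)) * om y y' +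
    ∑ s', L (QQ a b s') (QQ a b s) * (om y (tv a b s') * om (tv a b s') y') +
    ((QQ a b s).natDegree : F2) * om (ks (datum H).l y) y' := by
  rw [LTv_eq H]
  simp only [om_add_left, om_sum_left, om_smul_left, sum_mul]

include H in
theorem LTv_symm (s : Tau a b) (y y' : W) : om (LTv P s y) y' = om (LTv P s y') y := by
  rw [om_LTv H, om_LTv H, om_comm y' y, om_ks_comm]
  congr 2
  refine sum_congr rfl fun s' _ => ?_
  rw [om_comm y' (tv a b s'), om_comm (tv a b s') y]
  ring

include H in
theorem LTv_ev (hcl : cl (datum H) (QQ a b) P) (s : Tau a b) (y : W) :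
    om (LTv P s y) (ev a b s) = om y (ev a b s) := by
  rw [om_LTv H, add_assoc]
  have h := h1_ev H s y
  have e : ∑ s', L (QQ a b s') (QQ a b s) * (om y (tv a b s') * om (tv a b s') (ev a b s)) =
      ∑ s', L (QQ a b s) (QQ a b s') * (om y (tv a b s') * om (tv a b s') (ev a b s)) :=
    sum_congr rfl fun s' _ => by rw [L_comm H.hm]
  rw [e, h, ← add_mul]
  have hc := hcl s
  have hc' : 1 + ∑ i, L (P i) (QQ a b s) + gv a b s = 0 := hc
  have e2 : ∀ x z : F2, 1 + x + z = 0 → x + z = 1 := by decide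
  rw [e2 _ _ hc', one_mul]

include H in
theorem LTv_self (hcl : cl (datum H) (QQ a b) P) (s : Tau a b) :
    LTv P s (ev a b s) = ev a b s := by
  have h : ∀ y, om (LTv P s (ev a b s) + ev a b s) y = 0 := by
    intro y
    rw [om_add_left, LTv_symm H, LTv_ev H hcl, om_comm y, F2_add_self]
  have h1 := eq_zero_of_om _ h
  have h2 : LTv P s (ev a b s) + ev a b s + ev a b s = ev a b s := by rw [h1, zero_add]
  rwa [add_assoc, W_add_self, add_zero] at h2

include H in
theorem LTv_surj (hcl : cl (datum H) (QQ a b) P) (s : Tau a b) :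
    Function.Surjective (LTv (a := a) (b := b) P s) := by
  apply Finite.surjective_of_injective
  have h0 : ∀ y, LTv P s y = 0 → y = 0 := by
    intro y hy
    have h1 := LTv_ev H hcl s y
    rw [hy, om_zero_left] at h1
    have h2 : ∀ e y : W, e ≠ 0 → 0 = om y e → y = 0 ∨ y = e := by decide
    rcases h2 _ _ (ev_ne s) h1 with h | h
    · exact h
    · rw [h, LTv_self H hcl] at hy
      exact absurd hy (ev_ne s)
  intro y y' h
  have h1 : LTv P s (y + y') = 0 := by rw [LTv_add H, h, W_add_self]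
  have h2 := h0 _ h1
  have h3 : y + y' + y' = y' := by rw [h2, zero_add]
  rwa [add_assoc, W_add_self, add_zero] at h3

include H in
/-- the local classes at a bad prime -/
theorem bad_cls (hcl : cl (datum H) (QQ a b) P) (s : Tau a b) {z : F2} {u : W}
    (hz : tv a b s = 0 → z = 0) (hu : om u (tv a b s) = z) :
    ∃ y, LTv P s y = u ∧ om y (tv a b s) • tv a b s = z • tv a b s := by
  obtain ⟨y, rfl⟩ := LTv_surj H hcl s u
  refine ⟨y, rfl, ?_⟩
  rcases tv_ev H s with h | h
  · rw [h, smul_zero, smul_zero]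
  · rw [h, LTv_ev H hcl] at hu
    rw [h, hu]

end Q283.FS
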