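import Pool.Agent.Q283.FS.Ld

/-!
The pairs of the solutions of the local equations are everywhere locally soluble.
-/

set_option autoImplicit false
set_option linter.all false

open scoped Classical

namespace Q283.FS

open Polynomial IsDedekindDomain WeierstrassCurve WeierstrassCurve.Affine
open Pool.Agent.TH115.GD Pool.Agent.Y164.PS Pool.Agent.H341R2.Sharp Finset

variable {k K : Type} [Field k] [Fintype k] [DecidableEq k] [Field K] [Algebra k[X] K]
  [IsFractionRing k[X] K]
variable {a b : k[X]} {N : ℕ} (H : Hyp a b N)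
variable {ι : Type} [Fintype ι] {P : ι → k[X]} (hR : Fam (RR a b P))

theorem F2_eq {x y : F2} (h : x + y = 0) : x = y := by revert x y; decide

theorem W_eqz {x y : W} (h : x + y = 0) : x = y := by revert x y; decide

include H in
/-- local solubility of the classes of the points of order two -/
theorem locR_of_tor {L : Type} [Field L] (j : K →+* L) (h2 : (2 : L) ≠ 0)
    (hα : j (al K a P) ≠ 0) (hβ : j (al K b P) ≠ 0) (hαβ : j (al K a P) ≠ j (al K b P)) (y : W)
    {a0 a1 : K} (h0 : SqEq (j a0) (j (algebraMap k[X] K (el (RR a b P) (rp0 a b y) (np0 ι a b y)))))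
    (h1 : SqEq (j a1) (j (algebraMap k[X] K (el (RR a b P) (rp1 a b y) (np1 ι a b y))))) :
    LocR j (al K a P) (al K b P) a0 a1 := by
  apply locR_tor j h2 hα hβ hαβ
  have hsub : algebraMap k[X] K ((a - b) * ∏ i, P i) = al K a P - al K b P := by
    rw [sub_mul, map_sub]
  rcases W_cases y with rfl | rfl | rfl | rfl
  · left
    rw [((tor_el (P := P) H (0, 0)).1 rfl).1, map_one, map_one] at h0
    rw [((tor_el (P := P) H (0, 0)).1 rfl).2, map_one, map_one] at h1
    exact ⟨h0, h1⟩
  · right; left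
    rw [((tor_el (P := P) H (0, 1)).2.1 rfl).1, map_mul, map_mul] at h0
    rw [((tor_el (P := P) H (0, 1)).2.1 rfl).2, map_neg, map_neg] at h1
    exact ⟨h0, h1⟩
  · right; right; left
    rw [((tor_el (P := P) H (1, 0)).2.2.1 rfl).1] at h0
    rw [((tor_el (P := P) H (1, 0)).2.2.1 rfl).2, map_mul, hsub, map_mul, map_sub] at h1
    exact ⟨h0, h1⟩
  · right; right; right
    rw [((tor_el (P := P) H (1, 1)).2.2.2 rfl).1] at h0
    rw [((tor_el (P := P) H (1, 1)).2.2.2 rfl).2, map_neg, hsub, neg_sub, map_sub] at h1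
    exact ⟨h0, h1⟩

/-- a place which contains a prime -/
theorem eq_plK {π : k[X]} (hπ : Irreducible π) {v : HeightOneSpectrum k[X]} (h : π ∈ v.asIdeal) :
    v = plK hπ := by
  apply HeightOneSpectrum.ext
  symm
  haveI : (plK hπ).asIdeal.IsMaximal := (plK hπ).isMaximal
  refine Ideal.IsMaximal.eq_of_le this v.isPrime.ne_top ?_
  intro p hp
  rw [mem_plK] at hp
  obtain ⟨q, rfl⟩ := hp
  exact v.asIdeal.mul_mem_right _ h

include H hR in
theorem exists_place {v : HeightOneSpectrum k[X]} (hv : a * b * (a - b) * ∏ i, P i ∈ v.asIdeal) :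
    ∃ x : ι ⊕ Tau a b, v = plK (hR.irr x) := by
  obtain ⟨π, hπ, hvπ⟩ := exists_gen v
  rw [hvπ] at hv
  rcases hπ.prime.dvd_or_dvd hv with h4 | h4
  · have hl : π.leadingCoeff ≠ 0 := leadingCoeff_ne_zero.2 hπ.ne_zero
    have hu : IsUnit (C π.leadingCoeff⁻¹ : k[X]) :=
      isUnit_C.2 (isUnit_iff_ne_zero.2 (inv_ne_zero hl))
    have h5 : C π.leadingCoeff⁻¹ * π ∣ π := (hu.mul_left_dvd).2 dvd_rfl
    have h6 : C π.leadingCoeff⁻¹ * π ∈ bp a b := by
      rw [mem_bp H]
      refine ⟨?_, ?_, h5.trans h4⟩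
      · rw [Monic, leadingCoeff_mul, leadingCoeff_C, inv_mul_cancel₀ hl]
      · exact (irreducible_isUnit_mul hu).2 hπ
    refine ⟨Sum.inr ⟨_, h6⟩, eq_plK _ ?_⟩
    rw [hvπ]
    exact dvd_mul_left _ _
  · rw [hπ.prime.dvd_finset_prod_iff] at h4
    obtain ⟨i, _, h5⟩ := h4
    refine ⟨Sum.inl i, eq_plK _ ?_⟩
    rw [hvπ]
    exact h5

theorem natDegree_el {κ : Type} [Fintype κ] {R : κ → k[X]} (hR : Fam R) {r : k} (hr : r ≠ 0)
    (n : κ → ℕ) : (el R r n).natDegree = ∑ x, n x * (R x).natDegree := by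
  rw [el, natDegree_C_mul hr, natDegree_prod_of_monic _ _ fun x _ => (hR.mon x).pow _]
  exact sum_congr rfl fun x _ => (hR.mon x).natDegree_pow _

theorem leadingCoeff_el {κ : Type} [Fintype κ] {R : κ → k[X]} (hR : Fam R) (r : k)
    (n : κ → ℕ) : (el R r n).leadingCoeff = r := by
  rw [el, leadingCoeff_mul, leadingCoeff_C,
    (monic_prod_of_monic _ _ fun x _ => (hR.mon x).pow _ : (∏ x, R x ^ n x).Monic).leadingCoeff,
    mul_one]

include hR in
/-- the degrees of a pair -/
theorem deg_pair {r0 r1 : k} (hr0 : r0 ≠ 0) (hr1 : r1 ≠ 0) {n0 n1 : ι ⊕ Tau a b → ℕ}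
    {w : ι → W} {z : Tau a b → F2}
    (hw : ∀ i, (((n0 (Sum.inl i) : F2), (n1 (Sum.inl i) : F2)) : W) = w i)
    (hz : ∀ s, (((n0 (Sum.inr s) : F2), (n1 (Sum.inr s) : F2)) : W) = z s • tv a b s) :
    ((((el (RR a b P) r0 n0).natDegree : F2), ((el (RR a b P) r1 n1).natDegree : F2)) : W) =
      dg (datum H) (fun i => ((P i).natDegree : F2)) (w, z) := by
  rw [natDegree_el hR hr0, natDegree_el hR hr1, dg]
  have e : (((∑ x, n0 x * (RR a b P x).natDegree : ℕ) : F2), ((∑ x, n1 x * (RR a b P x).natDegree : ℕ) : F2)) =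
      ∑ i, ((P i).natDegree : F2) • (((n0 (Sum.inl i) : F2), (n1 (Sum.inl i) : F2)) : W) +
      ∑ s, ((QQ a b s).natDegree : F2) • (((n0 (Sum.inr s) : F2), (n1 (Sum.inr s) : F2)) : W) := by
    apply Prod.ext
    · rw [Prod.fst_add, Prod.fst_sum, Prod.fst_sum]
      simp only [Fintype.sum_sum_type, Sum.elim_inl, Sum.elim_inr, Nat.cast_add, Nat.cast_sum,
        Nat.cast_mul, Prod.smul_fst, smul_eq_mul]
      congr 1
      · exact sum_congr rfl fun _ _ => mul_comm _ _
      · exact sum_congr rfl fun _ _ => mul_comm _ _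
    · rw [Prod.snd_add, Prod.snd_sum, Prod.snd_sum]
      simp only [Fintype.sum_sum_type, Sum.elim_inl, Sum.elim_inr, Nat.cast_add, Nat.cast_sum,
        Nat.cast_mul, Prod.smul_snd, smul_eq_mul]
      congr 1
      · exact sum_congr rfl fun _ _ => mul_comm _ _
      · exact sum_congr rfl fun _ _ => mul_comm _ _
  rw [e]
  simp only [hw, hz]
  congr 1
  refine sum_congr rfl fun s _ => ?_
  show _ = (((QQ a b s).natDegree : F2) * z s) • tv a b s
  rw [smul_smul]

include H hR in
/-- the pairs of the solutions are everywhere locally soluble -/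
theorem lsg_of_sol (hcl : cl (datum H) (QQ a b) P)
    (hN : ∑ i, ((P i).natDegree : F2) + (N : F2) = 1) {r0 r1 : k} (hr0 : r0 ≠ 0) (hr1 : r1 ≠ 0)
    {n0 n1 : ι ⊕ Tau a b → ℕ} {w : ι → W} {z : Tau a b → F2} {x0 : W}
    (hw : ∀ i, (((n0 (Sum.inl i) : F2), (n1 (Sum.inl i) : F2)) : W) = w i)
    (hz : ∀ s, (((n0 (Sum.inr s) : F2), (n1 (Sum.inr s) : F2)) : W) = z s • tv a b s)
    (hx : ((ch r0, ch r1) : W) = x0)
    (h1 : ∀ i, E1 (A := AT P) (datum H) (BT (QQ a b) P) (fun i => ((P i).natDegree : F2))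
      (w, z) x0 i = 0)
    (h2 : ∀ s, E2 (ι := ι) (datum H) (BT (QQ a b) P) (w, z) x0 s = 0) :
    LSg (F := K) k (crv (al K a P) (al K b P)) (al K a P) (al K b P)
      (algebraMap k[X] K (el (RR a b P) r0 n0)) (algebraMap k[X] K (el (RR a b P) r1 n1)) := by
  have hk2 := two_ne H
  obtain ⟨t1, t2, t3⟩ := tw_ne H hR
  have inj := IsFractionRing.injective k[X] K
  have h2K : (2 : K) ≠ 0 := tt hk2
  have haK : al K a P ≠ 0 := by
    rw [al, Ne, IsFractionRing.to_map_eq_zero_iff]; exact t1
  have hbK : al K b P ≠ 0 := by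
    rw [al, Ne, IsFractionRing.to_map_eq_zero_iff]; exact t2
  have habK : al K a P ≠ al K b P := fun h => t3 (inj h)
  have j2 : ∀ {L : Type} [Field L] (j : K →+* L), (2 : L) ≠ 0 := by
    intro L _ j
    have h4 := (_root_.map_ne_zero j).2 h2K
    rwa [map_ofNat] at h4
  have ja : ∀ {L : Type} [Field L] (j : K →+* L), j (al K a P) ≠ 0 := fun j =>
    (_root_.map_ne_zero j).2 haK
  have jb : ∀ {L : Type} [Field L] (j : K →+* L), j (al K b P) ≠ 0 := fun j =>
    (_root_.map_ne_zero j).2 hbK
  have jab : ∀ {L : Type} [Field L] (j : K →+* L), j (al K a P) ≠ j (al K b P) := fun j h =>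
    habK (j.injective h)
  constructor
  · intro v
    refine locSol_of (compAlgebra' k[X] K v K) (compAlgebra k[X] K v) h2K haK hbK habK
      (fun x => rfl) ?_
    by_cases hv : a * b * (a - b) * ∏ i, P i ∈ v.asIdeal
    · obtain ⟨x, rfl⟩ := exists_place H hR hv
      rcases x with i | s
      · -- a prime of the twist
        have hP : LW (RR a b P) r0 r1 n0 n1 (P i) =
            LW (RR a b P) (rp0 a b (w i)) (rp1 a b (w i)) (np0 ι a b (w i)) (np1 ι a b (w i)) (P i) := by
          rw [LW_eq, LW_eq, rp_ch H]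
          simp only [np_inl, np_inr H, hw, hz, hx]
          have h3 := h1 i
          have e2 : E1 (A := AT P) (datum H) (BT (QQ a b) P) (fun i => ((P i).natDegree : F2))
              (w, z) x0 i = (∑ j, L (P j) (P i) • w j + ∑ s, L (QQ a b s) (P i) • (z s • tv a b s) +
              ((P i).natDegree : F2) • x0) + (∑ j, L (P j) (P i) • w i +
              ∑ s, L (QQ a b s) (P i) • (om (w i) (tv a b s) • tv a b s) +
              ((P i).natDegree : F2) • ks (datum H).l (w i)) := by
            have a1 : ∀ j, AT P i j = L (P j) (P i) := fun j => by rw [AT, L_comm H.hm]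
            have a2 : ∀ s, BT (QQ a b) P i s = L (QQ a b s) (P i) := fun s => by
              rw [BT, L_comm H.hm]
            have a3 : ∀ s, (datum H).t s = tv a b s := fun _ => rfl
            simp only [E1, a1, a2, a3, smul_add, sum_add_distrib]
            abel
          rw [e2] at h3
          exact W_eqz h3
        have p0 : (n0 (Sum.inl i) : F2) = np0 ι a b (w i) (Sum.inl i) ∧
            (n1 (Sum.inl i) : F2) = np1 ι a b (w i) (Sum.inl i) := by
          have h3 := (hw i).trans (np_inl (a := a) (b := b) (w i) i).symm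
          exact ⟨congrArg Prod.fst h3, congrArg Prod.snd h3⟩
        exact locR_of_tor H (algebraMap K (Comp k[X] K (plK (hR.irr (Sum.inl i))))) (j2 (algebraMap K _))
          (ja _) (jb _) (jab _) (w i)
          (loc_conv H.hk hR (Sum.inl i) hr0 (rp_ne H _).1 _ _ p0.1 (congrArg Prod.fst hP))
          (loc_conv H.hk hR (Sum.inl i) hr1 (rp_ne H _).2 _ _ p0.2 (congrArg Prod.snd hP))
      · -- a bad prime
        have hE2 := h2 s
        have hom : om (LW (RR a b P) r0 r1 n0 n1 (QQ a b s)) (tv a b s) = z s := by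
          rw [LW_eq]
          simp only [hw, hz, hx, om_add_left, om_sum_left, om_smul_left]
          have e2 : E2 (ι := ι) (datum H) (BT (QQ a b) P) (w, z) x0 s =
              z s + (∑ j, L (P j) (QQ a b s) * om (w j) (tv a b s) +
              ∑ s', L (QQ a b s') (QQ a b s) * (z s' * om (tv a b s') (tv a b s)) +
              ((QQ a b s).natDegree : F2) * om x0 (tv a b s)) := by
            have a1 : ∀ s', (datum H).G s s' = L (QQ a b s') (QQ a b s) := fun s' => L_comm H.hm _ _
            have a3 : ∀ s, (datum H).t s = tv a b s := fun _ => rfl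
            have a4 : (datum H).e s = ((QQ a b s).natDegree : F2) := rfl
            simp only [E2, a1, a3, a4, BT, add_assoc]
          rw [e2] at hE2
          exact (F2_eq hE2).symm
        have hzt : tv a b s = 0 → z s = 0 := fun ht =>
          Sol_z (p := ((w, z), x0)) h2 ht
        obtain ⟨y, hy1, hy2⟩ := bad_cls H hcl s hzt hom
        have p0 : (n0 (Sum.inr s) : F2) = np0 ι a b y (Sum.inr s) ∧
            (n1 (Sum.inr s) : F2) = np1 ι a b y (Sum.inr s) := by
          have h3 := ((hz s).trans hy2.symm).trans (np_inr (ι := ι) H y s).symm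
          exact ⟨congrArg Prod.fst h3, congrArg Prod.snd h3⟩
        exact locR_of_tor H (algebraMap K (Comp k[X] K (plK (hR.irr (Sum.inr s))))) (j2 (algebraMap K _))
          (ja _) (jb _) (jab _) y
          (loc_conv H.hk hR (Sum.inr s) hr0 (rp_ne H _).1 _ _ p0.1 (congrArg Prod.fst hy1).symm)
          (loc_conv H.hk hR (Sum.inr s) hr1 (rp_ne H _).2 _ _ p0.2 (congrArg Prod.snd hy1).symm)
    · -- good places
      have mm : ∀ {p : k[X]}, p ∣ a * b * (a - b) * ∏ i, P i → p ∉ v.asIdeal := by
        rintro p ⟨q, hq⟩ hp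
        apply hv
        rw [hq]
        exact v.asIdeal.mul_mem_right _ hp
      have mel : ∀ {r : k} (hr : r ≠ 0) (n : ι ⊕ Tau a b → ℕ), el (RR a b P) r n ∉ v.asIdeal := by
        intro r hr n h
        rw [el] at h
        rcases v.isPrime.mem_or_mem h with h | h
        · exact not_mem_C v hr h
        · rw [v.isPrime.prod_mem_iff] at h
          obtain ⟨x, -, hx⟩ := h
          have hx' := v.isPrime.mem_of_pow_mem _ hx
          refine mm ?_ hx'
          rcases x with i | s
          · exact (dvd_prod_of_mem P (mem_univ i)).mul_left _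
          · exact (((mem_bp H).1 s.2).2.2).mul_right _
      refine good_loc H.hk v (mm ?_) (mm ?_) ?_ (mel hr0 n0) (mel hr1 n1)
      · exact ⟨b * (a - b), by ring⟩
      · exact ⟨a * (a - b), by ring⟩
      · rw [← sub_mul]
        exact mm ⟨a * b, by ring⟩
  · -- infinity
    refine locSol_of (compInfAlgebra' k K K) (compInfAlgebra k K) h2K haK hbK habK
      (fun x => rfl) ?_
    obtain ⟨-, -, hks⟩ := ker_of_eqs hcl (fun i j => L_comm H.hm (P i) (P j)) hN h1 h2
    set y : W := dg (datum H) (fun i => ((P i).natDegree : F2)) (w, z) with hy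
    have d1' := deg_pair H hR hr0 hr1 hw hz
    have d2' := deg_pair (P := P) (w := (TT (datum H) y : V ι (Tau a b)).1)
      (z := (TT (datum H) y : V ι (Tau a b)).2) H hR (rp_ne H y).1 (rp_ne H y).2
      (fun i => np_inl y i) (fun s => np_inr H y s)
    have hdT : dg (datum H) (fun i => ((P i).natDegree : F2)) (TT (datum H) y) = y := by
      rw [dg_TT]
      show (∑ i, ((P i).natDegree : F2) + (N : F2)) • y = y
      rw [hN, one_smul]
    have hd := d1'.trans (hdT.symm.trans d2'.symm)
    have hc : ((ch r0, ch r1) : W) = (ch (rp0 a b y), ch (rp1 a b y)) := by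
      rw [hx, hks, rp_ch H]
    have fin : ∀ {r r' : k} {n n' : ι ⊕ Tau a b → ℕ}, r ≠ 0 → r' ≠ 0 →
        ((el (RR a b P) r n).natDegree : F2) = (el (RR a b P) r' n').natDegree → ch r = ch r' →
        SqEq (algebraMap K (CompInf k K) (algebraMap k[X] K (el (RR a b P) r n)))
          (algebraMap K (CompInf k K) (algebraMap k[X] K (el (RR a b P) r' n'))) := by
      intro r r' n n' hr hr' hdeg hch
      apply inf_conv hk2 (el_ne hR hr _) (el_ne hR hr' _)
      · rw [← cast_eq_zero_iff_even, Nat.cast_add, hdeg, F2_add_self]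
      · rw [leadingCoeff_el hR, leadingCoeff_el hR, ← ch_eq_zero_iff (mul_ne_zero hr hr'),
          ch_mul hr hr', hch, F2_add_self]
    exact locR_of_tor H (algebraMap K (CompInf k K)) (j2 (algebraMap K _)) (ja _) (jb _) (jab _) y
      (fin hr0 (rp_ne H y).1 (congrArg Prod.fst hd) (congrArg Prod.fst hc))
      (fin hr1 (rp_ne H y).2 (congrArg Prod.snd hd) (congrArg Prod.snd hc))

end Q283.FS
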