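import Pool.Agent.Q283.FS.Pol4

/-!
The joint law from the moments.
-/

set_option autoImplicit false
set_option linter.all false

open scoped Classical

namespace Q283.FS

open Finset Filter
open Pool.Agent.Y697.PQ (ij)

theorem Ex_const : Ex (fun _ => 1) = 1 := by
  unfold Ex
  simp only [mul_one]
  exact sum_lw.tsum_eq

theorem Ex_add {f g : ℝ → ℝ} (hf : Pl f) (hg : Pl g) : Ex (fun x => f x + g x) = Ex f + Ex g := by
  refine HasSum.unique (hf.add hg).hasSum ?_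
  refine (hf.hasSum.add hg.hasSum).congr_fun fun s => ?_
  show lw s * (f (4 ^ s) + g (4 ^ s)) = _
  ring

/-- comparison of products -/
theorem prod_near {ι : Type} (s : Finset ι) (a b t : ι → ℝ) (ha : ∀ i ∈ s, |a i| ≤ 1)
    (hb : ∀ i ∈ s, |b i - a i| ≤ t i) :
    |∏ i ∈ s, b i - ∏ i ∈ s, a i| ≤ ∏ i ∈ s, (1 + t i) - 1 := by
  induction s using Finset.induction_on with
  | empty => simp
  | insert k s hk ih =>
    rw [prod_insert hk, prod_insert hk, prod_insert hk]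
    have h1 := ih (fun i hi => ha i (mem_insert_of_mem hi)) fun i hi => hb i (mem_insert_of_mem hi)
    have h2 := ha k (mem_insert_self _ _)
    have h3 := hb k (mem_insert_self _ _)
    have h4 : |∏ i ∈ s, a i| ≤ 1 := by
      rw [abs_prod]
      exact prod_le_one (fun _ _ => abs_nonneg _) fun i hi => ha i (mem_insert_of_mem hi)
    clear ih
    generalize (∏ i ∈ s, a i) = P at h1 h4 ⊢
    generalize (∏ i ∈ s, b i) = Q at h1 ⊢
    generalize (∏ i ∈ s, (1 + t i)) = T at h1 ⊢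
    have h5 : |Q| ≤ T := by
      calc |Q| = |(Q - P) + P| := by rw [sub_add_cancel]
        _ ≤ |Q - P| + |P| := abs_add_le _ _
        _ ≤ T := by linarith
    have h6 : b k * Q - a k * P = (b k - a k) * Q + a k * (Q - P) := by ring
    rw [h6]
    refine (abs_add_le _ _).trans ?_
    rw [abs_mul, abs_mul]
    have h7 : |b k - a k| * |Q| ≤ t k * T :=
      mul_le_mul h3 h5 (abs_nonneg _) ((abs_nonneg _).trans h3)
    have h8 : |a k| * |Q - P| ≤ 1 * |Q - P| := mul_le_mul_of_nonneg_right h2 (abs_nonneg _)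
    linarith

variable {ι α : Type} {l : Filter ι} (S : ι → Finset α) {M : ℕ} (ρ : Fin M → α → ℕ)

/-- all moments converge to the moments of the law -/
def Mts (l : Filter ι) (S : ι → Finset α) {M : ℕ} (ρ : Fin M → α → ℕ) : Prop :=
  ∀ jj : Fin M → ℕ, Tendsto (fun X => (∑ a ∈ S X, ∏ k, ij (jj k) (4 ^ (ρ k a))) / ((S X).card : ℝ))
    l (nhds (∏ k, (2 : ℝ) ^ (jj k * (jj k + 1) / 2)))

variable {S ρ}

theorem mts_Pl (h : Mts l S ρ) {F : Fin M → ℝ → ℝ} (hF : ∀ k, Pl (F k)) :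
    Tendsto (fun X => (∑ a ∈ S X, ∏ k, F k (4 ^ (ρ k a))) / ((S X).card : ℝ)) l
      (nhds (∏ k, Ex (F k))) := by
  choose J β hβ using hF
  have e1 : ∏ k, Ex (F k) = ∑ p ∈ Fintype.piFinset (fun k => range (J k)),
      (∏ k, β k (p k)) * ∏ k, (2 : ℝ) ^ (p k * (p k + 1) / 2) := by
    rw [prod_congr rfl fun k _ => Ex_eq (hβ k), prod_univ_sum]
    exact sum_congr rfl fun p _ => prod_mul_distrib
  have e2 : ∀ X, (∑ a ∈ S X, ∏ k, F k (4 ^ (ρ k a))) / ((S X).card : ℝ) =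
      ∑ p ∈ Fintype.piFinset (fun k => range (J k)), (∏ k, β k (p k)) *
        ((∑ a ∈ S X, ∏ k, ij (p k) (4 ^ (ρ k a))) / ((S X).card : ℝ)) := by
    intro X
    have e3 : ∀ a ∈ S X, ∏ k, F k (4 ^ (ρ k a)) = ∑ p ∈ Fintype.piFinset (fun k => range (J k)),
        (∏ k, β k (p k)) * ∏ k, ij (p k) (4 ^ (ρ k a)) := by
      intro a _
      rw [prod_congr rfl fun k _ => hβ k _, prod_univ_sum]
      exact sum_congr rfl fun p _ => prod_mul_distrib
    rw [sum_congr rfl e3, sum_comm, sum_div]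
    refine sum_congr rfl fun p _ => ?_
    rw [← mul_sum, mul_div_assoc]
  simp only [e2]
  rw [e1]
  exact tendsto_finsetSum _ fun p _ => (h p).const_mul _

theorem mts_ne (h : Mts l S ρ) : ∀ᶠ X in l, (S X).Nonempty := by
  have h1 := h fun _ => 0
  have h2 : (fun X => (∑ a ∈ S X, ∏ k : Fin M, ij 0 (4 ^ (ρ k a))) / ((S X).card : ℝ)) =
      fun X => ((S X).card : ℝ) / ((S X).card : ℝ) := by
    funext X
    congr 1
    simp [ij]
  rw [h2] at h1
  simp only [zero_mul, Nat.zero_div, pow_zero, prod_const_one] at h1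
  filter_upwards [h1.eventually_ne one_ne_zero] with X hX
  rw [← card_pos]
  by_contra h3
  apply hX
  have : (S X).card = 0 := by omega
  rw [this]
  simp

/-- **The joint law.** -/
theorem lim_law (h : Mts l S ρ) (r : Fin M → ℕ) :
    Tendsto (fun X => (((S X).filter fun a => ∀ k, ρ k a = r k).card : ℝ) / ((S X).card : ℝ)) l
      (nhds (∏ k, lw (r k))) := by
  -- the indicators
  have hind : ∀ X, (((S X).filter fun a => ∀ k, ρ k a = r k).card : ℝ) =
      ∑ a ∈ S X, ∏ k, (if ρ k a = r k then (1 : ℝ) else 0) := by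
    intro X
    rw [← sum_boole]
    refine sum_congr rfl fun a _ => ?_
    by_cases h1 : ∀ k, ρ k a = r k
    · rw [if_pos h1, prod_eq_one fun k _ => if_pos (h1 k)]
    · rw [if_neg h1]
      push Not at h1
      obtain ⟨k, hk⟩ := h1
      exact (prod_eq_zero (mem_univ k) (if_neg hk)).symm
  have htr : ∀ I : ℕ, ∀ k, Pl fun x => 1 + tr (r k) I x := fun I k => (Pl.const 1).add (Pl.tr _ _)
  have hEtr : ∀ I : ℕ, ∀ k, Ex (fun x => 1 + tr (r k) I x) = 1 + Ex (tr (r k) I) := by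
    intro I k
    rw [Ex_add (Pl.const 1) (Pl.tr _ _), Ex_const]
  have hI : Tendsto (fun I : ℕ => ∏ k, (1 + Ex (tr (r k) I))) atTop (nhds 1) := by
    have h1 : Tendsto (fun I : ℕ => ∏ k, (1 + Ex (tr (r k) I))) atTop
        (nhds (∏ k : Fin M, (1 + 0))) :=
      tendsto_finsetProd _ fun k _ => (tr_tendsto (r k)).const_add 1
    simpa using h1
  rw [Metric.tendsto_nhds]
  intro ε hε
  obtain ⟨I, hI1⟩ := ((hI.eventually_lt_const (show (1 : ℝ) < 1 + ε / 6 by linarith))).exists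
  have h1 := mts_Pl h (F := fun k => qr (r k) I) fun k => Pl.qr _ _
  have h2 := mts_Pl h (F := fun k x => 1 + tr (r k) I x) fun k => htr I k
  simp only [hEtr] at h2
  have h3 := Metric.tendsto_nhds.1 h1 (ε / 6) (by positivity)
  have h4 := h2.eventually_lt_const (show ∏ k, (1 + Ex (tr (r k) I)) < 1 + ε / 6 + ε / 6 by linarith)
  filter_upwards [h3, h4, mts_ne h] with X e3 e4 hne
  have hpos : (0 : ℝ) < (S X).card := by exact_mod_cast card_pos.2 hne
  rw [Real.dist_eq] at e3 ⊢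
  have h5 : |∏ k, Ex (qr (r k) I) - ∏ k, lw (r k)| ≤ ∏ k, (1 + Ex (tr (r k) I)) - 1 :=
    prod_near univ _ _ _ (fun k _ => by rw [abs_of_pos (lw_pos _)]; exact lw_le _)
      fun k _ => Ex_qr (r k) I
  have h6 : |(∑ a ∈ S X, ∏ k, qr (r k) I (4 ^ (ρ k a))) / ((S X).card : ℝ) -
      (((S X).filter fun a => ∀ k, ρ k a = r k).card : ℝ) / ((S X).card : ℝ)| ≤
      (∑ a ∈ S X, ∏ k, (1 + tr (r k) I (4 ^ (ρ k a)))) / ((S X).card : ℝ) - 1 := by
    rw [hind, ← sub_div, ← sum_sub_distrib, abs_div, abs_of_pos hpos, div_le_iff₀ hpos, sub_mul,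
      div_mul_cancel₀ _ hpos.ne', one_mul]
    refine (abs_sum_le_sum_abs _ _).trans ?_
    have h7 : (∑ a ∈ S X, ∏ k, (1 + tr (r k) I (4 ^ (ρ k a)))) - ((S X).card : ℝ) =
        ∑ a ∈ S X, (∏ k, (1 + tr (r k) I (4 ^ (ρ k a))) - 1) := by
      rw [sum_sub_distrib, sum_const, nsmul_one]
    rw [h7]
    refine sum_le_sum fun a _ => ?_
    refine prod_near univ _ _ _ (fun k _ => ?_) fun k _ => qr_near _ _ _
    split_ifs <;> simp
  obtain ⟨x, hx⟩ : ∃ x, x = (((S X).filter fun a => ∀ k, ρ k a = r k).card : ℝ) /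
    ((S X).card : ℝ) := ⟨_, rfl⟩
  obtain ⟨y, hy⟩ : ∃ y, y = (∑ a ∈ S X, ∏ k, qr (r k) I (4 ^ (ρ k a))) / ((S X).card : ℝ) :=
    ⟨_, rfl⟩
  rw [← hx, ← hy] at h6
  rw [← hy] at e3
  rw [← hx]
  have e5 := abs_lt.1 e3
  have e6 := abs_le.1 h6
  have e7 := abs_le.1 h5
  rw [abs_lt]
  constructor <;> linarith [e5.1, e5.2, e6.1, e6.2, e7.1, e7.2]

end Q283.FS
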