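import Pool.Agent.Q283.FS.As
import Pool.Agent.Q283.FS.Lim
import Pool.Agent.Q283.Q3.Bin

/-!
The joint law of the kernels of several twists.
-/

set_option autoImplicit false
set_option linter.all false

open scoped Classical

namespace Q283.FS

open Finset Polynomial Pool.Agent.H341R2.Sharp Module Filter
open Pool.Agent.Y164.PS
open Pool.Agent.Y697.PQ (ij)

theorem tendsto_ratio {A B : ℕ → ℝ} {L : ℝ} (hB : ∀ᶠ X in atTop, 0 < B X)
    (h : ∀ ε : ℝ, 0 < ε → ∀ᶠ X in atTop, |A X - L * B X| ≤ ε * B X) :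
    Tendsto (fun X => A X / B X) atTop (nhds L) := by
  rw [Metric.tendsto_nhds]
  intro ε hε
  filter_upwards [hB, h (ε / 2) (by positivity)] with X h1 h2
  rw [Real.dist_eq, div_sub' h1.ne', abs_div, abs_of_pos h1, div_lt_iff₀ h1, mul_comm (B X)]
  refine lt_of_le_of_lt h2 ?_
  nlinarith

/-- transfer of proportions -/
theorem transfer {α : Type} [DecidableEq α] {S T : ℕ → Finset α} (hTS : ∀ X, T X ⊆ S X)
    (hne : ∀ᶠ X in atTop, (S X).Nonempty) (hneT : ∀ᶠ X in atTop, (T X).Nonempty)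
    (h0 : Tendsto (fun X => ((S X \ T X).card : ℝ) / ((S X).card : ℝ)) atTop (nhds 0))
    {P : α → Prop} [DecidablePred P] {L : ℝ}
    (h : Tendsto (fun X => (((T X).filter P).card : ℝ) / ((T X).card : ℝ)) atTop (nhds L)) :
    Tendsto (fun X => (((S X).filter P).card : ℝ) / ((S X).card : ℝ)) atTop (nhds L) := by
  have h1 : Tendsto (fun X => ((T X).card : ℝ) / ((S X).card : ℝ)) atTop (nhds 1) := by
    have h2 := h0.const_sub 1
    rw [sub_zero] at h2
    refine h2.congr' ?_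
    filter_upwards [hne] with X hX
    have hpos : (0 : ℝ) < (S X).card := by exact_mod_cast card_pos.2 hX
    have h3 : (S X \ T X).card + (T X).card = (S X).card := card_sdiff_add_card_eq_card (hTS X)
    have h4 : ((S X \ T X).card : ℝ) + (T X).card = (S X).card := by exact_mod_cast h3
    rw [one_sub_div hpos.ne']
    congr 1
    linarith
  have h2 : Tendsto (fun X => (((T X).filter P).card : ℝ) / ((S X).card : ℝ)) atTop (nhds L) := by
    have h3 := h.mul h1
    rw [mul_one] at h3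
    refine h3.congr' ?_
    filter_upwards [hneT] with X hX
    have hpos : (0 : ℝ) < (T X).card := by exact_mod_cast card_pos.2 hX
    rw [div_mul_div_cancel₀ hpos.ne']
  have h3 : Tendsto (fun X => (((S X).filter P).card : ℝ) / ((S X).card : ℝ) -
      (((T X).filter P).card : ℝ) / ((S X).card : ℝ)) atTop (nhds 0) := by
    refine squeeze_zero (fun X => ?_) (fun X => ?_) h0
    · rw [← sub_div]
      refine div_nonneg ?_ (Nat.cast_nonneg _)
      rw [sub_nonneg]
      exact_mod_cast card_le_card (filter_subset_filter _ (hTS X))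
    · rw [← sub_div]
      refine div_le_div_of_nonneg_right ?_ (Nat.cast_nonneg _)
      rw [sub_le_iff_le_add]
      have h4 : (S X).filter P ⊆ (S X \ T X) ∪ (T X).filter P := by
        intro a ha
        rw [mem_filter] at ha
        rw [mem_union, Finset.mem_sdiff, mem_filter]
        by_cases haT : a ∈ T X
        · exact Or.inr ⟨haT, ha.2⟩
        · exact Or.inl ⟨ha.1, haT⟩
      have h5 := (card_le_card h4).trans (card_union_le _ _)
      exact_mod_cast h5
  have h4 := h2.add h3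
  rw [add_zero] at h4
  refine h4.congr fun X => ?_
  ring

variable {k : Type} [Field k] [Fintype k] [DecidableEq k]
variable {a b : k[X]} {N : ℕ} (H : Hyp a b N)
variable {M : ℕ} {F : Fin M → Finset k[X]} (hF : Msk a b F)

/-- the class of the twists of degree `n` -/
noncomputable def Cn (a b : k[X]) (n : ℕ) : Finset k[X] := (Sf k n).filter (P1 a b)

/-- the typical members of the class -/
noncomputable def Cy (a b : k[X]) (n : ℕ) : Finset k[X] :=
  (Sf k n).filter fun D => typ (7 * (Nat.log 2 n / 25)) (Nat.log 2 n ^ 2) (Nat.sqrt (Nat.log 2 n))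
    (Nat.log 2 n ^ 3) D ∧ P1 a b D

/-- the typical polynomials prime to the bad primes -/
noncomputable def Cb (a b : k[X]) (n : ℕ) : Finset k[X] :=
  (Sf k n).filter fun D => typ (7 * (Nat.log 2 n / 25)) (Nat.log 2 n ^ 2) (Nat.sqrt (Nat.log 2 n))
    (Nat.log 2 n ^ 3) D ∧ nb a b D

/-- the half-dimension of the kernel of the twist by the mask `A` -/
noncomputable def rr (H : Hyp a b N) (A : Finset k[X]) (D : k[X]) : ℕ := sf H (symmDiff (pf D) A)

theorem nontyp_n (hk : ringChar k ≠ 2) (δ : ℝ) (hδ : 0 < δ) : ∀ᶠ n : ℕ in atTop,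
    (((Sf k n).filter fun D => ¬ typ (7 * (Nat.log 2 n / 25)) (Nat.log 2 n ^ 2)
      (Nat.sqrt (Nat.log 2 n)) (Nat.log 2 n ^ 3) D).card : ℝ) ≤ δ * (Fintype.card k : ℝ) ^ n := by
  filter_upwards [tend_log2.eventually (nontyp_small (k := k) hk δ hδ), eventually_ge_atTop 1]
    with n hn h1
  exact hn n (Nat.pow_log_le_self 2 (by omega)) (Nat.lt_pow_succ_log_self (by norm_num) n)

include H in
theorem Cb_lower (hq : 4 ≤ Fintype.card k) : ∃ c : ℝ, 0 < c ∧ ∀ᶠ n : ℕ in atTop,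
    c * (Fintype.card k : ℝ) ^ n ≤ ((Cb a b n).card : ℝ) := by
  obtain ⟨c, hc, h⟩ := nb_lower H hq
  refine ⟨c / 2, by positivity, ?_⟩
  filter_upwards [h, nontyp_n (k := k) H.hk (c / 2) (by positivity)] with n h1 h2
  have h3 : (((Sf k n).filter (nb a b)).card : ℝ) ≤ (Cb a b n).card +
      (((Sf k n).filter fun D => ¬ typ (7 * (Nat.log 2 n / 25)) (Nat.log 2 n ^ 2)
      (Nat.sqrt (Nat.log 2 n)) (Nat.log 2 n ^ 3) D).card : ℝ) := by
    have h4 : (Sf k n).filter (nb a b) ⊆ Cb a b n ∪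
        ((Sf k n).filter fun D => ¬ typ (7 * (Nat.log 2 n / 25)) (Nat.log 2 n ^ 2)
        (Nat.sqrt (Nat.log 2 n)) (Nat.log 2 n ^ 3) D) := by
      intro D hD
      rw [mem_filter] at hD
      rw [mem_union, Cb, mem_filter, mem_filter]
      by_cases h : typ (7 * (Nat.log 2 n / 25)) (Nat.log 2 n ^ 2)
        (Nat.sqrt (Nat.log 2 n)) (Nat.log 2 n ^ 3) D
      · exact Or.inl ⟨hD.1, h, hD.2⟩
      · exact Or.inr ⟨hD.1, h⟩
    have h5 := (card_le_card h4).trans (card_union_le _ _)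
    exact_mod_cast h5
  linarith

include H hF in
theorem mom_n (hq : 4 ≤ Fintype.card k)
    (h2t : ∀ u : W, u ≠ 0 → ∃ s, om u ((datum H).t s) ≠ 0) (jj : Fin M → ℕ) (ε : ℝ) (hε : 0 < ε) :
    ∀ᶠ n : ℕ in atTop, (n : F2) + (N : F2) = 1 →
      |(∑ D ∈ Cy a b n, ∏ κ, ij (jj κ) (4 ^ rr H (F κ) D)) * 2 ^ Fintype.card (Tau a b) -
        (∏ κ, (2 : ℝ) ^ (jj κ * (jj κ + 1) / 2)) * (Cb a b n).card| ≤ ε * (Cb a b n).card := by
  obtain ⟨z0, hz0⟩ : ∃ z0 : ℕ, ∀ κ, ∀ P ∈ F κ, P.natDegree < z0 := by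
    refine ⟨dM F + 1, fun κ P hP => ?_⟩
    have : P.natDegree ≤ dM F := by
      rw [dM]
      exact single_le_sum (f := fun P : k[X] => P.natDegree) (fun _ _ => Nat.zero_le _)
        (PM_mem.2 ⟨κ, hP⟩)
    omega
  filter_upwards [tend_log2.eventually (er_all (a := a) (b := b) F jj ε hε),
    tend_log2.eventually (eventually_ge_atTop (z0 + 2)), eventually_ge_atTop 1] with n h1 h2 h3 hn
  obtain ⟨h4, h5⟩ := h1 n (Nat.lt_pow_succ_log_self (by norm_num) n)
  have hz : Nat.log 2 n ≤ Nat.log 2 n ^ 3 := by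
    calc Nat.log 2 n = Nat.log 2 n ^ 1 := (pow_one _).symm
      _ ≤ Nat.log 2 n ^ 3 := Nat.pow_le_pow_right (by omega) (by norm_num)
  have h6 := lv_typ H hF hq h2t (s := Nat.sqrt (Nat.log 2 n)) (t0 := 7 * (Nat.log 2 n / 25))
    (m1 := Nat.log 2 n ^ 2) (z := Nat.log 2 n ^ 3) hn (by omega)
    (fun κ P hP => lt_of_lt_of_le (hz0 κ P hP) (by omega)) jj h4 (ε := ε) h5
  have e1 : ((CS jj).card : ℝ) = ∏ κ, (2 : ℝ) ^ (jj κ * (jj κ + 1) / 2) := by
    rw [card_CS]
    push_cast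
    refine prod_congr rfl fun κ _ => ?_
    congr 1
    rw [Nat.choose_two_right, Nat.add_sub_cancel, mul_comm]
  rw [e1] at h6
  exact h6

include H hF in
/-- the moments over the typical members of the class -/
theorem mts_Cy (hq : 4 ≤ Fintype.card k)
    (h2t : ∀ u : W, u ≠ 0 → ∃ s, om u ((datum H).t s) ≠ 0) {e : ℕ} (he : (e : F2) + (N : F2) = 1) :
    Mts atTop (fun X : ℕ => Cy a b (2 * X + e)) (fun κ D => rr H (F κ) D) := by
  have hpar : ∀ X : ℕ, ((2 * X + e : ℕ) : F2) + (N : F2) = 1 := by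
    intro X
    have h2 : (2 : F2) = 0 := by decide
    push_cast
    rw [h2, zero_mul, zero_add]
    exact he
  have htop : Tendsto (fun X : ℕ => 2 * X + e) atTop atTop :=
    tendsto_atTop_mono (fun X => (show X ≤ 2 * X + e by omega)) tendsto_id
  obtain ⟨c, hc, hc'⟩ := Cb_lower H hq
  have hq0 : (0 : ℝ) < Fintype.card k := by
    have : 0 < Fintype.card k := by omega
    exact_mod_cast this
  have hB : ∀ᶠ X : ℕ in atTop, (0 : ℝ) < ((Cb a b (2 * X + e)).card : ℝ) := by
    filter_upwards [htop.eventually hc'] with X hX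
    exact lt_of_lt_of_le (by positivity) hX
  have key : ∀ jj : Fin M → ℕ, Tendsto (fun X : ℕ => ((∑ D ∈ Cy a b (2 * X + e),
      ∏ κ, ij (jj κ) (4 ^ rr H (F κ) D)) * 2 ^ Fintype.card (Tau a b)) / ((Cb a b (2 * X + e)).card : ℝ))
      atTop (nhds (∏ κ, (2 : ℝ) ^ (jj κ * (jj κ + 1) / 2))) := by
    intro jj
    refine tendsto_ratio hB fun ε hε => ?_
    filter_upwards [htop.eventually (mom_n H hF hq h2t jj ε hε)] with X hX
    exact hX (hpar X)
  intro jj
  have h0 := key fun _ => 0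
  have h1 := (key jj).div h0 (by simp)
  have e1 : (∏ κ : Fin M, (2 : ℝ) ^ (jj κ * (jj κ + 1) / 2)) /
      (∏ κ : Fin M, (2 : ℝ) ^ (0 * (0 + 1) / 2)) = ∏ κ : Fin M, (2 : ℝ) ^ (jj κ * (jj κ + 1) / 2) := by
    simp
  rw [e1] at h1
  refine h1.congr' ?_
  filter_upwards [hB] with X hX
  have e2 : ∑ D ∈ Cy a b (2 * X + e), ∏ κ : Fin M, ij 0 (4 ^ rr H (F κ) D) =
      ((Cy a b (2 * X + e)).card : ℝ) := by
    simp [ij]
  rw [Pi.div_apply, e2]
  have ht : (2 : ℝ) ^ Fintype.card (Tau a b) ≠ 0 := by positivity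
  rw [div_div_div_cancel_right₀ hX.ne', mul_div_mul_right _ _ ht]

/-- there is always a good property -/
theorem imp_true : Imp H fun _ => True := fun _ _ _ _ _ _ _ => trivial

include H in
theorem Cn_lower (hq : 4 ≤ Fintype.card k)
    (h2t : ∀ u : W, u ≠ 0 → ∃ s, om u ((datum H).t s) ≠ 0) : ∃ c : ℝ, 0 < c ∧ ∀ᶠ n : ℕ in atTop,
    (n : F2) + (N : F2) = 1 → c * (Fintype.card k : ℝ) ^ n ≤ ((Cn a b n).card : ℝ) :=
  (main_cnt H (imp_true H) hq h2t).1

include H hF in
/-- **The joint law of the kernels.** -/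
theorem law_Cn (hq : 4 ≤ Fintype.card k)
    (h2t : ∀ u : W, u ≠ 0 → ∃ s, om u ((datum H).t s) ≠ 0) {e : ℕ} (he : (e : F2) + (N : F2) = 1)
    (r : Fin M → ℕ) :
    Tendsto (fun X : ℕ => (((Cn a b (2 * X + e)).filter fun D => ∀ κ, rr H (F κ) D = r κ).card : ℝ) /
      ((Cn a b (2 * X + e)).card : ℝ)) atTop (nhds (∏ κ, lw (r κ))) := by
  have hpar : ∀ X : ℕ, ((2 * X + e : ℕ) : F2) + (N : F2) = 1 := by
    intro X
    have h2 : (2 : F2) = 0 := by decide
    push_cast
    rw [h2, zero_mul, zero_add]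
    exact he
  have htop : Tendsto (fun X : ℕ => 2 * X + e) atTop atTop :=
    tendsto_atTop_mono (fun X => (show X ≤ 2 * X + e by omega)) tendsto_id
  have hm := mts_Cy H hF hq h2t he
  have h1 := lim_law hm r
  obtain ⟨c, hc, hc'⟩ := Cn_lower H hq h2t
  have hq0 : (0 : ℝ) < Fintype.card k := by
    have : 0 < Fintype.card k := by omega
    exact_mod_cast this
  have hlow : ∀ᶠ X : ℕ in atTop, c * (Fintype.card k : ℝ) ^ (2 * X + e) ≤
      ((Cn a b (2 * X + e)).card : ℝ) := by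
    filter_upwards [htop.eventually hc'] with X hX
    exact hX (hpar X)
  have hne : ∀ᶠ X : ℕ in atTop, (Cn a b (2 * X + e)).Nonempty := by
    filter_upwards [hlow] with X hX
    rw [← card_pos]
    have : (0 : ℝ) < ((Cn a b (2 * X + e)).card : ℝ) := lt_of_lt_of_le (by positivity) hX
    exact_mod_cast this
  refine transfer (T := fun X : ℕ => Cy a b (2 * X + e)) (fun X => ?_) hne (mts_ne hm) ?_ h1
  · intro D hD
    rw [Cy, mem_filter] at hD
    rw [Cn, mem_filter]
    exact ⟨hD.1, hD.2.2⟩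
  · rw [Metric.tendsto_nhds]
    intro δ hδ
    filter_upwards [hlow, htop.eventually (nontyp_n (k := k) H.hk (c * (δ / 2)) (by positivity))]
      with X g1 g2
    have hpos : (0 : ℝ) < ((Cn a b (2 * X + e)).card : ℝ) := lt_of_lt_of_le (by positivity) g1
    rw [Real.dist_eq, sub_zero, abs_div, Nat.abs_cast, Nat.abs_cast, div_lt_iff₀ hpos]
    have g3 : ((Cn a b (2 * X + e) \ Cy a b (2 * X + e)).card : ℝ) ≤
        c * (δ / 2) * (Fintype.card k : ℝ) ^ (2 * X + e) := by
      refine le_trans ?_ g2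
      rw [Nat.cast_le]
      refine card_le_card fun D hD => ?_
      rw [Finset.mem_sdiff, Cn, mem_filter, Cy, mem_filter] at hD
      rw [mem_filter]
      exact ⟨hD.1.1, fun h => hD.2 ⟨hD.1.1, h, hD.1.2⟩⟩
    have g4 : c * (δ / 2) * (Fintype.card k : ℝ) ^ (2 * X + e) =
        δ / 2 * (c * (Fintype.card k : ℝ) ^ (2 * X + e)) := by ring
    rw [g4] at g3
    have g5 := mul_le_mul_of_nonneg_left g1 (show (0 : ℝ) ≤ δ / 2 by positivity)
    have g6 : 0 < δ * ((Cn a b (2 * X + e)).card : ℝ) := mul_pos hδ hpos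
    have g7 := g3.trans g5
    have g8 : δ / 2 * ((Cn a b (2 * X + e)).card : ℝ) = δ * ((Cn a b (2 * X + e)).card : ℝ) / 2 := by
      ring
    rw [g8] at g7
    linarith

end Q283.FS
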