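import Pool.Agent.Q283.FS.CM2
import Pool.Agent.Y164.PS.Lvl2

/-!
The moments over the squarefree polynomials with a given number of prime factors.
-/

set_option autoImplicit false
set_option linter.all false

open scoped Classical

namespace Q283.FS

open Finset Polynomial Pool.Agent.H341R2.Sharp Module
open Pool.Agent.Y164.PS
open Pool.Agent.Y697.PQ (ij)

theorem pi_inst {ι α : Type} [Fintype ι] (d1 d2 : DecidableEq ι) (t : ι → Finset α) :
    @Fintype.piFinset ι d1 _ (fun _ => α) t = @Fintype.piFinset ι d2 _ (fun _ => α) t := by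
  rw [Subsingleton.elim d1 d2]

theorem ER_mono {m J J' υ υ' τ : ℕ} (hJ : J' ≤ J) (hυ : υ ≤ υ') : ER m J υ τ ≤ ER m J' υ' τ := by
  have h0 : (0 : ℝ) ≤ (4 : ℝ) ^ m - 1 := by
    have : (1 : ℝ) ≤ 4 ^ m := one_le_pow₀ (by norm_num)
    linarith
  have h1 : (0 : ℝ) ≤ (4 ^ m - 1) / 4 ^ m := div_nonneg h0 (by positivity)
  have h2 : ((4 : ℝ) ^ m - 1) / 4 ^ m ≤ 1 := by
    rw [div_le_one (by positivity)]
    linarith
  unfold ER
  have h3 : (((4 : ℝ) ^ m - 1) / 4 ^ m) ^ J ≤ ((4 ^ m - 1) / 4 ^ m) ^ J' :=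
    pow_le_pow_of_le_one h1 h2 hJ
  have h4 : ((4 : ℝ) ^ υ * 2 ^ τ) ^ (2 * m) ≤ (4 ^ υ' * 2 ^ τ) ^ (2 * m) := by
    refine pow_le_pow_left₀ (by positivity) ?_ _
    exact mul_le_mul_of_nonneg_right (pow_le_pow_right₀ (by norm_num) hυ) (by positivity)
  refine mul_le_mul (mul_le_mul_of_nonneg_left h4 (by positivity)) h3 (pow_nonneg h1 _)
    (by positivity)

variable {k : Type} [Field k] [Fintype k] [DecidableEq k]
variable {a b : k[X]} {N : ℕ} (H : Hyp a b N)
variable {ι : Type} [Fintype ι] [LinearOrder ι] {M : ℕ}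
variable {F : Fin M → Finset k[X]} (hF : Msk a b F)

/-- the coefficient of the error -/
noncomputable def Er (a b : k[X]) (F : Fin M → Finset k[X]) (jj : Fin M → ℕ) (n z s m : ℕ) : ℝ :=
  ((CS jj).card + 1) * ER (Fintype.card (Kx jj)) (m - s) (s + (PM F).card) (Fintype.card (Tau a b)) +
    2 * ((4 ^ (m + (PM F).card) * 2 ^ Fintype.card (Tau a b)) ^
        Fintype.card (Kx jj) * 2 ^ Fintype.card (Tau a b) * et2 a b F n z)

include H hF in
theorem lv_tuples (hq : 4 ≤ Fintype.card k)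
    (h2t : ∀ u : W, u ≠ 0 → ∃ s, om u ((datum H).t s) ≠ 0)
    {n z s : ℕ} (hn : (n : F2) + (N : F2) = 1) (hz2 : 2 ≤ z)
    (hz : ∀ κ, ∀ P ∈ F κ, P.natDegree < z) (jj : Fin M → ℕ)
    (hη : (Fintype.card ι : ℝ) * et2 a b F n z ≤ 1 / 2) :
    |S1 H F jj (Xt k ι n z s) * 2 ^ Fintype.card (Tau a b) -
      (CS jj).card * S0 a b (Xt k ι n z s)| ≤
      Er a b F jj n z s (Fintype.card ι) * S0 a b (Xt k ι n z s) := by
  have hη0 := et2_nonneg (a := a) (b := b) F n z
  have key : ∀ T0 ∈ Xt k ι n z s,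
      |S1 H F jj (Fintype.piFinset (cell z T0)) * 2 ^ Fintype.card (Tau a b) -
        (CS jj).card * S0 a b (Fintype.piFinset (cell z T0))| ≤
        Er a b F jj n z s (Fintype.card ι) * S0 a b (Fintype.piFinset (cell z T0)) := by
    intro T0 h0
    rw [Xt, mem_filter] at h0
    have hlm : (lgs z T0).card ≤ Fintype.card ι := card_le_univ _
    have hlm' : ((lgs z T0).card : ℝ) ≤ Fintype.card ι := by exact_mod_cast hlm
    refine (cell_mom H hF h0.1 hq hn h2t hz2 hz jj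
      ((mul_le_mul_of_nonneg_right hlm' hη0).trans hη)).trans ?_
    refine mul_le_mul_of_nonneg_right ?_ (sum_nonneg fun _ _ => by split_ifs <;> norm_num)
    have h1 := card_sml (lgs z T0) T0
    have h2 := card_Ups (F := F) (lgs z T0) T0
    refine add_le_add ?_ ?_
    · refine mul_le_mul_of_nonneg_left (ER_mono ?_ ?_) (by positivity)
      · have := h0.2
        omega
      · have := h0.2
        omega
    · refine mul_le_mul_of_nonneg_left ?_ (by norm_num)
      refine mul_le_mul_of_nonneg_right (mul_le_mul_of_nonneg_right ?_ (by positivity)) hη0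
      refine pow_le_pow_left₀ (by positivity) ?_ _
      refine mul_le_mul_of_nonneg_right (pow_le_pow_right₀ (by norm_num) ?_) (by positivity)
      omega
  have key' : ∀ T0 ∈ Xt k ι n z s, ∀ c : ℝ, (c = 1 ∨ c = -1) →
      0 ≤ ∑ T ∈ (@Fintype.piFinset ι (fun a b => Classical.propDecidable (a = b)) _ _ (cell z T0)),
        (Er a b F jj n z s (Fintype.card ι) * (if ok (QQ a b) T then (1 : ℝ) else 0) -
        c * ((if ok (QQ a b) T ∧ cl (datum H) (QQ a b) T then mo H F jj (univ.image T) else 0) *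
          2 ^ Fintype.card (Tau a b) - (CS jj).card * (if ok (QQ a b) T then (1 : ℝ) else 0))) := by
    intro T0 h0 c hc
    have e1 : (@Fintype.piFinset ι (fun a b => Classical.propDecidable (a = b)) _ _ (cell z T0)) =
        Fintype.piFinset (cell z T0) := pi_inst _ _ _
    rw [e1]
    have h1 := key T0 h0
    rw [sum_sub_distrib, ← mul_sum, ← mul_sum, sum_sub_distrib, ← sum_mul, ← mul_sum]
    obtain ⟨h2, h3⟩ := abs_le.1 h1
    unfold S1 S0 at h2 h3
    rcases hc with rfl | rfl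
    · linarith
    · linarith
  have g1 := cells_nonneg (z := z) (X := Xt k ι n z s) Xt_closed Xt_self _
    fun T0 h0 => key' T0 h0 1 (Or.inl rfl)
  have g2 := cells_nonneg (z := z) (X := Xt k ι n z s) Xt_closed Xt_self _
    fun T0 h0 => key' T0 h0 (-1) (Or.inr rfl)
  rw [sum_sub_distrib, ← mul_sum, ← mul_sum, sum_sub_distrib, ← sum_mul, ← mul_sum] at g1 g2
  unfold S1 S0
  rw [abs_le]
  constructor
  · linarith
  · linarith

/-- weighted sums over tuples -/
theorem convw (n z s : ℕ) (p : k[X] → Prop) (g : k[X] → ℝ) :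
    ∑ T ∈ Xt k ι n z s, (if Function.Injective T ∧ p (∏ i, T i) then g (∏ i, T i) else 0) =
      ((Fintype.card ι).factorial : ℝ) *
        ∑ D ∈ (Sf k n).filter fun D => (pf D).card = Fintype.card ι ∧ sm z D ≤ s ∧ p D, g D := by
  have h1 := tuple_sum (k := k) (ι := ι) n (fun D => if sm z D ≤ s ∧ p D then g D else 0)
  have h2 : ∑ D ∈ (Sf k n).filter (fun D => (pf D).card = Fintype.card ι),
      (if sm z D ≤ s ∧ p D then g D else 0) =
      ∑ D ∈ (Sf k n).filter fun D => (pf D).card = Fintype.card ι ∧ sm z D ≤ s ∧ p D, g D := by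
    rw [← sum_filter, filter_filter]
  rw [h2] at h1
  rw [← h1, Xt, sum_filter, sum_filter]
  refine sum_congr rfl fun T hT => ?_
  by_cases h3 : Function.Injective T
  · have h4 := small_eq (z := z) hT h3
    have h5 : sm z (∏ i, T i) = Fintype.card ι - (lgs z T).card := h4
    rw [← h5, if_pos h3]
    by_cases h6 : sm z (∏ i, T i) ≤ s
    · rw [if_pos h6]
      by_cases h7 : p (∏ i, T i)
      · rw [if_pos ⟨h3, h7⟩, if_pos ⟨h6, h7⟩]
      · rw [if_neg (fun h => h7 h.2), if_neg (fun h => h7 h.2)]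
    · rw [if_neg h6, if_neg (fun h => h6 h.1)]
  · rw [if_neg h3]
    by_cases h6 : Fintype.card ι - (lgs z T).card ≤ s
    · rw [if_pos h6, if_neg (fun h => h3 h.1)]
    · rw [if_neg h6]

include H hF in
/-- the moments over the polynomials with `m` prime factors -/
theorem lv (hq : 4 ≤ Fintype.card k)
    (h2t : ∀ u : W, u ≠ 0 → ∃ s, om u ((datum H).t s) ≠ 0)
    {n z s m : ℕ} (hn : (n : F2) + (N : F2) = 1) (hz2 : 2 ≤ z)
    (hz : ∀ κ, ∀ P ∈ F κ, P.natDegree < z) (jj : Fin M → ℕ)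
    (hη : (m : ℝ) * et2 a b F n z ≤ 1 / 2) :
    |(∑ D ∈ (Sf k n).filter fun D => (pf D).card = m ∧ sm z D ≤ s ∧ P1 a b D, mo H F jj (pf D)) *
      2 ^ Fintype.card (Tau a b) - (CS jj).card *
      (((Sf k n).filter fun D => (pf D).card = m ∧ sm z D ≤ s ∧ nb a b D).card : ℝ)| ≤
      Er a b F jj n z s m *
      (((Sf k n).filter fun D => (pf D).card = m ∧ sm z D ≤ s ∧ nb a b D).card : ℝ) := by
  have h0 := lv_tuples (ι := Fin m) H hF hq h2t (s := s) hn hz2 hz jj
    (by rw [Fintype.card_fin]; exact hη)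
  rw [Fintype.card_fin] at h0
  have e1 : S1 H F jj (Xt k (Fin m) n z s) = (m.factorial : ℝ) *
      ∑ D ∈ (Sf k n).filter fun D => (pf D).card = m ∧ sm z D ≤ s ∧ P1 a b D,
        mo H F jj (pf D) := by
    have h1 := convw (k := k) (ι := Fin m) n z s (P1 a b) fun D => mo H F jj (pf D)
    rw [Fintype.card_fin] at h1
    rw [← h1, S1]
    refine sum_congr rfl fun T hT => ?_
    rw [Xt, mem_filter] at hT
    have h2 : (ok (QQ a b) T ∧ cl (datum H) (QQ a b) T) ↔
        (Function.Injective T ∧ P1 a b (∏ i, T i)) := by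
      constructor
      · rintro ⟨h2, h3⟩
        have h4 := (ok_iff H hT.1).1 h2
        exact ⟨h4.1, h4.2, (cl_iff H hT.1 h4.2).1 h3⟩
      · rintro ⟨h2, h3, h4⟩
        exact ⟨(ok_iff H hT.1).2 ⟨h2, h3⟩, (cl_iff H hT.1 h3).2 h4⟩
    by_cases h3 : ok (QQ a b) T ∧ cl (datum H) (QQ a b) T
    · rw [if_pos h3, if_pos (h2.1 h3), (tup_prod hT.1 (h2.1 h3).1).2]
    · rw [if_neg h3, if_neg (fun h => h3 (h2.2 h))]
  have e2 : S0 a b (Xt k (Fin m) n z s) = (m.factorial : ℝ) *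
      (((Sf k n).filter fun D => (pf D).card = m ∧ sm z D ≤ s ∧ nb a b D).card : ℝ) := by
    have h1 := conv (k := k) (ι := Fin m) n z s (nb a b)
    rw [Fintype.card_fin] at h1
    rw [← h1, S0]
    refine sum_congr rfl fun T hT => ?_
    rw [Xt, mem_filter] at hT
    simp only [ok_iff H hT.1]
  have hf : (0 : ℝ) < (m.factorial : ℝ) := by exact_mod_cast Nat.factorial_pos _
  rw [e1, e2] at h0
  obtain ⟨x, hx⟩ : ∃ x, x = (∑ D ∈ (Sf k n).filter fun D => (pf D).card = m ∧ sm z D ≤ s ∧ P1 a b D,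
    mo H F jj (pf D)) := ⟨_, rfl⟩
  obtain ⟨y, hy⟩ : ∃ y, y = (((Sf k n).filter fun D => (pf D).card = m ∧ sm z D ≤ s ∧
    nb a b D).card : ℝ) := ⟨_, rfl⟩
  rw [← hx, ← hy] at h0 ⊢
  have h3 : (m.factorial : ℝ) * x * 2 ^ Fintype.card (Tau a b) - (CS jj).card * ((m.factorial : ℝ) * y) =
      m.factorial * (x * 2 ^ Fintype.card (Tau a b) - (CS jj).card * y) := by ring
  rw [h3, abs_mul, abs_of_pos hf] at h0
  refine le_of_mul_le_mul_left (h0.trans (le_of_eq ?_)) hf
  ring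

/-- typical polynomials -/
def typ (t0 m1 s z : ℕ) (D : k[X]) : Prop := t0 ≤ (pf D).card ∧ (pf D).card ≤ m1 ∧ sm z D ≤ s

/-- sums over typical polynomials -/
theorem typ_sum (t0 m1 s z n : ℕ) (p : k[X] → Prop) (g : k[X] → ℝ) :
    ∑ D ∈ (Sf k n).filter (fun D => typ t0 m1 s z D ∧ p D), g D =
      ∑ m ∈ Icc t0 m1, ∑ D ∈ (Sf k n).filter fun D => (pf D).card = m ∧ sm z D ≤ s ∧ p D, g D := by
  rw [← sum_biUnion]
  · refine sum_congr ?_ fun _ _ => rfl
    ext D
    rw [mem_filter, mem_biUnion, typ]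
    constructor
    · rintro ⟨h1, ⟨h2, h3, h4⟩, h5⟩
      exact ⟨(pf D).card, mem_Icc.2 ⟨h2, h3⟩, mem_filter.2 ⟨h1, rfl, h4, h5⟩⟩
    · rintro ⟨m, hm, hD⟩
      rw [mem_Icc] at hm
      obtain ⟨h1, h2, h3, h4⟩ := mem_filter.1 hD
      exact ⟨h1, ⟨by omega, by omega, h3⟩, h4⟩
  · intro m _ m' _ hne
    rw [Function.onFun, disjoint_left]
    intro D hD hD'
    exact hne ((mem_filter.1 hD).2.1.symm.trans (mem_filter.1 hD').2.1)

include H hF in
/-- the moments over the typical polynomials -/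
theorem lv_typ (hq : 4 ≤ Fintype.card k)
    (h2t : ∀ u : W, u ≠ 0 → ∃ s, om u ((datum H).t s) ≠ 0)
    {n z s t0 m1 : ℕ} (hn : (n : F2) + (N : F2) = 1) (hz2 : 2 ≤ z)
    (hz : ∀ κ, ∀ P ∈ F κ, P.natDegree < z) (jj : Fin M → ℕ)
    (hη : (m1 : ℝ) * et2 a b F n z ≤ 1 / 2) {ε : ℝ}
    (hE : ∀ m, t0 ≤ m → m ≤ m1 → Er a b F jj n z s m ≤ ε) :
    |(∑ D ∈ (Sf k n).filter fun D => typ t0 m1 s z D ∧ P1 a b D, mo H F jj (pf D)) *
      2 ^ Fintype.card (Tau a b) - (CS jj).card *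
      (((Sf k n).filter fun D => typ t0 m1 s z D ∧ nb a b D).card : ℝ)| ≤
      ε * (((Sf k n).filter fun D => typ t0 m1 s z D ∧ nb a b D).card : ℝ) := by
  have hη0 := et2_nonneg (a := a) (b := b) F n z
  have e2 : (((Sf k n).filter fun D => typ t0 m1 s z D ∧ nb a b D).card : ℝ) =
      ∑ m ∈ Icc t0 m1, (((Sf k n).filter fun D => (pf D).card = m ∧ sm z D ≤ s ∧
        nb a b D).card : ℝ) := by
    have h := typ_sum (k := k) t0 m1 s z n (nb a b) fun _ => 1
    simpa using h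
  rw [typ_sum, e2, sum_mul, mul_sum, ← sum_sub_distrib, mul_sum]
  refine (abs_sum_le_sum_abs _ _).trans (sum_le_sum fun m hm => ?_)
  rw [mem_Icc] at hm
  have h3 : (m : ℝ) ≤ m1 := by exact_mod_cast hm.2
  refine (lv H hF hq h2t hn hz2 hz jj ((mul_le_mul_of_nonneg_right h3 hη0).trans hη)).trans ?_
  exact mul_le_mul_of_nonneg_right (hE m hm.1 hm.2) (Nat.cast_nonneg _)

end Q283.FS
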