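import Pool.Agent.Q283.FS.Ml

/-!
Corestriction of cocycles from a multiquadratic extension `L` of `K`.
-/

set_option autoImplicit false
set_option linter.all false

open scoped Classical

namespace Q283.ML

open Polynomial IsDedekindDomain WeierstrassCurve WeierstrassCurve.Affine
open Pool.Agent.TH115.GD
open Pool.Agent.TH841.NF (Sc tF tF_add ns_iff Loc cor cor_coc cor_cob cor_loc sum_cor cor_add mem_H
  chi_s)

variable {K : Type} [Field K] (h2 : (2 : K) ≠ 0) {ι : Type} [Fintype ι] {d : ι → K} {ρ : ι → Sep K}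
  (hρ : ∀ i, ρ i ^ 2 = algebraMap K (Sep K) (d i)) (h0 : ∀ i, ρ i ≠ 0)

/-- the field generated by the square roots -/
noncomputable def LL (ρ : ι → Sep K) : IntermediateField K (Sep K) :=
  IntermediateField.adjoin K (Set.range ρ)

theorem fix_iff (σ : GK K) : σ ∈ (LL ρ).fixingSubgroup ↔ σ ∈ Hs h2 hρ h0 := by
  rw [mem_Hs, IntermediateField.mem_fixingSubgroup_iff]
  constructor
  · intro h i
    exact h _ (IntermediateField.subset_adjoin K _ ⟨i, rfl⟩)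
  · intro h x hx
    induction hx using IntermediateField.adjoin_induction with
    | mem x hx =>
      obtain ⟨i, rfl⟩ := hx
      exact h i
    | algebraMap x => exact σ.commutes x
    | add x y _ _ hx hy => rw [map_add, hx, hy]
    | inv x _ hx => rw [map_inv₀, hx]
    | mul x y _ _ hx hy => rw [map_mul, hx, hy]

/-- extension by zero of a cochain of the Galois group of `L` -/
noncomputable def ext0 {L : IntermediateField K (Sep K)} {M : Type} [Zero M]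
    (f : (Sep K ≃ₐ[L] Sep K) → M) (σ : GK K) : M :=
  if h : σ ∈ L.fixingSubgroup then f (IntermediateField.fixingSubgroupEquiv L ⟨σ, h⟩) else 0

/-- the restriction of scalars -/
noncomputable def dn {L : IntermediateField K (Sep K)} (σ : Sep K ≃ₐ[L] Sep K) : GK K :=
  σ.restrictScalars K

theorem dn_mem {L : IntermediateField K (Sep K)} (σ : Sep K ≃ₐ[L] Sep K) :
    dn σ ∈ L.fixingSubgroup := by
  rw [IntermediateField.mem_fixingSubgroup_iff]
  intro x hx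
  exact σ.commutes ⟨x, hx⟩

theorem ext0_dn {L : IntermediateField K (Sep K)} {M : Type} [Zero M]
    (f : (Sep K ≃ₐ[L] Sep K) → M) (σ : Sep K ≃ₐ[L] Sep K) : ext0 f (dn σ) = f σ := by
  unfold ext0
  rw [dif_pos (dn_mem σ)]
  congr 1

theorem exists_dn {L : IntermediateField K (Sep K)} {σ : GK K} (h : σ ∈ L.fixingSubgroup) :
    ∃ τ : Sep K ≃ₐ[L] Sep K, dn τ = σ :=
  ⟨IntermediateField.fixingSubgroupEquiv L ⟨σ, h⟩, by ext x; rfl⟩

/-- triviality at the places of `L` above a place of `K` with the completion `F` -/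
def TrivAt (W : WeierstrassCurve K) (L : IntermediateField K (Sep K)) (F : Type) [Field F]
    [Algebra K F] (f : (Sep K ≃ₐ[L] Sep K) → Pt W (Sep K)) : Prop :=
  ∀ j : Sep K →ₐ[K] Sep F, ∃ P : Pt W (Sep F), ∀ (τ : Sep F ≃ₐ[F] Sep F) (σ : Sep K ≃ₐ[L] Sep K),
    (∀ x, τ (j x) = j (σ x)) → act W j (f σ) = act W (rs K τ) P - P

variable {W : WeierstrassCurve K}

theorem ext0_coc {f : (Sep K ≃ₐ[LL ρ] Sep K) → Pt W (Sep K)} (hf : IsCoc W f) :
    ∀ x ∈ Hs h2 hρ h0, ∀ y ∈ Hs h2 hρ h0, ext0 f (x * y) = ext0 f x + aL W K x (ext0 f y) := by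
  intro x hx y hy
  obtain ⟨x', rfl⟩ := exists_dn ((fix_iff h2 hρ h0 x).2 hx)
  obtain ⟨y', rfl⟩ := exists_dn ((fix_iff h2 hρ h0 y).2 hy)
  have e : dn x' * dn y' = dn (x' * y') := rfl
  rw [e, ext0_dn, ext0_dn, ext0_dn]
  exact hf.mul x' y'

/-- a section -/
noncomputable def sc (q : GK K ⧸ Hs h2 hρ h0) : GK K :=
  if q = ((1 : GK K) : GK K ⧸ Hs h2 hρ h0) then 1 else Quotient.out q

theorem sc_spec (q : GK K ⧸ Hs h2 hρ h0) : (sc h2 hρ h0 q : GK K ⧸ Hs h2 hρ h0) = q := by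
  unfold sc
  split_ifs with h
  · exact h.symm
  · exact QuotientGroup.out_eq' q

theorem sc_one : sc h2 hρ h0 ((1 : GK K) : GK K ⧸ Hs h2 hρ h0) = 1 := if_pos rfl

/-- the corestriction with the character of `T` -/
noncomputable def cT (T : Finset ι) (f : (Sep K ≃ₐ[LL ρ] Sep K) → Pt W (Sep K)) :
    GK K → Pt W (Sep K) :=
  cor (sc h2 hρ h0) (aL W K) (chT h2 hρ h0 T) (ext0 f)

theorem cT_coc (T : Finset ι) {f : (Sep K ≃ₐ[LL ρ] Sep K) → Pt W (Sep K)} (hf : IsCoc W f)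
    (g g' : GK K) : cT h2 hρ h0 T f (g * g') =
      cT h2 hρ h0 T f g + chT h2 hρ h0 T g • aL W K g (cT h2 hρ h0 T f g') :=
  cor_coc (sc_spec h2 hρ h0) (aL W K) (chT_H h2 hρ h0 T) (ext0_coc h2 hρ h0 hf) g g'

/-- the sum of the corestrictions -/
theorem sum_cT (f : (Sep K ≃ₐ[LL ρ] Sep K) → Pt W (Sep K)) (σ : Sep K ≃ₐ[LL ρ] Sep K) :
    ∑ T : Finset ι, cT h2 hρ h0 T f (dn σ) = 2 ^ Fintype.card ι • f σ := by
  have h := sum_cor (sc_spec h2 hρ h0) (sc_one h2 hρ h0) (aL W K) (fun T => chT h2 hρ h0 T)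
    (2 ^ Fintype.card ι) (sum_chT_H h2 hρ h0) (sum_chT_not h2 hρ h0) (ext0 f) (dn σ)
    ((fix_iff h2 hρ h0 _).1 (dn_mem σ))
  rw [ext0_dn] at h
  refine Eq.trans h ?_
  have e : (2 : ℤ) ^ Fintype.card ι = ((2 ^ Fintype.card ι : ℕ) : ℤ) := by push_cast; rfl
  rw [e, natCast_zsmul]

/-- the corestriction vanishes on the automorphisms that fix a finite set -/
theorem cT_fin (T : Finset ι) {f : (Sep K ≃ₐ[LL ρ] Sep K) → Pt W (Sep K)} (hf : IsCoc W f) :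
    ∃ S : Finset (Sep K), ∀ τ : GK K, (∀ x ∈ S, τ x = x) → cT h2 hρ h0 T f τ = 0 := by
  haveI : Algebra.IsAlgebraic (LL ρ) (Sep K) :=
    Algebra.IsAlgebraic.tower_top (K := K) (LL ρ)
  obtain ⟨S, hS⟩ := coc_fin hf
  refine ⟨(Finset.univ : Finset ι).image ρ ∪ (Finset.univ : Finset (GK K ⧸ Hs h2 hρ h0)).biUnion
    fun q => S.image fun x => sc h2 hρ h0 q x, fun τ hτ => ?_⟩
  have h1 : τ ∈ Hs h2 hρ h0 := by
    rw [mem_Hs]
    intro i
    exact hτ _ (Finset.mem_union_left _ (Finset.mem_image_of_mem _ (Finset.mem_univ i)))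
  have hq : ∀ q : GK K ⧸ Hs h2 hρ h0, τ • q = q := by
    intro q
    induction q using QuotientGroup.induction_on with
    | H g =>
      change ((τ * g : GK K) : GK K ⧸ Hs h2 hρ h0) = g
      rw [eq_comm, QuotientGroup.eq, ← mul_assoc]
      have := (Hs_normal h2 hρ h0).conj_mem τ h1 g⁻¹
      rwa [inv_inv] at this
  unfold cT
  apply Pool.Agent.TH841.NF.cor_zero_of
  intro q
  have h3 := mem_H (sc_spec h2 hρ h0) τ q
  rw [hq] at h3 ⊢
  obtain ⟨σ, hσ⟩ := exists_dn ((fix_iff h2 hρ h0 _).2 h3)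
  rw [← hσ, ext0_dn]
  apply hS
  intro x hx
  have h4 : σ x = ((sc h2 hρ h0 q)⁻¹ * τ * sc h2 hρ h0 q) x := by
    rw [← hσ]
    rfl
  have h5 := hτ (sc h2 hρ h0 q x) (Finset.mem_union_right _ (Finset.mem_biUnion.2
    ⟨q, Finset.mem_univ _, Finset.mem_image_of_mem _ hx⟩))
  rw [h4]
  show (sc h2 hρ h0 q).symm (τ (sc h2 hρ h0 q x)) = x
  rw [h5]
  exact AlgEquiv.symm_apply_apply _ _

section tw

variable {α β α' β' : K} (T : Finset ι) (hα : α' = α * ∏ i ∈ T, d i) (hβ : β' = β * ∏ i ∈ T, d i)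

include hρ in
theorem prod_sq : (∏ i ∈ T, ρ i) ^ 2 = algebraMap K (Sep K) (∏ i ∈ T, d i) := by
  rw [← Finset.prod_pow, map_prod]
  exact Finset.prod_congr rfl fun i _ => hρ i

include hρ h0 hα hβ in
/-- the scaling -/
theorem scT : Sc (RingHom.id (Sep K)) (∏ i ∈ T, ρ i) ((crv α β).baseChange (Sep K))
    ((crv α' β').baseChange (Sep K)) :=
  sc_crv (prod_sq hρ T) (Finset.prod_ne_zero_iff.2 fun i _ => h0 i) hα hβ

/-- the cocycle of the twist -/
noncomputable def fT (f : (Sep K ≃ₐ[LL ρ] Sep K) → Pt (crv α β) (Sep K)) :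
    GK K → Pt (crv α' β') (Sep K) := fun g => tm (scT hρ h0 T hα hβ) (cT h2 hρ h0 T f g)

theorem fT_act (g : GK K) (P : Pt (crv α β) (Sep K)) :
    act (crv α' β') (rs K g) (tm (scT hρ h0 T hα hβ) P) =
      chT h2 hρ h0 T g • tm (scT hρ h0 T hα hβ) (act (crv α β) (rs K g) P) := by
  have hg : (rs K g) (∏ i ∈ T, ρ i) = ((chT h2 hρ h0 T g : ℤ) : Sep K) * ∏ i ∈ T, ρ i :=
    chT_spec h2 hρ h0 T g
  have hpm := chT_pm h2 hρ h0 T g
  have S' : Sc (RingHom.id (Sep K)) (((chT h2 hρ h0 T g : ℤ) : Sep K) * ∏ i ∈ T, ρ i)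
      ((crv α β).baseChange (Sep K)) ((crv α' β').baseChange (Sep K)) := by
    refine sc_crv (d := ∏ i ∈ T, d i) ?_ ?_ hα hβ
    · rw [mul_pow, prod_sq hρ T]
      rcases hpm with h | h <;> rw [h] <;> push_cast <;> ring
    · refine mul_ne_zero ?_ (Finset.prod_ne_zero_iff.2 fun i _ => h0 i)
      rcases hpm with h | h <;> rw [h] <;> push_cast <;> norm_num
  rw [act_tm (scT hρ h0 T hα hβ) (rs K g) S' hg, tm_sign (scT hρ h0 T hα hβ) S' hpm rfl]

theorem fT_coc {f : (Sep K ≃ₐ[LL ρ] Sep K) → Pt (crv α β) (Sep K)} (hf : IsCoc (crv α β) f) :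
    IsCoc (crv α' β') (fT h2 hρ h0 T hα hβ f) := by
  obtain ⟨S, hS⟩ := cT_fin h2 hρ h0 T hf
  haveI : Algebra.IsAlgebraic K (Sep K) := inferInstance
  refine coc_of_fin (fun σ τ => ?_) S fun τ hτ => ?_
  · unfold fT
    rw [cT_coc h2 hρ h0 T hf, map_add, map_zsmul, fT_act h2 hρ h0 T hα hβ]
    rfl
  · unfold fT
    rw [hS τ hτ, map_zero]

theorem fT_loc {f : (Sep K ≃ₐ[LL ρ] Sep K) → Pt (crv α β) (Sep K)} (hf : IsCoc (crv α β) f)
    (F : Type) [Field F] [Algebra K F] (hl : TrivAt (crv α β) (LL ρ) F f) :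
    LocTriv (F := K) (crv α' β') F (Sep F) (fT h2 hρ h0 T hα hβ f) := by
  have j0 : Sep K →ₐ[K] Sep F := by
    haveI : Algebra.IsSeparable K (Sep K) := inferInstance
    exact IsSepClosed.lift
  have hD := cor_loc (locD (crv α β) F) (sc_spec h2 hρ h0) (chT_H h2 hρ h0 T)
    (f := ext0 f) (ext0_coc h2 hρ h0 hf) (fun j => by
      obtain ⟨P, hP⟩ := hl j
      refine ⟨P, fun τ h hh e => ?_⟩
      obtain ⟨σ, rfl⟩ := exists_dn ((fix_iff h2 hρ h0 _).2 hh)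
      rw [ext0_dn]
      exact hP τ σ fun x => DFunLike.congr_fun e x) j0
  obtain ⟨R, hR⟩ := hD
  have SR : Sc (RingHom.id (Sep F)) (j0 (∏ i ∈ T, ρ i)) ((crv α β).baseChange (Sep F))
      ((crv α' β').baseChange (Sep F)) := by
    refine sc_crv (d := ∏ i ∈ T, d i) ?_ ?_ hα hβ
    · rw [← map_pow, prod_sq hρ T]
      exact j0.commutes _
    · exact (_root_.map_ne_zero j0).2 (Finset.prod_ne_zero_iff.2 fun i _ => h0 i)
  refine ⟨j0, tm SR R, fun τ σ hτσ => ?_⟩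
  have e1 : (locD (crv α β) F).lc τ j0 = (locD (crv α β) F).rc j0 σ := by
    apply AlgHom.ext
    exact hτσ
  have e2 := hR τ σ e1
  have e3 : act (crv α β) j0 (cT h2 hρ h0 T f σ) =
      chT h2 hρ h0 T σ • act (crv α β) (rs K τ) R - R := e2
  have e9 : act (crv α' β') (AlgHom.restrictScalars K j0) (fT h2 hρ h0 T hα hβ f σ) =
      tm SR (act (crv α β) j0 (cT h2 hρ h0 T f σ)) :=
    act_tm (scT hρ h0 T hα hβ) j0 SR rfl (cT h2 hρ h0 T f σ)
  rw [e9, e3, map_sub, map_zsmul]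
  congr 1
  have hg : (rs K τ) (j0 (∏ i ∈ T, ρ i)) =
      ((chT h2 hρ h0 T σ : ℤ) : Sep F) * j0 (∏ i ∈ T, ρ i) := by
    show τ (j0 (∏ i ∈ T, ρ i)) = _
    rw [hτσ, chT_spec h2 hρ h0 T σ, map_mul, map_intCast]
  have hpm := chT_pm h2 hρ h0 T σ
  have S' : Sc (RingHom.id (Sep F)) (((chT h2 hρ h0 T σ : ℤ) : Sep F) * j0 (∏ i ∈ T, ρ i))
      ((crv α β).baseChange (Sep F)) ((crv α' β').baseChange (Sep F)) := by
    refine sc_crv (d := ∏ i ∈ T, d i) ?_ ?_ hα hβ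
    · rw [mul_pow, ← map_pow, prod_sq hρ T]
      have e5 : j0 (algebraMap K (Sep K) (∏ i ∈ T, d i)) = algebraMap K (Sep F) (∏ i ∈ T, d i) :=
        j0.commutes _
      rw [e5]
      rcases hpm with h | h <;> rw [h] <;> push_cast <;> ring
    · refine mul_ne_zero ?_ ((_root_.map_ne_zero j0).2 (Finset.prod_ne_zero_iff.2 fun i _ => h0 i))
      rcases hpm with h | h <;> rw [h] <;> push_cast <;> norm_num
  rw [act_tm SR (rs K τ) S' hg, tm_sign SR S' hpm rfl]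

/-- `f` is killed by a power of two -/
theorem fT_two {f : (Sep K ≃ₐ[LL ρ] Sep K) → Pt (crv α β) (Sep K)} {m : ℕ} {Q : Pt (crv α β) (Sep K)}
    (hQ : ∀ σ : Sep K ≃ₐ[LL ρ] Sep K, 2 ^ m • f σ = act (crv α β) (rs K σ) Q - Q) :
    ∃ R : Pt (crv α' β') (Sep K), ∀ σ : GK K, 2 ^ m • fT h2 hρ h0 T hα hβ f σ =
      act (crv α' β') (rs K σ) R - R := by
  have h1 : ∀ g : GK K, cor (sc h2 hρ h0) (aL (crv α β) K) (chT h2 hρ h0 T)
      (fun σ => 2 ^ m • ext0 f σ) g = 2 ^ m • cT h2 hρ h0 T f g := by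
    intro g
    unfold cT cor
    rw [Finset.smul_sum]
    refine Finset.sum_congr rfl fun q _ => ?_
    rw [map_nsmul, smul_comm]
  have h3 := cor_cob (sc_spec h2 hρ h0) (aL (crv α β) K) (chT_H h2 hρ h0 T)
    (f := fun σ => 2 ^ m • ext0 f σ) Q (fun x hx => by
      obtain ⟨σ, rfl⟩ := exists_dn ((fix_iff h2 hρ h0 _).2 hx)
      show 2 ^ m • ext0 f (dn σ) = _
      rw [ext0_dn]
      exact hQ σ)
  obtain ⟨Q', hQ'⟩ : ∃ Q' : Pt (crv α β) (Sep K), ∀ g : GK K, 2 ^ m • cT h2 hρ h0 T f g =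
      chT h2 hρ h0 T g • aL (crv α β) K g Q' - Q' := ⟨_, fun g => (h1 g).symm.trans (h3 g)⟩
  refine ⟨tm (scT hρ h0 T hα hβ) Q', fun σ => ?_⟩
  unfold fT
  rw [← map_nsmul, hQ', map_sub, map_zsmul, fT_act h2 hρ h0 T hα hβ]
  rfl

/-- if `fT` is a coboundary, so is the restriction of `cT` -/
theorem cT_cob {f : (Sep K ≃ₐ[LL ρ] Sep K) → Pt (crv α β) (Sep K)}
    (h : ∃ R : Pt (crv α' β') (Sep K), ∀ σ : GK K, fT h2 hρ h0 T hα hβ f σ =
      act (crv α' β') (rs K σ) R - R) :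
    ∃ R : Pt (crv α β) (Sep K), ∀ σ : Sep K ≃ₐ[LL ρ] Sep K, cT h2 hρ h0 T f (dn σ) =
      act (crv α β) (rs K σ) R - R := by
  obtain ⟨R, hR⟩ := h
  obtain ⟨R', rfl⟩ := tm_surj (scT hρ h0 T hα hβ) R
  refine ⟨R', fun σ => ?_⟩
  apply tm_inj (scT hρ h0 T hα hβ)
  have h1 := hR (dn σ)
  rw [fT_act h2 hρ h0 T hα hβ, chT_H h2 hρ h0 T _ ((fix_iff h2 hρ h0 _).1 (dn_mem σ)),
    one_zsmul] at h1
  rw [map_sub]
  exact h1

end tw

/-- the corestriction with the trivial character -/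
theorem fT_empty {α β : K} (f : (Sep K ≃ₐ[LL ρ] Sep K) → Pt (crv α β) (Sep K)) (g : GK K) :
    fT h2 hρ h0 ∅ (α := α) (β := β) (by simp) (by simp) f g = cT h2 hρ h0 ∅ f g := by
  unfold fT
  exact tm_id _ (by simp) _

end Q283.ML
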