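import Pool.Agent.TH115.SK.Defs
import Pool.Agent.TH841.NF.Cor
import Pool.Agent.TH841.NF.Tm

/-!
Corestriction of cocycles from a multiquadratic extension `L` of `K`: generalities.
-/

set_option autoImplicit false
set_option linter.all false

open scoped Classical

namespace Q283.ML

open Polynomial IsDedekindDomain WeierstrassCurve WeierstrassCurve.Affine
open Pool.Agent.TH115.GD
open Pool.Agent.TH841.NF (Sc tF tF_add ns_iff Loc cor cor_coc cor_cob cor_loc sum_cor cor_add)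

section act

variable {K Ω Ω' Ω'' : Type} [Field K] [Field Ω] [Field Ω'] [Field Ω''] [Algebra K Ω] [Algebra K Ω']
  [Algebra K Ω'']

theorem act_act (W : WeierstrassCurve K) (ψ : Ω' →ₐ[K] Ω'') (φ : Ω →ₐ[K] Ω') (P : Pt W Ω) :
    act W ψ (act W φ P) = act W (ψ.comp φ) P := by
  rcases P with _ | ⟨x, y, h⟩
  · rfl
  · rfl

theorem pt_ext {W : WeierstrassCurve K} {x y x' y' : Ω}
    (h : (W.baseChange Ω).toAffine.Nonsingular x y)
    (h' : (W.baseChange Ω).toAffine.Nonsingular x' y') (hx : x = x') (hy : y = y') :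
    @Eq (Pt W Ω) (Affine.Point.some x y h) (Affine.Point.some x' y' h') := by
  subst hx hy
  rfl

theorem act_some (W : WeierstrassCurve K) (φ : Ω →ₐ[K] Ω') (x y : Ω)
    (h : (W.baseChange Ω).toAffine.Nonsingular x y) :
    act W φ (Affine.Point.some x y h) = (Affine.Point.some (φ x) (φ y)
      ((Affine.baseChange_nonsingular W (f := φ) φ.injective x y).mpr h) :
        (W.baseChange Ω').toAffine.Point) := rfl

theorem act_id (W : WeierstrassCurve K) (φ : Ω →ₐ[K] Ω) (hφ : ∀ x, φ x = x) (P : Pt W Ω) :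
    act W φ P = P := by
  rcases P with _ | ⟨x, y, h⟩
  · rfl
  · rw [act_some]
    exact pt_ext _ _ (hφ x) (hφ y)

theorem act_inj (W : WeierstrassCurve K) (φ : Ω →ₐ[K] Ω') : Function.Injective (act W φ) := by
  intro P Q h
  rcases P with _ | ⟨x, y, hx⟩ <;> rcases Q with _ | ⟨x', y', hx'⟩
  · rfl
  · rw [act_some] at h
    cases h
  · rw [act_some] at h
    cases h
  · rw [act_some, act_some, Affine.Point.some.injEq] at h
    exact pt_ext _ _ (φ.injective h.1) (φ.injective h.2)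

/-- the twisting map on points -/
noncomputable def tm {W W' : WeierstrassCurve K} {u : Ω}
    (S : Sc (RingHom.id Ω) u (W.baseChange Ω) (W'.baseChange Ω)) : Pt W Ω →+ Pt W' Ω where
  toFun := tF S
  map_zero' := rfl
  map_add' := tF_add S

theorem tm_some {W W' : WeierstrassCurve K} {u : Ω}
    (S : Sc (RingHom.id Ω) u (W.baseChange Ω) (W'.baseChange Ω)) (x y : Ω)
    (h : (W.baseChange Ω).toAffine.Nonsingular x y) :
    tm S (Affine.Point.some x y h) =
      (Affine.Point.some (x * u ^ 2) (y * u ^ 3) ((ns_iff S x y).2 h) :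
        (W'.baseChange Ω).toAffine.Point) := rfl

theorem tm_inj {W W' : WeierstrassCurve K} {u : Ω}
    (S : Sc (RingHom.id Ω) u (W.baseChange Ω) (W'.baseChange Ω)) : Function.Injective (tm S) := by
  have hu := S.hu
  intro P Q h
  rcases P with _ | ⟨x, y, hx⟩ <;> rcases Q with _ | ⟨x', y', hx'⟩
  · rfl
  · rw [tm_some] at h
    cases h
  · rw [tm_some] at h
    cases h
  · rw [tm_some, tm_some, Affine.Point.some.injEq] at h
    exact pt_ext _ _ (mul_right_cancel₀ (pow_ne_zero 2 hu) h.1)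
      (mul_right_cancel₀ (pow_ne_zero 3 hu) h.2)

theorem tm_surj {W W' : WeierstrassCurve K} {u : Ω}
    (S : Sc (RingHom.id Ω) u (W.baseChange Ω) (W'.baseChange Ω)) : Function.Surjective (tm S) := by
  have hu := S.hu
  intro Q
  rcases Q with _ | ⟨x, y, h⟩
  · exact ⟨0, rfl⟩
  · have e1 : x / u ^ 2 * u ^ 2 = x := by field_simp
    have e2 : y / u ^ 3 * u ^ 3 = y := by field_simp
    have h1 : (W.baseChange Ω).toAffine.Nonsingular (x / u ^ 2) (y / u ^ 3) := by
      rw [← ns_iff S]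
      show (W'.baseChange Ω).toAffine.Nonsingular (x / u ^ 2 * u ^ 2) (y / u ^ 3 * u ^ 3)
      rw [e1, e2]
      exact h
    refine ⟨Affine.Point.some _ _ h1, ?_⟩
    rw [tm_some]
    exact pt_ext _ _ e1 e2

theorem act_tm {W W' : WeierstrassCurve K} {u : Ω} {u' : Ω'}
    (S : Sc (RingHom.id Ω) u (W.baseChange Ω) (W'.baseChange Ω)) (φ : Ω →ₐ[K] Ω')
    (S' : Sc (RingHom.id Ω') u' (W.baseChange Ω') (W'.baseChange Ω')) (hu : φ u = u') (P : Pt W Ω) :
    act W' φ (tm S P) = tm S' (act W φ P) := by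
  rcases P with _ | ⟨x, y, h⟩
  · rfl
  · rw [tm_some, act_some, act_some, tm_some]
    refine pt_ext _ _ ?_ ?_
    · rw [map_mul, map_pow, hu]
    · rw [map_mul, map_pow, hu]

theorem tm_id {W : WeierstrassCurve K} {u : Ω}
    (S : Sc (RingHom.id Ω) u (W.baseChange Ω) (W.baseChange Ω)) (hu : u = 1) (P : Pt W Ω) :
    tm S P = P := by
  rcases P with _ | ⟨x, y, h⟩
  · rfl
  · rw [tm_some]
    refine pt_ext _ _ ?_ ?_
    · rw [hu, one_pow, mul_one]
    · rw [hu, one_pow, mul_one]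

theorem tm_sign {W : WeierstrassCurve K} {α β : K} {u u' : Ω}
    (S : Sc (RingHom.id Ω) u (W.baseChange Ω) ((crv α β).baseChange Ω))
    (S' : Sc (RingHom.id Ω) u' (W.baseChange Ω) ((crv α β).baseChange Ω)) {c : ℤ}
    (hc : c = 1 ∨ c = -1) (hu : u' = (c : Ω) * u) (P : Pt W Ω) : tm S' P = c • tm S P := by
  rcases hc with rfl | rfl
  · rw [one_zsmul]
    rcases P with _ | ⟨x, y, h⟩
    · rfl
    · rw [tm_some, tm_some]
      refine pt_ext _ _ ?_ ?_
      · rw [hu]; push_cast; ring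
      · rw [hu]; push_cast; ring
  · rw [neg_one_zsmul]
    rcases P with _ | ⟨x, y, h⟩
    · rfl
    · rw [tm_some, tm_some]
      refine Eq.trans ?_ (Affine.Point.neg_some _).symm
      refine pt_ext _ _ ?_ ?_
      · rw [hu]; push_cast; ring
      · have h1 : ((crv α β).baseChange Ω).a₁ = 0 := by simp [crv, WeierstrassCurve.baseChange]
        have h3 : ((crv α β).baseChange Ω).a₃ = 0 := by simp [crv, WeierstrassCurve.baseChange]
        rw [Affine.negY, h1, h3, hu]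
        push_cast
        ring

theorem sc_crv {α β d α' β' : K} {u : Ω} (hu : u ^ 2 = algebraMap K Ω d) (h0 : u ≠ 0)
    (hα : α' = α * d) (hβ : β' = β * d) :
    Sc (RingHom.id Ω) u ((crv α β).baseChange Ω) ((crv α' β').baseChange Ω) where
  hu := h0
  h1 := by simp [crv, WeierstrassCurve.baseChange]
  h2 := by
    simp only [crv, WeierstrassCurve.baseChange, map_neg, map_add, RingHom.id_apply, hα, hβ, map_mul,
      WeierstrassCurve.map]
    rw [hu]
    ring
  h3 := by simp [crv, WeierstrassCurve.baseChange]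
  h4 := by
    have e : u ^ 4 = algebraMap K Ω d ^ 2 := by rw [← hu]; ring
    simp only [crv, WeierstrassCurve.baseChange, map_neg, map_add, RingHom.id_apply, hα, hβ, map_mul,
      WeierstrassCurve.map]
    rw [e]
    ring
  h6 := by simp [crv, WeierstrassCurve.baseChange]

end act

section coc

variable {K F Ω : Type} [Field K] [Field F] [Field Ω] [Algebra K F] [Algebra F Ω] [Algebra K Ω]
  [IsScalarTower K F Ω] {W : WeierstrassCurve K}

/-- a continuous cocycle vanishes on the automorphisms that fix a finite set -/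
theorem coc_fin [Algebra.IsAlgebraic F Ω] {f : (Ω ≃ₐ[F] Ω) → Pt W Ω} (hf : IsCoc W f) :
    ∃ S : Finset Ω, ∀ τ : Ω ≃ₐ[F] Ω, (∀ x ∈ S, τ x = x) → f τ = 0 := by
  have h1 : f 1 = 0 := by
    have := hf.2 1 1
    rw [one_mul, act_id W (rs K (1 : Ω ≃ₐ[F] Ω)) (fun x => rfl)] at this
    exact left_eq_add.1 this
  have h2 : f ⁻¹' {0} ∈ nhds (1 : Ω ≃ₐ[F] Ω) := (hf.1.isOpen_fiber 0).mem_nhds h1
  obtain ⟨E, hE, hEs⟩ := (krullTopology_mem_nhds_one_iff F Ω _).1 h2
  let b := Module.finBasis F E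
  refine ⟨Finset.univ.image fun i => (b i : Ω), fun τ hτ => ?_⟩
  apply hEs
  show τ ∈ E.fixingSubgroup
  rw [IntermediateField.mem_fixingSubgroup_iff]
  intro x hx
  have h3 : ((∑ i, b.repr ⟨x, hx⟩ i • b i : E) : Ω) = x :=
    congrArg (Subtype.val) (b.sum_repr ⟨x, hx⟩)
  rw [← h3]
  have h4 : ∀ i, τ (b i : Ω) = b i := fun i =>
    hτ _ (Finset.mem_image_of_mem _ (Finset.mem_univ i))
  simp only [IntermediateField.coe_sum, IntermediateField.coe_smul, map_sum, map_smul, h4]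

/-- the converse -/
theorem coc_of_fin [Algebra.IsAlgebraic F Ω] {f : (Ω ≃ₐ[F] Ω) → Pt W Ω}
    (hf : ∀ σ τ, f (σ * τ) = f σ + act W (rs K σ) (f τ))
    (S : Finset Ω) (hS : ∀ τ : Ω ≃ₐ[F] Ω, (∀ x ∈ S, τ x = x) → f τ = 0) : IsCoc W f := by
  refine ⟨(IsLocallyConstant.iff_exists_open f).2 ?_, hf⟩
  intro σ
  have : FiniteDimensional F (IntermediateField.adjoin F (S : Set Ω)) :=
    IntermediateField.finiteDimensional_adjoin fun x _ => Algebra.IsIntegral.isIntegral x
  refine ⟨(fun τ => σ⁻¹ * τ) ⁻¹'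
    ((IntermediateField.adjoin F (S : Set Ω)).fixingSubgroup : Set (Ω ≃ₐ[F] Ω)),
    (IntermediateField.fixingSubgroup_isOpen _).preimage (continuous_const_mul _), ?_, ?_⟩
  · show σ⁻¹ * σ ∈ (IntermediateField.adjoin F (S : Set Ω)).fixingSubgroup
    rw [inv_mul_cancel]
    exact one_mem _
  · intro τ hτ
    have h1 : σ⁻¹ * τ ∈ (IntermediateField.adjoin F (S : Set Ω)).fixingSubgroup := hτ
    rw [IntermediateField.mem_fixingSubgroup_iff] at h1
    have h2 := hS (σ⁻¹ * τ) fun x hx => h1 x (IntermediateField.subset_adjoin F _ hx)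
    have h3 := hf σ (σ⁻¹ * τ)
    rw [mul_inv_cancel_left, h2, map_zero, add_zero] at h3
    exact h3

end coc

section loc

variable {K : Type} [Field K]

/-- the Galois group -/
abbrev GK (K : Type) [Field K] : Type := Sep K ≃ₐ[K] Sep K

/-- the Galois action on the points over `Sep F`, `F` over `K` -/
noncomputable def aL (W : WeierstrassCurve K) (F : Type) [Field F] [Algebra K F] :
    GK F →* AddMonoid.End (Pt W (Sep F)) where
  toFun τ := act W (rs K τ)
  map_one' := by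
    refine AddMonoidHom.ext fun P => ?_
    exact act_id W (rs K (1 : GK F)) (fun x => rfl) P
  map_mul' σ τ := by
    refine AddMonoidHom.ext fun P => ?_
    exact (act_act W (rs K σ) (rs K τ) P).symm

/-- the local data -/
noncomputable def locD (W : WeierstrassCurve K) (F : Type) [Field F] [Algebra K F] :
    Loc (GK K) (Pt W (Sep K)) (Sep K →ₐ[K] Sep F) (GK F) (Pt W (Sep F)) where
  a := aL W K
  b := aL W F
  lc τ j := (rs K τ).comp j
  rc j g := j.comp (rs K g)
  st j := act W j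
  lc_mul _ _ _ := rfl
  lc_one _ := rfl
  rc_mul _ _ _ := rfl
  rc_one _ := rfl
  comm _ _ _ := rfl
  st_l _ _ x := (act_act W _ _ x).symm
  st_r _ _ x := (act_act W _ _ x).symm

end loc

section chi

variable {K : Type} [Field K] (h2 : (2 : K) ≠ 0) {d : K} {ρ : Sep K}
  (hρ : ρ ^ 2 = algebraMap K (Sep K) d) (h0 : ρ ≠ 0)

include hρ in
theorem pm (σ : GK K) : σ ρ = ρ ∨ σ ρ = -ρ := by
  have h1 : σ (algebraMap K (Sep K) d) = algebraMap K (Sep K) d := AlgEquiv.commutes σ d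
  have h : (σ ρ) ^ 2 = ρ ^ 2 := by rw [← map_pow, hρ, h1]
  exact sq_eq_sq_iff_eq_or_eq_neg.1 h

/-- the sign -/
noncomputable def sg (ρ : Sep K) (σ : GK K) : ℤˣ := if σ ρ = ρ then 1 else -1

theorem sg_pos {σ : GK K} (h : σ ρ = ρ) : sg ρ σ = 1 := if_pos h

include h0 h2 in
theorem sg_neg {σ : GK K} (h : σ ρ = -ρ) : sg ρ σ = -1 := by
  apply if_neg
  intro h'
  apply h0
  have h3 : (2 : Sep K) * ρ = 0 := by linear_combination (h - h')
  have h4 : (2 : Sep K) ≠ 0 := by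
    have h5 := (_root_.map_ne_zero (algebraMap K (Sep K))).2 h2
    rwa [map_ofNat] at h5
  exact (mul_eq_zero.1 h3).resolve_left h4

/-- the quadratic character of `K(ρ)` -/
noncomputable def chi : GK K →* ℤˣ where
  toFun σ := sg ρ σ
  map_one' := sg_pos rfl
  map_mul' σ τ := by
    have e : (σ * τ) ρ = σ (τ ρ) := rfl
    rcases pm hρ σ with h1 | h1 <;> rcases pm hρ τ with h3 | h3
    · rw [sg_pos h1, sg_pos h3, sg_pos (by rw [e, h3, h1]), one_mul]
    · rw [sg_pos h1, sg_neg h2 h0 h3, sg_neg h2 h0 (by rw [e, h3, map_neg, h1]), one_mul]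
    · rw [sg_neg h2 h0 h1, sg_pos h3, sg_neg h2 h0 (by rw [e, h3, h1]), mul_one]
    · rw [sg_neg h2 h0 h1, sg_neg h2 h0 h3, sg_pos (by rw [e, h3, map_neg, h1, neg_neg])]
      rfl

theorem chi_spec (σ : GK K) : σ ρ = (((chi h2 hρ h0 σ : ℤˣ) : ℤ) : Sep K) * ρ := by
  change σ ρ = (((sg ρ σ : ℤˣ) : ℤ) : Sep K) * ρ
  rcases pm hρ σ with h1 | h1
  · rw [sg_pos h1, h1]; simp
  · rw [sg_neg h2 h0 h1, h1]; simp

theorem chi_one_iff (σ : GK K) : chi h2 hρ h0 σ = 1 ↔ σ ρ = ρ := by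
  change sg ρ σ = 1 ↔ _
  constructor
  · intro h
    rcases pm hρ σ with h1 | h1
    · exact h1
    · rw [sg_neg h2 h0 h1] at h
      exact absurd h (by decide)
  · intro h
    exact sg_pos h

end chi

section chis

variable {K : Type} [Field K] (h2 : (2 : K) ≠ 0) {ι : Type} [Fintype ι] {d : ι → K} {ρ : ι → Sep K}
  (hρ : ∀ i, ρ i ^ 2 = algebraMap K (Sep K) (d i)) (h0 : ∀ i, ρ i ≠ 0)

/-- the character of `∏ i ∈ T, ρ i` -/
noncomputable def chT (T : Finset ι) : GK K →* ℤ :=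
  (Units.coeHom ℤ).comp (∏ i ∈ T, chi h2 (hρ i) (h0 i))

theorem chT_apply (T : Finset ι) (σ : GK K) :
    chT h2 hρ h0 T σ = ∏ i ∈ T, ((chi h2 (hρ i) (h0 i) σ : ℤˣ) : ℤ) := by
  unfold chT
  rw [MonoidHom.comp_apply, MonoidHom.finsetProd_apply, map_prod]
  rfl

theorem chT_spec (T : Finset ι) (σ : GK K) :
    σ (∏ i ∈ T, ρ i) = ((chT h2 hρ h0 T σ : ℤ) : Sep K) * ∏ i ∈ T, ρ i := by
  rw [chT_apply, map_prod, Int.cast_prod, ← Finset.prod_mul_distrib]
  exact Finset.prod_congr rfl fun i _ => chi_spec h2 (hρ i) (h0 i) σ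

theorem chT_pm (T : Finset ι) (σ : GK K) : chT h2 hρ h0 T σ = 1 ∨ chT h2 hρ h0 T σ = -1 := by
  unfold chT
  rw [MonoidHom.comp_apply]
  rcases Int.units_eq_one_or ((∏ i ∈ T, chi h2 (hρ i) (h0 i)) σ) with h | h
  · left; rw [h]; rfl
  · right; rw [h]; rfl

/-- the subgroup -/
noncomputable def Hs : Subgroup (GK K) := ⨅ i, (chi h2 (hρ i) (h0 i)).ker

theorem mem_Hs (σ : GK K) : σ ∈ Hs h2 hρ h0 ↔ ∀ i, σ (ρ i) = ρ i := by
  unfold Hs
  rw [Subgroup.mem_iInf]
  exact forall_congr' fun i => (MonoidHom.mem_ker).trans (chi_one_iff h2 (hρ i) (h0 i) σ)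

instance Hs_normal : (Hs h2 hρ h0).Normal := by
  unfold Hs
  exact Subgroup.normal_iInf_normal fun i => inferInstance

instance Hs_fin : (Hs h2 hρ h0).FiniteIndex := by
  unfold Hs
  have : ∀ i, (chi h2 (hρ i) (h0 i)).ker.FiniteIndex := fun i => inferInstance
  exact Subgroup.finiteIndex_iInf this

noncomputable instance : Fintype (GK K ⧸ Hs h2 hρ h0) := Subgroup.fintypeQuotientOfFiniteIndex

theorem chT_H (T : Finset ι) : ∀ h ∈ Hs h2 hρ h0, chT h2 hρ h0 T h = 1 := by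
  intro h hh
  rw [chT_apply]
  refine Finset.prod_eq_one fun i _ => ?_
  have h1 := (chi_one_iff h2 (hρ i) (h0 i) h).2 ((mem_Hs h2 hρ h0 h).1 hh i)
  rw [h1]
  rfl

theorem sum_chT (σ : GK K) : ∑ T : Finset ι, chT h2 hρ h0 T σ =
    ∏ i, (1 + ((chi h2 (hρ i) (h0 i) σ : ℤˣ) : ℤ)) := by
  rw [Finset.prod_one_add]
  exact Finset.sum_congr (Finset.powerset_univ).symm fun T _ => chT_apply h2 hρ h0 T σ

theorem sum_chT_H : ∀ h ∈ Hs h2 hρ h0, ∑ T : Finset ι, chT h2 hρ h0 T h = 2 ^ Fintype.card ι := by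
  intro h hh
  rw [sum_chT]
  have : ∀ i : ι, (1 + ((chi h2 (hρ i) (h0 i) h : ℤˣ) : ℤ)) = 2 := by
    intro i
    rw [(chi_one_iff h2 (hρ i) (h0 i) h).2 ((mem_Hs h2 hρ h0 h).1 hh i)]
    rfl
  simp only [this, Finset.prod_const, Finset.card_univ]

theorem sum_chT_not : ∀ g, g ∉ Hs h2 hρ h0 → ∑ T : Finset ι, chT h2 hρ h0 T g = 0 := by
  intro g hg
  rw [mem_Hs, not_forall] at hg
  obtain ⟨i, hi⟩ := hg
  rw [sum_chT]
  apply Finset.prod_eq_zero (Finset.mem_univ i)
  have h1 : chi h2 (hρ i) (h0 i) g ≠ 1 := fun h => hi ((chi_one_iff h2 (hρ i) (h0 i) g).1 h)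
  rw [(Int.units_eq_one_or _).resolve_left h1]
  rfl

end chis

end Q283.ML
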