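import Pool.Agent.Q283.FS.Chs

/-!
The model of a cell.
-/

set_option autoImplicit false
set_option linter.all false

open scoped Classical

namespace Q283.FS

open Finset Polynomial Pool.Agent.H341R2.Sharp Module
open Pool.Agent.Y164.PS

section vals
variable {J υ τ : Type} [Fintype J] [Fintype υ] [Fintype τ] [LinearOrder J]
variable (Md : Mdl J υ τ) {U : Finset υ} (x : Bt J υ τ → F2)

theorem AA_lr {u : υ} (h : u ∈ U) (i : J) :
    AA Md U x (Sum.inl i) (Sum.inr u) = x (Sum.inr (Sum.inl (i, u))) := if_pos h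

theorem AA_rl {u : υ} (h : u ∈ U) (i : J) :
    AA Md U x (Sum.inr u) (Sum.inl i) = x (Sum.inr (Sum.inl (i, u))) := if_pos h

theorem AA_rr {u v : υ} (h : u ∈ U) (h' : v ∈ U) :
    AA Md U x (Sum.inr u) (Sum.inr v) = Md.C u v := if_pos ⟨h, h'⟩

theorem BB_r {u : υ} (h : u ∈ U) (s : τ) : BB Md U x (Sum.inr u) s = Md.b u s := if_pos h

theorem dd_r {u : υ} (h : u ∈ U) : dd Md U (Sum.inr u) = Md.du u := if_pos h

theorem dd_off {u : υ} (h : u ∉ U) : dd Md U (Sum.inr u) = 0 := if_neg h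

end vals

variable {k : Type} [Field k] [Fintype k] [DecidableEq k]
variable {a b : k[X]} {N : ℕ} (H : Hyp a b N)
variable {ι : Type} [Fintype ι] [LinearOrder ι] {M : ℕ} (F : Fin M → Finset k[X]) (lg : Finset ι)
  (T0 : ι → k[X])

/-- the small primes -/
noncomputable def sml : Finset k[X] := (univ.filter fun i => i ∉ lg).image T0

/-- the small primes and the primes of the masks -/
noncomputable def Ups : Finset k[X] := sml lg T0 ∪ univ.biUnion F

/-- the inclusion -/
def Ri (u : Ups F lg T0) : k[X] := u.1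

/-- the small primes of the twist -/
noncomputable def UU (κ : Fin M) : Finset (Ups F lg T0) :=
  univ.filter fun u => u.1 ∈ symmDiff (sml lg T0) (F κ)

/-- the model -/
noncomputable def MD : Mdl (Jl lg) (Ups F lg T0) (Tau a b) where
  D := datum H
  C := fun u v => L u.1 v.1
  b := fun u s => L u.1 (QQ a b s)
  dJ := fun j => ((T0 j.1).natDegree : F2)
  du := fun u => (u.1.natDegree : F2)
  symm := fun u v => L_comm H.hm _ _

theorem L_self {P : k[X]} (hP : Irreducible P) : L P P = 0 :=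
  L_of_not_coprime hP.ne_zero fun h => hP.not_isUnit (h.isUnit_of_dvd' dvd_rfl dvd_rfl)

theorem mem_Ups_of {κ : Fin M} {P : k[X]} (h : P ∈ symmDiff (sml lg T0) (F κ)) : P ∈ Ups F lg T0 := by
  rw [mem_symmDiff] at h
  rw [Ups, mem_union, mem_biUnion]
  rcases h with h | h
  · exact Or.inl h.1
  · exact Or.inr ⟨κ, mem_univ _, h.1⟩

/-- the primes of a tuple -/
theorem image_split {T : ι → k[X]} (hT : ∀ i, i ∉ lg → T i = T0 i) :
    univ.image T = lg.image T ∪ sml lg T0 := by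
  ext P
  rw [mem_union, mem_image, mem_image, sml, mem_image]
  constructor
  · rintro ⟨i, -, rfl⟩
    by_cases hi : i ∈ lg
    · exact Or.inl ⟨i, hi, rfl⟩
    · exact Or.inr ⟨i, mem_filter.2 ⟨mem_univ _, hi⟩, (hT i hi).symm⟩
  · rintro (⟨i, _, rfl⟩ | ⟨i, hi, rfl⟩)
    · exact ⟨i, mem_univ _, rfl⟩
    · exact ⟨i, mem_univ _, hT i (mem_filter.1 hi).2⟩

variable {F lg T0}

theorem tw_split {T : ι → k[X]} (hT : ∀ i, i ∉ lg → T i = T0 i)
    (hok : okR lg (Ri F lg T0) (QQ a b) T) (κ : Fin M) :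
    symmDiff (univ.image T) (F κ) = lg.image T ∪ symmDiff (sml lg T0) (F κ) := by
  have hdis : ∀ P ∈ lg.image T, P ∉ Ups F lg T0 := by
    intro P hP hP'
    obtain ⟨i, hi, rfl⟩ := mem_image.1 hP
    have h1 : RT lg (Ri F lg T0) (QQ a b) T (Sum.inl ⟨i, hi⟩) =
      RT lg (Ri F lg T0) (QQ a b) T (Sum.inr (Sum.inl ⟨T i, hP'⟩)) := rfl
    have h2 := hok h1
    cases h2
  rw [image_split lg T0 hT]
  ext P
  rw [mem_symmDiff, mem_union, mem_union, mem_symmDiff]
  have h1 : P ∈ lg.image T → P ∉ sml lg T0 := fun h h' => hdis P h (mem_union_left _ h')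
  have h2 : P ∈ lg.image T → P ∉ F κ := fun h h' =>
    hdis P h (mem_union_right _ (mem_biUnion.2 ⟨κ, mem_univ _, h'⟩))
  tauto

/-- the kernel of the twist -/
theorem kr_kp {T : ι → k[X]} (hT : ∀ i, i ∉ lg → T i = T0 i)
    (hd : ∀ i ∈ lg, (T i).natDegree = (T0 i).natDegree) (hi : ∀ i ∈ lg, Irreducible (T i))
    (hF : ∀ P ∈ Ups F lg T0, Irreducible P)
    (hok : okR lg (Ri F lg T0) (QQ a b) T) (κ : Fin M) :
    Nat.card (Kr (MD H F lg T0) (UU F lg T0 κ) (xx lg (Ri F lg T0) (QQ a b) T)) =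
      kp (datum H) (QQ a b) (symmDiff (univ.image T) (F κ)) := by
  have hr : ∀ p : Jl lg ⊕ Ups F lg T0, p ∈ Set.range
      (Subtype.val : {p : Jl lg ⊕ Ups F lg T0 // ∀ u, p = Sum.inr u → u ∈ UU F lg T0 κ} → _) ↔
      ∀ u, p = Sum.inr u → u ∈ UU F lg T0 κ := by
    intro p
    constructor
    · rintro ⟨q, rfl⟩
      exact q.2
    · intro h
      exact ⟨⟨p, h⟩, rfl⟩
  rw [card_Kr (MD H F lg T0) (UU F lg T0 κ) (xx lg (Ri F lg T0) (QQ a b) T)
    (Subtype.val : {p : Jl lg ⊕ Ups F lg T0 // ∀ u, p = Sum.inr u → u ∈ UU F lg T0 κ} → _)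
    Subtype.val_injective hr]
  -- the family
  let R : Jl lg ⊕ Ups F lg T0 → k[X] := Sum.elim (fun j => T j.1) (fun u => u.1)
  let P : {p : Jl lg ⊕ Ups F lg T0 // ∀ u, p = Sum.inr u → u ∈ UU F lg T0 κ} → k[X] := fun p => R p.1
  have hinjR : Function.Injective R := by
    intro p q hpq
    rcases p with i | u <;> rcases q with j | v
    · have h1 : RT lg (Ri F lg T0) (QQ a b) T (Sum.inl i) =
        RT lg (Ri F lg T0) (QQ a b) T (Sum.inl j) := hpq
      rw [Sum.inl_injective (hok h1)]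
    · have h1 : RT lg (Ri F lg T0) (QQ a b) T (Sum.inl i) =
        RT lg (Ri F lg T0) (QQ a b) T (Sum.inr (Sum.inl v)) := hpq
      cases hok h1
    · have h1 : RT lg (Ri F lg T0) (QQ a b) T (Sum.inr (Sum.inl u)) =
        RT lg (Ri F lg T0) (QQ a b) T (Sum.inl j) := hpq
      cases hok h1
    · have h1 : u.1 = v.1 := hpq
      rw [Subtype.ext h1]
  have hinj : Function.Injective P := fun p q h => Subtype.ext (hinjR h)
  have himg : univ.image P = symmDiff (univ.image T) (F κ) := by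
    rw [tw_split hT hok κ]
    ext f
    rw [mem_image, mem_union, mem_image]
    constructor
    · rintro ⟨⟨p, hp⟩, -, rfl⟩
      rcases p with i | u
      · exact Or.inl ⟨i.1, i.2, rfl⟩
      · exact Or.inr (mem_filter.1 (hp u rfl)).2
    · rintro (⟨i, hi, rfl⟩ | h)
      · exact ⟨⟨Sum.inl ⟨i, hi⟩, fun u h => by cases h⟩, mem_univ _, rfl⟩
      · refine ⟨⟨Sum.inr ⟨f, mem_Ups_of F lg T0 h⟩, fun u hu => ?_⟩, mem_univ _, rfl⟩
        have := Sum.inr_injective hu
        rw [← this]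
        exact mem_filter.2 ⟨mem_univ _, h⟩
  rw [← kp_eq (datum H) (QQ a b) hinj himg]
  -- the symbols
  have eA : (fun i j => AA (MD H F lg T0) (UU F lg T0 κ) (xx lg (Ri F lg T0) (QQ a b) T)
      (Subtype.val i) (Subtype.val j)) = AT P := by
    funext p q
    obtain ⟨p, hp⟩ := p
    obtain ⟨q, hq⟩ := q
    rcases p with i | u <;> rcases q with j | v
    · show sy (xx lg (Ri F lg T0) (QQ a b) T) i j = L (T i.1) (T j.1)
      unfold sy
      by_cases h1 : i < j
      · rw [dif_pos h1]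
        rfl
      · by_cases h2 : j < i
        · rw [dif_neg h1, dif_pos h2, L_comm H.hm (T i.1)]
          rfl
        · rw [dif_neg h1, dif_neg h2]
          have h3 : i = j := le_antisymm (not_lt.1 h2) (not_lt.1 h1)
          rw [h3, L_self (hi j.1 j.2)]
    · exact AA_lr (MD H F lg T0) (xx lg (Ri F lg T0) (QQ a b) T) (hq v rfl) i
    · refine (AA_rl (MD H F lg T0) (xx lg (Ri F lg T0) (QQ a b) T) (hp u rfl) j).trans ?_
      exact L_comm H.hm _ _
    · exact AA_rr (MD H F lg T0) (xx lg (Ri F lg T0) (QQ a b) T) (hp u rfl) (hq v rfl)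
  have eB : (fun i s => BB (MD H F lg T0) (UU F lg T0 κ) (xx lg (Ri F lg T0) (QQ a b) T)
      (Subtype.val i) s) = BT (QQ a b) P := by
    funext p s
    obtain ⟨p, hp⟩ := p
    rcases p with i | u
    · rfl
    · exact BB_r (MD H F lg T0) (xx lg (Ri F lg T0) (QQ a b) T) (hp u rfl) s
  have ed : (fun i => dd (MD H F lg T0) (UU F lg T0 κ) (Subtype.val i)) =
      fun i => ((P i).natDegree : F2) := by
    funext p
    obtain ⟨p, hp⟩ := p
    rcases p with i | u
    · show ((T0 i.1).natDegree : F2) = ((T i.1).natDegree : F2)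
      rw [hd i.1 i.2]
    · exact dd_r (MD H F lg T0) (hp u rfl)
  have e0 : (MD H F lg T0).D = datum H := rfl
  rw [eA, eB, ed, e0]

/-- the half-dimension of the kernel -/
noncomputable def sf (H : Hyp a b N) (F : Finset k[X]) : ℕ :=
  Nat.log 4 (kp (datum H) (QQ a b) F)

theorem kp_sf {F : Finset k[X]} (hN : ∑ P ∈ F, (P.natDegree : F2) + (N : F2) = 1) :
    kp (datum H) (QQ a b) F = 4 ^ sf H F := by
  have hN' : ∑ P : F, (P.1.natDegree : F2) + (datum H).N = 1 := by
    rw [sum_coe_sort F fun P => (P.natDegree : F2)]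
    exact hN
  obtain ⟨e, he⟩ := kc_pow (datum H) (BT (QQ a b) fun P : F => P.1)
    (fun P : F => (P.1.natDegree : F2)) (AT_comm H.hm fun P : F => P.1) hN'
  have h1 : kp (datum H) (QQ a b) F = 4 ^ e := he
  rw [sf, h1, Nat.log_pow (by norm_num)]

theorem kr_pow {T : ι → k[X]} (hT : ∀ i, i ∉ lg → T i = T0 i)
    (hd : ∀ i ∈ lg, (T i).natDegree = (T0 i).natDegree) (hi : ∀ i ∈ lg, Irreducible (T i))
    (hF : ∀ P ∈ Ups F lg T0, Irreducible P)
    (hok : okR lg (Ri F lg T0) (QQ a b) T) (κ : Fin M)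
    (hN : ∑ P ∈ symmDiff (univ.image T) (F κ), (P.natDegree : F2) + (N : F2) = 1) :
    (2 : ℝ) ^ finrank F2 (Kr (MD H F lg T0) (UU F lg T0 κ) (xx lg (Ri F lg T0) (QQ a b) T)) =
      4 ^ sf H (symmDiff (univ.image T) (F κ)) := by
  have h1 := kr_kp H hT hd hi hF hok κ
  rw [kp_sf H hN] at h1
  have hfin : Module.Finite F2 (V (Jl lg ⊕ Ups F lg T0) (Tau a b)) := Module.Finite.of_finite
  rw [Module.natCard_eq_pow_finrank (K := F2), Nat.card_zmod] at h1
  exact_mod_cast h1

end Q283.FS
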