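import Pool.Agent.Q283.FS.Cvs
import Pool.Agent.Q283.FS.Dgn

/-!
The mean number of independent tuples in the kernels.
-/

set_option autoImplicit false
set_option linter.all false

open scoped Classical

namespace Q283.FS

open Finset Module
open Pool.Agent.Y164.PS

/-- orthogonality on a subspace -/
theorem orthS {A : Type} [AddCommGroup A] [Fintype A] (hA : ∀ a : A, a + a = 0) (S : AddSubgroup A)
    (φ : A → F2) (hφ : ∀ a b, φ (a + b) = φ a + φ b) :
    ∑ a ∈ univ.filter (fun a => a ∈ S), sg (φ a) =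
      if (∀ a ∈ S, φ a = 0) then (((univ.filter fun a => a ∈ S) : Finset A).card : ℝ) else 0 := by
  split_ifs with h
  · rw [sum_congr rfl (fun a ha => by rw [h a (mem_filter.1 ha).2, sg_zero])]
    simp
  · push Not at h
    obtain ⟨u, hu, hne⟩ := h
    have h1 : φ u = 1 := F2_ne_zero hne
    have h2 : ∑ a ∈ univ.filter (fun a => a ∈ S), sg (φ a) =
        ∑ a ∈ univ.filter (fun a => a ∈ S), sg (φ (a + u)) := by
      refine sum_nbij' (fun a => a + u) (fun a => a + u) ?_ ?_ ?_ ?_ ?_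
      · intro x hx
        exact mem_filter.2 ⟨mem_univ _, S.add_mem (mem_filter.1 hx).2 hu⟩
      · intro x hx
        exact mem_filter.2 ⟨mem_univ _, S.add_mem (mem_filter.1 hx).2 hu⟩
      · intro x _
        show x + u + u = x
        rw [add_assoc, hA, add_zero]
      · intro x _
        show x + u + u = x
        rw [add_assoc, hA, add_zero]
      · intro x _
        show _ = sg (φ (x + u + u))
        rw [add_assoc, hA, add_zero]
    have h3 : ∀ a, sg (φ (a + u)) = - sg (φ a) := by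
      intro a
      rw [hφ, sg_add, h1, sg_one]
      ring
    rw [sum_congr rfl (fun a _ => h3 a), sum_neg_distrib] at h2
    linarith

variable {J υ τ : Type} [Fintype J] [Fintype υ] [Fintype τ] [LinearOrder J]
variable {M : ℕ} {jj : Fin M → ℕ}
variable (Md : Mdl J υ τ) (Um : Fin M → Finset υ)

/-- the space of a twist as a finite set -/
noncomputable def SUs (U : Finset υ) : Finset (V (J ⊕ υ) τ) := univ.filter fun w => w ∈ SU Md U

theorem mem_SUs {U : Finset υ} {w : V (J ⊕ υ) τ} : w ∈ SUs Md U ↔ w ∈ SU Md U := by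
  rw [SUs, mem_filter]
  exact ⟨fun h => h.2, fun h => ⟨mem_univ _, h⟩⟩

theorem orthU (U : Finset υ) (x : Bt J υ τ → F2) (w : V (J ⊕ υ) τ) :
    ∑ w' ∈ SUs Md U, sg (Fm Md U x w w') =
      if (∀ w' ∈ SU Md U, Fm Md U x w w' = 0) then ((SUs Md U).card : ℝ) else 0 :=
  orthS (fun a => V_add_self a) (SU Md U).toAddSubgroup (fun w' => Fm Md U x w w')
    (fun a b => Fm_add_right Md U x w a b)

/-- the tuples -/
noncomputable def VV (jj : Fin M → ℕ) : Finset (Kx jj → V (J ⊕ υ) τ) :=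
  Fintype.piFinset fun κ => SUs Md (Um κ.1)

theorem mem_VV {w : Kx jj → V (J ⊕ υ) τ} : w ∈ VV Md Um jj ↔ ∀ κ, w κ ∈ SU Md (Um κ.1) := by
  rw [VV, Fintype.mem_piFinset]
  exact forall_congr' fun κ => mem_SUs Md

theorem card_VV : ((VV Md Um jj).card : ℝ) = ∏ κ : Kx jj, ((SUs Md (Um κ.1)).card : ℝ) := by
  rw [VV, Fintype.card_piFinset]
  push_cast
  rfl

/-- the class condition -/
def clx (cc : τ → F2) (x : Bt J υ τ → F2) : Prop :=
  ∀ s, cc s + ∑ i : J, x (Sum.inr (Sum.inr (i, s))) = 0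

variable {Θ : Type} (𝒯 : Finset Θ) (x : Θ → Bt J υ τ → F2) (cc : τ → F2)

/-- the number of the objects in the class for which the tuple is in the kernel -/
noncomputable def Nw (w : Kx jj → V (J ⊕ υ) τ) : ℝ :=
  ((𝒯.filter fun T => clx cc (x T) ∧ ∀ κ, w κ ∈ Kr Md (Um κ.1) (x T)).card : ℝ)

theorem Nw_eq {w : Kx jj → V (J ⊕ υ) τ} (hw : w ∈ VV Md Um jj) :
    Nw Md Um 𝒯 x cc w * ((VV Md Um jj).card * 2 ^ Fintype.card τ) =
      ∑ w' ∈ VV Md Um jj, ∑ Uf : τ → F2, ∑ T ∈ 𝒯, sg (Phs Md Um (x T) cc w w' Uf) := by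
  have h1 : ∀ T, (if clx cc (x T) ∧ ∀ κ, w κ ∈ Kr Md (Um κ.1) (x T) then (1 : ℝ) else 0) *
      ((VV Md Um jj).card * 2 ^ Fintype.card τ) =
      ∑ w' ∈ VV Md Um jj, ∑ Uf : τ → F2, sg (Phs Md Um (x T) cc w w' Uf) := by
    intro T
    have e1 : ∑ w' ∈ VV Md Um jj, ∑ Uf : τ → F2, sg (Phs Md Um (x T) cc w w' Uf) =
        (∑ w' ∈ VV Md Um jj, sg (∑ κ, Fm Md (Um κ.1) (x T) (w κ) (w' κ))) *
        ∑ Uf : τ → F2, sg (∑ s, Uf s * (cc s + ∑ i : J, x T (Sum.inr (Sum.inr (i, s))))) := by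
      rw [sum_mul_sum]
      refine sum_congr rfl fun w' _ => sum_congr rfl fun Uf _ => ?_
      rw [← sg_add]
      rfl
    have e2 : ∑ w' ∈ VV Md Um jj, sg (∑ κ, Fm Md (Um κ.1) (x T) (w κ) (w' κ)) =
        ∏ κ : Kx jj, (if (∀ w' ∈ SU Md (Um κ.1), Fm Md (Um κ.1) (x T) (w κ) w' = 0) then
          ((SUs Md (Um κ.1)).card : ℝ) else 0) := by
      rw [prod_congr rfl fun κ _ => (orthU Md (Um κ.1) (x T) (w κ)).symm, prod_univ_sum, VV]
      exact sum_congr rfl fun w' _ => sg_sum _ _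
    rw [e1, e2, ← orth3]
    by_cases g1 : clx cc (x T)
    · have g1' : ∀ s, cc s + ∑ i : J, x T (Sum.inr (Sum.inr (i, s))) = 0 := g1
      rw [if_pos g1']
      by_cases g2 : ∀ κ, w κ ∈ Kr Md (Um κ.1) (x T)
      · rw [if_pos ⟨g1, g2⟩, one_mul, card_VV]
        congr 1
        refine prod_congr rfl fun κ _ => ?_
        rw [if_pos (g2 κ).2]
      · rw [if_neg (fun h => g2 h.2), zero_mul]
        push Not at g2
        obtain ⟨κ, hκ⟩ := g2
        have : ¬ ∀ w' ∈ SU Md (Um κ.1), Fm Md (Um κ.1) (x T) (w κ) w' = 0 := fun h =>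
          hκ ⟨(mem_VV Md Um).1 hw κ, h⟩
        rw [prod_eq_zero (mem_univ κ) (if_neg this), zero_mul]
    · have g1' : ¬ ∀ s, cc s + ∑ i : J, x T (Sum.inr (Sum.inr (i, s))) = 0 := g1
      rw [if_neg g1', if_neg (fun h => g1 h.1), zero_mul, mul_zero]
  rw [Nw, ← sum_boole, sum_mul, sum_congr rfl fun T _ => h1 T, sum_comm]
  exact sum_congr rfl fun w' _ => sum_comm

variable {E : ℝ}

/-- the hypothesis on the symbols: all nontrivial character sums are small -/
def Eqd (𝒯 : Finset Θ) (x : Θ → Bt J υ τ → F2) (E : ℝ) : Prop :=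
  ∀ c : Bt J υ τ → F2, (∃ p, c p ≠ 0) → |∑ T ∈ 𝒯, sg (∑ p, x T p * c p)| ≤ E

theorem sum_phs (hE : Eqd 𝒯 x E) (hE0 : 0 ≤ E) (w w' : Kx jj → V (J ⊕ υ) τ) (Uf : τ → F2) :
    |∑ T ∈ 𝒯, sg (Phs Md Um (x T) cc w w' Uf) -
      (if Cond Md Um w w' Uf then sg (Phs Md Um 0 cc w w' Uf) * 𝒯.card else 0)| ≤ E := by
  have h1 : ∀ T, sg (Phs Md Um (x T) cc w w' Uf) =
      sg (∑ p, x T p * co Md Um w w' Uf p) * sg (Phs Md Um 0 cc w w' Uf) := by
    intro T
    rw [Phs_aff, sg_add]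
  rw [sum_congr rfl fun T _ => h1 T, ← sum_mul]
  by_cases hc : Cond Md Um w w' Uf
  · rw [if_pos hc]
    have h2 := (co_iff Md Um w w' Uf).2 hc
    have h3 : ∑ T ∈ 𝒯, sg (∑ p, x T p * co Md Um w w' Uf p) = 𝒯.card := by
      simp only [h2, mul_zero, sum_const_zero, sg_zero, sum_const, nsmul_eq_mul, mul_one]
    rw [h3, mul_comm, sub_self, abs_zero]
    exact hE0
  · rw [if_neg hc, sub_zero, abs_mul, abs_sg, mul_one]
    apply hE
    by_contra h
    push Not at h
    exact hc ((co_iff Md Um w w' Uf).1 h)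

/-- the configurations with few labels -/
noncomputable def Sml (jj : Fin M → ℕ) : Finset ((Kx jj → V (J ⊕ υ) τ) × (Kx jj → V (J ⊕ υ) τ) × (τ → F2)) :=
  (VV Md Um jj ×ˢ VV Md Um jj ×ˢ univ).filter fun q =>
    (univ.image fun i : J => ((la q.1 i, la q.2.1 i) : Lb (Kx jj))).card < 2 ^ (2 * Fintype.card (Kx jj))

theorem Nw_gen (hE : Eqd 𝒯 x E) (hE0 : 0 ≤ E) (hU : Function.Injective Um)
    (hG : ∀ u : W, u ≠ 0 → ∃ s, om u (Md.D.t s) ≠ 0)
    (hN : ∀ k, ∑ p, dd Md (Um k) p + Md.D.N = 1)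
    {w : Kx jj → V (J ⊕ υ) τ} (hw : w ∈ VV Md Um jj) (hsur : ∀ ξ : Kx jj → W, ∃ i : J, la w i = ξ) :
    |Nw Md Um 𝒯 x cc w * ((VV Md Um jj).card * 2 ^ Fintype.card τ) - (CS jj).card * 𝒯.card| ≤
      (VV Md Um jj).card * 2 ^ Fintype.card τ * E := by
  have hw0 := (mem_VV Md Um).1 hw
  have h1 : ∑ w' ∈ VV Md Um jj, ∑ Uf : τ → F2, (if Cond Md Um w w' Uf then
      sg (Phs Md Um 0 cc w w' Uf) * (𝒯.card : ℝ) else 0) = (CS jj).card * 𝒯.card := by
    rw [← sum_product', ← sum_filter]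
    have h2 : (((VV Md Um jj) ×ˢ (univ : Finset (τ → F2))).filter fun q => Cond Md Um w q.1 q.2) =
        (CS jj).image fun c => (wc Md c w, (0 : τ → F2)) := by
      ext ⟨w', Uf⟩
      rw [mem_filter, mem_product, mem_image]
      constructor
      · rintro ⟨⟨h3, -⟩, h4⟩
        obtain ⟨c, c1, c2, c3, c4⟩ := ml1 Md Um hU hG hN hw0 ((mem_VV Md Um).1 h3) hsur h4
        refine ⟨c, mem_CS.2 ⟨c1, c2⟩, ?_⟩
        refine Prod.ext ?_ c4.symm
        funext κ
        exact (c3 κ).symm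
      · rintro ⟨c, hc, h3⟩
        have hc' := mem_CS.1 hc
        rw [Prod.ext_iff] at h3
        obtain ⟨h4, h5⟩ := h3
        simp only at h4 h5
        rw [← h4, ← h5]
        exact ⟨⟨(mem_VV Md Um).2 fun κ => wc_mem Md Um hc' hw0 κ, mem_univ _⟩,
          wc_cond Md Um hc' hw0⟩
    rw [h2, sum_image]
    · rw [sum_congr rfl fun c hc => by rw [wc_phs Md Um (mem_CS.1 hc) hw0, sg_zero, one_mul],
        sum_const, nsmul_eq_mul]
    · intro c hc c' hc' h
      have h3 : wc Md c w = wc Md c' w := congrArg Prod.fst h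
      funext κ l
      obtain ⟨i, hi⟩ := hsur (Pi.single l (0, 1))
      have h4 : ∀ c : Kx jj → Kx jj → F2, (wc Md c w κ).1 (Sum.inl i) = c κ l • ((0, 1) : W) := by
        intro c
        rw [wc_fst, sum_eq_single l]
        · have : (w l).1 (Sum.inl i) = la w i l := rfl
          rw [this, hi, Pi.single_eq_same]
        · intro b _ hb
          have : (w b).1 (Sum.inl i) = la w i b := rfl
          rw [this, hi, Pi.single_eq_of_ne hb, smul_zero]
        · intro h; exact absurd (mem_univ _) h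
      have h5 := h4 c
      rw [h3, h4 c'] at h5
      have h6 := congrArg Prod.snd h5
      simp at h6
      exact h6.symm
  rw [Nw_eq Md Um 𝒯 x cc hw, ← h1, ← sum_sub_distrib]
  refine (abs_sum_le_sum_abs _ _).trans ?_
  calc ∑ w' ∈ VV Md Um jj, |∑ Uf : τ → F2, ∑ T ∈ 𝒯, sg (Phs Md Um (x T) cc w w' Uf) -
        ∑ Uf : τ → F2, (if Cond Md Um w w' Uf then sg (Phs Md Um 0 cc w w' Uf) * (𝒯.card : ℝ) else 0)|
      ≤ ∑ w' ∈ VV Md Um jj, ∑ Uf : τ → F2, E := by
        refine sum_le_sum fun w' _ => ?_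
        rw [← sum_sub_distrib]
        refine (abs_sum_le_sum_abs _ _).trans (sum_le_sum fun Uf _ => ?_)
        exact sum_phs Md Um 𝒯 x cc hE hE0 w w' Uf
    _ = _ := by
        rw [sum_const, sum_const, card_univ, Fintype.card_fun, ZMod.card, nsmul_eq_mul,
          nsmul_eq_mul]
        push_cast
        ring

theorem Nw_deg (hE : Eqd 𝒯 x E) (hE0 : 0 ≤ E) (hU : Function.Injective Um)
    (hG : ∀ u : W, u ≠ 0 → ∃ s, om u (Md.D.t s) ≠ 0)
    (hN : ∀ k, ∑ p, dd Md (Um k) p + Md.D.N = 1)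
    {w : Kx jj → V (J ⊕ υ) τ} (hw : w ∈ VV Md Um jj) (hsur : ¬ ∀ ξ : Kx jj → W, ∃ i : J, la w i = ξ)
    (hind : ∀ k, LinearIndependent F2 fun a : Fin (jj k) => w ⟨k, a⟩) :
    Nw Md Um 𝒯 x cc w * ((VV Md Um jj).card * 2 ^ Fintype.card τ) ≤
      (((VV Md Um jj) ×ˢ (univ : Finset (τ → F2))).filter fun q => (w, q) ∈ Sml Md Um jj).card *
        (𝒯.card : ℝ) + (VV Md Um jj).card * 2 ^ Fintype.card τ * E := by
  have hw0 := (mem_VV Md Um).1 hw
  rw [Nw_eq Md Um 𝒯 x cc hw]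
  have h1 : ∀ w' ∈ VV Md Um jj, ∀ Uf : τ → F2, ∑ T ∈ 𝒯, sg (Phs Md Um (x T) cc w w' Uf) ≤
      (if (w, w', Uf) ∈ Sml Md Um jj then (𝒯.card : ℝ) else 0) + E := by
    intro w' hw' Uf
    have h2 := (abs_le.1 (sum_phs Md Um 𝒯 x cc hE hE0 w w' Uf)).2
    have h3 : (if Cond Md Um w w' Uf then sg (Phs Md Um 0 cc w w' Uf) * (𝒯.card : ℝ) else 0) ≤
        (if (w, w', Uf) ∈ Sml Md Um jj then (𝒯.card : ℝ) else 0) := by
      have h0 : (0 : ℝ) ≤ 𝒯.card := Nat.cast_nonneg _
      by_cases hc : Cond Md Um w w' Uf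
      · rw [if_pos hc]
        have h4 : (w, w', Uf) ∈ Sml Md Um jj := by
          rw [Sml, mem_filter, mem_product, mem_product]
          refine ⟨⟨hw, hw', mem_univ _⟩, ?_⟩
          by_contra hbig
          rcases ml2 Md Um hU hG hN hw0 hc (not_lt.1 hbig) with h | ⟨k, c, hc0, hc1⟩
          · exact hsur h
          · apply hc0
            have h5 := Fintype.linearIndependent_iff.1 (hind k) c hc1
            exact funext h5
        rw [if_pos h4]
        have h5 := abs_sg (Phs Md Um 0 cc w w' Uf)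
        have h6 : sg (Phs Md Um 0 cc w w' Uf) ≤ 1 := by
          rw [← h5]; exact le_abs_self _
        calc sg (Phs Md Um 0 cc w w' Uf) * (𝒯.card : ℝ) ≤ 1 * 𝒯.card :=
              mul_le_mul_of_nonneg_right h6 h0
          _ = _ := one_mul _
      · rw [if_neg hc]
        split_ifs
        · exact h0
        · exact le_rfl
    linarith
  calc ∑ w' ∈ VV Md Um jj, ∑ Uf : τ → F2, ∑ T ∈ 𝒯, sg (Phs Md Um (x T) cc w w' Uf)
      ≤ ∑ w' ∈ VV Md Um jj, ∑ Uf : τ → F2,
        ((if (w, w', Uf) ∈ Sml Md Um jj then (𝒯.card : ℝ) else 0) + E) :=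
        sum_le_sum fun w' hw' => sum_le_sum fun Uf _ => h1 w' hw' Uf
    _ = ∑ q ∈ (VV Md Um jj) ×ˢ (univ : Finset (τ → F2)),
          (if (w, q) ∈ Sml Md Um jj then (𝒯.card : ℝ) else 0) +
          (VV Md Um jj).card * 2 ^ Fintype.card τ * E := by
        rw [← sum_product' (f := fun w' Uf =>
          ((if (w, w', Uf) ∈ Sml Md Um jj then (𝒯.card : ℝ) else 0) + E)), sum_add_distrib,
          sum_const, card_product, card_univ, Fintype.card_fun, ZMod.card, nsmul_eq_mul]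
        push_cast
        rfl
    _ = _ := by
        rw [← sum_filter, sum_const, nsmul_eq_mul]

/-- the sum of the numbers of the independent tuples -/
noncomputable def Mm (jj : Fin M → ℕ) : ℝ :=
  ∑ w ∈ (VV Md Um jj).filter (fun w => ∀ k, LinearIndependent F2 fun a : Fin (jj k) => w ⟨k, a⟩),
    Nw Md Um 𝒯 x cc w

theorem ind_of_sur {w : Kx jj → V (J ⊕ υ) τ} (hsur : ∀ ξ : Kx jj → W, ∃ i : J, la w i = ξ) (k : Fin M) :
    LinearIndependent F2 fun a : Fin (jj k) => w ⟨k, a⟩ := by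
  rw [Fintype.linearIndependent_iff]
  intro g hg a
  obtain ⟨i, hi⟩ := hsur (Pi.single ⟨k, a⟩ (0, 1))
  have h1 : (∑ a, g a • w ⟨k, a⟩ : V (J ⊕ υ) τ).1 (Sum.inl i) = g a • ((0, 1) : W) := by
    rw [Prod.fst_sum, Finset.sum_apply, sum_eq_single a]
    · have : (g a • w ⟨k, a⟩).1 (Sum.inl i) = g a • la w i ⟨k, a⟩ := rfl
      rw [this, hi, Pi.single_eq_same]
    · intro b _ hb
      have : (g b • w ⟨k, b⟩).1 (Sum.inl i) = g b • la w i ⟨k, b⟩ := rfl
      rw [this, hi, Pi.single_eq_of_ne, smul_zero]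
      intro h
      apply hb
      have := (Sigma.mk.inj_iff.1 h).2
      exact eq_of_heq this
    · intro h; exact absurd (mem_univ _) h
  rw [hg] at h1
  have h2 := congrArg Prod.snd h1
  simp at h2
  exact h2.symm

theorem Nw_nonneg (w : Kx jj → V (J ⊕ υ) τ) : 0 ≤ Nw Md Um 𝒯 x cc w := Nat.cast_nonneg _

theorem mom0 (hE : Eqd 𝒯 x E) (hE0 : 0 ≤ E) (hU : Function.Injective Um)
    (hG : ∀ u : W, u ≠ 0 → ∃ s, om u (Md.D.t s) ≠ 0)
    (hN : ∀ k, ∑ p, dd Md (Um k) p + Md.D.N = 1) :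
    |Mm Md Um 𝒯 x cc jj * ((VV Md Um jj).card * 2 ^ Fintype.card τ) -
      (CS jj).card * 𝒯.card * (VV Md Um jj).card| ≤
      ((CS jj).card + 1) * (Sml Md Um jj).card * 𝒯.card +
        (VV Md Um jj).card * ((VV Md Um jj).card * 2 ^ Fintype.card τ * E) := by
  set Q : ℝ := (VV Md Um jj).card * 2 ^ Fintype.card τ with hQ
  have hQ0 : 0 ≤ Q := by positivity
  set G : Finset (Kx jj → V (J ⊕ υ) τ) := (VV Md Um jj).filter
    fun w => ∀ ξ : Kx jj → W, ∃ i : J, la w i = ξ with hGd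
  set I : Finset (Kx jj → V (J ⊕ υ) τ) := (VV Md Um jj).filter
    fun w => ∀ k, LinearIndependent F2 fun a : Fin (jj k) => w ⟨k, a⟩ with hI
  set B : Finset (Kx jj → V (J ⊕ υ) τ) := I.filter
    fun w => ¬ ∀ ξ : Kx jj → W, ∃ i : J, la w i = ξ with hB
  have hIG : I.filter (fun w => ∀ ξ : Kx jj → W, ∃ i : J, la w i = ξ) = G := by
    ext w
    rw [hI, hGd, filter_filter, mem_filter, mem_filter]
    constructor
    · rintro ⟨h1, -, h3⟩; exact ⟨h1, h3⟩
    · rintro ⟨h1, h3⟩; exact ⟨h1, fun k => ind_of_sur h3 k, h3⟩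
  have hsplit : Mm Md Um 𝒯 x cc jj * Q = ∑ w ∈ G, Nw Md Um 𝒯 x cc w * Q +
      ∑ w ∈ B, Nw Md Um 𝒯 x cc w * Q := by
    rw [Mm, sum_mul, ← hI, ← sum_filter_add_sum_filter_not I
      (fun w => ∀ ξ : Kx jj → W, ∃ i : J, la w i = ξ), hIG]
  -- the number of the tuples which are not generic
  have hsm : (((VV Md Um jj).card : ℝ) - G.card) ≤ (Sml Md Um jj).card := by
    have h1 : (VV Md Um jj).card ≤ G.card + (Sml Md Um jj).card := by
      have h2 : G.card + ((VV Md Um jj).filter fun w => ¬ ∀ ξ : Kx jj → W, ∃ i : J, la w i = ξ).card =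
          (VV Md Um jj).card := by
        rw [hGd]
        exact card_filter_add_card_filter_not _
      have h3 : ((VV Md Um jj).filter fun w => ¬ ∀ ξ : Kx jj → W, ∃ i : J, la w i = ξ).card ≤
          (Sml Md Um jj).card := by
        refine card_le_card_of_injOn (fun w => (w, w, 0)) ?_ ?_
        · intro w hw
          rw [coe_filter] at hw
          obtain ⟨hw1, hw2⟩ := hw
          rw [Finset.mem_coe, Sml, mem_filter, mem_product, mem_product]
          refine ⟨⟨hw1, hw1, mem_univ _⟩, ?_⟩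
          have h4 : (univ.image fun i : J => ((la w i, la w i) : Lb (Kx jj))).card ≤
              (univ.image fun i : J => la w i).card := by
            have : (univ.image fun i : J => ((la w i, la w i) : Lb (Kx jj))) =
                (univ.image fun i : J => la w i).image fun ξ => (ξ, ξ) := by
              rw [image_image]; rfl
            rw [this]
            exact card_image_le
          refine lt_of_le_of_lt h4 ?_
          rw [← card_KW, ← card_univ]
          apply card_lt_card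
          rw [Finset.ssubset_univ_iff]
          intro h5
          apply hw2
          intro ξ
          have h6 : ξ ∈ univ.image fun i : J => la w i := by rw [h5]; exact mem_univ _
          obtain ⟨i, -, hi⟩ := mem_image.1 h6
          exact ⟨i, hi⟩
        · intro w _ w' _ h
          exact congrArg Prod.fst h
      omega
    have : ((VV Md Um jj).card : ℝ) ≤ G.card + (Sml Md Um jj).card := by exact_mod_cast h1
    linarith
  have hGle : (G.card : ℝ) ≤ (VV Md Um jj).card := by exact_mod_cast card_le_card (filter_subset _ _)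
  -- the generic part
  have hgen : |∑ w ∈ G, Nw Md Um 𝒯 x cc w * Q - (CS jj).card * 𝒯.card * G.card| ≤
      G.card * (Q * E) := by
    have h1 : ((CS jj).card * 𝒯.card * G.card : ℝ) = ∑ w ∈ G, (CS jj).card * (𝒯.card : ℝ) := by
      rw [sum_const, nsmul_eq_mul]; ring
    rw [h1, ← sum_sub_distrib]
    have h2 : (G.card : ℝ) * (Q * E) = ∑ w ∈ G, Q * E := by
      rw [sum_const, nsmul_eq_mul]
    rw [h2]
    refine (abs_sum_le_sum_abs _ _).trans (sum_le_sum fun w hw => ?_)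
    rw [hGd, mem_filter] at hw
    exact Nw_gen Md Um 𝒯 x cc hE hE0 hU hG hN hw.1 hw.2
  -- the other part
  have hdeg : ∑ w ∈ B, Nw Md Um 𝒯 x cc w * Q ≤ (Sml Md Um jj).card * 𝒯.card +
      B.card * (Q * E) := by
    have h1 : ∑ w ∈ B, Nw Md Um 𝒯 x cc w * Q ≤ ∑ w ∈ B,
        ((((VV Md Um jj) ×ˢ (univ : Finset (τ → F2))).filter fun q => (w, q) ∈ Sml Md Um jj).card *
        (𝒯.card : ℝ) + Q * E) := by
      refine sum_le_sum fun w hw => ?_
      rw [hB, hI, mem_filter, mem_filter] at hw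
      exact Nw_deg Md Um 𝒯 x cc hE hE0 hU hG hN hw.1.1 hw.2 hw.1.2
    refine h1.trans ?_
    rw [sum_add_distrib, sum_const, nsmul_eq_mul, ← sum_mul]
    apply add_le_add _ le_rfl
    apply mul_le_mul_of_nonneg_right _ (Nat.cast_nonneg _)
    rw [← Nat.cast_sum, Nat.cast_le]
    have h2 : ∑ w ∈ B, (((VV Md Um jj) ×ˢ (univ : Finset (τ → F2))).filter
        fun q => (w, q) ∈ Sml Md Um jj).card =
        (B.sigma fun w => ((VV Md Um jj) ×ˢ (univ : Finset (τ → F2))).filter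
        fun q => (w, q) ∈ Sml Md Um jj).card := (card_sigma _ _).symm
    rw [h2]
    refine card_le_card_of_injOn (fun p => (p.1, p.2)) ?_ ?_
    · intro p hp
      obtain ⟨h3, h4⟩ := mem_sigma.1 hp
      exact (mem_filter.1 h4).2
    · rintro ⟨p1, p2⟩ _ ⟨q1, q2⟩ _ h
      simp only [Prod.mk.injEq] at h
      obtain ⟨rfl, h2⟩ := h
      rw [h2]
  have hdeg0 : 0 ≤ ∑ w ∈ B, Nw Md Um 𝒯 x cc w * Q :=
    sum_nonneg fun w _ => mul_nonneg (Nw_nonneg _ _ _ _ _ _) hQ0
  have hcard : (G.card : ℝ) + B.card ≤ (VV Md Um jj).card := by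
    have h1 := card_filter_add_card_filter_not (s := I)
      (fun w => ∀ ξ : Kx jj → W, ∃ i : J, la w i = ξ)
    rw [hIG] at h1
    have h2 : I.card ≤ (VV Md Um jj).card := card_le_card (filter_subset _ _)
    have h3 : G.card + B.card ≤ (VV Md Um jj).card := by rw [hB]; omega
    exact_mod_cast h3
  have hQE : 0 ≤ Q * E := mul_nonneg hQ0 hE0
  rw [hsplit]
  have ht : (0 : ℝ) ≤ (CS jj).card * 𝒯.card := by positivity
  have hst : (0 : ℝ) ≤ (Sml Md Um jj).card * 𝒯.card := by positivity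
  obtain ⟨g1, g2⟩ := abs_le.1 hgen
  have h6 : ((CS jj).card * 𝒯.card : ℝ) * (((VV Md Um jj).card : ℝ) - G.card) ≤
      (CS jj).card * 𝒯.card * (Sml Md Um jj).card := mul_le_mul_of_nonneg_left hsm ht
  have h7 : (G.card : ℝ) * (Q * E) + B.card * (Q * E) ≤ (VV Md Um jj).card * (Q * E) := by
    rw [← add_mul]
    exact mul_le_mul_of_nonneg_right hcard hQE
  have h8 : 0 ≤ (B.card : ℝ) * (Q * E) := mul_nonneg (Nat.cast_nonneg _) hQE
  have h9 : 0 ≤ (G.card : ℝ) * (Q * E) := mul_nonneg (Nat.cast_nonneg _) hQE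
  have h10 : 0 ≤ ((CS jj).card * 𝒯.card : ℝ) * (((VV Md Um jj).card : ℝ) - G.card) :=
    mul_nonneg ht (by linarith)
  rw [abs_le]
  constructor
  · nlinarith
  · nlinarith

end Q283.FS
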