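import Pool.Agent.Q283.FS.Ml

/-!
Points over multiquadratic extensions.
-/

set_option autoImplicit false
set_option linter.all false

open scoped Classical

namespace Q283.ML

open WeierstrassCurve WeierstrassCurve.Affine
open Pool.Agent.TH115.GD
open Pool.Agent.TH841.NF (Sc tF tF_add ns_iff)

section quad

variable {K F F' : Type} [Field K] [Field F] [Field F'] [Algebra K F] [Algebra F F'] [Algebra K F']
  [IsScalarTower K F F'] (h2 : (2 : K) ≠ 0) {s : F'} {d : K} (hs : s ^ 2 = algebraMap K F' d)
  (hs0 : s ≠ 0) (hgen : ∀ z : F', ∃ u v : F, z = algebraMap F F' u + algebraMap F F' v * s)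
  (hn : ∀ u : F, algebraMap F F' u ≠ s)

include hn in
theorem uniq {u v u' v' : F} (h : algebraMap F F' u + algebraMap F F' v * s =
    algebraMap F F' u' + algebraMap F F' v' * s) : u = u' ∧ v = v' := by
  have hv : v = v' := by
    by_contra hne
    have h1 : v - v' ≠ 0 := sub_ne_zero.2 hne
    apply hn ((u' - u) / (v - v'))
    have h3 : algebraMap F F' (v - v') ≠ 0 := (_root_.map_ne_zero _).2 h1
    rw [map_div₀, div_eq_iff h3, map_sub, map_sub]
    linear_combination -h
  subst hv
  refine ⟨?_, rfl⟩
  exact (algebraMap F F').injective (add_right_cancel h)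

include hs hgen hn in
/-- the conjugation -/
theorem exists_conj : ∃ σ : F' →ₐ[K] F', (∀ u v : F, σ (algebraMap F F' u + algebraMap F F' v * s) =
    algebraMap F F' u - algebraMap F F' v * s) := by
  choose U V hUV using hgen
  have key : ∀ u v : F, U (algebraMap F F' u + algebraMap F F' v * s) = u ∧
      V (algebraMap F F' u + algebraMap F F' v * s) = v := by
    intro u v
    have := uniq hn (hUV (algebraMap F F' u + algebraMap F F' v * s))
    exact ⟨this.1.symm, this.2.symm⟩
  let σ0 : F' → F' := fun z => algebraMap F F' (U z) - algebraMap F F' (V z) * s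
  have hσ : ∀ u v : F, σ0 (algebraMap F F' u + algebraMap F F' v * s) =
      algebraMap F F' u - algebraMap F F' v * s := by
    intro u v
    show algebraMap F F' (U _) - algebraMap F F' (V _) * s = _
    rw [(key u v).1, (key u v).2]
  have hin : ∀ u : F, σ0 (algebraMap F F' u) = algebraMap F F' u := by
    intro u
    have := hσ u 0
    rwa [map_zero, zero_mul, add_zero, sub_zero] at this
  have htow : algebraMap K F' d = algebraMap F F' (algebraMap K F d) :=
    IsScalarTower.algebraMap_apply K F F' d
  refine ⟨{ toFun := σ0, map_one' := ?_, map_mul' := ?_, map_zero' := ?_, map_add' := ?_,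
            commutes' := ?_ }, hσ⟩
  · have := hin 1
    rwa [map_one] at this
  · intro x y
    obtain ⟨u, v, hx⟩ : ∃ u v, x = algebraMap F F' u + algebraMap F F' v * s := ⟨_, _, hUV x⟩
    obtain ⟨u', v', hy⟩ : ∃ u v, y = algebraMap F F' u + algebraMap F F' v * s := ⟨_, _, hUV y⟩
    have e : x * y = algebraMap F F' (u * u' + v * v' * algebraMap K F d) +
        algebraMap F F' (u * v' + v * u') * s := by
      rw [hx, hy]
      simp only [map_add, map_mul]
      rw [← htow, ← hs]
      ring
    rw [e, hσ, hx, hy, hσ, hσ]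
    simp only [map_add, map_mul]
    rw [← htow, ← hs]
    ring
  · have := hin 0
    rwa [map_zero] at this
  · intro x y
    obtain ⟨u, v, hx⟩ : ∃ u v, x = algebraMap F F' u + algebraMap F F' v * s := ⟨_, _, hUV x⟩
    obtain ⟨u', v', hy⟩ : ∃ u v, y = algebraMap F F' u + algebraMap F F' v * s := ⟨_, _, hUV y⟩
    have e : x + y = algebraMap F F' (u + u') + algebraMap F F' (v + v') * s := by
      rw [hx, hy]
      simp only [map_add]
      ring
    show σ0 (x + y) = σ0 x + σ0 y
    rw [e, hσ, hx, hy, hσ, hσ]
    simp only [map_add]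
    ring
  · intro r
    show σ0 (algebraMap K F' r) = algebraMap K F' r
    rw [IsScalarTower.algebraMap_apply K F F' r]
    exact hin _

variable {α β : K}

include h2 hs hs0 hgen in
/-- the decomposition of the double of a point -/
theorem quad_dec (S : Sc (RingHom.id F') s ((crv α β).baseChange F')
      ((crv (α * d) (β * d)).baseChange F')) (P : Pt (crv α β) F') :
    ∃ (Q : Pt (crv α β) F) (M : Pt (crv α β) F') (R : Pt (crv (α * d) (β * d)) F),
      2 • P = act _ (incl K F F') Q + M ∧ tm S M = act _ (incl K F F') R := by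
  by_cases hn : ∀ u : F, algebraMap F F' u ≠ s
  · obtain ⟨σ, hσ⟩ := exists_conj (K := K) hs hgen hn
    have h2' : (2 : F') ≠ 0 := by
      have h5 := (_root_.map_ne_zero (algebraMap K F')).2 h2
      rwa [map_ofNat] at h5
    have hσσ : ∀ z, σ (σ z) = z := by
      intro z
      obtain ⟨u, v, rfl⟩ := hgen z
      rw [hσ]
      have e : algebraMap F F' u - algebraMap F F' v * s =
          algebraMap F F' u + algebraMap F F' (-v) * s := by rw [map_neg]; ring
      rw [e, hσ, map_neg]
      ring
    have fix : ∀ z, σ z = z → ∃ u : F, algebraMap F F' u = z := by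
      intro z hz
      obtain ⟨u, v, rfl⟩ := hgen z
      rw [hσ] at hz
      refine ⟨u, ?_⟩
      have h3 : (2 : F') * (algebraMap F F' v * s) = 0 := by linear_combination -hz
      rw [(mul_eq_zero.1 h3).resolve_left h2', add_zero]
    have afix : ∀ z, σ z = -z → ∃ v : F, algebraMap F F' v * s = z := by
      intro z hz
      obtain ⟨u, v, rfl⟩ := hgen z
      rw [hσ] at hz
      refine ⟨v, ?_⟩
      have h3 : (2 : F') * algebraMap F F' u = 0 := by linear_combination hz
      rw [(mul_eq_zero.1 h3).resolve_left h2', zero_add]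
    have hact : ∀ Z : Pt (crv α β) F', act _ σ (act _ σ Z) = Z := by
      intro Z
      rw [act_act]
      exact act_id _ _ hσσ Z
    obtain ⟨Q, hQ⟩ : ∃ Q : Pt (crv α β) F, act _ (incl K F F') Q = P + act _ σ P := by
      have hf : act _ σ (P + act _ σ P) = P + act _ σ P := by
        rw [map_add, hact, add_comm]
      rcases hZ : P + act _ σ P with _ | ⟨x, y, h⟩
      · exact ⟨0, map_zero _⟩
      · rw [hZ, act_some, Affine.Point.some.injEq] at hf
        obtain ⟨u, rfl⟩ := fix x hf.1
        obtain ⟨v, rfl⟩ := fix y hf.2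
        have h3 : ((crv α β).baseChange F).toAffine.Nonsingular u v :=
          (Affine.baseChange_nonsingular (crv α β) (f := incl K F F')
            (incl K F F').injective u v).1 h
        exact ⟨Affine.Point.some u v h3, rfl⟩
    obtain ⟨R, hR⟩ : ∃ R : Pt (crv (α * d) (β * d)) F,
        act _ (incl K F F') R = tm S (P - act _ σ P) := by
      have hf : act _ σ (P - act _ σ P) = -(P - act _ σ P) := by
        rw [map_sub, hact]
        abel
      rcases hZ : P - act _ σ P with _ | ⟨x, y, h⟩
      · exact ⟨0, map_zero _⟩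
      · rw [hZ, act_some] at hf
        have hf' := hf.trans (Affine.Point.neg_some _)
        rw [Affine.Point.some.injEq] at hf'
        have h1 : ((crv α β).baseChange F').a₁ = 0 := by simp [crv, WeierstrassCurve.baseChange]
        have h3 : ((crv α β).baseChange F').a₃ = 0 := by simp [crv, WeierstrassCurve.baseChange]
        have hy : σ y = -y := by
          rw [hf'.2, Affine.negY, h1, h3]
          ring
        obtain ⟨u, rfl⟩ := fix x hf'.1
        obtain ⟨v, rfl⟩ := afix y hy
        have htow : algebraMap K F' d = algebraMap F F' (algebraMap K F d) :=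
          IsScalarTower.algebraMap_apply K F F' d
        have e1 : algebraMap F F' u * s ^ 2 = algebraMap F F' (u * algebraMap K F d) := by
          rw [hs, htow, map_mul]
        have e2 : algebraMap F F' v * s * s ^ 3 =
            algebraMap F F' (v * algebraMap K F d ^ 2) := by
          have e3 : s ^ 4 = algebraMap K F' d ^ 2 := by rw [← hs]; ring
          rw [map_mul, map_pow, ← htow, ← e3]
          ring
        have h4 := (ns_iff S (algebraMap F F' u) (algebraMap F F' v * s)).2 h
        have h5 : ((crv (α * d) (β * d)).baseChange F').toAffine.Nonsingular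
            (algebraMap F F' (u * algebraMap K F d)) (algebraMap F F' (v * algebraMap K F d ^ 2)) := by
          rw [← e1, ← e2]
          exact h4
        have h6 : ((crv (α * d) (β * d)).baseChange F).toAffine.Nonsingular
            (u * algebraMap K F d) (v * algebraMap K F d ^ 2) :=
          (Affine.baseChange_nonsingular (crv (α * d) (β * d)) (f := incl K F F')
            (incl K F F').injective _ _).1 h5
        refine ⟨Affine.Point.some _ _ h6, ?_⟩
        rw [tm_some]
        exact pt_ext _ _ e1.symm e2.symm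
    refine ⟨Q, P - act _ σ P, R, ?_, hR.symm⟩
    rw [hQ, two_nsmul]
    abel
  · push Not at hn
    obtain ⟨w, hw⟩ := hn
    have all : ∀ z : F', ∃ u : F, algebraMap F F' u = z := by
      intro z
      obtain ⟨u, v, rfl⟩ := hgen z
      exact ⟨u + v * w, by rw [map_add, map_mul, hw]⟩
    obtain ⟨Q, hQ⟩ : ∃ Q : Pt (crv α β) F, act _ (incl K F F') Q = P := by
      rcases P with _ | ⟨x, y, h⟩
      · exact ⟨0, map_zero _⟩
      · obtain ⟨u, rfl⟩ := all x
        obtain ⟨v, rfl⟩ := all y
        have h3 : ((crv α β).baseChange F).toAffine.Nonsingular u v :=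
          (Affine.baseChange_nonsingular (crv α β) (f := incl K F F')
            (incl K F F').injective u v).1 h
        exact ⟨Affine.Point.some u v h3, rfl⟩
    refine ⟨2 • Q, 0, 0, ?_, ?_⟩
    · rw [map_nsmul, hQ, add_zero]
    · rw [map_zero, map_zero]

/-- there are finitely many points of order two -/
theorem fin_two {Ω : Type} [Field Ω] [Algebra K Ω] (h2 : (2 : K) ≠ 0) (α β : K) :
    {P : Pt (crv α β) Ω | 2 • P = 0}.Finite := by
  have h2' : (2 : Ω) ≠ 0 := by
    have h5 := (_root_.map_ne_zero (algebraMap K Ω)).2 h2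
    rwa [map_ofNat] at h5
  have hx : ∀ (x y : Ω) (h : ((crv α β).baseChange Ω).toAffine.Nonsingular x y),
      2 • (Affine.Point.some x y h : Pt (crv α β) Ω) = 0 →
        y = 0 ∧ (x = 0 ∨ x = algebraMap K Ω α ∨ x = algebraMap K Ω β) := by
    intro x y h h3
    rw [two_nsmul, add_eq_zero_iff_eq_neg] at h3
    have h4 := h3.trans (Affine.Point.neg_some _)
    rw [Affine.Point.some.injEq] at h4
    have a1 : ((crv α β).baseChange Ω).a₁ = 0 := by simp [crv, WeierstrassCurve.baseChange]
    have a3 : ((crv α β).baseChange Ω).a₃ = 0 := by simp [crv, WeierstrassCurve.baseChange]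
    have hy : y = 0 := by
      have h5 := h4.2
      rw [Affine.negY, a1, a3] at h5
      have h6 : (2 : Ω) * y = 0 := by linear_combination h5
      exact (mul_eq_zero.1 h6).resolve_left h2'
    refine ⟨hy, ?_⟩
    have h5 := h.1
    rw [Affine.equation_iff] at h5
    have a2 : ((crv α β).baseChange Ω).a₂ = -(algebraMap K Ω α + algebraMap K Ω β) := by
      simp [crv, WeierstrassCurve.baseChange]
    have a4 : ((crv α β).baseChange Ω).a₄ = algebraMap K Ω α * algebraMap K Ω β := by
      simp [crv, WeierstrassCurve.baseChange]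
    have a6 : ((crv α β).baseChange Ω).a₆ = 0 := by simp [crv, WeierstrassCurve.baseChange]
    rw [a1, a2, a3, a4, a6, hy] at h5
    have h6 : x * ((x - algebraMap K Ω α) * (x - algebraMap K Ω β)) = 0 := by
      linear_combination -h5
    rcases mul_eq_zero.1 h6 with h7 | h7
    · exact Or.inl h7
    · rcases mul_eq_zero.1 h7 with h8 | h8
      · exact Or.inr (Or.inl (sub_eq_zero.1 h8))
      · exact Or.inr (Or.inr (sub_eq_zero.1 h8))
  let c : Pt (crv α β) Ω → Option (Ω × Ω) := fun P =>
    match P with
    | 0 => none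
    | .some x y _ => some (x, y)
  have hinj : Function.Injective c := by
    intro P Q h
    rcases P with _ | ⟨x, y, hx⟩ <;> rcases Q with _ | ⟨x', y', hx'⟩
    · rfl
    · cases h
    · cases h
    · have h' : some (x, y) = some (x', y') := h
      rw [Option.some.injEq, Prod.mk.injEq] at h'
      exact pt_ext _ _ h'.1 h'.2
  refine Set.Finite.of_finite_image (f := c) (Set.Finite.subset (s := {none, some (0, 0),
    some (algebraMap K Ω α, 0), some (algebraMap K Ω β, 0)}) (Set.toFinite _) ?_) hinj.injOn
  rintro _ ⟨P, hP, rfl⟩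
  rcases P with _ | ⟨x, y, h⟩
  · exact Or.inl rfl
  · obtain ⟨rfl, h4 | h4 | h4⟩ := hx x y h hP
    · subst h4
      exact Or.inr (Or.inl rfl)
    · subst h4
      exact Or.inr (Or.inr (Or.inl rfl))
    · subst h4
      exact Or.inr (Or.inr (Or.inr rfl))

/-- a group whose doubles form a finite set, with finitely many elements of order two -/
theorem fin_of_double {G : Type} [AddCommGroup G] (h2 : {P : G | 2 • P = 0}.Finite)
    (h : {P : G | ∃ Q : G, P = 2 • Q}.Finite) : Finite G := by
  rw [← Set.finite_univ_iff]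
  have h3 : (Set.univ : Set G) ⊆ ⋃ P ∈ {P : G | ∃ Q : G, P = 2 • Q}, {Q : G | 2 • Q = P} := by
    intro Q _
    rw [Set.mem_iUnion₂]
    exact ⟨2 • Q, ⟨Q, rfl⟩, rfl⟩
  refine Set.Finite.subset (Set.Finite.biUnion h fun P hP => ?_) h3
  obtain ⟨Q0, rfl⟩ := hP
  refine Set.Finite.subset (h2.image fun T => Q0 + T) ?_
  intro Q hQ
  refine ⟨Q - Q0, ?_, add_sub_cancel Q0 Q⟩
  show 2 • (Q - Q0) = 0
  rw [smul_sub, sub_eq_zero]
  exact hQ

include h2 hs hs0 hgen in
/-- finiteness over a quadratic extension -/
theorem quad_fin (hf : Finite (Pt (crv α β) F)) (hf' : Finite (Pt (crv (α * d) (β * d)) F)) :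
    Finite (Pt (crv α β) F') := by
  have S : Sc (RingHom.id F') s ((crv α β).baseChange F')
      ((crv (α * d) (β * d)).baseChange F') := sc_crv hs hs0 rfl rfl
  apply fin_of_double (fin_two h2 α β)
  have h3 : {P : Pt (crv α β) F' | ∃ Q, P = 2 • Q} ⊆
      (fun z : Pt (crv α β) F × Pt (crv (α * d) (β * d)) F => act _ (incl K F F') z.1 +
        Function.surjInv (tm_surj S) (act _ (incl K F F') z.2)) '' Set.univ := by
    rintro _ ⟨P, rfl⟩
    obtain ⟨Q, M, R, h4, h5⟩ := quad_dec h2 hs hs0 hgen S P
    refine ⟨(Q, R), Set.mem_univ _, ?_⟩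
    have h6 : Function.surjInv (tm_surj S) (act _ (incl K F F') R) = M := by
      apply tm_inj S
      rw [Function.surjInv_eq (tm_surj S), h5]
    show _ + Function.surjInv (tm_surj S) (act _ (incl K F F') R) = _
    rw [h6, h4]
  exact Set.Finite.subset (Set.Finite.image _ (Set.toFinite _)) h3

include h2 hs hs0 hgen in
/-- stability over a quadratic extension -/
theorem quad_stab (hf' : Finite (Pt (crv (α * d) (β * d)) F)) :
    ∃ N : ℕ, 0 < N ∧ ∀ P : Pt (crv α β) F', ∃ Q : Pt (crv α β) F, N • P = act _ (incl K F F') Q := by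
  have S : Sc (RingHom.id F') s ((crv α β).baseChange F')
      ((crv (α * d) (β * d)).baseChange F') := sc_crv hs hs0 rfl rfl
  refine ⟨Nat.card (Pt (crv (α * d) (β * d)) F) * 2, by
    have := Nat.card_pos (α := Pt (crv (α * d) (β * d)) F)
    omega, fun P => ?_⟩
  obtain ⟨Q, M, R, h4, h5⟩ := quad_dec h2 hs hs0 hgen S P
  refine ⟨Nat.card (Pt (crv (α * d) (β * d)) F) • Q, ?_⟩
  rw [mul_smul, h4, smul_add, map_nsmul]
  have h6 : tm S (Nat.card (Pt (crv (α * d) (β * d)) F) • M) = 0 := by
    rw [map_nsmul, h5, ← map_nsmul]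
    have h7 : Nat.card (Pt (crv (α * d) (β * d)) F) • R = 0 := card_nsmul_eq_zero'
    rw [h7, map_zero]
  have h8 : Nat.card (Pt (crv (α * d) (β * d)) F) • M = 0 := by
    apply tm_inj S
    rw [h6, map_zero]
  rw [h8, add_zero]

end quad

end Q283.ML
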