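import Pool.Agent.Q283.FS.Lw

/-!
Alternating sums in base four, and their means.
-/

set_option autoImplicit false
set_option linter.all false

namespace Q283.FS

open Finset Filter
open Pool.Agent.Y697.PQ (ij)

/-- `1 / ((4 - 1) (16 - 1) ⋯ (4 ^ j - 1))` -/
noncomputable def df : ℕ → ℝ
  | 0 => 1
  | j + 1 => df j / (4 ^ (j + 1) - 1)

theorem qm1 (j : ℕ) : (3 : ℝ) * 4 ^ j ≤ 4 ^ (j + 1) - 1 := by
  have : (1 : ℝ) ≤ 4 ^ j := one_le_pow₀ (by norm_num)
  rw [pow_succ]
  linarith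

theorem qm0 (j : ℕ) : (0 : ℝ) < 4 ^ (j + 1) - 1 :=
  lt_of_lt_of_le (by positivity) (qm1 j)

theorem df_pos (j : ℕ) : 0 < df j := by
  induction j with
  | zero => exact one_pos
  | succ j ih =>
    rw [df]
    exact div_pos ih (qm0 j)

/-- the falling product in base four -/
noncomputable def ik (j : ℕ) (x : ℝ) : ℝ := ∏ i ∈ range j, (x - 4 ^ i)

noncomputable def pq (J : ℕ) (x : ℝ) : ℝ := ∏ i ∈ range J, ((4 ^ (i + 1) - x) / (4 ^ (i + 1) - 1))

theorem ik_shift (j : ℕ) (x : ℝ) :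
    (-1) ^ (j + 1) * df (j + 1) * ik (j + 1) x = (1 - x) / (4 ^ (j + 1) - 1) * pq j x := by
  induction j with
  | zero =>
    simp only [df, ik, pq, zero_add, pow_one, Finset.range_one, Finset.prod_singleton, pow_zero,
      Finset.range_zero, Finset.prod_empty, mul_one]
    norm_num
    ring
  | succ j ih =>
    have h1 := qm0 (j + 1)
    have h2 := qm0 j
    have e1 : (-1 : ℝ) ^ (j + 1 + 1) * df (j + 1 + 1) * ik (j + 1 + 1) x =
        ((-1) ^ (j + 1) * df (j + 1) * ik (j + 1) x) * (4 ^ (j + 1) - x) / (4 ^ (j + 1 + 1) - 1) := by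
      rw [show df (j + 1 + 1) = df (j + 1) / (4 ^ (j + 1 + 1) - 1) from rfl, ik,
        Finset.prod_range_succ, ← ik]
      field_simp
      ring
    have e2 : pq (j + 1) x = pq j x * ((4 ^ (j + 1) - x) / (4 ^ (j + 1) - 1)) := by
      rw [pq, Finset.prod_range_succ, ← pq]
    rw [e1, ih, e2]
    have h3 : (4 : ℝ) ^ (j + 1 + 1) - 1 ≠ 0 := h1.ne'
    have h4 : (4 : ℝ) ^ (j + 1) - 1 ≠ 0 := h2.ne'
    field_simp

theorem pq_eq (J : ℕ) (x : ℝ) :
    ∑ j ∈ range (J + 1), (-1) ^ j * df j * ik j x = pq J x := by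
  induction J with
  | zero => simp [df, ik, pq]
  | succ J ih =>
    rw [Finset.sum_range_succ, ih, ik_shift]
    have e2 : pq (J + 1) x = pq J x * ((4 ^ (J + 1) - x) / (4 ^ (J + 1) - 1)) := by
      rw [pq, Finset.prod_range_succ, ← pq]
    have h4 : (4 : ℝ) ^ (J + 1) - 1 ≠ 0 := (qm0 J).ne'
    rw [e2]
    field_simp
    ring

theorem pq_one (J : ℕ) : pq J 1 = 1 := by
  unfold pq
  refine Finset.prod_eq_one fun i _ => div_self (qm0 i).ne'

theorem pq_mid {J r : ℕ} (h1 : 1 ≤ r) (h2 : r ≤ J) : pq J (4 ^ r) = 0 := by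
  unfold pq
  refine Finset.prod_eq_zero (i := r - 1) (Finset.mem_range.2 (by omega)) ?_
  rw [Nat.sub_add_cancel h1, sub_self, zero_div]

theorem ik_zero {j s : ℕ} (h : s < j) : ik j (4 ^ s) = 0 := by
  unfold ik
  exact Finset.prod_eq_zero (Finset.mem_range.2 h) (sub_self _)

theorem ik_nn (j s : ℕ) : 0 ≤ ik j (4 ^ s) := by
  rcases lt_or_ge s j with h | h
  · rw [ik_zero h]
  · unfold ik
    refine Finset.prod_nonneg fun i hi => ?_
    rw [Finset.mem_range] at hi
    have : (4 : ℝ) ^ i ≤ 4 ^ s := pow_le_pow_right₀ (by norm_num) (by omega)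
    linarith

theorem ik_self_pos (r : ℕ) : 0 < ik r (4 ^ r) := by
  unfold ik
  refine Finset.prod_pos fun i hi => ?_
  rw [Finset.mem_range] at hi
  have : (4 : ℝ) ^ i < 4 ^ r := pow_lt_pow_right₀ (by norm_num) hi
  linarith

theorem ik_add (r j c : ℕ) :
    ik (r + j) (4 ^ (r + c)) = ik r (4 ^ (r + c)) * (4 ^ (r * j) * ik j (4 ^ c)) := by
  unfold ik
  rw [Finset.prod_range_add]
  congr 1
  have e : ∀ i ∈ range j, ((4 : ℝ) ^ (r + c) - 4 ^ (r + i)) = 4 ^ r * (4 ^ c - 4 ^ i) := by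
    intro i _
    rw [pow_add, pow_add]
    ring
  rw [Finset.prod_congr rfl e, Finset.prod_mul_distrib, Finset.prod_const, Finset.card_range, ← pow_mul]

theorem pq_abs (I d : ℕ) (hd : 1 ≤ d) : |pq I (4 ^ d)| ≤ df (I + 1) * ik (I + 1) (4 ^ d) := by
  rcases le_or_gt d I with h | h
  · rw [pq_mid hd h, abs_zero]
    exact mul_nonneg (df_pos _).le (ik_nn _ _)
  · have h1 := ik_shift I (4 ^ d)
    have h2 : |(-1 : ℝ) ^ (I + 1) * df (I + 1) * ik (I + 1) (4 ^ d)| =
        df (I + 1) * ik (I + 1) (4 ^ d) := by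
      rw [abs_mul, abs_mul, abs_pow, abs_neg, abs_one, one_pow, one_mul, abs_of_pos (df_pos _),
        abs_of_nonneg (ik_nn _ _)]
    rw [← h2, h1, abs_mul]
    have h3 : (4 : ℝ) ^ (I + 1) ≤ 4 ^ d := pow_le_pow_right₀ (by norm_num) h
    have h4 := qm0 I
    refine le_mul_of_one_le_left (abs_nonneg _) ?_
    rw [abs_div, abs_of_pos h4, one_le_div h4, abs_sub_comm, abs_of_nonneg (by linarith)]
    linarith

/-- the approximation of the indicator -/
noncomputable def qr (r I : ℕ) (x : ℝ) : ℝ :=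
  (∑ j ∈ range (I + 1), (-1) ^ j * df j * (4 ^ (r * j))⁻¹ * ik (r + j) x) / ik r (4 ^ r)

/-- the error -/
noncomputable def tr (r I : ℕ) (x : ℝ) : ℝ :=
  df (I + 1) * (4 ^ (r * (I + 1)))⁻¹ * ik (r + (I + 1)) x / ik r (4 ^ r)

theorem tr_nn (r I s : ℕ) : 0 ≤ tr r I (4 ^ s) := by
  unfold tr
  have h1 := df_pos (I + 1)
  have h2 := ik_nn (r + (I + 1)) s
  have h3 := ik_self_pos r
  positivity

theorem qr_lt {r I c : ℕ} (h : c < r) : qr r I (4 ^ c) = 0 := by
  unfold qr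
  rw [Finset.sum_eq_zero, zero_div]
  intro j _
  rw [ik_zero (show c < r + j by omega), mul_zero]

theorem qr_ge (r I c : ℕ) : qr r I (4 ^ (r + c)) =
    ik r (4 ^ (r + c)) / ik r (4 ^ r) * pq I (4 ^ c) := by
  unfold qr
  rw [← pq_eq, div_mul_eq_mul_div, Finset.mul_sum]
  congr 1
  refine Finset.sum_congr rfl fun j _ => ?_
  rw [ik_add]
  have : (4 : ℝ) ^ (r * j) ≠ 0 := by positivity
  field_simp

theorem tr_ge (r I c : ℕ) : tr r I (4 ^ (r + c)) =
    ik r (4 ^ (r + c)) / ik r (4 ^ r) * (df (I + 1) * ik (I + 1) (4 ^ c)) := by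
  unfold tr
  rw [ik_add]
  have : (4 : ℝ) ^ (r * (I + 1)) ≠ 0 := by positivity
  field_simp

theorem qr_near (r I s : ℕ) : |qr r I (4 ^ s) - (if s = r then 1 else 0)| ≤ tr r I (4 ^ s) := by
  rcases lt_or_ge s r with h | h
  · rw [qr_lt h, if_neg (by omega), sub_zero, abs_zero]
    exact tr_nn _ _ _
  · obtain ⟨d, rfl⟩ := Nat.exists_eq_add_of_le h
    rw [qr_ge, tr_ge]
    have h3 := ik_self_pos r
    by_cases hd : d = 0
    · subst hd
      rw [pow_zero, pq_one, add_zero, div_self h3.ne', if_pos rfl, one_mul, sub_self, abs_zero,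
        one_mul]
      have h4 := ik_nn (I + 1) 0
      rw [pow_zero] at h4
      exact mul_nonneg (df_pos _).le h4
    · rw [if_neg (by omega), sub_zero, abs_mul]
      have h4 : 0 ≤ ik r (4 ^ (r + d)) / ik r (4 ^ r) := div_nonneg (ik_nn _ _) h3.le
      rw [abs_of_nonneg h4]
      exact mul_le_mul_of_nonneg_left (pq_abs I d (by omega)) h4

/-- the span of the falling products -/
def Pl (f : ℝ → ℝ) : Prop := ∃ (J : ℕ) (α : ℕ → ℝ), ∀ x, f x = ∑ j ∈ range J, α j * ij j x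

theorem Pl.const (c : ℝ) : Pl fun _ => c := ⟨1, fun _ => c, fun x => by simp [ij]⟩

theorem Pl.smul {f : ℝ → ℝ} (hf : Pl f) (c : ℝ) : Pl fun x => c * f x := by
  obtain ⟨J, α, h⟩ := hf
  refine ⟨J, fun j => c * α j, fun x => ?_⟩
  simp only [h, mul_sum, mul_assoc]

theorem Pl.ext {J J' : ℕ} (h : J ≤ J') (α : ℕ → ℝ) (x : ℝ) :
    ∑ j ∈ range J, α j * ij j x = ∑ j ∈ range J', (if j < J then α j else 0) * ij j x := by
  have h1 : ∑ j ∈ range J, α j * ij j x =
      ∑ j ∈ range J, (if j < J then α j else 0) * ij j x :=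
    sum_congr rfl fun j hj => by rw [if_pos (mem_range.1 hj)]
  rw [h1]
  refine sum_subset (fun j hj => mem_range.2 (lt_of_lt_of_le (mem_range.1 hj) h)) ?_
  intro j _ hj
  rw [if_neg (fun h => hj (mem_range.2 h)), zero_mul]

theorem Pl.add {f g : ℝ → ℝ} (hf : Pl f) (hg : Pl g) : Pl fun x => f x + g x := by
  obtain ⟨J, α, h⟩ := hf
  obtain ⟨J', β, h'⟩ := hg
  refine ⟨max J J', fun j => (if j < J then α j else 0) + (if j < J' then β j else 0), fun x => ?_⟩
  show f x + g x = _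
  rw [h, h', Pl.ext (le_max_left J J'), Pl.ext (le_max_right J J'), ← sum_add_distrib]
  exact sum_congr rfl fun j _ => (add_mul _ _ _).symm

theorem Pl.sum {ι : Type} (s : Finset ι) {f : ι → ℝ → ℝ} (h : ∀ i ∈ s, Pl (f i)) :
    Pl fun x => ∑ i ∈ s, f i x := by
  classical
  induction s using Finset.induction_on with
  | empty => simpa using Pl.const 0
  | insert a s ha ih =>
    simp only [sum_insert ha]
    exact (h a (mem_insert_self _ _)).add (ih fun i hi => h i (mem_insert_of_mem hi))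

theorem Pl.mulX {f : ℝ → ℝ} (hf : Pl f) : Pl fun x => x * f x := by
  obtain ⟨J, α, h⟩ := hf
  have h1 : ∀ j, Pl fun x => α j * (x * ij j x) := by
    intro j
    refine Pl.smul ?_ (α j)
    refine ⟨j + 2, fun i => if i = j then 2 ^ j else if i = j + 1 then 1 else 0, fun x => ?_⟩
    rw [sum_range_succ, sum_range_succ, sum_eq_zero]
    · show x * ij j x = 0 + (if j = j then (2 : ℝ) ^ j else if j = j + 1 then 1 else 0) * ij j x +
        (if j + 1 = j then (2 : ℝ) ^ j else if j + 1 = j + 1 then 1 else 0) * ij (j + 1) x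
      rw [if_pos rfl, if_neg (by omega), if_pos rfl, zero_add, one_mul,
        show ij (j + 1) x = ij j x * (x - 2 ^ j) from prod_range_succ _ _]
      ring
    · intro i hi
      have := mem_range.1 hi
      show (if i = j then (2 : ℝ) ^ j else if i = j + 1 then 1 else 0) * ij i x = 0
      rw [if_neg (by omega), if_neg (by omega), zero_mul]
  have h2 := Pl.sum (range J) (f := fun j x => α j * (x * ij j x)) fun j _ => h1 j
  have h3 : (fun x => x * f x) = fun x => ∑ j ∈ range J, α j * (x * ij j x) := by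
    funext x
    rw [h, mul_sum]
    exact sum_congr rfl fun j _ => by ring
  rw [h3]
  exact h2

theorem Pl.ik (j : ℕ) : Pl (ik j) := by
  induction j with
  | zero =>
    have : Q283.FS.ik 0 = fun _ => 1 := by
      funext x
      simp [Q283.FS.ik]
    rw [this]
    exact Pl.const 1
  | succ j ih =>
    have : Q283.FS.ik (j + 1) = fun x => x * Q283.FS.ik j x + (-(4 : ℝ) ^ j) * Q283.FS.ik j x := by
      funext x
      rw [Q283.FS.ik, prod_range_succ, ← Q283.FS.ik]
      ring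
    rw [this]
    exact ih.mulX.add (ih.smul _)

theorem Pl.qr (r I : ℕ) : Pl (qr r I) := by
  have h1 := Pl.sum (range (I + 1))
    (f := fun j x => ((-1) ^ j * df j * (4 ^ (r * j))⁻¹) * Q283.FS.ik (r + j) x)
    fun j _ => (Pl.ik (r + j)).smul _
  have h2 := h1.smul (Q283.FS.ik r (4 ^ r))⁻¹
  have h3 : Q283.FS.qr r I = fun x => (Q283.FS.ik r (4 ^ r))⁻¹ *
      ∑ j ∈ range (I + 1), ((-1) ^ j * df j * (4 ^ (r * j))⁻¹) * Q283.FS.ik (r + j) x := by
    funext x
    rw [Q283.FS.qr, div_eq_inv_mul]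
  rw [h3]
  exact h2

theorem Pl.tr (r I : ℕ) : Pl (tr r I) := by
  have h2 := (Pl.ik (r + (I + 1))).smul (df (I + 1) * (4 ^ (r * (I + 1)))⁻¹ / Q283.FS.ik r (4 ^ r))
  have h3 : Q283.FS.tr r I = fun x => df (I + 1) * (4 ^ (r * (I + 1)))⁻¹ / Q283.FS.ik r (4 ^ r) *
      Q283.FS.ik (r + (I + 1)) x := by
    funext x
    rw [Q283.FS.tr]
    ring
  rw [h3]
  exact h2

/-- the mean of a function with respect to the law -/
noncomputable def Ex (f : ℝ → ℝ) : ℝ := ∑' s, lw s * f (4 ^ s)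

theorem Pl.hasSum {f : ℝ → ℝ} (hf : Pl f) : HasSum (fun s => lw s * f (4 ^ s)) (Ex f) := by
  obtain ⟨J, α, h⟩ := hf
  have h1 : HasSum (fun s => ∑ j ∈ range J, α j * (lw s * ij j (4 ^ s)))
      (∑ j ∈ range J, α j * 2 ^ (j * (j + 1) / 2)) :=
    hasSum_sum fun j _ => (lw_ij j).mul_left (α j)
  have h2 : (fun s => lw s * f (4 ^ s)) = fun s => ∑ j ∈ range J, α j * (lw s * ij j (4 ^ s)) := by
    funext s
    rw [h, mul_sum]
    exact sum_congr rfl fun j _ => by ring
  have h3 : Summable fun s => lw s * f (4 ^ s) := by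
    rw [h2]
    exact h1.summable
  exact h3.hasSum

theorem Ex_eq {f : ℝ → ℝ} {J : ℕ} {α : ℕ → ℝ} (h : ∀ x, f x = ∑ j ∈ range J, α j * ij j x) :
    Ex f = ∑ j ∈ range J, α j * 2 ^ (j * (j + 1) / 2) := by
  have h1 : HasSum (fun s => ∑ j ∈ range J, α j * (lw s * ij j (4 ^ s)))
      (∑ j ∈ range J, α j * 2 ^ (j * (j + 1) / 2)) :=
    hasSum_sum fun j _ => (lw_ij j).mul_left (α j)
  have h2 : (fun s => lw s * f (4 ^ s)) = fun s => ∑ j ∈ range J, α j * (lw s * ij j (4 ^ s)) := by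
    funext s
    rw [h, mul_sum]
    exact sum_congr rfl fun j _ => by ring
  rw [← h2] at h1
  exact h1.tsum_eq

theorem ik_le_ij (j s : ℕ) : ik j (4 ^ s) ≤ ij j (4 ^ s) := by
  rcases lt_or_ge s j with h | h
  · rw [ik_zero h]
    -- the product is nonnegative
    rcases lt_or_ge (2 * s) j with h1 | h1
    · have : ij j (4 ^ s) = 0 := by
        unfold ij
        refine Finset.prod_eq_zero (Finset.mem_range.2 h1) ?_
        rw [pow_mul]
        norm_num
      rw [this]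
    · unfold ij
      refine Finset.prod_nonneg fun i hi => ?_
      rw [Finset.mem_range] at hi
      have : (2 : ℝ) ^ i ≤ 2 ^ (2 * s) := pow_le_pow_right₀ (by norm_num) (by omega)
      rw [pow_mul] at this
      norm_num at this
      linarith
  · unfold ik ij
    refine Finset.prod_le_prod (fun i hi => ?_) fun i hi => ?_
    · rw [Finset.mem_range] at hi
      have : (4 : ℝ) ^ i ≤ 4 ^ s := pow_le_pow_right₀ (by norm_num) (by omega)
      linarith
    · have : (2 : ℝ) ^ i ≤ 4 ^ i := pow_le_pow_left₀ (by norm_num) (by norm_num) i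
      linarith

theorem df_le (j : ℕ) : df j * (3 ^ j * 2 ^ (j * (j - 1))) ≤ 1 := by
  induction j with
  | zero => simp [df]
  | succ j ih =>
    rw [show df (j + 1) = df j / (4 ^ (j + 1) - 1) from rfl]
    have h1 := qm1 j
    have h2 := qm0 j
    have h3 := df_pos j
    rw [div_mul_eq_mul_div, div_le_one h2]
    refine le_trans ?_ h1
    have e : (3 : ℝ) ^ (j + 1) * 2 ^ ((j + 1) * (j + 1 - 1)) =
        (3 ^ j * 2 ^ (j * (j - 1))) * (3 * 4 ^ j) := by
      have e1 : (j + 1) * (j + 1 - 1) = j * (j - 1) + 2 * j := by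
        rcases j with _ | j
        · rfl
        · simp only [Nat.add_sub_cancel]
          ring
      have e2 : (2 : ℝ) ^ (2 * j) = 4 ^ j := by
        rw [pow_mul]
        norm_num
      rw [e1, pow_add 2, e2, pow_succ 3]
      ring
    rw [e, ← mul_assoc]
    exact mul_le_of_le_one_left (by positivity) ih

theorem Ex_tr (r I : ℕ) : 0 ≤ Ex (tr r I) ∧
    Ex (tr r I) ≤ df (I + 1) * 2 ^ ((r + (I + 1)) * (r + (I + 1) + 1) / 2) / 4 ^ (r * (I + 1)) /
      ik r (4 ^ r) := by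
  have h1 := (Pl.tr r I).hasSum
  have h3 := ik_self_pos r
  have h4 := df_pos (I + 1)
  refine ⟨h1.nonneg fun s => mul_nonneg (lw_pos s).le (tr_nn r I s), ?_⟩
  have h2 := (lw_ij (r + (I + 1))).mul_left (df (I + 1) * (4 ^ (r * (I + 1)))⁻¹ / ik r (4 ^ r))
  refine (hasSum_le (fun s => ?_) h1 h2).trans (le_of_eq ?_)
  · have h5 := ik_le_ij (r + (I + 1)) s
    have h6 : tr r I (4 ^ s) = df (I + 1) * (4 ^ (r * (I + 1)))⁻¹ / ik r (4 ^ r) *
        ik (r + (I + 1)) (4 ^ s) := by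
      rw [tr]
      ring
    rw [h6]
    have h7 : 0 ≤ df (I + 1) * (4 ^ (r * (I + 1)))⁻¹ / ik r (4 ^ r) := by positivity
    calc lw s * (df (I + 1) * (4 ^ (r * (I + 1)))⁻¹ / ik r (4 ^ r) * ik (r + (I + 1)) (4 ^ s))
        = df (I + 1) * (4 ^ (r * (I + 1)))⁻¹ / ik r (4 ^ r) * (lw s * ik (r + (I + 1)) (4 ^ s)) := by
          ring
      _ ≤ _ := mul_le_mul_of_nonneg_left (mul_le_mul_of_nonneg_left h5 (lw_pos s).le) h7
  · rw [div_eq_mul_inv _ ((4 : ℝ) ^ (r * (I + 1)))]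
    ring

theorem tr_tendsto (r : ℕ) : Tendsto (fun I => Ex (tr r I)) atTop (nhds 0) := by
  have hpos := ik_self_pos r
  -- the bound
  have key : ∀ I : ℕ, r + 2 ≤ I → Ex (tr r I) ≤ 2 ^ (r * (r + 1)) / ik r (4 ^ r) * (1 / 3) ^ I := by
    intro I hI
    refine (Ex_tr r I).2.trans ?_
    have h1 := df_le (I + 1)
    rw [Nat.add_sub_cancel] at h1
    have h2 := df_pos (I + 1)
    have h5 : df (I + 1) ≤ 1 / (3 ^ (I + 1) * 2 ^ ((I + 1) * I)) := by
      rw [le_div_iff₀ (by positivity)]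
      exact h1
    have h6 : (2 : ℝ) ^ ((r + (I + 1)) * (r + (I + 1) + 1) / 2) ≤
        2 ^ (r * (r + 1)) * (2 ^ ((I + 1) * I) * 4 ^ (r * (I + 1))) := by
      have e4 : (4 : ℝ) ^ (r * (I + 1)) = 2 ^ (2 * (r * (I + 1))) := by
        rw [pow_mul 2 2]
        norm_num
      rw [e4, ← pow_add, ← pow_add]
      refine pow_le_pow_right₀ (by norm_num) ?_
      rw [Nat.div_le_iff_le_mul_add_pred (by norm_num)]
      obtain ⟨J, rfl⟩ := Nat.exists_eq_add_of_le hI
      nlinarith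
    have h7 : df (I + 1) * 2 ^ ((r + (I + 1)) * (r + (I + 1) + 1) / 2) / 4 ^ (r * (I + 1)) ≤
        2 ^ (r * (r + 1)) * (1 / 3) ^ I := by
      rw [div_le_iff₀ (by positivity)]
      calc df (I + 1) * 2 ^ ((r + (I + 1)) * (r + (I + 1) + 1) / 2)
          ≤ 1 / (3 ^ (I + 1) * 2 ^ ((I + 1) * I)) *
            (2 ^ (r * (r + 1)) * (2 ^ ((I + 1) * I) * 4 ^ (r * (I + 1)))) :=
            mul_le_mul h5 h6 (by positivity) (by positivity)
        _ = 2 ^ (r * (r + 1)) * (1 / 3) ^ (I + 1) * 4 ^ (r * (I + 1)) := by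
            rw [one_div_pow]
            field_simp
        _ ≤ 2 ^ (r * (r + 1)) * (1 / 3) ^ I * 4 ^ (r * (I + 1)) := by
            refine mul_le_mul_of_nonneg_right (mul_le_mul_of_nonneg_left ?_ (by positivity))
              (by positivity)
            exact pow_le_pow_of_le_one (by norm_num) (by norm_num) (by omega)
    calc df (I + 1) * 2 ^ ((r + (I + 1)) * (r + (I + 1) + 1) / 2) / 4 ^ (r * (I + 1)) / ik r (4 ^ r)
        ≤ 2 ^ (r * (r + 1)) * (1 / 3) ^ I / ik r (4 ^ r) := div_le_div_of_nonneg_right h7 hpos.le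
      _ = _ := by ring
  have h1 : Tendsto (fun I : ℕ => 2 ^ (r * (r + 1)) / ik r (4 ^ r) * (1 / 3 : ℝ) ^ I) atTop
      (nhds (2 ^ (r * (r + 1)) / ik r (4 ^ r) * 0)) :=
    (tendsto_pow_atTop_nhds_zero_of_lt_one (by norm_num) (by norm_num)).const_mul _
  rw [mul_zero] at h1
  refine squeeze_zero' (Eventually.of_forall fun I => (Ex_tr r I).1) ?_ h1
  filter_upwards [eventually_ge_atTop (r + 2)] with I hI using key I hI

theorem Ex_qr (r I : ℕ) : |Ex (qr r I) - lw r| ≤ Ex (tr r I) := by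
  have h1 := (Pl.qr r I).hasSum
  have h2 := (Pl.tr r I).hasSum
  have h3 : HasSum (fun s => lw s * (if s = r then (1 : ℝ) else 0)) (lw r) := by
    have := hasSum_ite_eq (α := ℝ) r (lw r)
    refine this.congr_fun fun s => ?_
    split_ifs with h
    · rw [h, mul_one]
    · rw [mul_zero]
  have h4 := h1.sub h3
  have h5 : ∀ s, |lw s * qr r I (4 ^ s) - lw s * (if s = r then (1 : ℝ) else 0)| ≤
      lw s * tr r I (4 ^ s) := by
    intro s
    rw [← mul_sub, abs_mul, abs_of_pos (lw_pos s)]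
    exact mul_le_mul_of_nonneg_left (qr_near r I s) (lw_pos s).le
  rw [abs_le]
  constructor
  · have h6 := hasSum_le (fun s => (abs_le.1 (h5 s)).1) h2.neg h4
    exact h6
  · exact hasSum_le (fun s => (abs_le.1 (h5 s)).2) h4 h2

end Q283.FS
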