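import Pool.Agent.Q283.FS.Km
import Pool.Agent.Q283.FS.Lm

/-!
The 2-Selmer groups of the twists `D m`.
-/

set_option autoImplicit false
set_option linter.all false

open scoped Classical

namespace Q283.FS

open Polynomial IsDedekindDomain WeierstrassCurve WeierstrassCurve.Affine
open Pool.Agent.TH115.GD Pool.Agent.Y164.PS Pool.Agent.H341R2.Sharp Finset

section congr
variable {k K : Type} [Field k] [Field K] [Algebra k[X] K] [IsFractionRing k[X] K]

theorem card_sel_congr {α β α' β' : K} (h2 : (2 : K) ≠ 0) (hα : α ≠ 0) (hβ : β ≠ 0) (hαβ : α ≠ β)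
    (hα' : α' ≠ 0) (hβ' : β' ≠ 0) (hαβ' : α' ≠ β')
    (h : ∀ a0 a1 : K, a0 ≠ 0 → a1 ≠ 0 → (LSg (F := K) k (crv α β) α β a0 a1 ↔
      LSg (F := K) k (crv α' β') α' β' a0 a1)) :
    Nat.card (SelTwo k (crv α β)) = Nat.card (SelTwo k (crv α' β')) := by
  have hL := isE α β (Sep K) h2 hα hβ hαβ
  have hL' := isE α' β' (Sep K) h2 hα' hβ' hαβ'
  have ne0 : ∀ {t : Sep K} {x : K}, t ≠ 0 → t ^ 2 = algebraMap K (Sep K) x → x ≠ 0 := by
    rintro t x ht e rfl
    rw [map_zero] at e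
    exact pow_ne_zero 2 ht e
  have step : ∀ f : SelTwo k (crv α β), ∃ f' : SelTwo k (crv α' β'), ∃ a0 a1 : K,
      Rep (crv α β) α f.1 a0 a1 ∧ Rep (crv α' β') α' f'.1 a0 a1 := by
    intro f
    obtain ⟨t0, t1, a0, a1, m0, m1, g0, g1, g2, g3⟩ := kummer_rep (crv α β) hL f.2.1 f.2.2.1
    have hrep : Rep (crv α β) α f.1 a0 a1 := ⟨t0, t1, m0, m1, g0, g1, g2, g3⟩
    have n0 := ne0 m0 g0
    have n1 := ne0 m1 g1
    obtain ⟨f', c1, c2, c3⟩ := coc_of_pair (F := K) (crv α' β') hL' n0 n1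
    exact ⟨⟨f', c1, c2, (lsg_iff h2 hα' hβ' hαβ' c2 c3).2 ((h a0 a1 n0 n1).1
      ((lsg_iff h2 hα hβ hαβ f.2.2.1 hrep).1 f.2.2.2))⟩, a0, a1, hrep, c3⟩
  choose Ψ x0 x1 hΨ hΨ' using step
  refine Nat.card_eq_of_bijective Ψ ⟨fun f g hfg => ?_, fun f' => ?_⟩
  · apply Subtype.ext
    have r1 := hΨ' f
    rw [hfg] at r1
    obtain ⟨q0, q1⟩ := rep_sq (F := K) _ r1 (hΨ' g)
    exact rep_unique (F := K) _ hL f.2.2.1 g.2.2.1 (hΨ f) (hΨ g) q0 q1
  · obtain ⟨t0, t1, a0, a1, m0, m1, g0, g1, g2, g3⟩ := kummer_rep (crv α' β') hL' f'.2.1 f'.2.2.1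
    have hrep : Rep (crv α' β') α' f'.1 a0 a1 := ⟨t0, t1, m0, m1, g0, g1, g2, g3⟩
    have n0 := ne0 m0 g0
    have n1 := ne0 m1 g1
    obtain ⟨f, c1, c2, c3⟩ := coc_of_pair (F := K) (crv α β) hL n0 n1
    let f0 : SelTwo k (crv α β) := ⟨f, c1, c2, (lsg_iff h2 hα hβ hαβ c2 c3).2 ((h a0 a1 n0 n1).2
      ((lsg_iff h2 hα' hβ' hαβ' f'.2.2.1 hrep).1 f'.2.2.2))⟩
    refine ⟨f0, Subtype.ext ?_⟩
    obtain ⟨q0, q1⟩ := rep_sq (F := K) _ (hΨ f0) c3
    exact rep_unique (F := K) _ hL' (Ψ f0).2.2.1 f'.2.2.1 (hΨ' f0) hrep q0 q1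

end congr

section scale
variable {F L : Type} [Field F] [Field L] (j : F →+* L)

theorem locR_scale {α β a0 a1 c : F} (h2 : (2 : F) ≠ 0) (hα : α ≠ 0) (hβ : β ≠ 0) (hαβ : α ≠ β)
    (hc : c ≠ 0) (h : LocR j α β a0 a1) : LocR j (c ^ 2 * α) (c ^ 2 * β) a0 a1 := by
  have j2 : (2 : L) ≠ 0 := by
    have h4 := (_root_.map_ne_zero j).2 h2
    rwa [map_ofNat] at h4
  have jc : j c ≠ 0 := (_root_.map_ne_zero j).2 hc
  have jα : j (c ^ 2 * α) ≠ 0 := (_root_.map_ne_zero j).2 (mul_ne_zero (pow_ne_zero 2 hc) hα)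
  have jβ : j (c ^ 2 * β) ≠ 0 := (_root_.map_ne_zero j).2 (mul_ne_zero (pow_ne_zero 2 hc) hβ)
  have jαβ : j (c ^ 2 * α) ≠ j (c ^ 2 * β) := fun h =>
    hαβ (mul_left_cancel₀ (pow_ne_zero 2 hc) (j.injective h))
  have ja : j α ≠ 0 := (_root_.map_ne_zero j).2 hα
  have jb : j β ≠ 0 := (_root_.map_ne_zero j).2 hβ
  obtain ⟨W, Q, c0, c1, hE, n0, n1, e0, e1⟩ := h
  rcases Q with _ | ⟨x, y, hxy⟩
  · simp only [d0, d1] at e0 e1
    apply locR_tor j j2 jα jβ jαβ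
    left
    exact ⟨⟨c0, n0, e0⟩, ⟨c1, n1, e1⟩⟩
  · have he := hE.nonsingular.1 hxy
    by_cases hx0 : x = 0
    · simp only [d0, d1, hx0, if_true, if_neg ja.symm, zero_sub] at e0 e1
      apply locR_tor j j2 jα jβ jαβ
      right; left
      constructor
      · refine ⟨c0 / (j c) ^ 2, div_ne_zero n0 (pow_ne_zero 2 jc), ?_⟩
        rw [e0]
        simp only [map_mul, map_pow]
        field_simp
      · refine ⟨c1 / (j c), div_ne_zero n1 jc, ?_⟩
        rw [e1]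
        simp only [map_mul, map_pow]
        field_simp
    · by_cases hxa : x = j α
      · simp only [d0, d1, hxa, if_true, if_neg ja] at e0 e1
        apply locR_tor j j2 jα jβ jαβ
        right; right; left
        constructor
        · refine ⟨c0 / (j c), div_ne_zero n0 jc, ?_⟩
          rw [e0]
          simp only [map_mul, map_pow]
          field_simp
        · refine ⟨c1 / (j c) ^ 2, div_ne_zero n1 (pow_ne_zero 2 jc), ?_⟩
          rw [e1]
          simp only [map_mul, map_pow]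
          field_simp
      · simp only [d0, d1, if_neg hx0, if_neg hxa] at e0 e1
        refine locR_pt j j2 jα jβ jαβ (x := (j c) ^ 2 * x) (y := (j c) ^ 3 * y) ?_
          (mul_ne_zero (pow_ne_zero 2 jc) hx0) ?_ ?_ ?_
        · simp only [map_mul, map_pow]
          linear_combination (j c) ^ 6 * he
        · intro h
          rw [map_mul, map_pow] at h
          exact hxa (mul_left_cancel₀ (pow_ne_zero 2 jc) h)
        · refine ⟨c0 / j c, div_ne_zero n0 jc, ?_⟩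
          rw [e0]
          field_simp
        · refine ⟨c1 / j c, div_ne_zero n1 jc, ?_⟩
          rw [e1]
          simp only [map_mul, map_pow]
          field_simp

end scale

section lsg
variable {k K : Type} [Field k] [Field K] [Algebra k[X] K] [IsFractionRing k[X] K]

theorem lsg_scale {α β a0 a1 c : K} (h2 : (2 : K) ≠ 0) (hα : α ≠ 0) (hβ : β ≠ 0) (hαβ : α ≠ β)
    (hc : c ≠ 0) (h : LSg (F := K) k (crv α β) α β a0 a1) :
    LSg (F := K) k (crv (c ^ 2 * α) (c ^ 2 * β)) (c ^ 2 * α) (c ^ 2 * β) a0 a1 := by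
  have hα' : c ^ 2 * α ≠ 0 := mul_ne_zero (pow_ne_zero 2 hc) hα
  have hβ' : c ^ 2 * β ≠ 0 := mul_ne_zero (pow_ne_zero 2 hc) hβ
  have hαβ' : c ^ 2 * α ≠ c ^ 2 * β := fun h => hαβ (mul_left_cancel₀ (pow_ne_zero 2 hc) h)
  exact ⟨fun v => locSol_of (compAlgebra' k[X] K v K) (compAlgebra k[X] K v) h2 hα' hβ' hαβ'
    (fun x => rfl) (locR_scale _ h2 hα hβ hαβ hc
      (locR_of (compAlgebra' k[X] K v K) (compAlgebra k[X] K v) h2 hα hβ hαβ (fun x => rfl) (h.1 v))),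
    locSol_of (compInfAlgebra' k K K) (compInfAlgebra k K) h2 hα' hβ' hαβ'
    (fun x => rfl) (locR_scale _ h2 hα hβ hαβ hc
      (locR_of (compInfAlgebra' k K K) (compInfAlgebra k K) h2 hα hβ hαβ (fun x => rfl) h.2))⟩

theorem card_sel_scale {α β c : K} (h2 : (2 : K) ≠ 0) (hα : α ≠ 0) (hβ : β ≠ 0) (hαβ : α ≠ β)
    (hc : c ≠ 0) : Nat.card (SelTwo k (crv (c ^ 2 * α) (c ^ 2 * β))) =
      Nat.card (SelTwo k (crv α β)) := by
  have hα' : c ^ 2 * α ≠ 0 := mul_ne_zero (pow_ne_zero 2 hc) hα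
  have hβ' : c ^ 2 * β ≠ 0 := mul_ne_zero (pow_ne_zero 2 hc) hβ
  have hαβ' : c ^ 2 * α ≠ c ^ 2 * β := fun h => hαβ (mul_left_cancel₀ (pow_ne_zero 2 hc) h)
  apply card_sel_congr h2 hα' hβ' hαβ' hα hβ hαβ
  intro a0 a1 n0 n1
  constructor
  · intro h
    have h3 := lsg_scale (c := c⁻¹) h2 hα' hβ' hαβ' (inv_ne_zero hc) h
    have e : ∀ x : K, c⁻¹ ^ 2 * (c ^ 2 * x) = x := by
      intro x
      field_simp
    rw [e, e] at h3
    exact h3
  · exact lsg_scale h2 hα hβ hαβ hc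

end lsg

section tw
variable {k : Type} [Field k] [Fintype k] [DecidableEq k]
variable {a b : k[X]} {N : ℕ} (H : Hyp a b N)

/-- the multipliers -/
structure Mlt (a b m : k[X]) : Prop where
  mon : m.Monic
  sqf : Squarefree m
  even : Even m.natDegree
  sq : ∀ Q : k[X], Irreducible Q → Q ∣ a * b * (a - b) → ¬ Q ∣ m ∧ ∃ h : k[X], Q ∣ h ^ 2 - m

theorem pf_prod {D : k[X]} (h1 : D.Monic) (h2 : Squarefree D) : ∏ P ∈ pf D, P = D :=
  prod_pf (n := D.natDegree) (mem_Sf.2 ⟨h1, rfl, h2⟩)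

theorem prod_symm {D m : k[X]} (hD : D.Monic) (hD' : Squarefree D) (hm : m.Monic)
    (hm' : Squarefree m) :
    D * m = (∏ P ∈ pf D ∩ pf m, P) ^ 2 * ∏ P ∈ symmDiff (pf D) (pf m), P := by
  have h1 := pf_prod hD hD'
  have h2 := pf_prod hm hm'
  have e1 : ∏ P ∈ pf D, P = (∏ P ∈ pf D ∩ pf m, P) * ∏ P ∈ pf D \ pf m, P := by
    rw [← prod_union (disjoint_sdiff_inter _ _).symm, Finset.union_comm, Finset.sdiff_union_inter]
  have e2 : ∏ P ∈ pf m, P = (∏ P ∈ pf D ∩ pf m, P) * ∏ P ∈ pf m \ pf D, P := by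
    rw [inter_comm, ← prod_union (disjoint_sdiff_inter _ _).symm, Finset.union_comm, Finset.sdiff_union_inter]
  have e3 : ∏ P ∈ symmDiff (pf D) (pf m), P = (∏ P ∈ pf D \ pf m, P) * ∏ P ∈ pf m \ pf D, P := by
    rw [symmDiff_def, sup_eq_union, prod_union]
    rw [disjoint_left]
    intro x hx hx'
    exact (Finset.mem_sdiff.1 hx').2 (Finset.mem_sdiff.1 hx).1
  conv_lhs => rw [← h1, ← h2, e1, e2]
  rw [e3]
  ring

theorem sum_symm {α : Type} [AddCommGroup α] (h2 : ∀ x : α, x + x = 0) (S T : Finset k[X])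
    (f : k[X] → α) : ∑ P ∈ symmDiff S T, f P = ∑ P ∈ S, f P + ∑ P ∈ T, f P := by
  have e1 : ∑ P ∈ S, f P = (∑ P ∈ S ∩ T, f P) + ∑ P ∈ S \ T, f P := by
    rw [← sum_union (disjoint_sdiff_inter _ _).symm, Finset.union_comm, Finset.sdiff_union_inter]
  have e2 : ∑ P ∈ T, f P = (∑ P ∈ S ∩ T, f P) + ∑ P ∈ T \ S, f P := by
    rw [inter_comm, ← sum_union (disjoint_sdiff_inter _ _).symm, Finset.union_comm, Finset.sdiff_union_inter]
  have e3 : ∑ P ∈ symmDiff S T, f P = (∑ P ∈ S \ T, f P) + ∑ P ∈ T \ S, f P := by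
    rw [symmDiff_def, sup_eq_union, sum_union]
    rw [disjoint_left]
    intro x hx hx'
    exact (Finset.mem_sdiff.1 hx').2 (Finset.mem_sdiff.1 hx).1
  rw [e3, e1, e2]
  have h3 := h2 (∑ P ∈ S ∩ T, f P)
  calc (∑ P ∈ S \ T, f P) + ∑ P ∈ T \ S, f P =
      (∑ P ∈ S ∩ T, f P + ∑ P ∈ S ∩ T, f P) + ((∑ P ∈ S \ T, f P) + ∑ P ∈ T \ S, f P) := by
        rw [h3, zero_add]
    _ = _ := by abel

theorem L_pf {D Q : k[X]} (h1 : D.Monic) (h2 : Squarefree D) (hQ : Irreducible Q) (hQD : ¬ Q ∣ D) :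
    L D Q = ∑ P ∈ pf D, L P Q := by
  conv_lhs => rw [← pf_prod h1 h2]
  apply L_prod_left hQ.ne_zero
  · intro P hP
    exact ((mem_pf h1.ne_zero).1 hP).1.ne_zero
  · intro P hP
    obtain ⟨p1, p2, p3⟩ := (mem_pf h1.ne_zero).1 hP
    apply coprime_of_not_dvd hQ
    intro h
    exact hQD (h.trans p3)

theorem deg_pf {D : k[X]} (h1 : D.Monic) (h2 : Squarefree D) :
    D.natDegree = ∑ P ∈ pf D, P.natDegree := by
  conv_lhs => rw [← pf_prod h1 h2]
  apply natDegree_prod_of_monic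
  intro P hP
  exact ((mem_pf h1.ne_zero).1 hP).1

variable {K : Type} [Field K] [Algebra k[X] K] [IsFractionRing k[X] K]

include H in
/-- **the 2-Selmer group of the twist by `D m`** -/
theorem sel_tw {n : ℕ} {D m : k[X]} (hD : D ∈ Cn a b n) (hn : (n : F2) + (N : F2) = 1)
    (hm : Mlt a b m) :
    Nat.card (SelTwo k (crv (algebraMap k[X] K (a * (D * m))) (algebraMap k[X] K (b * (D * m))))) =
      4 * 4 ^ rr H (pf m) D := by
  rw [Cn, mem_filter, mem_Sf] at hD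
  obtain ⟨⟨hD1, hD2, hD3⟩, hnb, hgcl⟩ := hD
  set S := symmDiff (pf D) (pf m) with hS
  have hSirr : ∀ P ∈ S, P.Monic ∧ Irreducible P := by
    intro P hP
    rw [hS, mem_symmDiff] at hP
    rcases hP with ⟨h, -⟩ | ⟨h, -⟩
    · exact ⟨((mem_pf hD1.ne_zero).1 h).1, ((mem_pf hD1.ne_zero).1 h).2.1⟩
    · exact ⟨((mem_pf hm.mon.ne_zero).1 h).1, ((mem_pf hm.mon.ne_zero).1 h).2.1⟩
  have hmQ : ∀ s : Tau a b, ¬ QQ a b s ∣ m := fun s =>
    (hm.sq _ (H.fam.irr s) ((mem_bp H).1 s.2).2.2).1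
  have hSbad : ∀ P ∈ S, ∀ s : Tau a b, P ≠ QQ a b s := by
    rintro P hP s rfl
    rw [hS, mem_symmDiff] at hP
    rcases hP with ⟨h, -⟩ | ⟨h, -⟩
    · exact hnb s ((mem_pf hD1.ne_zero).1 h).2.2
    · exact hmQ s ((mem_pf hm.mon.ne_zero).1 h).2.2
  let P : S → k[X] := fun p => p.1
  have hR : Fam (RR a b P) := by
    refine ⟨?_, ?_, ?_⟩
    · rintro (p | s)
      · exact (hSirr p.1 p.2).1
      · exact H.fam.mon s
    · rintro (p | s)
      · exact (hSirr p.1 p.2).2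
      · exact H.fam.irr s
    · rintro (p | s) (p' | s') h
      · exact congrArg Sum.inl (Subtype.ext h)
      · exact absurd h (hSbad p.1 p.2 s')
      · exact absurd h.symm (hSbad p'.1 p'.2 s)
      · exact congrArg Sum.inr (H.fam.inj h)
  have hdeg : ∑ p : S, ((P p).natDegree : F2) + (N : F2) = 1 := by
    have h1 : ∑ p : S, ((P p).natDegree : F2) = ∑ Q ∈ S, (Q.natDegree : F2) :=
      sum_coe_sort S (fun Q => (Q.natDegree : F2))
    rw [h1, hS, sum_symm F2_add_self, ← Nat.cast_sum, ← Nat.cast_sum, ← deg_pf hD1 hD3,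
      ← deg_pf hm.mon hm.sqf, hD2, (ZMod.natCast_eq_zero_iff_even).2 hm.even, add_zero]
    exact hn
  have hcl : cl (datum H) (QQ a b) P := by
    intro s
    have h1 : ∑ p : S, BT (QQ a b) P p s = ∑ Q ∈ S, L Q (QQ a b s) :=
      sum_coe_sort S (fun Q => L Q (QQ a b s))
    have h3 : L m (QQ a b s) = 0 := by
      rw [L_eq_zero_iff H.hk (H.fam.mon s) (H.fam.irr s) (hmQ s)]
      exact (hm.sq _ (H.fam.irr s) ((mem_bp H).1 s.2).2.2).2
    rw [h1, hS, sum_symm F2_add_self, ← L_pf hD1 hD3 (H.fam.irr s) (hnb s),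
      ← L_pf hm.mon hm.sqf (H.fam.irr s) (hmQ s), h3, add_zero]
    exact hgcl s
  -- the kernel
  have hk : kc (datum H) (AT P) (BT (QQ a b) P) (fun i => ((P i).natDegree : F2)) =
      4 ^ rr H (pf m) D := by
    have h1 : kc (datum H) (AT P) (BT (QQ a b) P) (fun i => ((P i).natDegree : F2)) =
      kp (datum H) (QQ a b) S := rfl
    rw [h1]
    have h3 : ∑ Q ∈ S, (Q.natDegree : F2) + (N : F2) = 1 := by
      rw [← hdeg]
      congr 1
      exact (sum_coe_sort S (fun Q => (Q.natDegree : F2))).symm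
    exact kp_sf H h3
  -- the product
  have hprod : ∏ p : S, P p = ∏ Q ∈ S, Q := prod_coe_sort S (fun Q => Q)
  set g : k[X] := ∏ Q ∈ pf D ∩ pf m, Q with hg
  have hg0 : g ≠ 0 := by
    rw [hg, prod_ne_zero_iff]
    intro Q hQ
    exact ((mem_pf hD1.ne_zero).1 (mem_of_mem_inter_left hQ)).1.ne_zero
  have hDm : D * m = g ^ 2 * ∏ p : S, P p := by
    rw [hprod]
    exact prod_symm hD1 hD3 hm.mon hm.sqf
  have ea : algebraMap k[X] K (a * (D * m)) = (algebraMap k[X] K g) ^ 2 * al K a P := by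
    rw [hDm, al]
    simp only [map_mul, map_pow]
    ring
  have eb : algebraMap k[X] K (b * (D * m)) = (algebraMap k[X] K g) ^ 2 * al K b P := by
    rw [hDm, al]
    simp only [map_mul, map_pow]
    ring
  obtain ⟨t1, t2, t3⟩ := tw_ne H hR
  have inj := IsFractionRing.injective k[X] K
  have haK : al K a P ≠ 0 := amne t1
  have hbK : al K b P ≠ 0 := amne t2
  have habK : al K a P ≠ al K b P := fun h => t3 (inj h)
  rw [ea, eb, card_sel_scale (k := k) (tt (two_ne H)) haK hbK habK (amne hg0),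
    card_sel (K := K) H hR hcl hdeg, hk]

end tw

end Q283.FS
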